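import Pool.Agent.Work.MP_f50f0f_gt.CDefs

/-! The notions of the problem, interpreted inside a structure `(M, E)` for the language of set
theory.  Every quantifier ranges over `M` and the only primitive relations are `E` and `=`. -/

namespace Pool.Agent.B8F
open Pool.Agent.Work.MP_63c7e0_lc Pool.Agent.Work.MP_58a5a1_lc

universe u
variable {M : Type u} (E : M → M → Prop)

/-- `(X, τ)` is Menger (Hurewicz in the sense of the problem): for every sequence `U` of open
covers there is a sequence `V` of finite sets `V n ⊆ U n` whose members cover `X`. -/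
def IsMengerM (X τ : M) : Prop :=
  ∀ w U P, IsOmega E w → IsFun E U w P →
    (∀ n c, App E U n c → Sub E c τ ∧ ∀ x, E x X → ∃ u, E u c ∧ E x u) →
    ∃ V Q, IsFun E V w Q ∧ (∀ n c d, App E U n c → App E V n d → Sub E d c ∧ IsFin E d) ∧
      ∀ x, E x X → ∃ n d u, App E V n d ∧ E u d ∧ E x u

/-- `(S, σ)` is the sequential fan: `S` consists of the pairs `(n, k)` of natural numbers and one
more point `i`; `U ⊆ S` is open if and only if, in case `i ∈ U`, for each `n` the pair `(n, k)`
belongs to `U` for all large `k`. -/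
def IsFan (S σ : M) : Prop :=
  ∃ w W i, IsOmega E w ∧ IsProd E W w w ∧ ¬ E i W ∧ (∀ p, E p S ↔ E p W ∨ p = i) ∧
    ∀ U, E U σ ↔ Sub E U S ∧ (E i U → ∀ n, E n w → ∃ m, E m w ∧
      ∀ k p, E k w → E m k → IsPair E p n k → E p U)

/-- `e` is a topological embedding of `(S, σ)` into `(C, π)`: an injective function such that the
open sets of `S` are the preimages of the open sets of `C`. -/
def IsEmb (e S σ C π : M) : Prop :=
  IsFun E e S C ∧ (∀ x x' y, App E e x y → App E e x' y → x = x') ∧
    ∀ U, E U σ ↔ ∃ V, E V π ∧ ∀ x, E x U ↔ ∃ y, E y V ∧ App E e x y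

/-- The sequential fan embeds in `(C, π)`. -/
def FanEmbeds (C π : M) : Prop := ∃ S σ e, IsFan E S σ ∧ IsEmb E e S σ C π

/-- `A` is an infinite subset of `w`. -/
def InfSub (w A : M) : Prop := Sub E A w ∧ ¬ IsFin E A

/-- `B` is a reaping family: its members are infinite subsets of `w` and every subset of `w`
includes a member or is disjoint from a member.  Every base of a nonprincipal ultrafilter is one. -/
def IsReap (w B : M) : Prop :=
  (∀ A, E A B → InfSub E w A) ∧
  ∀ Y, Sub E Y w → ∃ A, E A B ∧ (Sub E A Y ∨ ∀ x, E x A → ¬ E x Y)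

/-- `G` is groupwise dense: a family of infinite subsets of `w`, closed under infinite almost
subsets, that for every strictly increasing `p` contains the union of infinitely many of the
intervals `[p j, p (j + 1))`. -/
def GwDense (w G : M) : Prop :=
  (∀ Z, E Z G → InfSub E w Z) ∧
  (∀ Z Z' D, E Z G → InfSub E w Z' → IsFin E D → (∀ x, E x Z' → E x Z ∨ E x D) → E Z' G) ∧
  ∀ p, IsFun E p w w → (∀ i j a b, App E p i a → App E p j b → E i j → E a b) →
    ∃ A Z, InfSub E w A ∧ E Z G ∧ ∀ x, E x Z ↔ ∃ j j' a b, E j A ∧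
      (∀ t, E t j' ↔ E t j ∨ t = j) ∧ App E p j a ∧ App E p j' b ∧ (x = a ∨ E a x) ∧ E x b

/-- `𝔤 ≤ 𝔯` (so `𝔤 ≤ 𝔲`): every reaping family is the domain of a function whose values are
groupwise dense families with empty intersection. -/
def GLeR : Prop :=
  ∀ w B, IsOmega E w → IsReap E w B → ∃ Γ P, IsFun E Γ B P ∧
    (∀ A G, App E Γ A G → GwDense E w G) ∧ ∀ Z, ∃ A G, App E Γ A G ∧ ¬ E Z G

end Pool.Agent.B8F
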