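import Pool.Agent.Work.MP_b8a914_gt.F.Defs

/-! Two more notions, interpreted inside a structure `(M, E)` for the language of set theory. -/

namespace Pool.Agent.B8F
open Pool.Agent.Work.MP_63c7e0_lc Pool.Agent.Work.MP_58a5a1_lc Pool.Agent.Work.MP_f50f0f_gt

universe u
variable {M : Type u} (E : M → M → Prop)

/-- `𝔤_f ≤ 𝔯`: every reaping family is the domain of a function whose values are groupwise dense
families closed under unions of two members, with empty intersection. -/
def GfLeR : Prop :=
  ∀ w B, IsOmega E w → IsReap E w B → ∃ Γ P, IsFun E Γ B P ∧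
    (∀ A G, App E Γ A G → GwDense E w G ∧
      ∀ Z Z' Y, E Z G → E Z' G → (∀ x, E x Y ↔ E x Z ∨ E x Z') → E Y G) ∧
    ∀ Z, ∃ A G, App E Γ A G ∧ ¬ E Z G

/-- `|K| < add(Menger)`: the union of a family of Menger sets of reals indexed by `K` is Menger. -/
def AddGt (K : M) : Prop :=
  ∀ R add mul lt z o ρ Y P X, IsReals E R add mul lt z o → IsOrderTop E R lt ρ → IsFun E Y K P →
    (∀ k A, App E Y k A → Sub E A R ∧ IsMengerM E A ρ) →
    (∀ x, E x X ↔ ∃ k A, App E Y k A ∧ E x A) → IsMengerM E X ρ

end Pool.Agent.B8F
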