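import Mathlib
import Pool.Agent.Work.MP_b8a914_gt.F.Calc
import Pool.Agent.Work.MP_b8a914_gt.F.Defs
import Pool.Agent.Work.MP_b8a914_gt.F.Defs2

-- merged part: Pool.Agent.Work.MP_b8a914_gt.F.Mi
section
/-! The monoid of projection keeping superperfect embeddings. -/

set_option linter.unusedSectionVars false

namespace Pool.Agent.B8F
open Filter Topology Function Set

abbrev Pt (I : Type) := I → ℕ → ℕ

def Ag {α : Type} (n : ℕ) (x y : ℕ → α) : Prop := ∀ i < n, x i = y i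

theorem Ag.rfl' {α : Type} {n : ℕ} {x : ℕ → α} : Ag n x x := fun _ _ => rfl
theorem Ag.symm {α : Type} {n : ℕ} {x y : ℕ → α} (h : Ag n x y) : Ag n y x :=
  fun i hi => (h i hi).symm
theorem Ag.trans {α : Type} {n : ℕ} {x y z : ℕ → α} (h : Ag n x y) (h' : Ag n y z) : Ag n x z :=
  fun i hi => (h i hi).trans (h' i hi)
theorem Ag.mono {α : Type} {m n : ℕ} {x y : ℕ → α} (h : Ag n x y) (hm : m ≤ n) : Ag m x y :=
  fun i hi => h i (hi.trans_le hm)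
theorem Ag.succ {α : Type} {n : ℕ} {x y : ℕ → α} (h : Ag n x y) (h' : x n = y n) :
    Ag (n + 1) x y := fun i hi => by
  rcases Nat.lt_succ_iff_lt_or_eq.1 hi with h1 | rfl
  · exact h i h1
  · exact h'

variable {I : Type}

def DepOn {Z : Type} (s : Set I) (g : Pt I → Z) : Prop :=
  ∀ u v, (∀ γ ∈ s, u γ = v γ) → g u = g v

theorem DepOn.mono {Z : Type} {s t : Set I} {g : Pt I → Z} (h : DepOn s g) (hst : s ⊆ t) :
    DepOn t g := fun u v huv => h u v fun γ hγ => huv γ (hst hγ)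

def Supp (s : Set I) (p : Pt I → Pt I) : Prop :=
  (∀ u γ, γ ∉ s → p u γ = u γ) ∧ ∀ u v, (∀ γ ∈ s, u γ = v γ) → ∀ γ ∈ s, p u γ = p v γ

theorem Supp.mono {s t : Set I} {p : Pt I → Pt I} (h : Supp s p) (hst : s ⊆ t) : Supp t p := by
  refine ⟨fun u γ hγ => h.1 u γ fun h' => hγ (hst h'), fun u v huv γ hγ => ?_⟩
  by_cases h' : γ ∈ s
  · exact h.2 u v (fun γ hγ => huv γ (hst hγ)) γ h'
  · rw [h.1 u γ h', h.1 v γ h', huv γ hγ]

theorem tendsto_pt {Z : Type} {F : Filter Z} {w : Z → Pt I} {w0 : Pt I} :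
    Tendsto w F (𝓝 w0) ↔ ∀ γ i, ∀ᶠ z in F, w z γ i = w0 γ i := by
  simp only [tendsto_pi_nhds, nhds_discrete, tendsto_pure]

theorem tendsto_seq {Z : Type} {F : Filter Z} {w : Z → ℕ → ℕ} {w0 : ℕ → ℕ} :
    Tendsto w F (𝓝 w0) ↔ ∀ i, ∀ᶠ z in F, w z i = w0 i := by
  simp only [tendsto_pi_nhds, nhds_discrete, tendsto_pure]

theorem cont_pt {Z : Type} [TopologicalSpace Z] {w : Z → Pt I} :
    Continuous w ↔ ∀ z0 γ i, ∀ᶠ z in 𝓝 z0, w z γ i = w z0 γ i := by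
  simp only [continuous_iff_continuousAt, ContinuousAt, tendsto_pt]

theorem cont_seq {Z : Type} [TopologicalSpace Z] {w : Z → ℕ → ℕ} :
    Continuous w ↔ ∀ z0 i, ∀ᶠ z in 𝓝 z0, w z i = w z0 i := by
  simp only [continuous_iff_continuousAt, ContinuousAt, tendsto_seq]

theorem ev_ag {Z α : Type} {F : Filter Z} {x y : Z → ℕ → α} (n : ℕ)
    (h : ∀ i < n, ∀ᶠ z in F, x z i = y z i) : ∀ᶠ z in F, Ag n (x z) (y z) := by
  have := (eventually_all_finite (l := F) (p := fun i z => x z i = y z i) (finite_lt_nat n)).2 h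
  exact this.mono fun z hz i hi => hz i hi

/-- neighbourhoods are given by finitely many values -/
theorem nhds_fin {u : Pt I} {P : Pt I → Prop} (h : ∀ᶠ v in 𝓝 u, P v) :
    ∃ (F : Finset I) (n : ℕ), ∀ v, (∀ γ ∈ F, Ag n (v γ) (u γ)) → P v := by
  classical
  by_contra hc
  push Not at hc
  choose v hv1 hv2 using hc
  have ht : Tendsto (fun z : Finset I × ℕ => v z.1 z.2) atTop (𝓝 u) := by
    refine tendsto_pt.2 fun γ i => ?_
    filter_upwards [eventually_ge_atTop (({γ} : Finset I), i + 1)] with z hz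
    exact hv1 z.1 z.2 γ (hz.1 (Finset.mem_singleton_self γ)) i hz.2
  obtain ⟨z, hz⟩ := (ht.eventually h).exists
  exact hv2 _ _ hz

theorem ev_box (u : Pt I) (F : Finset I) (n : ℕ) :
    ∀ᶠ v in 𝓝 u, ∀ γ ∈ F, Ag n (v γ) (u γ) := by
  refine (eventually_all_finset F).2 fun γ _ => ev_ag n fun i _ => ?_
  exact tendsto_pt.1 (tendsto_id (x := 𝓝 u)) γ i

variable [LinearOrder I]

def AgB (β : I) (u v : Pt I) : Prop := ∀ γ < β, u γ = v γ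

theorem AgB.rfl' {β : I} {u : Pt I} : AgB β u u := fun _ _ => rfl
theorem AgB.symm {β : I} {u v : Pt I} (h : AgB β u v) : AgB β v u := fun γ hγ => (h γ hγ).symm
theorem AgB.trans {β : I} {u v w : Pt I} (h : AgB β u v) (h' : AgB β v w) : AgB β u w :=
  fun γ hγ => (h γ hγ).trans (h' γ hγ)
theorem AgB.mono {β β' : I} {u v : Pt I} (h : AgB β u v) (hb : β' ≤ β) : AgB β' u v :=
  fun γ hγ => h γ (hγ.trans_le hb)

def IsLen (p : Pt I → Pt I) (β : I) (u : Pt I) (n l : ℕ) : Prop :=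
  ∀ v v', AgB β v u → AgB β v' u → Ag n (v β) (u β) → Ag n (v' β) (u β) →
    Ag l (p v β) (p v' β) ∧ (p v β l = p v' β l ↔ v β n = v' β n)

structure IsMi (p : Pt I → Pt I) : Prop where
  cont : Continuous p
  proj : ∀ β u v, (∀ γ ≤ β, u γ = v γ) → p u β = p v β
  supp : ∃ s : Set I, s.Countable ∧ Supp s p
  sec : ∀ β u n, ∃ l, IsLen p β u n l

theorem IsMi.agB {p : Pt I → Pt I} (hp : IsMi p) {β : I} {u v : Pt I} (h : AgB β u v) :
    AgB β (p u) (p v) := fun γ hγ => hp.proj γ u v fun γ' h' => h γ' (h'.trans_lt hγ)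

theorem IsMi.proj' {p : Pt I → Pt I} (hp : IsMi p) {β : I} {u v : Pt I} (h : AgB β u v)
    (h' : u β = v β) : p u β = p v β := hp.proj β u v fun γ hγ => by
  rcases hγ.lt_or_eq with h1 | rfl
  · exact h γ h1
  · exact h'

theorem isLen_id {p : Pt I → Pt I} {β : I} (h : ∀ v, p v β = v β) (u : Pt I) (n : ℕ) :
    IsLen p β u n n := fun v v' _ _ h1 h2 => by
  rw [h, h]; exact ⟨h1.trans h2.symm, Iff.rfl⟩

theorem isMi_id : IsMi (id : Pt I → Pt I) :=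
  ⟨continuous_id, fun β _ _ h => h β le_rfl,
    ⟨∅, countable_empty, fun _ _ _ => rfl, fun _ _ _ _ h => h.elim⟩,
    fun _ u n => ⟨n, isLen_id (fun _ => rfl) u n⟩⟩

theorem Supp.comp {s : Set I} {p q : Pt I → Pt I} (hp : Supp s p) (hq : Supp s q) :
    Supp s (p ∘ q) :=
  ⟨fun u γ hγ => (hp.1 _ γ hγ).trans (hq.1 u γ hγ), fun u v h => hp.2 _ _ (hq.2 u v h)⟩

theorem IsMi.comp {p q : Pt I → Pt I} (hp : IsMi p) (hq : IsMi q) : IsMi (p ∘ q) := by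
  refine ⟨hp.cont.comp hq.cont, fun β u v h => hp.proj β _ _ fun γ hγ =>
    hq.proj γ u v fun γ' h' => h γ' (h'.trans hγ), ?_, fun β u n => ?_⟩
  · obtain ⟨s, hs, h1⟩ := hp.supp
    obtain ⟨t, ht, h2⟩ := hq.supp
    exact ⟨s ∪ t, hs.union ht, (h1.mono subset_union_left).comp (h2.mono subset_union_right)⟩
  · obtain ⟨l, hl⟩ := hq.sec β u n
    obtain ⟨l', hl'⟩ := hp.sec β (q u) l
    refine ⟨l', fun v v' h1 h2 h3 h4 => ?_⟩
    have := hl' (q v) (q v') (hq.agB h1) (hq.agB h2) (hl v u h1 .rfl' h3 .rfl').1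
      (hl v' u h2 .rfl' h4 .rfl').1
    exact ⟨this.1, this.2.trans (hl v v' h1 h2 h3 h4).2⟩

theorem IsLen.congr {p : Pt I → Pt I} {β : I} {u u' : Pt I} {n l : ℕ} (h : IsLen p β u n l)
    (h1 : AgB β u u') (h2 : Ag n (u β) (u' β)) : IsLen p β u' n l :=
  fun v v' a b c d => h v v' (a.trans h1.symm) (b.trans h1.symm) (c.trans h2.symm)
    (d.trans h2.symm)

theorem agB_update {β : I} (u : Pt I) (y : ℕ → ℕ) : AgB β (update u β y) u :=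
  fun _ hγ => update_of_ne hγ.ne _ _

theorem IsLen.unique {p : Pt I → Pt I} {β : I} {u : Pt I} {n l l' : ℕ} (h : IsLen p β u n l)
    (h' : IsLen p β u n l') : l = l' := by
  have h2 : Ag n (update u β (update (u β) n (u β n + 1)) β) (u β) := fun i hi => by
    rw [update_self, update_of_ne hi.ne]
  have a := h _ u (agB_update u _) .rfl' h2 .rfl'
  have b := h' _ u (agB_update u _) .rfl' h2 .rfl'
  simp only [update_self, Nat.add_eq_left, one_ne_zero, iff_false] at a b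
  rcases lt_trichotomy l l' with c | c | c
  · exact absurd (b.1 l c) a.2
  · exact c
  · exact absurd (a.1 l' c) b.2

theorem IsLen.lt {p : Pt I → Pt I} {β : I} {u : Pt I} {n l l' : ℕ} (h : IsLen p β u n l)
    (h' : IsLen p β u (n + 1) l') : l < l' := by
  have h2 : Ag (n + 1) (update u β (update (u β) (n + 1) (u β (n + 1) + 1)) β) (u β) :=
    fun i hi => by rw [update_self, update_of_ne hi.ne]
  have a := h _ u (agB_update u _) .rfl' (h2.mono n.le_succ) .rfl'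
  have b := h' _ u (agB_update u _) .rfl' h2 .rfl'
  have c := a.2.2 (h2 n n.lt_succ_self)
  simp only [update_self, Nat.add_eq_left, one_ne_zero, iff_false] at b
  rcases lt_trichotomy l l' with d | d | d
  · exact d
  · exact absurd (d ▸ c) b.2
  · exact absurd (a.1 l' d) b.2

theorem IsMi.le_len {p : Pt I → Pt I} (hp : IsMi p) {β : I} {u : Pt I} {n : ℕ} :
    ∀ {l}, IsLen p β u n l → n ≤ l := by
  induction n with
  | zero => exact fun _ => Nat.zero_le _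
  | succ n ih =>
    intro l h
    obtain ⟨l', h'⟩ := hp.sec β u n
    exact (ih h').trans_lt (h'.lt h)

/-- the length is locally constant in the earlier coordinates -/
theorem IsMi.ev_len {p : Pt I → Pt I} (hp : IsMi p) {Z : Type} {F : Filter Z} {w : Z → Pt I}
    {w0 : Pt I} {β : I} {n l : ℕ} (hw : ∀ γ < β, ∀ i, ∀ᶠ z in F, w z γ i = w0 γ i)
    (hl : IsLen p β w0 n l) :
    ∀ᶠ z in F, IsLen p β (update (w z) β (w0 β)) n l := by
  classical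
  let e : (ℕ → ℕ) → Z → Pt I := fun y z γ => if γ < β then w z γ else update w0 β y γ
  have he : ∀ y, Tendsto (e y) F (𝓝 (update w0 β y)) := fun y => tendsto_pt.2 fun γ i => by
    by_cases h : γ < β
    · filter_upwards [hw γ h i] with z hz
      simp only [e, if_pos h, hz, update_of_ne h.ne]
    · exact Eventually.of_forall fun z => by simp only [e, if_neg h]
  have h1 : ∀ y, ∀ᶠ z in F, Ag (l + 1) (p (e y z) β) (p (update w0 β y) β) := fun y =>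
    ev_ag _ fun i _ => tendsto_pt.1 ((hp.cont.tendsto _).comp (he y)) β i
  set y' := update (w0 β) n (w0 β n + 1) with hy'
  have h2 : Ag n y' (w0 β) := fun i hi => update_of_ne hi.ne _ _
  have a := hl (update w0 β y') (update w0 β (w0 β)) (agB_update _ _) (agB_update _ _)
    (by rwa [update_self]) (by rw [update_self]; exact .rfl')
  simp only [update_self, hy', Nat.add_eq_left, one_ne_zero, iff_false] at a
  filter_upwards [h1 y', h1 (w0 β)] with z c d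
  obtain ⟨l', hl'⟩ := hp.sec β (update (w z) β (w0 β)) n
  have hb : ∀ y, AgB β (e y z) (update (w z) β (w0 β)) := fun y γ hγ => by
    simp only [e, if_pos hγ, update_of_ne hγ.ne]
  have hβ : ∀ y, e y z β = y := fun y => by simp only [e, lt_irrefl, if_false, update_self]
  have b := hl' (e y' z) (e (w0 β) z) (hb _) (hb _) (by rwa [hβ, update_self])
    (by rw [hβ, update_self]; exact .rfl')
  simp only [hβ, hy', update_self, Nat.add_eq_left, one_ne_zero, iff_false] at b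
  rcases lt_trichotomy l l' with h | h | h
  · exact absurd ((c l l.lt_succ_self).symm.trans ((b.1 l h).trans (d l l.lt_succ_self))) a.2
  · exact h ▸ hl'
  · exact absurd ((c l' (by omega)).trans ((a.1 l' h).trans (d l' (by omega)).symm)) b.2

def In (β : I) (p : Pt I → Pt I) (x : Pt I) : Prop := ∃ w, AgB β (p w) x

def Le (β : I) (q p : Pt I → Pt I) : Prop := ∀ v, In β p (q v)

theorem In.congr {β : I} {p : Pt I → Pt I} {x y : Pt I} (h : In β p x) (h' : AgB β x y) :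
    In β p y := let ⟨w, hw⟩ := h; ⟨w, hw.trans h'⟩
theorem In.mono {β β' : I} {p : Pt I → Pt I} {x : Pt I} (h : In β p x) (hb : β' ≤ β) :
    In β' p x := let ⟨w, hw⟩ := h; ⟨w, hw.mono hb⟩
theorem In.self {β : I} {p : Pt I → Pt I} {w : Pt I} : In β p (p w) := ⟨w, .rfl'⟩
theorem In.le {β : I} {p q : Pt I → Pt I} {x : Pt I} (h : In β q x) (h' : Le β q p) :
    In β p x := let ⟨w, hw⟩ := h; (h' w).congr hw
theorem Le.rfl' {β : I} {p : Pt I → Pt I} : Le β p p := fun _ => .self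
theorem Le.trans {β : I} {p q r : Pt I → Pt I} (h : Le β r q) (h' : Le β q p) : Le β r p :=
  fun v => (h v).le h'
theorem Le.mono {β β' : I} {p q : Pt I → Pt I} (h : Le β q p) (hb : β' ≤ β) : Le β' q p :=
  fun v => (h v).mono hb
theorem le_comp {β : I} (p q : Pt I → Pt I) : Le β (p ∘ q) p := fun _ => .self
theorem le_id {β : I} (p : Pt I → Pt I) : Le β p id := fun v => ⟨p v, .rfl'⟩

/-- maps that put a fixed word in front -/
def pre (F : Finset I) (n : ℕ) (u : Pt I) : Pt I → Pt I := fun v γ i =>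
  if γ ∈ F then (if i < n then u γ i else v γ (i - n)) else v γ i

theorem pre_off {F : Finset I} {n : ℕ} {u v : Pt I} {γ : I} (h : γ ∉ F) :
    pre F n u v γ = v γ := funext fun i => by simp only [pre, if_neg h]

theorem pre_ag {F : Finset I} {n : ℕ} {u v : Pt I} {γ : I} (h : γ ∈ F) :
    Ag n (pre F n u v γ) (u γ) := fun i hi => by simp only [pre, if_pos h, if_pos hi]

theorem isMi_pre (F : Finset I) (n : ℕ) (u : Pt I) : IsMi (pre F n u) := by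
  refine ⟨?_, fun β v v' h => ?_, ⟨F, F.countable_toSet, fun v γ h => pre_off h,
    fun v v' h γ hγ => ?_⟩, fun β v k => ?_⟩
  · refine continuous_pi fun γ => continuous_pi fun i => ?_
    unfold pre
    split_ifs <;> fun_prop
  · funext i; simp only [pre, h β le_rfl]
  · funext i; simp only [pre, h γ hγ]
  · by_cases h : β ∈ F
    · refine ⟨k + n, fun a b _ _ h1 h2 => ⟨fun i hi => ?_, ?_⟩⟩
      · simp only [pre, if_pos h]
        split_ifs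
        · rfl
        · exact (h1 _ (by omega)).trans (h2 _ (by omega)).symm
      · simp only [pre, if_pos h, if_neg (show ¬ k + n < n by omega), Nat.add_sub_cancel]
    · exact ⟨k, isLen_id (fun _ => pre_off h) v k⟩

theorem exists_box {u : Pt I} {P : Pt I → Prop} (h : ∀ᶠ v in 𝓝 u, P v) :
    ∃ Ψ, IsMi Ψ ∧ ∀ v, P (Ψ v) := by
  obtain ⟨F, n, h⟩ := nhds_fin h
  exact ⟨pre F n u, isMi_pre F n u, fun v => h _ fun γ hγ => pre_ag hγ⟩

/-- restriction to the coordinates below `β` -/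
def res (β : I) (p : Pt I → Pt I) : Pt I → Pt I := fun u γ => if γ < β then p u γ else u γ

theorem res_agB (β : I) (p : Pt I → Pt I) (u : Pt I) : AgB β (res β p u) (p u) :=
  fun _ hγ => if_pos hγ

theorem res_ge {β γ : I} (p : Pt I → Pt I) (u : Pt I) (h : β ≤ γ) : res β p u γ = u γ :=
  if_neg h.not_gt

theorem IsMi.supp_res {p : Pt I → Pt I} (hp : IsMi p) {s : Set I} (hs : Supp s p) (β : I) :
    Supp (s ∩ Iio β) (res β p) := by
  classical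
  refine ⟨fun u γ hγ => ?_, fun u v h γ hγ => ?_⟩
  · unfold res
    split_ifs with h
    · exact hs.1 u γ fun h' => hγ ⟨h', h⟩
    · rfl
  · rw [res_agB β p u γ hγ.2, res_agB β p v γ hγ.2]
    let w : Pt I := fun γ' => if γ' < β then u γ' else v γ'
    rw [hp.agB (β := β) (u := u) (v := w) (fun γ' h' => (if_pos h').symm) γ hγ.2]
    refine hs.2 w v (fun γ' h' => ?_) γ hγ.1
    by_cases h2 : γ' < β
    · exact (if_pos h2).trans (h γ' ⟨h', h2⟩)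
    · exact if_neg h2

theorem IsMi.res {p : Pt I → Pt I} (hp : IsMi p) (β : I) : IsMi (res β p) := by
  refine ⟨continuous_pi fun γ => ?_, fun γ u v h => ?_, ?_, fun γ u n => ?_⟩
  · unfold B8F.res
    split_ifs
    · exact (continuous_apply γ).comp hp.cont
    · exact continuous_apply γ
  · unfold B8F.res
    rw [hp.proj γ u v h, h γ le_rfl]
  · obtain ⟨s, hs, h⟩ := hp.supp
    exact ⟨_, hs.mono inter_subset_left, hp.supp_res h β⟩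
  · by_cases h : γ < β
    · obtain ⟨l, hl⟩ := hp.sec γ u n
      exact ⟨l, fun v v' a b c d => by
        rw [res_agB β p v γ h, res_agB β p v' γ h]; exact hl v v' a b c d⟩
    · exact ⟨n, isLen_id (fun v => res_ge p v (not_lt.1 h)) u n⟩

def Succ (δ β : I) (m : ℕ) (p p' : Pt I → Pt I) : Prop :=
  ∀ v, ∃ w, AgB δ (p w) (p' v) ∧ w β 0 = m

theorem Succ.le {δ β : I} {m : ℕ} {p p' : Pt I → Pt I} (h : Succ δ β m p p') : Le δ p' p :=
  fun v => let ⟨w, hw, _⟩ := h v; ⟨w, hw⟩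

theorem Succ.of_le {δ β : I} {m : ℕ} {p p' p'' : Pt I → Pt I} (h : Succ δ β m p p')
    (h' : Le δ p'' p') : Succ δ β m p p'' := fun v => by
  obtain ⟨w, hw⟩ := h' v
  obtain ⟨w', h1, h2⟩ := h w
  exact ⟨w', h1.trans hw, h2⟩

theorem succ_pre (δ β : I) (m : ℕ) (p : Pt I → Pt I) :
    Succ δ β m p (p ∘ pre {β} 1 fun _ _ => m) := fun _ =>
  ⟨_, .rfl', pre_ag (Finset.mem_singleton_self β) 0 Nat.one_pos⟩

theorem agB_pre (β : I) (n : ℕ) (u v : Pt I) : AgB β (pre {β} n u v) v :=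
  fun _ hγ => pre_off fun h => hγ.ne (Finset.mem_singleton.1 h)

/-- sections have closed range -/
theorem IsMi.closed_sec {p : Pt I → Pt I} (hp : IsMi p) {β : I} {u : Pt I} {x : ℕ → ℕ}
    (h : ∀ k, ∃ y, Ag k (p (update u β y) β) x) : ∃ y, p (update u β y) β = x := by
  choose y hy using h
  have key : ∀ n, ∃ k0, ∀ k ≥ k0, ∀ k' ≥ k0, Ag n (y k) (y k') := by
    intro n
    induction n with
    | zero => exact ⟨0, fun _ _ _ _ i hi => absurd hi (Nat.not_lt_zero i)⟩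
    | succ n ih =>
      obtain ⟨k0, h0⟩ := ih
      obtain ⟨l, hl⟩ := hp.sec β (update u β (y k0)) n
      refine ⟨max k0 (l + 1), fun k hk k' hk' => (h0 k (by omega) k' (by omega)).succ ?_⟩
      have := (hl (update u β (y k)) (update u β (y k'))
        ((agB_update _ _).trans (agB_update _ _).symm)
        ((agB_update _ _).trans (agB_update _ _).symm)
        (by simpa only [update_self] using h0 k (by omega) k0 le_rfl)
        (by simpa only [update_self] using h0 k' (by omega) k0 le_rfl)).2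
      simp only [update_self] at this
      exact this.1 ((hy k l (by omega)).trans (hy k' l (by omega)).symm)
  choose k0 h0 using key
  let z : ℕ → ℕ := fun i => y (k0 (i + 1)) i
  have ht : Tendsto (fun k => update u β (y k)) atTop (𝓝 (update u β z)) := by
    refine tendsto_pt.2 fun γ i => ?_
    by_cases h : γ = β
    · subst h
      filter_upwards [eventually_ge_atTop (k0 (i + 1))] with k hk
      simpa only [update_self] using h0 (i + 1) k hk _ le_rfl i i.lt_succ_self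
    · exact Eventually.of_forall fun k => by simp only [update_of_ne h]
  refine ⟨z, funext fun i => ?_⟩
  obtain ⟨k, h1, h2⟩ := ((tendsto_pt.1 ((hp.cont.tendsto _).comp ht) β i).and
    (eventually_gt_atTop i)).exists
  exact h1.symm.trans (hy k i h2)

open Classical in
/-- the inverse point below `β`, continued by `u` -/
noncomputable def inv (β : I) (p : Pt I → Pt I) (x u : Pt I) : Pt I := fun γ =>
  if γ < β then (if h : In β p x then h.choose γ else x γ) else u γ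

theorem inv_ge {β γ : I} (p : Pt I → Pt I) (x u : Pt I) (h : β ≤ γ) : inv β p x u γ = u γ :=
  if_neg h.not_gt

theorem IsMi.inv_spec {p : Pt I → Pt I} (hp : IsMi p) {β : I} {x : Pt I} (h : In β p x)
    (u : Pt I) : AgB β (p (inv β p x u)) x :=
  (hp.agB fun γ hγ => by simp only [inv, if_pos hγ, dif_pos h]).trans h.choose_spec

variable [WellFoundedLT I]

/-- continuity of the inverse -/
theorem IsMi.ev_inv {p : Pt I → Pt I} (hp : IsMi p) {Z : Type} {F : Filter Z} {w : Z → Pt I}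
    {w0 : Pt I} {β : I} (h : ∀ γ < β, ∀ i, ∀ᶠ z in F, p (w z) γ i = p w0 γ i) :
    ∀ γ < β, ∀ i, ∀ᶠ z in F, w z γ i = w0 γ i := by
  intro γ
  induction γ using WellFoundedLT.induction with
  | _ γ ih =>
    intro hγ
    have ih' : ∀ γ' < γ, ∀ i, ∀ᶠ z in F, w z γ' i = w0 γ' i :=
      fun γ' h' => ih γ' h' (h'.trans hγ)
    intro i
    induction i using Nat.strong_induction_on with
    | _ i ihi =>
      obtain ⟨l, hl⟩ := hp.sec γ w0 i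
      classical
      let e : Z → Pt I := fun z γ' => if γ' < γ then w z γ' else w0 γ'
      have he : Tendsto e F (𝓝 w0) := tendsto_pt.2 fun γ' j => by
        by_cases h1 : γ' < γ
        · filter_upwards [ih' γ' h1 j] with z hz
          simp only [e, if_pos h1, hz]
        · exact Eventually.of_forall fun z => by simp only [e, if_neg h1]
      filter_upwards [hp.ev_len ih' hl, ev_ag i ihi, h γ hγ l,
        tendsto_pt.1 ((hp.cont.tendsto _).comp he) γ l] with z h1 h2 h3 h4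
      have hγ0 : e z γ = w0 γ := if_neg (lt_irrefl γ)
      have := (h1 (w z) (e z) (agB_update _ _).symm
        (fun γ' h' => by simp only [e, if_pos h', update_of_ne h'.ne])
        (by rwa [update_self]) (by rw [update_self, hγ0]; exact .rfl')).2
      rw [hγ0] at this
      exact this.1 (h3.trans h4.symm)

theorem IsMi.inj {p : Pt I → Pt I} (hp : IsMi p) {β : I} {w w' : Pt I}
    (h : AgB β (p w) (p w')) : AgB β w w' := fun γ hγ => funext fun i => by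
  have := hp.ev_inv (F := (pure () : Filter Unit)) (w := fun _ => w) (w0 := w') (β := β)
    (fun γ hγ i => by simp [h γ hγ]) γ hγ i
  simpa using this

theorem IsMi.inv_uniq {p : Pt I → Pt I} (hp : IsMi p) {β : I} {x w : Pt I}
    (h : AgB β (p w) x) (u : Pt I) : AgB β (inv β p x u) w :=
  hp.inj ((hp.inv_spec ⟨w, h⟩ u).trans h.symm)

theorem cont_inv {Z : Type} [TopologicalSpace Z] {P : Z → Pt I → Pt I} (hP : IsLocallyConstant P)
    (hp : ∀ z, IsMi (P z)) {β : I} {x u : Z → Pt I} (hx : Continuous x) (hu : Continuous u)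
    (h : ∀ z, In β (P z) (x z)) : Continuous fun z => inv β (P z) (x z) (u z) := by
  refine cont_pt.2 fun z0 γ i => ?_
  by_cases hγ : γ < β
  · refine (hp z0).ev_inv (β := β) (fun γ' h' j => ?_) γ hγ i
    filter_upwards [hP.eventually_eq z0, cont_pt.1 hx z0 γ' j] with z h1 h2
    rw [(hp z0).inv_spec (h z0) _ γ' h', ← h2, ← h1, (hp z).inv_spec (h z) _ γ' h']
  · filter_upwards [cont_pt.1 hu z0 γ i] with z h1
    rw [inv_ge _ _ _ (not_lt.1 hγ), inv_ge _ _ _ (not_lt.1 hγ), h1]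

/-- the factor of `q` over `p` below `β` -/
noncomputable def fac (β : I) (q p : Pt I → Pt I) : Pt I → Pt I := fun v => inv β p (q v) v

section fac
variable {β : I} {p q : Pt I → Pt I} (hq : IsMi q) (hp : IsMi p) (h : Le β q p)
include hp h

omit [WellFoundedLT I] in
theorem fac_spec (v : Pt I) : AgB β (p (fac β q p v)) (q v) := hp.inv_spec (h v) v

include hq

theorem fac_cont : Continuous (fac β q p) :=
  cont_inv (P := fun _ => p) (IsLocallyConstant.const p) (fun _ => hp) hq.cont continuous_id h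

theorem fac_agB {β' : I} {u v : Pt I} (huv : AgB β' u v) :
    AgB β' (fac β q p u) (fac β q p v) := fun γ hγ => by
  by_cases h1 : γ < β
  · refine hp.inj (β := min β β') (fun γ' h' => ?_) γ (lt_min h1 hγ)
    rw [fac_spec hp h u γ' (lt_min_iff.1 h').1, fac_spec hp h v γ' (lt_min_iff.1 h').1]
    exact hq.agB huv γ' (lt_min_iff.1 h').2
  · rw [fac, fac, inv_ge _ _ _ (not_lt.1 h1), inv_ge _ _ _ (not_lt.1 h1), huv γ hγ]

omit hq in
theorem fac_supp {s : Set I} (h1 : Supp s q) (h2 : Supp s p) : Supp s (fac β q p) := by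
  classical
  refine ⟨fun u γ hγ => ?_, fun u v huv γ hγ => ?_⟩
  · by_cases h3 : γ < β
    · rw [← h2.1 (fac β q p u) γ hγ, fac_spec hp h u γ h3, h1.1 u γ hγ]
    · exact inv_ge _ _ _ (not_lt.1 h3)
  · by_cases h3 : γ < β
    · let w : Pt I := fun γ' => if γ' ∈ s then fac β q p u γ' else fac β q p v γ'
      have : AgB β (p w) (p (fac β q p v)) := fun γ' h' => by
        by_cases h4 : γ' ∈ s
        · rw [h2.2 w (fac β q p u) (fun _ a => if_pos a) γ' h4, fac_spec hp h u γ' h',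
            fac_spec hp h v γ' h', h1.2 u v huv γ' h4]
        · rw [h2.1 _ _ h4, h2.1 _ _ h4]; exact if_neg h4
      rw [← hp.inj this γ h3]; exact (if_pos hγ).symm
    · rw [fac, fac, inv_ge _ _ _ (not_lt.1 h3), inv_ge _ _ _ (not_lt.1 h3), huv γ hγ]

/-- `glue`: the map `p ∘ fac β q p` -/
theorem isMi_glue : IsMi (p ∘ fac β q p) := by
  refine ⟨hp.cont.comp (fac_cont hq hp h), fun γ u v huv => ?_, ?_, fun γ u n => ?_⟩
  · by_cases h1 : γ < β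
    · rw [comp, comp, fac_spec hp h u γ h1, fac_spec hp h v γ h1, hq.proj γ u v huv]
    · refine hp.proj' (fac_agB hq hp h fun γ' h' => huv γ' h'.le) ?_
      rw [fac, fac, inv_ge _ _ _ (not_lt.1 h1), inv_ge _ _ _ (not_lt.1 h1), huv γ le_rfl]
  · obtain ⟨s, hs, h1⟩ := hp.supp
    obtain ⟨t, ht, h2⟩ := hq.supp
    exact ⟨s ∪ t, hs.union ht, (h1.mono subset_union_left).comp
      (fac_supp hp h (h2.mono subset_union_right) (h1.mono subset_union_left))⟩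
  · by_cases h1 : γ < β
    · obtain ⟨l, hl⟩ := hq.sec γ u n
      refine ⟨l, fun v v' a b c d => ?_⟩
      rw [comp, comp, fac_spec hp h v γ h1, fac_spec hp h v' γ h1]
      exact hl v v' a b c d
    · obtain ⟨l, hl⟩ := hp.sec γ (fac β q p u) n
      have e : ∀ v, fac β q p v γ = v γ := fun v => inv_ge _ _ _ (not_lt.1 h1)
      refine ⟨l, fun v v' a b c d => ?_⟩
      have := hl _ _ (fac_agB hq hp h a) (fac_agB hq hp h b) (by rwa [e, e]) (by rwa [e, e])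
      rwa [e, e] at this

omit hq [WellFoundedLT I] in
theorem glue_le : Le β (p ∘ fac β q p) q := fun v => ⟨v, (fac_spec hp h v).symm⟩

end fac

theorem fac_ge {β γ : I} (q p : Pt I → Pt I) (v : Pt I) (h : β ≤ γ) : fac β q p v γ = v γ :=
  inv_ge _ _ _ h

/-- below `β` follow `q`, from `β` on follow `p` through the successor `m` -/
theorem exists_succ {δ β : I} {p q : Pt I → Pt I} (hq : IsMi q) (hp : IsMi p) (h : Le β q p)
    (m : ℕ) : ∃ p', IsMi p' ∧ Le β p' q ∧ Succ δ β m p p' := by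
  have h1 := hp.comp (isMi_pre {β} 1 fun _ _ => m)
  have h2 : Le β q (p ∘ pre {β} 1 fun _ _ => m) := fun v =>
    let ⟨w, hw⟩ := h v; ⟨w, (hp.agB (agB_pre β 1 _ w)).trans hw⟩
  exact ⟨_, isMi_glue hq h1 h2, glue_le h1 h2, (succ_pre δ β m p).of_le (le_comp _ _)⟩

/-- membership in a range depends on the support only -/
theorem dep_In {s : Set I} {β : I} {p q : Pt I → Pt I} (hp : Supp s p)
    (hq : Supp (s ∩ Iio β) q) : DepOn (s ∩ Iio β) fun u => In β p (q u) := by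
  classical
  have key : ∀ u v, (∀ γ ∈ s ∩ Iio β, u γ = v γ) → In β p (q u) → In β p (q v) := by
    rintro u v huv ⟨w, hw⟩
    refine ⟨fun γ => if γ ∈ s then w γ else v γ, fun γ hγ => ?_⟩
    by_cases h : γ ∈ s
    · rw [hp.2 _ w (fun _ a => if_pos a) γ h, hw γ hγ, hq.2 u v huv γ ⟨h, hγ⟩]
    · rw [hp.1 _ _ h, hq.1 _ _ fun a => h a.1]; exact if_neg h
  exact fun u v huv => propext ⟨key u v huv, key v u fun γ hγ => (huv γ hγ).symm⟩

omit [LinearOrder I] [WellFoundedLT I] in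
/-- locally constant selections -/
theorem lc_sel {Z : Type} {s : Set I} (hs : s.Countable) {N : Set Z} (hN : N.Countable)
    {P : Pt I → Z → Prop} (hd : ∀ z ∈ N, DepOn s fun u => P u z)
    (h : ∀ u, ∃ z ∈ N, ∀ᶠ v in 𝓝 u, P v z) :
    ∃ sel : Pt I → Z, IsLocallyConstant sel ∧ DepOn s sel ∧ ∀ u, sel u ∈ N ∧ P u (sel u) := by
  classical
  have := hs.to_subtype
  have := hN.to_subtype
  let J := Finset (s × ℕ × ℕ) × N
  let mem : J → Pt I → Prop := fun j u => ∀ t ∈ j.1, u t.1 t.2.1 = t.2.2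
  obtain ⟨e, he⟩ := exists_surjective_nat (Option J)
  let Q : Pt I → ℕ → Prop := fun u k => ∃ j, e k = some j ∧ mem j u ∧ ∀ v, mem j v → P v j.2
  have hQ : ∀ u, ∃ k, Q u k := fun u => by
    obtain ⟨z, hz, h1⟩ := h u
    obtain ⟨F, n, h2⟩ := nhds_fin h1
    let j : J := (((F.subtype (· ∈ s)) ×ˢ Finset.range n).image fun t => (t.1, t.2, u t.1 t.2),
      ⟨z, hz⟩)
    obtain ⟨k, hk⟩ := he (some j)
    refine ⟨k, j, hk, fun t ht => ?_, fun v hv => ?_⟩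
    · obtain ⟨t', -, rfl⟩ := Finset.mem_image.1 ht
      rfl
    · have h3 := h2 (fun γ => if γ ∈ s then v γ else u γ) fun γ hγ i hi => by
        by_cases h4 : γ ∈ s
        · simp only [if_pos h4]
          exact hv (⟨γ, h4⟩, i, u γ i) (Finset.mem_image.2 ⟨(⟨γ, h4⟩, i),
            Finset.mem_product.2 ⟨Finset.mem_subtype.2 hγ, Finset.mem_range.2 hi⟩, rfl⟩)
        · simp only [if_neg h4]
      exact (hd z hz _ v fun γ hγ => if_pos hγ).mp h3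
  have hmem : ∀ j u, ∀ᶠ v in 𝓝 u, (mem j v ↔ mem j u) := fun j u => by
    have := (eventually_all_finset j.1 (l := 𝓝 u)
      (p := fun t v => v t.1 t.2.1 = u t.1 t.2.1)).2
      fun t _ => tendsto_pt.1 (tendsto_id (x := 𝓝 u)) _ _
    exact this.mono fun v hv => forall₂_congr fun t ht => by rw [hv t ht]
  have hQ' : ∀ k u, ∀ᶠ v in 𝓝 u, (Q v k ↔ Q u k) := fun k u => by
    cases hk : e k with
    | none => exact Eventually.of_forall fun v => by simp [Q, hk]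
    | some j => exact (hmem j u).mono fun v hv => by simp [Q, hk, hv]
  let κ : Pt I → ℕ := fun u => Nat.find (hQ u)
  have hκ : IsLocallyConstant κ := (IsLocallyConstant.iff_eventually_eq κ).2 fun u => by
    have := (eventually_all_finite (l := 𝓝 u) (p := fun k v => (Q v k ↔ Q u k))
      (finite_le_nat (κ u))).2 fun k _ => hQ' k u
    refine this.mono fun v hv => (Nat.find_eq_iff _).2 ⟨(hv (κ u) (le_refl (κ u))).2 (Nat.find_spec (hQ u)),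
      fun k hk h1 => Nat.find_min (hQ u) hk ((hv k hk.le).1 h1)⟩
  obtain ⟨z0, -, -⟩ := h fun _ _ => 0
  let g : ℕ → Z := fun k => (e k).elim z0 fun j => j.2.1
  refine ⟨g ∘ κ, hκ.comp g, fun u v huv => congrArg g ?_, fun u => ?_⟩
  · have : Q u = Q v := funext fun k => propext (exists_congr fun j => and_congr_right fun _ =>
      and_congr_left fun _ => forall₂_congr fun t _ => by rw [huv t.1 t.1.2])
    simp only [κ, this]
  · obtain ⟨j, h1, h2, h3⟩ := Nat.find_spec (hQ u)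
    have : (g ∘ κ) u = j.2.1 := by simp only [comp, g, κ, h1, Option.elim]
    rw [this]
    exact ⟨j.2.2, h3 u h2⟩

end Pool.Agent.B8F
end

-- merged part: Pool.Agent.Work.MP_b8a914_gt.F.Pf
section
/-! Perfect sets, fusion, and the conditions with a level. -/

namespace Pool.Agent.B8F
open Set

abbrev Cn := ℕ → Bool

def Perf (K : Set Cn) : Prop :=
  K.Nonempty ∧ IsClosed K ∧ ∀ y ∈ K, ∀ n, ∃ y' ∈ K, Ag n y' y ∧ y' ≠ y

def piece (K : Set Cn) (l : ℕ) (y : Cn) : Set Cn := {y' | y' ∈ K ∧ Ag l y' y}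

theorem piece_sub (K : Set Cn) (l : ℕ) (y : Cn) : piece K l y ⊆ K := fun _ h => h.1

theorem piece_congr {K : Set Cn} {l : ℕ} {y y' : Cn} (h : Ag l y y') :
    piece K l y = piece K l y' :=
  Set.ext fun _ => and_congr_right fun _ => ⟨fun a => a.trans h, fun a => a.trans h.symm⟩

theorem Perf.piece {K : Set Cn} (h : Perf K) (l : ℕ) {y : Cn} (hy : y ∈ K) :
    Perf (piece K l y) := by
  refine ⟨⟨y, hy, .rfl'⟩, h.2.1.inter ?_, fun y' hy' n => ?_⟩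
  · have : {y' : Cn | Ag l y' y} = ⋂ i ∈ Iio l, {y' | y' i = y i} := by
      ext; simp [Ag]
    show IsClosed {y' : Cn | Ag l y' y}
    rw [this]
    exact isClosed_biInter fun i _ => isClosed_eq (continuous_apply i) continuous_const
  · obtain ⟨y'', h1, h2, h3⟩ := h.2.2 y' hy'.1 (max n l)
    exact ⟨y'', ⟨h1, (h2.mono (le_max_right _ _)).trans hy'.2⟩, h2.mono (le_max_left _ _), h3⟩

theorem perf_univ : Perf univ :=
  ⟨univ_nonempty, isClosed_univ, fun y _ n => ⟨Function.update y n (!y n), trivial,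
    fun _ hi => Function.update_of_ne hi.ne _ _, fun h => by simpa using congrFun h n⟩⟩

def KLe (l : ℕ) (K' K : Set Cn) : Prop := K' ⊆ K ∧ ∀ y ∈ K, ∃ y' ∈ K', Ag l y' y

structure OP where
  A : Set ℕ
  K : Set Cn
  inf : A.Infinite
  perf : Perf K

def OLe (l : ℕ) (o' o : OP) : Prop :=
  o'.A ⊆ o.A ∧ (∀ a < l, a ∈ o.A → a ∈ o'.A) ∧ KLe l o'.K o.K

theorem KLe.rfl' {l : ℕ} {K : Set Cn} : KLe l K K := ⟨Subset.rfl, fun y hy => ⟨y, hy, .rfl'⟩⟩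
theorem KLe.mono {l l' : ℕ} {K K' : Set Cn} (h : KLe l K' K) (hl : l' ≤ l) : KLe l' K' K :=
  ⟨h.1, fun y hy => let ⟨y', a, b⟩ := h.2 y hy; ⟨y', a, b.mono hl⟩⟩
theorem KLe.trans {l : ℕ} {K K' K'' : Set Cn} (h : KLe l K'' K') (h' : KLe l K' K) :
    KLe l K'' K := ⟨h.1.trans h'.1, fun y hy =>
  let ⟨y', a, b⟩ := h'.2 y hy; let ⟨y'', c, d⟩ := h.2 y' a; ⟨y'', c, d.trans b⟩⟩
theorem OLe.rfl' {l : ℕ} {o : OP} : OLe l o o := ⟨Subset.rfl, fun _ _ h => h, .rfl'⟩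
theorem OLe.mono {l l' : ℕ} {o o' : OP} (h : OLe l o' o) (hl : l' ≤ l) : OLe l' o' o :=
  ⟨h.1, fun a ha => h.2.1 a (ha.trans_le hl), h.2.2.mono hl⟩
theorem OLe.trans {l : ℕ} {o o' o'' : OP} (h : OLe l o'' o') (h' : OLe l o' o) : OLe l o'' o :=
  ⟨h.1.trans h'.1, fun a ha b => h.2.1 a ha (h'.2.1 a ha b), h.2.2.trans h'.2.2⟩

/-- the level `l` sees a point of `A` above `n` and a splitting above each node of length `n` -/
def Absorb (n : ℕ) (o : OP) (l : ℕ) : Prop :=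
  (∃ a ∈ o.A, n ≤ a ∧ a < l) ∧ ∀ y ∈ o.K, ∃ y' ∈ o.K, Ag n y' y ∧ ¬ Ag l y' y

/-- the word of length `l` read off a point -/
def pfW (l : ℕ) (y : Cn) : Fin l → Bool := fun i => y i

theorem pfW_eq {l : ℕ} {y y' : Cn} : pfW l y = pfW l y' ↔ Ag l y y' :=
  ⟨fun h i hi => congrFun h ⟨i, hi⟩, fun h => funext fun i => h i i.2⟩

theorem pf_ev_ag (l : ℕ) (y : Cn) : ∀ᶠ y' in nhds y, Ag l y' y :=
  ev_ag (x := fun z : Cn => z) (y := fun _ => y) l fun i _ =>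
    ((continuous_apply i).tendsto y).eventually
      (p := fun b : Bool => b = y i) (by simp only [nhds_discrete, Filter.eventually_pure])

theorem pf_piece_closed {K : Set Cn} (h : IsClosed K) (l : ℕ) (y : Cn) :
    IsClosed (piece K l y) := by
  refine h.inter ?_
  show IsClosed {y' : Cn | Ag l y' y}
  rw [← isOpen_compl_iff, isOpen_iff_mem_nhds]
  intro z hz
  filter_upwards [pf_ev_ag l z] with z' hz' hc
  exact hz (hz'.symm.trans hc)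

theorem exists_absorb (n : ℕ) (o : OP) (l : ℕ) : ∃ l', l ≤ l' ∧ Absorb n o l' := by
  have key : ∀ s : Fin n → Bool, ∃ m, ∀ y ∈ o.K, pfW n y = s →
      ∃ y' ∈ o.K, Ag n y' y ∧ ¬ Ag m y' y := by
    intro s
    by_cases hs : ∃ y0 ∈ o.K, pfW n y0 = s
    · obtain ⟨y0, h0, rfl⟩ := hs
      obtain ⟨y1, h1, h2, h3⟩ := o.perf.2.2 y0 h0 n
      obtain ⟨i, hi⟩ := Function.ne_iff.1 h3
      refine ⟨i + 1, fun y hy hw => ?_⟩
      have ha : Ag n y0 y := (pfW_eq.1 hw).symm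
      by_cases hc : y0 i = y i
      · exact ⟨y1, h1, h2.trans ha, fun h => hi ((h i (Nat.lt_succ_self i)).trans hc.symm)⟩
      · exact ⟨y0, h0, ha, fun h => hc (h i (Nat.lt_succ_self i))⟩
    · exact ⟨0, fun y hy hw => absurd ⟨y, hy, hw⟩ hs⟩
  choose m hm using key
  obtain ⟨a, ha, hna⟩ := o.inf.exists_gt n
  refine ⟨max l (max (a + 1) (Finset.univ.sup m)), le_max_left _ _,
    ⟨a, ha, hna.le, by omega⟩, fun y hy => ?_⟩
  obtain ⟨y', h1, h2, h3⟩ := hm _ y hy rfl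
  refine ⟨y', h1, h2, fun h => h3 (h.mono ?_)⟩
  have : m (pfW n y) ≤ Finset.univ.sup m := Finset.le_sup (Finset.mem_univ _)
  omega

theorem fusion (o : ℕ → OP) (l : ℕ → ℕ) (hl : Monotone l)
    (h : ∀ n, OLe (l n) (o (n + 1)) (o n)) (ha : ∀ n, ∃ k, Absorb n (o k) (l k)) :
    ∃ o' : OP, ∀ n, OLe (l n) o' (o n) := by
  have ch : ∀ n m, n ≤ m → OLe (l n) (o m) (o n) := by
    intro n m hnm
    induction m, hnm using Nat.le_induction with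
    | base => exact .rfl'
    | succ m hnm ih => exact ((h m).mono (hl hnm)).trans ih
  have hK : ∀ n, KLe (l n) (⋂ m, (o m).K) (o n).K := by
    refine fun n => ⟨iInter_subset _ n, fun y hy => ?_⟩
    have hne : (⋂ m, piece (o m).K (l n) y).Nonempty := by
      refine IsCompact.nonempty_iInter_of_sequence_nonempty_isCompact_isClosed _
        (fun m z hz => ⟨(h m).2.2.1 hz.1, hz.2⟩) (fun m => ?_)
        (pf_piece_closed (o 0).perf.2.1 _ _).isCompact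
        (fun m => pf_piece_closed (o m).perf.2.1 _ _)
      rcases le_total n m with hnm | hnm
      · obtain ⟨y', h1, h2⟩ := (ch n m hnm).2.2.2 y hy
        exact ⟨y', h1, h2⟩
      · exact ⟨y, (ch m n hnm).2.2.1 hy, .rfl'⟩
    obtain ⟨z, hz⟩ := hne
    rw [mem_iInter] at hz
    exact ⟨z, mem_iInter.2 fun m => (hz m).1, (hz 0).2⟩
  have hA : ∀ n, ∀ a < l n, a ∈ (o n).A → a ∈ ⋂ m, (o m).A := by
    refine fun n a hlt hm => mem_iInter.2 fun m => ?_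
    rcases le_total n m with hnm | hnm
    · exact (ch n m hnm).2.1 a hlt hm
    · exact (ch m n hnm).1 hm
  have hinf : (⋂ m, (o m).A).Infinite := by
    refine infinite_of_forall_exists_gt fun n => ?_
    obtain ⟨k, ⟨a, h1, h2, h3⟩, -⟩ := ha (n + 1)
    exact ⟨a, hA k a h3 h1, h2⟩
  have hperf : Perf (⋂ m, (o m).K) := by
    refine ⟨?_, isClosed_iInter fun m => (o m).perf.2.1, fun y hy n => ?_⟩
    · obtain ⟨y, hy⟩ := (o 0).perf.1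
      obtain ⟨z, hz, -⟩ := (hK 0).2 y hy
      exact ⟨z, hz⟩
    · obtain ⟨k, ⟨a, -, h2, h3⟩, h4⟩ := ha n
      obtain ⟨y', h5, h6, h7⟩ := h4 y (mem_iInter.1 hy k)
      obtain ⟨z, hz, h8⟩ := (hK k).2 y' h5
      refine ⟨z, hz, (h8.mono (by omega)).trans h6, fun hc => h7 ?_⟩
      rw [← hc]
      exact h8.symm
  exact ⟨⟨_, _, hinf, hperf⟩, fun n => ⟨iInter_subset _ n, hA n, hK n⟩⟩

/-- finitely many pieces, one after the other -/
theorem pw {Z : Type} (R : Z → Z → Prop) (hr : ∀ z, R z z)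
    (ht : ∀ a b c, R a b → R b c → R a c) (Q : Z → Set Cn → Prop)
    (hm : ∀ z z' L, Q z L → R z' z → Q z' L) (z0 : Z) {K : Set Cn} (hK : Perf K)
    (hd : ∀ z, R z z0 → ∀ L, Perf L → L ⊆ K → ∃ z', R z' z ∧ ∃ L', Perf L' ∧ L' ⊆ L ∧ Q z' L')
    (l : ℕ) : ∃ z, R z z0 ∧ ∃ K', Perf K' ∧ KLe l K' K ∧ ∀ y ∈ K', Q z (piece K' l y) := by
  classical
  have key : ∀ S : Finset (Fin l → Bool), ∃ z, R z z0 ∧ ∀ s ∈ S, ∃ L', ∀ y ∈ K, pfW l y = s →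
      Perf L' ∧ L' ⊆ piece K l y ∧ Q z L' := by
    intro S
    induction S using Finset.induction_on with
    | empty => exact ⟨z0, hr z0, fun s hs => absurd hs (Finset.notMem_empty s)⟩
    | insert s S _ ih =>
      obtain ⟨z, hz, hS⟩ := ih
      by_cases hs : ∃ y0 ∈ K, pfW l y0 = s
      · obtain ⟨y0, h0, rfl⟩ := hs
        obtain ⟨z', h1, L', h2, h3, h4⟩ := hd z hz _ (hK.piece l h0) (piece_sub _ _ _)
        refine ⟨z', ht _ _ _ h1 hz, fun s hs => ?_⟩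
        rcases Finset.mem_insert.1 hs with rfl | hs
        · exact ⟨L', fun y _ hw => ⟨h2, piece_congr (pfW_eq.1 hw).symm ▸ h3, h4⟩⟩
        · obtain ⟨L, hL⟩ := hS s hs
          exact ⟨L, fun y hy hw => ⟨(hL y hy hw).1, (hL y hy hw).2.1,
            hm _ _ _ (hL y hy hw).2.2 h1⟩⟩
      · refine ⟨z, hz, fun s' hs' => ?_⟩
        rcases Finset.mem_insert.1 hs' with rfl | hs'
        · exact ⟨∅, fun y hy hw => absurd ⟨y, hy, hw⟩ hs⟩
        · exact hS s' hs'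
  obtain ⟨z, hz, hS⟩ := key Finset.univ
  choose g hg using fun s => hS s (Finset.mem_univ s)
  have hmem : ∀ y', y' ∈ (⋃ s ∈ {s | ∃ y ∈ K, pfW l y = s}, g s) ↔
      ∃ y ∈ K, y' ∈ g (pfW l y) := by
    intro y'
    simp only [mem_iUnion, mem_ofPred_eq, exists_prop]
    constructor
    · rintro ⟨s, ⟨y, hy, rfl⟩, h⟩
      exact ⟨y, hy, h⟩
    · rintro ⟨y, hy, h⟩
      exact ⟨_, ⟨y, hy, rfl⟩, h⟩
  refine ⟨z, hz, ⋃ s ∈ {s | ∃ y ∈ K, pfW l y = s}, g s, ⟨?_, ?_, fun y' hy' n => ?_⟩,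
    ⟨fun y' hy' => ?_, fun y hy => ?_⟩, fun y' hy' => ?_⟩
  · obtain ⟨y, hy⟩ := hK.1
    obtain ⟨y', hy'⟩ := (hg _ y hy rfl).1.1
    exact ⟨y', (hmem y').2 ⟨y, hy, hy'⟩⟩
  · refine (toFinite _).isClosed_biUnion ?_
    rintro s ⟨y, hy, hw⟩
    exact (hg s y hy hw).1.2.1
  · obtain ⟨y, hy, h⟩ := (hmem y').1 hy'
    obtain ⟨y'', h1, h2⟩ := (hg _ y hy rfl).1.2.2 y' h n
    exact ⟨y'', (hmem y'').2 ⟨y, hy, h1⟩, h2⟩
  · obtain ⟨y, hy, h⟩ := (hmem y').1 hy'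
    exact ((hg _ y hy rfl).2.1 h).1
  · obtain ⟨y', hy'⟩ := (hg _ y hy rfl).1.1
    exact ⟨y', (hmem y').2 ⟨y, hy, hy'⟩, ((hg _ y hy rfl).2.1 hy').2⟩
  · obtain ⟨y, hy, h⟩ := (hmem y').1 hy'
    have e : piece (⋃ s ∈ {s | ∃ y ∈ K, pfW l y = s}, g s) l y' = g (pfW l y) := by
      have a1 : Ag l y' y := ((hg _ y hy rfl).2.1 h).2
      refine Set.ext fun x => ⟨fun hx => ?_, fun hx => ⟨(hmem x).2 ⟨y, hy, hx⟩,
        ((hg _ y hy rfl).2.1 hx).2.trans a1.symm⟩⟩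
      obtain ⟨y2, hy2, h2⟩ := (hmem x).1 hx.1
      have a2 : Ag l x y2 := ((hg _ y2 hy2 rfl).2.1 h2).2
      rw [← pfW_eq.2 (a2.symm.trans (hx.2.trans a1))]
      exact h2
    rw [e]
    exact (hg _ y hy rfl).2.2

/-- a nonempty union of pieces is perfect -/
theorem Perf.sub_of_dep {K : Set Cn} (h : Perf K) (l : ℕ) (P : Cn → Prop)
    (hP : ∀ y y', Ag l y y' → P y → P y') (hne : ∃ y ∈ K, P y) : Perf {y | y ∈ K ∧ P y} := by
  refine ⟨hne, h.2.1.inter ?_, fun y hy n => ?_⟩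
  · show IsClosed {y : Cn | P y}
    rw [← isOpen_compl_iff, isOpen_iff_mem_nhds]
    intro z hz
    filter_upwards [pf_ev_ag l z] with z' hz' hc
    exact hz (hP _ _ hz' hc)
  · obtain ⟨y', h1, h2, h3⟩ := h.2.2 y hy.1 (max n l)
    exact ⟨y', ⟨h1, hP _ _ (h2.mono (le_max_right _ _)).symm hy.2⟩,
      h2.mono (le_max_left _ _), h3⟩

/-- a continuous colouring is constant on a piece -/
theorem exists_piece_const {Z : Type} [TopologicalSpace Z] [DiscreteTopology Z] {f : Cn → Z}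
    (hf : Continuous f) (y : Cn) : ∃ l, ∀ y', Ag l y' y → f y' = f y := by
  by_contra hc
  push Not at hc
  choose v hv1 hv2 using hc
  have ht : Filter.Tendsto v Filter.atTop (nhds y) := by
    refine tendsto_pi_nhds.2 fun i => tendsto_const_nhds.congr' ?_
    filter_upwards [Filter.eventually_gt_atTop i] with n hn
    exact (hv1 n i hn).symm
  have h2 := (hf.tendsto y).comp ht
  rw [nhds_discrete, Filter.tendsto_pure] at h2
  obtain ⟨n, hn⟩ := h2.exists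
  exact hv2 n hn

theorem pf_level {Z : Type} [TopologicalSpace Z] [DiscreteTopology Z] {f : Cn → Z}
    (hf : Continuous f) {K : Set Cn} (h : Perf K) (c : Z) (hne : ∃ y ∈ K, f y = c) :
    Perf {y | y ∈ K ∧ f y = c} := by
  refine ⟨hne, h.2.1.inter (isClosed_eq hf continuous_const), fun y hy n => ?_⟩
  obtain ⟨l, hl⟩ := exists_piece_const hf y
  obtain ⟨y', h1, h2, h3⟩ := h.2.2 y hy.1 (max n l)
  exact ⟨y', ⟨h1, (hl y' (h2.mono (le_max_right _ _))).trans hy.2⟩,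
    h2.mono (le_max_left _ _), h3⟩

theorem pf_bad_fin {f : Cn → ℕ → Bool} {A : Set ℕ} {K K' : Set Cn}
    (h : ∀ L, Perf L → L ⊆ K → {a | a ∈ A ∧ ∀ y ∈ L, f y a = true}.Finite)
    (hK' : Perf K') (hs : K' ⊆ K) (l : ℕ) :
    {a | a ∈ A ∧ ∃ y ∈ K', ∀ y' ∈ piece K' l y, f y' a = true}.Finite := by
  have key : ∀ s : Fin l → Bool,
      {a | a ∈ A ∧ ∃ y ∈ K', pfW l y = s ∧ ∀ y' ∈ piece K' l y, f y' a = true}.Finite := by
    intro s
    by_cases hy : ∃ y0 ∈ K', pfW l y0 = s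
    · obtain ⟨y0, h0, rfl⟩ := hy
      refine (h _ (hK'.piece l h0) ((piece_sub _ _ _).trans hs)).subset ?_
      rintro a ⟨ha, y, -, hw, hf⟩
      exact ⟨ha, piece_congr (K := K') (pfW_eq.1 hw) ▸ hf⟩
    · refine finite_empty.subset ?_
      rintro a ⟨-, y, h1, hw, -⟩
      exact hy ⟨y, h1, hw⟩
  refine (finite_iUnion key).subset ?_
  rintro a ⟨ha, y, hy, hf⟩
  exact mem_iUnion.2 ⟨_, ha, y, hy, rfl, hf⟩

theorem pf_rt_step {f : Cn → ℕ → Bool} (hf : ∀ a, Continuous fun y => f y a) {A : Set ℕ}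
    {K : Set Cn} (h : ∀ L, Perf L → L ⊆ K → {a | a ∈ A ∧ ∀ y ∈ L, f y a = true}.Finite)
    (n : ℕ) (o : OP) (l : ℕ) (hA : o.A ⊆ A) (hK : o.K ⊆ K)
    (hi : ∀ a ∈ o.A, a < l → ∀ y ∈ o.K, f y a = false) :
    ∃ (o' : OP) (l' : ℕ), l ≤ l' ∧ OLe l o' o ∧ Absorb n o' l' ∧
      ∀ a ∈ o'.A, a < l' → ∀ y ∈ o'.K, f y a = false := by
  obtain ⟨a, ⟨ha, hb⟩, hn⟩ := (o.inf.sdiff (pf_bad_fin h o.perf hK l)).exists_gt n
  have hp : ∀ y ∈ o.K, ∃ y' ∈ {y | y ∈ o.K ∧ f y a = false}, Ag l y' y := by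
    intro y hy
    by_contra hc
    refine hb ⟨hA ha, y, hy, fun y' hy' => ?_⟩
    by_contra h2
    exact hc ⟨y', ⟨hy'.1, by simpa using h2⟩, hy'.2⟩
  have hP : Perf {y | y ∈ o.K ∧ f y a = false} := by
    obtain ⟨y, hy⟩ := o.perf.1
    obtain ⟨y', h1, -⟩ := hp y hy
    exact pf_level (hf a) o.perf false ⟨y', h1⟩
  obtain ⟨l', h1, -, h2⟩ := exists_absorb n ⟨o.A, _, o.inf, hP⟩ (max l (a + 1))
  have hinf : {b | b ∈ o.A ∧ (b < l ∨ b = a ∨ l' ≤ b)}.Infinite := by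
    refine infinite_of_forall_exists_gt fun m => ?_
    obtain ⟨b, h3, h4⟩ := o.inf.exists_gt (max m l')
    exact ⟨b, ⟨h3, by omega⟩, by omega⟩
  refine ⟨⟨_, _, hinf, hP⟩, l', by omega,
    ⟨fun b hb => hb.1, fun b h3 h4 => ⟨h4, Or.inl h3⟩, fun y hy => hy.1, hp⟩,
    ⟨⟨a, ⟨ha, Or.inr (Or.inl rfl)⟩, hn.le, by omega⟩, h2⟩, ?_⟩
  rintro b ⟨h3, h4 | rfl | h4⟩ h5 y hy
  · exact hi b h3 h4 y hy.1
  · exact hy.2
  · omega

/-- the Ramsey property without the third coordinate -/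
theorem rt_bot (f : Cn → ℕ → Bool) (hf : ∀ a, Continuous fun y => f y a) (o : OP) :
    ∃ o' : OP, o'.A ⊆ o.A ∧ o'.K ⊆ o.K ∧ ∃ ε, ∀ y ∈ o'.K, ∀ a ∈ o'.A, f y a = ε := by
  by_cases h1 : ∃ L, Perf L ∧ L ⊆ o.K ∧ {a | a ∈ o.A ∧ ∀ y ∈ L, f y a = true}.Infinite
  · obtain ⟨L, h2, h3, h4⟩ := h1
    exact ⟨⟨_, L, h4, h2⟩, fun a ha => ha.1, h3, true, fun y hy a ha => ha.2 y hy⟩
  have h : ∀ L, Perf L → L ⊆ o.K → {a | a ∈ o.A ∧ ∀ y ∈ L, f y a = true}.Finite :=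
    fun L h2 h3 => not_infinite.1 fun h4 => h1 ⟨L, h2, h3, h4⟩
  let S := {x : OP × ℕ // x.1.A ⊆ o.A ∧ x.1.K ⊆ o.K ∧
    ∀ a ∈ x.1.A, a < x.2 → ∀ y ∈ x.1.K, f y a = false}
  have step : ∀ (n : ℕ) (x : S), ∃ x' : S, x.1.2 ≤ x'.1.2 ∧ OLe x.1.2 x'.1.1 x.1.1 ∧
      Absorb n x'.1.1 x'.1.2 := by
    rintro n ⟨⟨o1, l1⟩, hA, hK, hi⟩
    obtain ⟨o2, l2, h2, h3, h4, h5⟩ := pf_rt_step hf h n o1 l1 hA hK hi
    exact ⟨⟨⟨o2, l2⟩, h3.1.trans hA, h3.2.2.1.trans hK, h5⟩, h2, h3, h4⟩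
  choose g hg using step
  let x : ℕ → S := fun n => Nat.rec
    ⟨⟨o, 0⟩, Subset.rfl, Subset.rfl, fun a _ ha => absurd ha (Nat.not_lt_zero a)⟩ g n
  have hx : ∀ n, x (n + 1) = g n (x n) := fun _ => rfl
  have hab : ∀ n, Absorb n (x (n + 1)).1.1 (x (n + 1)).1.2 := fun n => (hg n (x n)).2.2
  obtain ⟨o', ho'⟩ := fusion (fun n => (x n).1.1) (fun n => (x n).1.2)
    (monotone_nat_of_le_succ fun n => (hg n (x n)).1) (fun n => (hg n (x n)).2.1)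
    (fun n => ⟨n + 1, hab n⟩)
  refine ⟨o', (ho' 0).1, (ho' 0).2.2.1, false, fun y hy a ha => ?_⟩
  obtain ⟨⟨b, -, h2, h3⟩, -⟩ := hab (a + 1)
  exact (x (a + 1 + 1)).2.2.2 a ((ho' (a + 1 + 1)).1 ha) (by omega) y
    ((ho' (a + 1 + 1)).2.2.1 hy)

structure RP (I : Type) [LinearOrder I] extends OP where
  l : ℕ
  p : Pt I → Pt I
  mi : IsMi p

variable {I : Type} [LinearOrder I]

def RLe (β : I) (r' r : RP I) : Prop :=
  r.l ≤ r'.l ∧ OLe r.l r'.toOP r.toOP ∧ Le β r'.p r.p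

theorem RLe.rfl' {β : I} {r : RP I} : RLe β r r := ⟨le_rfl, .rfl', .rfl'⟩
theorem RLe.trans {β : I} {r r' r'' : RP I} (h : RLe β r'' r') (h' : RLe β r' r) :
    RLe β r'' r :=
  ⟨h'.1.trans h.1, (h.2.1.mono h'.1).trans h'.2.1, h.2.2.trans h'.2.2⟩
theorem RLe.mono {β β' : I} {r r' : RP I} (h : RLe β r' r) (hb : β' ≤ β) : RLe β' r' r :=
  ⟨h.1, h.2.1, h.2.2.mono hb⟩

/-- a locally constant selection of members of `F` that are valid for `(o, q)` below `δ` -/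
def Good (δ : I) (o : OP) (q : Pt I → Pt I) (F : Set (RP I)) : Prop :=
  ∃ sel : Pt I → RP I, IsLocallyConstant sel ∧
    (∃ s : Set I, s.Countable ∧ s ⊆ Iio δ ∧ DepOn s sel) ∧
    ∀ u, sel u ∈ F ∧ OLe (sel u).l o (sel u).toOP ∧ In δ (sel u).p (q u)

end Pool.Agent.B8F
end

-- merged part: Pool.Agent.Work.MP_b8a914_gt.F.Cond
section
/-! The poset, codes for functions, elementary density arguments. -/

set_option linter.unusedSectionVars false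

namespace Pool.Agent.B8F
open Set

structure Cond (I : Type) [LinearOrder I] extends OP where
  p : Pt I → Pt I
  mi : IsMi p

variable {I : Type} [LinearOrder I] [OrderTop I]

instance : Preorder (Cond I) where
  le r' r := (r'.A \ r.A).Finite ∧ r'.K ⊆ r.K ∧ Le ⊤ r'.p r.p
  le_refl r := ⟨by simp, Subset.rfl, .rfl'⟩
  le_trans a b c h h' := ⟨(h.1.union h'.1).subset fun x hx => by
    by_cases hb : x ∈ b.A
    · exact Or.inr ⟨hb, hx.2⟩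
    · exact Or.inl ⟨hx.1, hb⟩, h.2.1.trans h'.2.1, h.2.2.trans h'.2.2⟩

theorem Cond.le_def {r' r : Cond I} :
    r' ≤ r ↔ (r'.A \ r.A).Finite ∧ r'.K ⊆ r.K ∧ Le ⊤ r'.p r.p := Iff.rfl

theorem Cond.le_of {r' r : Cond I} (h1 : r'.A ⊆ r.A) (h2 : r'.K ⊆ r.K) (h3 : Le ⊤ r'.p r.p) :
    r' ≤ r := ⟨by rw [sdiff_eq_empty.2 h1]; exact finite_empty, h2, h3⟩

/-- the trivial condition -/
def Cond.one (I : Type) [LinearOrder I] : Cond I :=
  ⟨⟨univ, univ, infinite_univ, perf_univ⟩, id, isMi_id⟩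

theorem Cond.le_one (r : Cond I) : r ≤ Cond.one I :=
  Cond.le_of (subset_univ _) (subset_univ _) (le_id _)

/-- codes for functions: the value is `c.2 w` for the point `w` that `c.1` sends to the generic
point -/
abbrev VC (I : Type) := (Pt I → Pt I) × (Pt I → ℕ → ℕ)

def Nice (α : I) (c : VC I) : Prop :=
  IsMi c.1 ∧ Continuous c.2 ∧ ∃ s : Set I, s.Countable ∧ s ⊆ Iio α ∧ Supp s c.1 ∧ DepOn s c.2

theorem Nice.mono {α β : I} {c : VC I} (h : Nice α c) (hb : α ≤ β) : Nice β c :=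
  let ⟨a, b, s, h1, h2, h3⟩ := h; ⟨a, b, s, h1, h2.trans (Iio_subset_Iio hb), h3⟩

theorem Nice.dep {α : I} {c : VC I} (h : Nice α c) {u v : Pt I} (huv : AgB α u v) :
    c.2 u = c.2 v :=
  let ⟨_, _, _, _, h2, _, h3⟩ := h; h3 u v fun γ hγ => huv γ (h2 hγ)

theorem nice_id (α : I) (g : ℕ → ℕ) : Nice α ((id, fun _ => g) : VC I) :=
  ⟨isMi_id, continuous_const, ∅, countable_empty, empty_subset _,
    ⟨fun _ _ _ => rfl, fun _ _ _ _ h => h.elim⟩, fun _ _ _ => rfl⟩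

/-- `r` decides the value of the code `c` at `k` to be `n` -/
def Dec (c : VC I) (k n : ℕ) (r : Cond I) : Prop :=
  Le ⊤ r.p c.1 ∧ ∀ v w, AgB ⊤ (c.1 w) (r.p v) → c.2 w k = n

theorem Dec.mono {c : VC I} {k n : ℕ} {r r' : Cond I} (h : Dec c k n r) (h' : r' ≤ r) :
    Dec c k n r' := ⟨h'.2.2.trans h.1, fun v w hw =>
  let ⟨v', hv'⟩ := h'.2.2 v; h.2 v' w (hw.trans hv'.symm)⟩

/-- the number of the word `y 0, …, y (n - 1)` -/
def enc (y : Cn) : ℕ → ℕ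
  | 0 => 1
  | n + 1 => 2 * enc y n + (y n).toNat

theorem Cond_lt_enc (y : Cn) (n : ℕ) : n < enc y n := by
  induction n with
  | zero => exact Nat.one_pos
  | succ n ih => rw [enc]; omega

theorem Cond_enc_mono (y : Cn) : StrictMono (enc y) := strictMono_nat_of_lt_succ fun n => by
  have := Cond_lt_enc y n
  rw [enc]; omega

theorem Cond_enc_congr {y y' : Cn} {n : ℕ} (h : Ag n y y') : enc y n = enc y' n := by
  induction n with
  | zero => rfl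
  | succ n ih => rw [enc, enc, ih (h.mono n.le_succ), h n n.lt_succ_self]

theorem Cond_enc_inj {y y' : Cn} {n n' : ℕ} (h : enc y n = enc y' n') :
    n = n' ∧ Ag n y y' := by
  induction n generalizing n' with
  | zero =>
    cases n' with
    | zero => exact ⟨rfl, fun i hi => absurd hi (Nat.not_lt_zero i)⟩
    | succ k =>
      have := Cond_lt_enc y' k
      rw [enc, enc] at h; omega
  | succ n ih =>
    cases n' with
    | zero =>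
      have := Cond_lt_enc y n
      rw [enc, enc] at h; omega
    | succ k =>
      rw [enc, enc] at h
      have b1 := Bool.toNat_le (y n)
      have b2 := Bool.toNat_le (y' k)
      obtain ⟨rfl, h1⟩ := ih (n' := k) (by omega)
      have h2 : (y n).toNat = (y' n).toNat := by omega
      refine ⟨rfl, h1.succ ?_⟩
      revert h2
      cases y n <;> cases y' n <;> simp

/-- a directed family meets finitely many open requirements at once -/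
theorem Cond_fin_dir {T : Type} (G : Cond I → Prop) (PN : Set (Cond I))
    (dir : ∀ p q, G p → G q → ∃ r ∈ PN, G r ∧ r ≤ p ∧ r ≤ q) (s : Finset T)
    (D : T → Cond I → Prop) (hD : ∀ t a b, b ≤ a → D t a → D t b)
    (he : ∀ t, ∃ a, G a ∧ D t a) (r : Cond I) (hr : G r) :
    ∃ r' ∈ PN, G r' ∧ r' ≤ r ∧ ∀ t ∈ s, D t r' := by
  classical
  induction s using Finset.induction_on with
  | empty =>
    obtain ⟨a, h1, h2, h3, -⟩ := dir r r hr hr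
    exact ⟨a, h1, h2, h3, fun t ht => absurd ht (Finset.notMem_empty t)⟩
  | insert t s _ ih =>
    obtain ⟨a, -, h2, h3, h4⟩ := ih
    obtain ⟨b, h5, h6⟩ := he t
    obtain ⟨d, h7, h8, h9, h10⟩ := dir a b h2 h5
    refine ⟨d, h7, h8, h9.trans h3, fun t' ht' => ?_⟩
    rcases Finset.mem_insert.1 ht' with rfl | h11
    · exact hD _ _ _ h10 h6
    · exact hD _ _ _ h9 (h4 t' h11)

variable [WellFoundedLT I]

/-- finitely many values of a code are constant on a box -/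
theorem dec_box {p q : Pt I → Pt I} {g : Pt I → ℕ → ℕ} (hp : IsMi p) (hq : IsMi q)
    (hg : Continuous g) (hd : ∀ u v, AgB ⊤ u v → g u = g v) (h : Le ⊤ q p) (N : ℕ) :
    ∃ Ψ, IsMi Ψ ∧ ∃ π : ℕ → ℕ, ∀ v w, AgB ⊤ (p w) (q (Ψ v)) → Ag N (g w) π := by
  have hc : Continuous fun v => g (fac ⊤ q p v) := hg.comp (fac_cont hq hp h)
  obtain ⟨Ψ, h1, h2⟩ := exists_box (u := fun _ _ => 0)
    (P := fun v => Ag N (g (fac ⊤ q p v)) (g (fac ⊤ q p fun _ _ => 0)))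
    (ev_ag N fun i _ => cont_seq.1 hc _ i)
  refine ⟨Ψ, h1, g (fac ⊤ q p fun _ _ => 0), fun v w hw => ?_⟩
  rw [hd w (fac ⊤ q p (Ψ v)) (hp.inj (hw.trans (fac_spec hp h _).symm))]
  exact h2 v

theorem dec_dense {c : VC I} (hp : IsMi c.1) (hg : Continuous c.2)
    (hd : ∀ u v, AgB ⊤ u v → c.2 u = c.2 v) {r : Cond I} (h : Le ⊤ r.p c.1) (k : ℕ) :
    ∃ r', r' ≤ r ∧ ∃ n, Dec c k n r' := by
  obtain ⟨Ψ, h1, π, h2⟩ := dec_box hp r.mi hg hd h (k + 1)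
  exact ⟨⟨r.toOP, r.p ∘ Ψ, r.mi.comp h1⟩, Cond.le_of Subset.rfl Subset.rfl (le_comp r.p Ψ), π k,
    (le_comp r.p Ψ).trans h, fun v w hw => h2 v w hw k k.lt_succ_self⟩

/-- the generic point -/
theorem exists_xG (G : Cond I → Prop) (PN : Set (Cond I)) (Hc : Set I)
    (dir : ∀ p q, G p → G q → ∃ r ∈ PN, G r ∧ r ≤ p ∧ r ≤ q) (h1 : Cond.one I ∈ PN)
    (h2 : G (Cond.one I)) (hs : ∀ r ∈ PN, Supp Hc r.p)
    (hd : ∀ r ∈ PN, G r → ∀ γ ∈ Hc, γ < ⊤ → ∀ i, ∃ r', G r' ∧ ∃ n,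
      Dec (r.p, fun w => w γ) i n r') :
    ∃ x, ∀ r, G r → In ⊤ r.p x := by
  classical
  have key : ∀ r ∈ PN, G r → ∃ u : Pt I, ∀ γ i,
      ((γ ∈ Hc ∧ γ < ⊤) → ∃ r', G r' ∧ Dec (r.p, fun w => w γ) i (u γ i) r') ∧
      (¬ (γ ∈ Hc ∧ γ < ⊤) → u γ i = 0) := by
    intro r hr hG
    have h0 : ∀ γ i, ∃ n : ℕ,
        ((γ ∈ Hc ∧ γ < ⊤) → ∃ r', G r' ∧ Dec (r.p, fun w => w γ) i n r') ∧
        (¬ (γ ∈ Hc ∧ γ < ⊤) → n = 0) := by
      intro γ i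
      by_cases hγ : γ ∈ Hc ∧ γ < ⊤
      · obtain ⟨r', a, n, b⟩ := hd r hr hG γ hγ.1 hγ.2 i
        exact ⟨n, fun _ => ⟨r', a, b⟩, fun c => absurd hγ c⟩
      · exact ⟨0, fun c => absurd c hγ, fun _ => rfl⟩
    choose u hu using h0
    exact ⟨u, hu⟩
  obtain ⟨x, hx⟩ := key _ h1 h2
  have main : ∀ r ∈ PN, G r → In ⊤ r.p x := by
    intro r hr hG
    obtain ⟨u, hu⟩ := key r hr hG
    refine ⟨u, fun γ hγ => funext fun i => ?_⟩
    by_cases hH : γ ∈ Hc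
    · obtain ⟨F, n, hF⟩ := nhds_fin (cont_pt.1 r.mi.cont u γ i)
      obtain ⟨r1, hG1, hD1⟩ := (hx γ i).1 ⟨hH, hγ⟩
      obtain ⟨r2, -, hG2, h21, h22⟩ := dir r r1 hG hG1
      obtain ⟨r', hr', hG', hle, hD⟩ := Cond_fin_dir G PN dir (F ×ˢ Finset.range n)
        (fun t r' => (t.1 ∈ Hc ∧ t.1 < ⊤) → Dec (r.p, fun w => w t.1) t.2 (u t.1 t.2) r')
        (fun t a b hab c d => (c d).mono hab)
        (fun t => by
          by_cases ht : t.1 ∈ Hc ∧ t.1 < ⊤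
          · obtain ⟨a, b, c⟩ := (hu t.1 t.2).1 ht
            exact ⟨a, b, fun _ => c⟩
          · exact ⟨r, hG, fun c => absurd c ht⟩) r2 hG2
      have hl : Le ⊤ r'.p r.p := (hle.trans h21).2.2
      have hw := fac_spec r.mi hl (fun _ _ => 0)
      have h3 := hF (fac ⊤ r'.p r.p fun _ _ => 0) fun γ' h' i' hi => by
        by_cases ht : γ' ∈ Hc ∧ γ' < ⊤
        · exact (hD (γ', i') (Finset.mem_product.2 ⟨h', Finset.mem_range.2 hi⟩) ht).2 _ _ hw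
        · rw [(hu γ' i').2 ht]
          by_cases h4 : γ' < ⊤
          · have h5 : γ' ∉ Hc := fun c => ht ⟨c, h4⟩
            rw [← (hs r hr).1 (fac ⊤ r'.p r.p fun _ _ => 0) γ' h5, hw γ' h4,
              (hs r' hr').1 _ γ' h5]
          · rw [fac_ge _ _ _ (not_lt.1 h4)]
      rw [← h3, hw γ hγ]
      exact (hD1.mono (hle.trans h22)).2 (fun _ _ => 0) _ .rfl'
    · rw [(hs r hr).1 u γ hH, (hu γ i).2 fun c => hH c.1, (hx γ i).2 fun c => hH c.1]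
  refine ⟨x, fun r hG => ?_⟩
  obtain ⟨r', a, b, c, -⟩ := dir r r hG hG
  exact (main r' a b).le c.2.2

theorem unb_dense {α : I} (hα : α < ⊤) {c : VC I} (hc : Nice α c) {r : Cond I}
    (h : Le ⊤ r.p c.1) (m : ℕ) : ∃ r', r' ≤ r ∧ ∃ j, m ≤ j ∧
      ∀ v w, AgB ⊤ (c.1 w) (r'.p v) → c.2 w j < r'.p v α j := by
  classical
  obtain ⟨l, hl⟩ := r.mi.sec α (fun _ _ => 0) m
  let vt : ℕ → Pt I := fun t =>
    Function.update (fun _ _ => 0) α (Function.update (fun _ => 0) m t)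
  have a1 : ∀ t, AgB α (vt t) fun _ _ => 0 := fun t => agB_update _ _
  have a2 : ∀ t, Ag m (vt t α) fun _ => 0 := fun t i hi => by
    simp only [vt, Function.update_self, Function.update_of_ne hi.ne]
  have a3 : ∀ t, vt t α m = t := fun t => by simp only [vt, Function.update_self]
  have hinj : Function.Injective fun t => r.p (vt t) α l := fun t t' e => by
    have h0 := (hl (vt t) (vt t') (a1 t) (a1 t') (a2 t) (a2 t')).2.1 e
    rwa [a3, a3] at h0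
  obtain ⟨_, ⟨t, rfl⟩, ht⟩ := (infinite_range_of_injective hinj).exists_gt
    (c.2 (fac ⊤ r.p c.1 fun _ _ => 0) l)
  have hg : Continuous fun v => c.2 (fac ⊤ r.p c.1 v) := hc.2.1.comp (fac_cont r.mi hc.1 h)
  obtain ⟨Ψ, b1, b2⟩ := exists_box (u := vt t)
    (P := fun v => c.2 (fac ⊤ r.p c.1 v) l < r.p v α l) (by
      filter_upwards [cont_seq.1 hg (vt t) l, cont_pt.1 r.mi.cont (vt t) α l] with v c1 c2
      rw [c1, c2, hc.dep (fac_agB r.mi hc.1 h (a1 t))]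
      exact ht)
  refine ⟨⟨r.toOP, r.p ∘ Ψ, r.mi.comp b1⟩, Cond.le_of Subset.rfl Subset.rfl (le_comp r.p Ψ), l,
    r.mi.le_len hl, fun v w hw => ?_⟩
  rw [hc.dep ((hc.1.inj (hw.trans (fac_spec hc.1 h (Ψ v)).symm)).mono hα.le)]
  exact b2 v

theorem enc_dense (r : Cond I) (m : ℕ) :
    ∃ r', r' ≤ r ∧ ∃ a, m ≤ a ∧ ∃ i, ∀ y ∈ r'.K, enc y i = a := by
  obtain ⟨y, hy⟩ := r.perf.1
  exact ⟨⟨⟨r.A, piece r.K m y, r.inf, r.perf.piece m hy⟩, r.p, r.mi⟩,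
    Cond.le_of Subset.rfl (piece_sub _ _ _) .rfl', enc y m, (Cond_lt_enc y m).le, m,
    fun y' h => Cond_enc_congr h.2⟩

theorem sacks_dense (Φ : ℕ → ℕ → Cond I → Prop)
    (hm : ∀ k n r r', Φ k n r → r' ≤ r → Φ k n r')
    (hK : ∀ k n (r r' : Cond I), r.A = r'.A → r.p = r'.p → Φ k n r → Φ k n r')
    {c : VC I} (hc : Nice ⊤ c) {r : Cond I} (h : Le ⊤ r.p c.1)
    (hd : ∀ k q, q ≤ r → ∃ q', q' ≤ q ∧ ∃ n, Φ k n q') (e m : ℕ) :
    ∃ r', r' ≤ r ∧ ∃ j, m ≤ j ∧ ∃ n, Φ (2 * j + e) n r' ∧ ∀ y ∈ r'.K, ∀ v w,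
      AgB ⊤ (c.1 w) (r'.p v) → StrictMono (c.2 w) → 2 * j + e ≤ n →
      ∀ i, ¬ (c.2 w (enc y i) ≤ n ∧ n < c.2 w (enc y i + 1)) := by
  classical
  obtain ⟨y0, hy0⟩ := r.perf.1
  obtain ⟨y1, hy1, -, hne⟩ := r.perf.2.2 y0 hy0 0
  have hex : ∃ i, y1 i ≠ y0 i := Function.ne_iff.1 hne
  have hL1 : y1 (Nat.find hex) ≠ y0 (Nat.find hex) := Nat.find_spec hex
  have hL2 : Ag (Nat.find hex) y1 y0 := fun i hi => not_not.1 (Nat.find_min hex hi)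
  generalize Nat.find hex = L at hL1 hL2
  have hdep : ∀ u v, AgB ⊤ u v → c.2 u = c.2 v := fun u v => hc.dep
  obtain ⟨Ψ1, a1, π1, a2⟩ := dec_box hc.1 r.mi hc.2.1 hdep h (enc y0 L + 2)
  let q : Cond I := ⟨r.toOP, r.p ∘ Ψ1, r.mi.comp a1⟩
  have hq : q ≤ r := Cond.le_of Subset.rfl Subset.rfl (le_comp r.p Ψ1)
  obtain ⟨j, hj1, hj2⟩ : ∃ j, m ≤ j ∧ π1 (enc y0 L + 1) ≤ j :=
    ⟨max _ _, le_max_left _ _, le_max_right _ _⟩
  obtain ⟨q', hq', n, hn⟩ := hd (2 * j + e) q hq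
  obtain ⟨Ψ2, b1, π, b2⟩ := dec_box hc.1 q'.mi hc.2.1 hdep ((hq'.trans hq).2.2.trans h) (n + 2)
  let Bad : Cn → Prop := fun b => ∃ y, Ag (L + 1) y b ∧ ∃ v w,
    AgB ⊤ (c.1 w) (q'.p (Ψ2 v)) ∧ StrictMono (c.2 w) ∧ 2 * j + e ≤ n ∧
      ∃ i, c.2 w (enc y i) ≤ n ∧ n < c.2 w (enc y i + 1)
  have hnb : ¬ (Bad y0 ∧ Bad y1) := by
    rintro ⟨⟨y, c1, v, w, c2, c3, c4, i, c5, c6⟩, ⟨y', d1, v', w', d2, d3, -, i', d5, d6⟩⟩
    have e1 : enc y' i' ≤ n := (d3.id_le _).trans d5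
    have e2 : Ag (n + 2) (c.2 w') (c.2 w) := (b2 v' w' d2).trans (b2 v w c2).symm
    rw [e2 _ (by omega)] at d5 d6
    have e3 : enc y i < enc y' i' + 1 := c3.lt_iff_lt.1 (c5.trans_lt d6)
    have e4 : enc y' i' < enc y i + 1 := c3.lt_iff_lt.1 (d5.trans_lt c6)
    obtain ⟨-, e5⟩ := Cond_enc_inj (show enc y i = enc y' i' by omega)
    obtain ⟨v1, hv1⟩ := hq'.2.2 (Ψ2 v)
    have e6 := a2 v1 w (c2.trans hv1.symm) (enc y0 L + 1) (by omega)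
    have e7 : enc y0 L + 1 < enc y i + 1 := c3.lt_iff_lt.1 (by omega)
    have e8 : enc y L = enc y0 L := Cond_enc_congr (c1.mono L.le_succ)
    have e9 : L < i := (Cond_enc_mono y).lt_iff_lt.1 (by omega)
    exact hL1 ((d1 L L.lt_succ_self).symm.trans ((e5 L e9).symm.trans (c1 L L.lt_succ_self)))
  obtain ⟨b, hb, hbad⟩ : ∃ b ∈ r.K, ¬ Bad b := by
    by_cases h0 : Bad y0
    · exact ⟨y1, hy1, fun h1 => hnb ⟨h0, h1⟩⟩
    · exact ⟨y0, hy0, h0⟩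
  refine ⟨⟨⟨q'.A, piece r.K (L + 1) b, q'.inf, r.perf.piece _ hb⟩, q'.p ∘ Ψ2, q'.mi.comp b1⟩,
    ⟨(hq'.trans hq).1, piece_sub _ _ _, (le_comp q'.p Ψ2).trans (hq'.trans hq).2.2⟩, j, hj1, n,
    hK _ _ ⟨q'.toOP, q'.p ∘ Ψ2, q'.mi.comp b1⟩ _ rfl rfl
      (hm _ _ _ _ hn (Cond.le_of Subset.rfl Subset.rfl (le_comp q'.p Ψ2))),
    fun y hy v w c2 c3 c4 i c5 => hbad ⟨y, hy.2, v, w, c2, c3, c4, i, c5⟩⟩

end Pool.Agent.B8F
end

-- merged part: Pool.Agent.Work.MP_b8a914_gt.F.DM0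
section
/-! Thinning a superperfect embedding of the Baire space. -/

namespace Pool.Agent.B8F
open Filter Topology

/-- running sums -/
def zf (y : ℕ → ℕ) (i : ℕ) : ℕ := ∑ j ∈ Finset.range (i + 1), (y j + 1)

theorem zf_mono (y : ℕ → ℕ) : StrictMono (zf y) := strictMono_nat_of_lt_succ fun i => by
  unfold zf; rw [Finset.sum_range_succ _ (i + 1)]; omega

theorem lt_zf (y : ℕ → ℕ) (i : ℕ) : y i < zf y i := by
  unfold zf; rw [Finset.sum_range_succ]; omega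

theorem cont_zf : Continuous zf := continuous_pi fun _ => by unfold zf; fun_prop

/-- `σ` is a superperfect embedding -/
def Sec (σ : (ℕ → ℕ) → ℕ → ℕ) : Prop :=
  ∀ y n, ∃ l, ∀ y1 y2, Ag n y1 y → Ag n y2 y →
    Ag l (σ y1) (σ y2) ∧ (σ y1 l = σ y2 l ↔ y1 n = y2 n)

theorem dm0_zf_congr {x x' : ℕ → ℕ} {l i : ℕ} (h : Ag l x x') (hi : i < l) : zf x i = zf x' i :=
  Finset.sum_congr rfl fun j hj => by
    rw [h j (by have := Finset.mem_range.1 hj; omega)]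

/-- test point: the first `n` values of `y`, then `m`, then zeros -/
def dm0tp (y : ℕ → ℕ) (n m : ℕ) : ℕ → ℕ := fun i => if i < n then y i else if i = n then m else 0

theorem dm0tp_ag (y : ℕ → ℕ) (n m : ℕ) : Ag n (dm0tp y n m) y := fun _ hi => if_pos hi

theorem dm0tp_at (y : ℕ → ℕ) (n m : ℕ) : dm0tp y n m n = m := by simp [dm0tp]

theorem dm0tp_congr {y y' : ℕ → ℕ} {n : ℕ} (h : Ag n y y') (m : ℕ) :
    dm0tp y n m = dm0tp y' n m := funext fun i => by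
  unfold dm0tp
  by_cases hi : i < n
  · rw [if_pos hi, if_pos hi, h i hi]
  · rw [if_neg hi, if_neg hi]

theorem dm0tp_self (y : ℕ → ℕ) (n : ℕ) : Ag (n + 1) (dm0tp y n (y n)) y :=
  (dm0tp_ag y n _).succ (dm0tp_at _ _ _)

/-- splitting length of the node given by the first `n` values of `y` -/
noncomputable def dm0len (σ : (ℕ → ℕ) → ℕ → ℕ) (y : ℕ → ℕ) (n : ℕ) : ℕ :=
  sInf {l | σ (dm0tp y n 0) l ≠ σ (dm0tp y n 1) l}

theorem dm0len_congr (σ : (ℕ → ℕ) → ℕ → ℕ) {y y' : ℕ → ℕ} {n : ℕ} (h : Ag n y y') :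
    dm0len σ y n = dm0len σ y' n := by
  unfold dm0len; rw [dm0tp_congr h, dm0tp_congr h]

theorem dm0len_spec {σ : (ℕ → ℕ) → ℕ → ℕ} (hσ : Sec σ) (y : ℕ → ℕ) (n : ℕ) :
    ∀ y1 y2, Ag n y1 y → Ag n y2 y →
      Ag (dm0len σ y n) (σ y1) (σ y2) ∧
        (σ y1 (dm0len σ y n) = σ y2 (dm0len σ y n) ↔ y1 n = y2 n) := by
  obtain ⟨l, hl⟩ := hσ y n
  have h := hl _ _ (dm0tp_ag y n 0) (dm0tp_ag y n 1)
  have h1 : σ (dm0tp y n 0) l ≠ σ (dm0tp y n 1) l := fun e => by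
    have := h.2.1 e
    rw [dm0tp_at, dm0tp_at] at this
    exact absurd this (by decide)
  have h2 : dm0len σ y n = l := by
    refine le_antisymm (Nat.sInf_le h1) ?_
    by_contra hc
    have h3 : dm0len σ y n ∈ {l | σ (dm0tp y n 0) l ≠ σ (dm0tp y n 1) l} := Nat.sInf_mem ⟨l, h1⟩
    exact h3 (h.1 _ (not_le.1 hc))
  rw [h2]; exact hl

theorem dm0len_ne {σ : (ℕ → ℕ) → ℕ → ℕ} (hσ : Sec σ) (y : ℕ → ℕ) (n : ℕ) :
    ∃ l, σ (dm0tp y n 0) l ≠ σ (dm0tp y n 1) l := by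
  refine ⟨dm0len σ y n, fun e => ?_⟩
  have := (dm0len_spec hσ y n _ _ (dm0tp_ag y n 0) (dm0tp_ag y n 1)).2.1 e
  rw [dm0tp_at, dm0tp_at] at this
  exact absurd this (by decide)

theorem dm0len_lt {σ : (ℕ → ℕ) → ℕ → ℕ} (hσ : Sec σ) (y : ℕ → ℕ) (n : ℕ) :
    dm0len σ y n < dm0len σ y (n + 1) := by
  have a0 := dm0tp_ag y (n + 1) 0
  have a1 := dm0tp_ag y (n + 1) 1
  have h1 := dm0len_spec hσ y n _ _ (a0.mono (Nat.le_succ n)) (a1.mono (Nat.le_succ n))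
  have h2 := dm0len_spec hσ y (n + 1) _ _ a0 a1
  have h3 : Ag (dm0len σ y n + 1) (σ (dm0tp y (n + 1) 0)) (σ (dm0tp y (n + 1) 1)) :=
    h1.1.succ (h1.2.2 ((a0 n (Nat.lt_succ_self n)).trans (a1 n (Nat.lt_succ_self n)).symm))
  by_contra hc
  have := h2.2.1 (h3 _ (by omega))
  rw [dm0tp_at, dm0tp_at] at this
  exact absurd this (by decide)

theorem dm0_unb {σ : (ℕ → ℕ) → ℕ → ℕ} (hσ : Sec σ) (y : ℕ → ℕ) (n a : ℕ) :
    ∃ m, a ≤ zf (σ (dm0tp y n m)) (dm0len σ y n) := by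
  have hi : Function.Injective fun m => σ (dm0tp y n m) (dm0len σ y n) := fun m m' e => by
    have := (dm0len_spec hσ y n _ _ (dm0tp_ag y n m) (dm0tp_ag y n m')).2.1 e
    rwa [dm0tp_at, dm0tp_at] at this
  obtain ⟨b, ⟨m, rfl⟩, hb⟩ := (Set.infinite_range_of_injective hi).exists_gt a
  exact ⟨m, (hb.trans (lt_zf _ _)).le⟩

/-- the node with number `j` -/
def dm0nd (j : ℕ) : ℕ → ℕ := fun i => (Denumerable.ofNat (List ℕ) j).getD i 0

/-- its length -/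
def dm0nl (j : ℕ) : ℕ := (Denumerable.ofNat (List ℕ) j).length

theorem dm0nd_ex (y : ℕ → ℕ) (n : ℕ) : ∃ j, dm0nl j = n ∧ Ag n (dm0nd j) y := by
  refine ⟨Encodable.encode (List.ofFn fun i : Fin n => y i), ?_, fun i hi => ?_⟩
  · simp [dm0nl]
  · simp [dm0nd, List.getD, hi]

/-- least successor whose first new value reaches `a` -/
noncomputable def dm0m (σ : (ℕ → ℕ) → ℕ → ℕ) (y : ℕ → ℕ) (n a : ℕ) : ℕ :=
  sInf {m | a ≤ zf (σ (dm0tp y n m)) (dm0len σ y n)}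

/-- bound for the new values of the successor `m` -/
noncomputable def dm0top (σ : (ℕ → ℕ) → ℕ → ℕ) (y : ℕ → ℕ) (n m : ℕ) : ℕ :=
  zf (σ (dm0tp y n m)) (dm0len σ (dm0tp y n m) (n + 1))

theorem dm0m_congr (σ : (ℕ → ℕ) → ℕ → ℕ) {y y' : ℕ → ℕ} {n : ℕ} (h : Ag n y y') (a : ℕ) :
    dm0m σ y n a = dm0m σ y' n a := by
  unfold dm0m
  simp only [dm0tp_congr h, dm0len_congr σ h]

theorem dm0top_congr (σ : (ℕ → ℕ) → ℕ → ℕ) {y y' : ℕ → ℕ} {n : ℕ} (h : Ag n y y') (m : ℕ) :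
    dm0top σ y n m = dm0top σ y' n m := by
  unfold dm0top
  rw [dm0tp_congr h]

/-- the interval partition attached to `σ` -/
noncomputable def dm0Pi (σ : (ℕ → ℕ) → ℕ → ℕ) : ℕ → ℕ
  | 0 => 0
  | k + 1 => dm0Pi σ k + 1 + ∑ j ∈ Finset.range (k + 1),
      dm0top σ (dm0nd j) (dm0nl j) (dm0m σ (dm0nd j) (dm0nl j) (dm0Pi σ k))

theorem dm0Pi_mono (σ : (ℕ → ℕ) → ℕ → ℕ) : StrictMono (dm0Pi σ) :=
  strictMono_nat_of_lt_succ fun k => by rw [dm0Pi]; omega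

theorem dm0Pi_top (σ : (ℕ → ℕ) → ℕ → ℕ) {j k : ℕ} (h : j ≤ k) :
    dm0top σ (dm0nd j) (dm0nl j) (dm0m σ (dm0nd j) (dm0nl j) (dm0Pi σ k)) < dm0Pi σ (k + 1) := by
  have := Finset.single_le_sum (f := fun j =>
      dm0top σ (dm0nd j) (dm0nl j) (dm0m σ (dm0nd j) (dm0nl j) (dm0Pi σ k)))
    (s := Finset.range (k + 1)) (fun _ _ => Nat.zero_le _) (Finset.mem_range.2 (Nat.lt_succ_of_le h))
  rw [dm0Pi]; omega

/-- strictly increasing hull -/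
def dm0eta (η : ℕ → ℕ) : ℕ → ℕ
  | 0 => η 0
  | k + 1 => max (η (k + 1)) (dm0eta η k + 1)

theorem dm0eta_mono (η : ℕ → ℕ) : StrictMono (dm0eta η) :=
  strictMono_nat_of_lt_succ fun k => by rw [dm0eta]; omega

theorem dm0eta_eq {η : ℕ → ℕ} (h : StrictMono η) : ∀ k, dm0eta η k = η k
  | 0 => rfl
  | k + 1 => by
    have := h (Nat.lt_succ_self k)
    rw [dm0eta, dm0eta_eq h k]
    exact max_eq_left this

theorem dm0_le_Pi (σ : (ℕ → ℕ) → ℕ → ℕ) (η : ℕ → ℕ) (k : ℕ) : k ≤ dm0Pi σ (dm0eta η k) :=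
  ((dm0Pi_mono σ).comp (dm0eta_mono η)).id_le k

/-- good successors -/
def dm0Gd (σ : (ℕ → ℕ) → ℕ → ℕ) (B : Set ℕ) (η : ℕ → ℕ) (y : ℕ → ℕ) (n m : ℕ) : Prop :=
  (∃ k, dm0Pi σ (dm0eta η k) ≤ zf (σ (dm0tp y n m)) (dm0len σ y n) ∧
      dm0top σ y n m < dm0Pi σ (dm0eta η k + 1)) ∧
    ∃ b ∈ B, (dm0len σ y n = 0 ∨ zf (σ (dm0tp y n m)) (dm0len σ y n - 1) ≤ b) ∧
      b < zf (σ (dm0tp y n m)) (dm0len σ y n)

theorem dm0Gd_congr (σ : (ℕ → ℕ) → ℕ → ℕ) (B : Set ℕ) (η : ℕ → ℕ) {y y' : ℕ → ℕ} {n : ℕ}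
    (h : Ag n y y') : dm0Gd σ B η y n = dm0Gd σ B η y' n := funext fun m => by
  unfold dm0Gd
  rw [dm0tp_congr h, dm0len_congr σ h, dm0top_congr σ h]

theorem dm0Gd_inf {σ : (ℕ → ℕ) → ℕ → ℕ} (hσ : Sec σ) {B : Set ℕ} (hB : B.Infinite) (η : ℕ → ℕ)
    (y : ℕ → ℕ) (n : ℕ) : {m | dm0Gd σ B η y n m}.Infinite := by
  refine Set.infinite_of_forall_exists_gt fun M => ?_
  obtain ⟨j, hj1, hj2⟩ := dm0nd_ex y n
  obtain ⟨b, hb, hb2⟩ := hB.exists_gt (zf (σ y) (dm0len σ y n - 1))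
  set S := ∑ m ∈ Finset.range (M + 1), zf (σ (dm0tp y n m)) (dm0len σ y n) with hS
  set k := j + b + S + 1 with hk
  have h1 := dm0_le_Pi σ η k
  have h2 : k ≤ dm0eta η k := (dm0eta_mono η).id_le k
  set a := dm0Pi σ (dm0eta η k) with ha
  have h3 : a ≤ zf (σ (dm0tp y n (dm0m σ y n a))) (dm0len σ y n) :=
    Nat.sInf_mem (s := {m | a ≤ zf (σ (dm0tp y n m)) (dm0len σ y n)}) (dm0_unb hσ y n a)
  have h4 := dm0Pi_top σ (j := j) (k := dm0eta η k) (by omega)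
  rw [hj1, dm0top_congr σ hj2, dm0m_congr σ hj2] at h4
  refine ⟨dm0m σ y n a, ⟨⟨k, h3, h4⟩, b, hb, ?_, by omega⟩, ?_⟩
  · rcases Nat.eq_zero_or_pos (dm0len σ y n) with h0 | h0
    · exact Or.inl h0
    · refine Or.inr ?_
      rw [dm0_zf_congr (dm0len_spec hσ y n _ _ (dm0tp_ag y n _) .rfl').1 (by omega)]
      exact hb2.le
  · by_contra hc
    have := Finset.single_le_sum (f := fun m => zf (σ (dm0tp y n m)) (dm0len σ y n))
      (s := Finset.range (M + 1)) (fun _ _ => Nat.zero_le _)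
      (Finset.mem_range.2 (Nat.lt_succ_of_le (not_lt.1 hc)))
    omega

/-- the nodes along the thinned branch -/
noncomputable def dm0N (σ : (ℕ → ℕ) → ℕ → ℕ) (B : Set ℕ) (η : ℕ → ℕ) (y : ℕ → ℕ) : ℕ → ℕ → ℕ
  | 0 => fun _ => 0
  | n + 1 => dm0tp (dm0N σ B η y n) n (Nat.nth (dm0Gd σ B η (dm0N σ B η y n) n) (y n))

/-- the thinning map -/
noncomputable def dm0Th (σ : (ℕ → ℕ) → ℕ → ℕ) (B : Set ℕ) (η : ℕ → ℕ) (y : ℕ → ℕ) (n : ℕ) : ℕ :=
  dm0N σ B η y (n + 1) n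

theorem dm0N_ag (σ : (ℕ → ℕ) → ℕ → ℕ) (B : Set ℕ) (η : ℕ → ℕ) (y : ℕ → ℕ) :
    ∀ n, Ag n (dm0N σ B η y n) (dm0Th σ B η y)
  | 0 => fun _ hi => absurd hi (Nat.not_lt_zero _)
  | n + 1 => ((dm0tp_ag _ n _).trans (dm0N_ag σ B η y n)).succ rfl

theorem dm0Th_eq (σ : (ℕ → ℕ) → ℕ → ℕ) (B : Set ℕ) (η : ℕ → ℕ) (y : ℕ → ℕ) (n : ℕ) :
    dm0Th σ B η y n = Nat.nth (dm0Gd σ B η (dm0N σ B η y n) n) (y n) := dm0tp_at _ _ _

theorem dm0N_congr (σ : (ℕ → ℕ) → ℕ → ℕ) (B : Set ℕ) (η : ℕ → ℕ) {y y' : ℕ → ℕ} :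
    ∀ n, Ag n y y' → dm0N σ B η y n = dm0N σ B η y' n
  | 0, _ => rfl
  | n + 1, h => by
    rw [dm0N, dm0N, dm0N_congr σ B η n (h.mono (Nat.le_succ n)), h n (Nat.lt_succ_self n)]

theorem dm0Th_gd {σ : (ℕ → ℕ) → ℕ → ℕ} (hσ : Sec σ) {B : Set ℕ} (hB : B.Infinite) (η : ℕ → ℕ)
    (y : ℕ → ℕ) (n : ℕ) : dm0Gd σ B η (dm0Th σ B η y) n (dm0Th σ B η y n) := by
  rw [← dm0Gd_congr σ B η (dm0N_ag σ B η y n), dm0Th_eq]
  exact Nat.nth_mem_of_infinite (dm0Gd_inf hσ hB η _ n) _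

theorem dm0_main {σ : (ℕ → ℕ) → ℕ → ℕ} (hσ : Sec σ) {B : Set ℕ} {η : ℕ → ℕ}
    (hη : StrictMono η) {w : ℕ → ℕ} (hw : ∀ n, dm0Gd σ B η w n (w n)) (i : ℕ)
    (hi : dm0len σ w 0 ≤ i) (hb : ∀ b ∈ B, ¬ (zf (σ w) i ≤ b ∧ b < zf (σ w) (i + 1))) :
    ∃ k, dm0Pi σ (η k) ≤ zf (σ w) i ∧ zf (σ w) (i + 1) ≤ dm0Pi σ (η k + 1) := by
  classical
  have hm : StrictMono (dm0len σ w) := strictMono_nat_of_lt_succ (dm0len_lt hσ w)
  have hz : ∀ n j, j < dm0len σ w (n + 1) → zf (σ (dm0tp w n (w n))) j = zf (σ w) j :=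
    fun n j hj => dm0_zf_congr (dm0len_spec hσ w (n + 1) _ _ (dm0tp_self w n) .rfl').1 hj
  have hex : ∃ n, i < dm0len σ w (n + 1) := ⟨i, hm.id_le (i + 1)⟩
  obtain ⟨n, hn1, hn2⟩ : ∃ n, dm0len σ w n ≤ i ∧ i < dm0len σ w (n + 1) := by
    refine ⟨Nat.find hex, ?_, Nat.find_spec hex⟩
    rcases h : Nat.find hex with _ | n
    · exact hi
    · exact not_lt.1 (Nat.find_min hex (by omega))
  rcases (Nat.succ_le_of_lt hn2).lt_or_eq with h | h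
  · obtain ⟨⟨k, h1, h2⟩, -⟩ := hw n
    rw [dm0eta_eq hη] at h1 h2
    rw [hz n _ (dm0len_lt hσ w n)] at h1
    refine ⟨k, h1.trans ((zf_mono _).monotone hn1), ?_⟩
    unfold dm0top at h2
    rw [dm0len_congr σ (dm0tp_self w n)] at h2
    rw [← hz n _ h]
    exact ((zf_mono _).monotone h.le).trans h2.le
  · obtain ⟨-, b, hbB, h1, h2⟩ := hw (n + 1)
    have h3 := dm0len_lt hσ w (n + 1)
    rw [hz (n + 1) _ h3] at h2
    rw [hz (n + 1) _ (by omega), ← h] at h1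
    rw [← h] at h2
    exact absurd ⟨h1.resolve_left (Nat.succ_ne_zero i), h2⟩ (hb b hbB)

section ev
variable {Z : Type} {F : Filter Z}

theorem dm0_ev_le {P : Z → ℕ → Prop} (N : ℕ) (h : ∀ m, ∀ᶠ z in F, P z m) :
    ∀ᶠ z in F, ∀ m ≤ N, P z m :=
  ((eventually_all_finite (l := F) (p := fun m z => P z m) (Set.finite_le_nat N)).2
    fun m _ => h m).mono fun _ hz m hm => hz m hm

theorem dm0_ev_sInf {P : Z → ℕ → Prop} {Q : ℕ → Prop} (hQ : ∃ m, Q m)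
    (h : ∀ m, ∀ᶠ z in F, (P z m ↔ Q m)) : ∀ᶠ z in F, sInf {m | P z m} = sInf {m | Q m} := by
  filter_upwards [dm0_ev_le (sInf {m | Q m}) h] with z hz
  have h1 : Q (sInf {m | Q m}) := Nat.sInf_mem (s := {m | Q m}) hQ
  have h2 : P z (sInf {m | Q m}) := (hz _ le_rfl).2 h1
  have h3 : sInf {m | P z m} ≤ sInf {m | Q m} := Nat.sInf_le h2
  have h4 : P z (sInf {m | P z m}) := Nat.sInf_mem (s := {m | P z m}) ⟨_, h2⟩
  exact le_antisymm h3 (Nat.sInf_le ((hz _ h3).1 h4))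

theorem dm0_ev_nth {P : Z → ℕ → Prop} {Q : ℕ → Prop} (hQ : {m | Q m}.Infinite)
    (h : ∀ m, ∀ᶠ z in F, (P z m ↔ Q m)) (n : ℕ) :
    ∀ᶠ z in F, Nat.nth (P z) n = Nat.nth Q n := by
  classical
  filter_upwards [dm0_ev_le (Nat.nth Q n) h] with z hz
  have h1 : P z (Nat.nth Q n) := (hz _ le_rfl).2 (Nat.nth_mem_of_infinite hQ n)
  have h2 : Nat.count (P z) (Nat.nth Q n) = n := by
    refine Eq.trans ?_ (Nat.count_nth_of_infinite hQ n)
    rw [Nat.count_eq_card_filter_range, Nat.count_eq_card_filter_range]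
    exact congrArg _ (Finset.filter_congr fun m hm => hz m (Finset.mem_range.1 hm).le)
  have h3 := Nat.nth_count h1
  rwa [h2] at h3

variable {σ : Z → (ℕ → ℕ) → ℕ → ℕ} {τ : (ℕ → ℕ) → ℕ → ℕ}

theorem dm0_ev_zf (h : ∀ y i, ∀ᶠ z in F, σ z y i = τ y i) (y : ℕ → ℕ) (i : ℕ) :
    ∀ᶠ z in F, zf (σ z y) i = zf (τ y) i :=
  (ev_ag (x := fun z => σ z y) (y := fun _ => τ y) (i + 1) fun j _ => h y j).mono
    fun _ hz => dm0_zf_congr hz (Nat.lt_succ_self i)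

theorem dm0_ev_len (hτ : Sec τ) (h : ∀ y i, ∀ᶠ z in F, σ z y i = τ y i) (y : ℕ → ℕ) (n : ℕ) :
    ∀ᶠ z in F, dm0len (σ z) y n = dm0len τ y n := by
  refine dm0_ev_sInf (P := fun z l => σ z (dm0tp y n 0) l ≠ σ z (dm0tp y n 1) l)
    (dm0len_ne hτ y n) fun l => ?_
  filter_upwards [h (dm0tp y n 0) l, h (dm0tp y n 1) l] with z h1 h2
  rw [h1, h2]

theorem dm0_ev_m (hτ : Sec τ) (h : ∀ y i, ∀ᶠ z in F, σ z y i = τ y i) (y : ℕ → ℕ) (n a : ℕ) :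
    ∀ᶠ z in F, dm0m (σ z) y n a = dm0m τ y n a := by
  refine dm0_ev_sInf (P := fun z m => a ≤ zf (σ z (dm0tp y n m)) (dm0len (σ z) y n))
    (dm0_unb hτ y n a) fun m => ?_
  filter_upwards [dm0_ev_len hτ h y n, dm0_ev_zf h (dm0tp y n m) (dm0len τ y n)] with z h1 h2
  rw [h1, h2]

theorem dm0_ev_top (hτ : Sec τ) (h : ∀ y i, ∀ᶠ z in F, σ z y i = τ y i) (y : ℕ → ℕ) (n m : ℕ) :
    ∀ᶠ z in F, dm0top (σ z) y n m = dm0top τ y n m := by
  filter_upwards [dm0_ev_len hτ h (dm0tp y n m) (n + 1),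
    dm0_ev_zf h (dm0tp y n m) (dm0len τ (dm0tp y n m) (n + 1))] with z h1 h2
  unfold dm0top
  rw [h1, h2]

theorem dm0_ev_Pi (hτ : Sec τ) (h : ∀ y i, ∀ᶠ z in F, σ z y i = τ y i) :
    ∀ k, ∀ᶠ z in F, dm0Pi (σ z) k = dm0Pi τ k
  | 0 => Eventually.of_forall fun _ => rfl
  | k + 1 => by
    filter_upwards [dm0_ev_Pi hτ h k,
      dm0_ev_le k fun j => dm0_ev_m hτ h (dm0nd j) (dm0nl j) (dm0Pi τ k),
      dm0_ev_le k fun j => dm0_ev_top hτ h (dm0nd j) (dm0nl j)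
        (dm0m τ (dm0nd j) (dm0nl j) (dm0Pi τ k))] with z h1 h2 h3
    rw [dm0Pi, dm0Pi, h1]
    refine congrArg _ (Finset.sum_congr rfl fun j hj => ?_)
    have hj' := Nat.le_of_lt_succ (Finset.mem_range.1 hj)
    rw [h2 j hj', h3 j hj']

variable {η : Z → ℕ → ℕ} {θ : ℕ → ℕ}

theorem dm0_ev_eta (h : ∀ i, ∀ᶠ z in F, η z i = θ i) :
    ∀ k, ∀ᶠ z in F, dm0eta (η z) k = dm0eta θ k
  | 0 => h 0
  | k + 1 => by
    filter_upwards [dm0_ev_eta h k, h (k + 1)] with z h1 h2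
    rw [dm0eta, dm0eta, h1, h2]

theorem dm0_ev_Gd (hτ : Sec τ) (h : ∀ y i, ∀ᶠ z in F, σ z y i = τ y i)
    (h' : ∀ i, ∀ᶠ z in F, η z i = θ i) (B : Set ℕ) (y : ℕ → ℕ) (n m : ℕ) :
    ∀ᶠ z in F, (dm0Gd (σ z) B (η z) y n m ↔ dm0Gd τ B θ y n m) := by
  filter_upwards [dm0_ev_len hτ h y n, dm0_ev_zf h (dm0tp y n m) (dm0len τ y n),
    dm0_ev_zf h (dm0tp y n m) (dm0len τ y n - 1), dm0_ev_top hτ h y n m,
    dm0_ev_le (zf (τ (dm0tp y n m)) (dm0len τ y n)) (dm0_ev_eta h'),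
    dm0_ev_le (zf (τ (dm0tp y n m)) (dm0len τ y n)) fun k => dm0_ev_Pi hτ h (dm0eta θ k),
    dm0_ev_le (zf (τ (dm0tp y n m)) (dm0len τ y n)) fun k => dm0_ev_Pi hτ h (dm0eta θ k + 1)]
    with z h1 h2 h3 h4 h5 h6 h7
  unfold dm0Gd
  rw [h1, h2, h3, h4]
  refine and_congr_left fun _ => ⟨fun ⟨k, a, b⟩ => ⟨k, ?_⟩, fun ⟨k, a, b⟩ => ⟨k, ?_⟩⟩
  · have hk := (dm0_le_Pi _ _ k).trans a
    rw [h5 k hk, h6 k hk] at a
    rw [h5 k hk, h7 k hk] at b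
    exact ⟨a, b⟩
  · have hk := (dm0_le_Pi _ _ k).trans a
    rw [h5 k hk, h6 k hk, h7 k hk]
    exact ⟨a, b⟩

theorem dm0_ev_N (hτ : Sec τ) (h : ∀ y i, ∀ᶠ z in F, σ z y i = τ y i)
    (h' : ∀ i, ∀ᶠ z in F, η z i = θ i) {B : Set ℕ} (hB : B.Infinite) {y : Z → ℕ → ℕ} {x : ℕ → ℕ}
    (hy : ∀ i, ∀ᶠ z in F, y z i = x i) :
    ∀ n, ∀ᶠ z in F, dm0N (σ z) B (η z) (y z) n = dm0N τ B θ x n
  | 0 => Eventually.of_forall fun _ => rfl
  | n + 1 => by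
    filter_upwards [dm0_ev_N hτ h h' hB hy n, hy n,
      dm0_ev_nth (P := fun z => dm0Gd (σ z) B (η z) (dm0N τ B θ x n) n)
        (dm0Gd_inf hτ hB θ (dm0N τ B θ x n) n) (dm0_ev_Gd hτ h h' B _ n) (x n)] with z h1 h2 h3
    rw [dm0N, dm0N, h1, h2, h3]

end ev

theorem dm0 : ∃ (PiOf : ((ℕ → ℕ) → ℕ → ℕ) → ℕ → ℕ)
    (Th : ((ℕ → ℕ) → ℕ → ℕ) → Set ℕ → (ℕ → ℕ) → (ℕ → ℕ) → ℕ → ℕ),
    (∀ σ, StrictMono (PiOf σ)) ∧
    (∀ (Z : Type) [TopologicalSpace Z] (σ : Z → (ℕ → ℕ) → ℕ → ℕ), (∀ z, Sec (σ z)) →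
      (∀ y, Continuous fun z => σ z y) → (Continuous fun z => PiOf (σ z)) ∧
      ∀ B : Set ℕ, B.Infinite → ∀ η : Z → ℕ → ℕ, Continuous η →
        Continuous fun q : Z × (ℕ → ℕ) => Th (σ q.1) B (η q.1) q.2) ∧
    ∀ σ B η, Sec σ → B.Infinite →
      (∀ n y y', Ag n y y' → Ag n (Th σ B η y) (Th σ B η y') ∧
        (Th σ B η y n = Th σ B η y' n ↔ y n = y' n)) ∧
      (StrictMono η → ∀ y, ∃ i0, ∀ i, i0 ≤ i →
        (∀ b ∈ B, ¬ (zf (σ (Th σ B η y)) i ≤ b ∧ b < zf (σ (Th σ B η y)) (i + 1))) →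
        ∃ k, PiOf σ (η k) ≤ zf (σ (Th σ B η y)) i ∧
          zf (σ (Th σ B η y)) (i + 1) ≤ PiOf σ (η k + 1)) := by
  refine ⟨dm0Pi, dm0Th, dm0Pi_mono, fun Z _ σ hσ hc => ⟨?_, fun B hB η hη => ?_⟩,
    fun σ B η hσ hB => ⟨fun n y y' h => ⟨?_, ?_⟩, fun hη y => ⟨_, fun i hi hb =>
      dm0_main hσ hη (dm0Th_gd hσ hB η y) i hi hb⟩⟩⟩
  · exact cont_seq.2 fun z0 k => dm0_ev_Pi (hσ z0) (fun y i => cont_seq.1 (hc y) z0 i) k
  · refine cont_seq.2 fun q0 n => ?_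
    have := dm0_ev_N (F := 𝓝 q0) (σ := fun q : Z × (ℕ → ℕ) => σ q.1) (η := fun q => η q.1)
      (y := fun q => q.2) (hσ q0.1)
      (fun y i => cont_seq.1 ((hc y).comp continuous_fst) q0 i)
      (fun i => cont_seq.1 (hη.comp continuous_fst) q0 i) hB
      (fun i => cont_seq.1 continuous_snd q0 i) (n + 1)
    exact this.mono fun q hq => congrFun hq n
  · have h1 := dm0N_ag σ B η y n
    rw [dm0N_congr σ B η n h] at h1
    exact h1.symm.trans (dm0N_ag σ B η y' n)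
  · rw [dm0Th_eq, dm0Th_eq, dm0N_congr σ B η n h]
    exact (Nat.nth_injective (dm0Gd_inf hσ hB η _ n)).eq_iff

end Pool.Agent.B8F
end

-- merged part: Pool.Agent.Work.MP_b8a914_gt.F.Cl
section
/-! The index set, counting of maps with countable support, closure points. -/

namespace Pool.Agent.B8F
open Cardinal

/-- the successor of the continuum with a top point -/
abbrev II : Type := WithTop (Order.succ continuum.{0}).ord.ToType

instance : Nonempty (Order.succ continuum.{0}).ord.ToType :=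
  Ordinal.nonempty_toType_iff.2 (by
    rw [Ne, Cardinal.ord_eq_zero]; exact (lt_of_le_of_lt zero_le (Order.lt_succ _)).ne')

noncomputable instance : OrderBot (Order.succ continuum.{0}).ord.ToType :=
  WellFoundedLT.toOrderBot _

theorem Cl_dep {I Z : Type} [TopologicalSpace Z] [T2Space Z] (hZ : #Z ≤ continuum) {s : Set I}
    (hs : s.Countable) : #{g : Pt I → Z | Continuous g ∧ DepOn s g} ≤ continuum := by
  classical
  have : Countable s := hs.to_subtype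
  let ex : (s → ℕ → ℕ) → Pt I := fun x γ => if h : γ ∈ s then x ⟨γ, h⟩ else 0
  have hex : Continuous ex := by
    refine continuous_pi fun γ => ?_
    by_cases h : γ ∈ s
    · simp only [ex, dif_pos h]
      exact continuous_apply _
    · simp only [ex, dif_neg h]
      exact continuous_const
  have hd := TopologicalSpace.denseRange_denseSeq (s → ℕ → ℕ)
  have hinj : Function.Injective fun (g : {g : Pt I → Z | Continuous g ∧ DepOn s g}) (n : ℕ) =>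
      g.1 (ex (TopologicalSpace.denseSeq (s → ℕ → ℕ) n)) := by
    intro g g' e
    have h1 : g.1 ∘ ex = g'.1 ∘ ex := hd.equalizer (g.2.1.comp hex) (g'.2.1.comp hex) e
    refine Subtype.ext (funext fun u => ?_)
    have h2 : ∀ γ ∈ s, u γ = ex (fun γ => u γ.1) γ := fun γ h => by simp only [ex, dif_pos h]
    rw [g.2.2 _ _ h2, g'.2.2 _ _ h2]
    exact congrFun h1 fun γ => u γ.1
  refine (mk_le_of_injective hinj).trans ?_
  rw [← power_def, mk_nat, ← continuum_power_aleph0]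
  exact power_le_power_right hZ

theorem Cl_seq : #(ℕ → ℕ) ≤ continuum := by
  rw [← power_def, mk_nat, ← continuum_power_aleph0]
  exact power_le_power_right aleph0_le_continuum

theorem Cl_union {ι α : Type} {κ : Cardinal.{0}} (hκ : ℵ₀ ≤ κ) (A : ι → Set α) (S : Set ι)
    (hS : #S ≤ κ) (hA : ∀ i ∈ S, #(A i) ≤ κ) : #(⋃ i ∈ S, A i) ≤ κ := by
  refine (mk_biUnion_le A S).trans ?_
  rw [← mul_eq_self hκ]
  exact mul_le_mul' hS (ciSup_le' fun i => hA i.1 i.2)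

theorem Cl_Iio0 {κ : Cardinal.{0}} (t : (Order.succ κ).ord.ToType) : #(Set.Iio t) ≤ κ :=
  Order.lt_succ_iff.1 (by simpa using mk_Iio_lt t)

theorem Cl_bdd {κ : Cardinal.{0}} (hκ : ℵ₀ ≤ κ) (S : Set (Order.succ κ).ord.ToType)
    (hS : #S ≤ κ) : ∃ b, ∀ t ∈ S, t < b := by
  by_contra hn
  push Not at hn
  have h1 : (⋃ t ∈ S, insert t (Set.Iio t)) = Set.univ := by
    refine Set.eq_univ_of_forall fun b => ?_
    obtain ⟨t, ht, hb⟩ := hn b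
    exact Set.mem_biUnion ht (hb.eq_or_lt.imp id id)
  have h2 := Cl_union hκ (fun t => insert t (Set.Iio t)) S hS fun t _ => by
    exact mk_insert_le.trans ((add_le_add (Cl_Iio0 t) (one_le_aleph0.trans hκ)).trans
      (add_eq_self hκ).le)
  rw [h1, mk_univ, mk_ord_toType] at h2
  exact absurd h2 (not_le.2 (Order.lt_succ κ))

theorem Cl_bdd' (s : Set II) (hs : #s ≤ continuum) :
    ∃ α : II, α < ⊤ ∧ ∀ γ ∈ s, γ < ⊤ → γ < α := by
  obtain ⟨b, hb⟩ := Cl_bdd aleph0_le_continuum (WithTop.some ⁻¹' s)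
    ((mk_preimage_of_injective _ _ WithTop.coe_injective).trans hs)
  refine ⟨b, WithTop.coe_lt_top b, fun γ hγ hlt => ?_⟩
  lift γ to (Order.succ continuum.{0}).ord.ToType using hlt.ne
  exact WithTop.coe_lt_coe.2 (hb γ hγ)

theorem Cl_Iio {a : II} (ha : a < ⊤) : #(Set.Iio a) ≤ continuum := by
  lift a to (Order.succ continuum.{0}).ord.ToType using ha.ne
  rw [← WithTop.image_coe_Iio]
  exact mk_image_le.trans (Cl_Iio0 a)

theorem card_supp {I : Type} {s : Set I} (hs : s.Countable) :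
    #{p : Pt I → Pt I | Continuous p ∧ Supp s p} ≤ continuum := by
  have : Countable s := hs.to_subtype
  have hZ : #(s → ℕ → ℕ) ≤ continuum := by
    rw [← power_def, ← continuum_power_aleph0]
    exact (power_le_power_right Cl_seq).trans (power_le_power_left continuum_ne_zero mk_le_aleph0)
  refine le_trans (mk_le_of_injective (f := fun p => ⟨fun u γ => p.1 u γ.1,
    continuous_pi fun γ => (continuous_apply γ.1).comp p.2.1,
    fun u v huv => funext fun γ => p.2.2.2 u v huv γ.1 γ.2⟩) fun p p' e => ?_) (Cl_dep hZ hs)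
  refine Subtype.ext (funext fun u => funext fun γ => ?_)
  by_cases h : γ ∈ s
  · exact congrFun (congrFun (congrArg Subtype.val e) u) ⟨γ, h⟩
  · rw [p.2.2.1 u γ h, p'.2.2.1 u γ h]

theorem card_dep {I : Type} {s : Set I} (hs : s.Countable) :
    #{g : Pt I → ℕ → ℕ | Continuous g ∧ DepOn s g} ≤ continuum := by
  exact Cl_dep Cl_seq hs

theorem exists_bound {s : Set II} (hs : s.Countable) :
    ∃ α : II, α < ⊤ ∧ ∀ γ ∈ s, γ < ⊤ → γ < α := by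
  exact Cl_bdd' s ((le_aleph0_iff_set_countable.2 hs).trans aleph0_le_continuum)

theorem closure_pt {T : Type} (Sp : Set II → T → Prop)
    (hc : ∀ s : Set II, s.Countable → #{t | Sp s t} ≤ continuum) (w : T → II)
    (hw : ∀ t, w t < ⊤) (α0 : II) (h0 : α0 < ⊤) :
    ∃ α : II, α0 < α ∧ α < ⊤ ∧
      ∀ s : Set II, s.Countable → s ⊆ Set.Iio α → ∀ t, Sp s t → w t ≤ α := by
  have hF : ∀ a : II, ∃ b : II, a < ⊤ → b < ⊤ ∧
      ∀ s : Set II, s.Countable → s ⊆ Set.Iio a → ∀ t, Sp s t → w t < b := by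
    intro a
    by_cases ha : a < ⊤
    · have h1 : #{s : Set II | s ⊆ Set.Iio a ∧ #s ≤ ℵ₀} ≤ continuum := by
        refine (mk_bounded_subset_le (Set.Iio a) ℵ₀).trans ?_
        exact (power_le_power_right (max_le (Cl_Iio ha) aleph0_le_continuum)).trans
          continuum_power_aleph0.le
      have h2 := Cl_union aleph0_le_continuum (fun s => {t | Sp s t}) _ h1
        fun s h => hc s (le_aleph0_iff_set_countable.1 h.2)
      obtain ⟨b, hb, hb'⟩ := Cl_bdd' (w '' _) (mk_image_le.trans h2)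
      refine ⟨b, fun _ => ⟨hb, fun s hs hsa t ht => hb' _ ⟨t, ?_, rfl⟩ (hw t)⟩⟩
      exact Set.mem_biUnion (x := s) ⟨hsa, le_aleph0_iff_set_countable.2 hs⟩ ht
    · exact ⟨a, fun h => absurd h ha⟩
  choose F hF using hF
  have hB : ∀ s : Set II, ∃ α : II, α < ⊤ ∧ (#s ≤ continuum → ∀ γ ∈ s, γ < ⊤ → γ < α) := by
    intro s
    by_cases h : #s ≤ continuum
    · obtain ⟨α, h1, h2⟩ := Cl_bdd' s h
      exact ⟨α, h1, fun _ => h2⟩
    · exact ⟨α0, h0, fun h' => absurd h' h⟩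
  choose B hB1 hB2 using hB
  let W := (Order.succ ℵ₀).ord.ToType
  have hW : #W ≤ continuum := by
    rw [mk_ord_toType]
    exact Order.succ_le_of_lt aleph0_lt_continuum
  let a : W → II := (wellFounded_lt (α := W)).fix fun ξ r =>
    B (insert α0 ((Set.range fun η : Set.Iio ξ => r η.1 η.2) ∪
      Set.range fun η : Set.Iio ξ => F (r η.1 η.2)))
  have ha : ∀ ξ, a ξ = B (insert α0 ((Set.range fun η : Set.Iio ξ => a η.1) ∪
      Set.range fun η : Set.Iio ξ => F (a η.1))) := fun ξ => WellFounded.fix_eq _ _ _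
  have hat : ∀ ξ, a ξ < ⊤ := fun ξ => by rw [ha]; exact hB1 _
  have hlt : ∀ ξ, ∀ γ ∈ insert α0 ((Set.range fun η : Set.Iio ξ => a η.1) ∪
      Set.range fun η : Set.Iio ξ => F (a η.1)), γ < ⊤ → γ < a ξ := by
    intro ξ
    rw [ha ξ]
    refine hB2 _ (mk_insert_le.trans ?_)
    have h1 : #(Set.Iio ξ) ≤ continuum := (mk_set_le _).trans hW
    rw [← add_eq_self aleph0_le_continuum]
    refine add_le_add ((mk_union_le _ _).trans ?_) (one_le_aleph0.trans aleph0_le_continuum)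
    rw [← add_eq_self aleph0_le_continuum]
    exact add_le_add (mk_range_le.trans h1) (mk_range_le.trans h1)
  obtain ⟨b, hb, hb'⟩ := Cl_bdd' (Set.range a) (mk_range_le.trans hW)
  have hne : {b : II | ∀ ξ, a ξ ≤ b}.Nonempty := ⟨b, fun ξ => (hb' _ ⟨ξ, rfl⟩ (hat ξ)).le⟩
  have hm := (wellFounded_lt (α := II)).min_mem _ hne
  have hmin := fun x (hx : x ∈ {b : II | ∀ ξ, a ξ ≤ b}) =>
    (wellFounded_lt (α := II)).not_lt_min _ hx
  obtain ⟨ξ0, -⟩ := Cl_bdd le_rfl (∅ : Set W) (by simp)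
  refine ⟨_, (hlt ξ0 α0 (Set.mem_insert _ _) h0).trans_le (hm ξ0),
    (not_lt.1 (hmin b fun ξ => (hb' _ ⟨ξ, rfl⟩ (hat ξ)).le)).trans_lt hb, fun s hs hsa t ht => ?_⟩
  have h1 : ∀ γ : s, ∃ ξ, γ.1 < a ξ := by
    intro γ
    by_contra hn
    push Not at hn
    exact hmin γ.1 hn (hsa γ.2)
  choose x hx using h1
  have : Countable s := hs.to_subtype
  obtain ⟨ξ1, h1⟩ := Cl_bdd le_rfl (Set.range x) (mk_range_le.trans mk_le_aleph0)
  obtain ⟨ξ2, h2⟩ := Cl_bdd le_rfl ({ξ1} : Set W) (by simp)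
  have h3 : s ⊆ Set.Iio (a ξ1) := fun γ hγ => (hx ⟨γ, hγ⟩).trans
    (hlt ξ1 _ (Or.inr (Or.inl ⟨⟨x ⟨γ, hγ⟩, h1 _ ⟨_, rfl⟩⟩, rfl⟩)) (hat _))
  have h4 := hF (a ξ1) (hat ξ1)
  exact ((h4.2 s hs h3 t ht).trans
    (hlt ξ2 _ (Or.inr (Or.inr ⟨⟨ξ1, h2 _ rfl⟩, rfl⟩)) h4.1)).le.trans (hm ξ2)

noncomputable example : LinearOrder II := inferInstance
example : WellFoundedLT II := inferInstance
noncomputable example : OrderBot II := inferInstance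
noncomputable example : OrderTop II := inferInstance

end Pool.Agent.B8F
end

-- merged part: Pool.Agent.Work.MP_b8a914_gt.F.MBase
section
/-! Natural numbers, function types and element types in the calculus of coded types. -/

set_option linter.unusedSectionVars false

namespace Pool.Agent.B8F
open Pool.Agent.Lib.ZFModel Pool.Agent.Work.MP_63c7e0_lc

set_option synthInstance.maxSize 100000

variable {M : Type 1} {E : M → M → Prop} [hE : Fact (IsZFC E)]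
variable {T T' T'' : Type} [CT E T] [CT E T'] [CT E T'']

/-- `a` is the set of the codes of `T` -/
def Is (E : M → M → Prop) (T : Type) [CT E T] (a : M) : Prop :=
  ∀ x, E x a ↔ ∃ t : T, CT.code E t = x

omit hE in
theorem exists_is (E : M → M → Prop) (T : Type) [CT E T] : ∃ a, Is E T a :=
  let ⟨a, ha⟩ := CT.set (E := E) (T := T); ⟨a, ha⟩

/-- `φ` is the function `f` of `M` -/
def Rep (E : M → M → Prop) {T T' : Type} [CT E T] [CT E T'] (f : M) (φ : T → T') : Prop :=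
  ∀ x y, App E f x y ↔ ∃ t, x = CT.code E t ∧ y = CT.code E (φ t)

theorem rep_of_isFun {f a b : M} (ha : Is E T a) (hb : Is E T' b) (hf : IsFun E f a b) :
    ∃ φ : T → T', CF E φ ∧ Rep E f φ := by
  have h1 : ∀ t : T, ∃ t' : T', App E f (CT.code E t) (CT.code E t') := fun t => by
    obtain ⟨y, hy⟩ := hf.2.1 _ ((ha _).2 ⟨t, rfl⟩)
    obtain ⟨t', rfl⟩ := (hb y).1 (hf.mem (zf' E) hy).2
    exact ⟨t', hy⟩
  choose φ hφ using h1
  have h2 : Rep E f φ := fun x y => ⟨fun h => by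
    obtain ⟨t, rfl⟩ := (ha x).1 (hf.mem (zf' E) h).1
    exact ⟨t, rfl, hf.2.2 _ _ _ h (hφ t)⟩, by rintro ⟨t, rfl, rfl⟩; exact hφ t⟩
  refine ⟨φ, ⟨⟨f, fun p => ⟨fun h => ?_, fun h => ?_⟩⟩⟩, h2⟩
  · obtain ⟨q, hq, h3⟩ := hφ p.1
    rw [isPair_iff.1 h3, ← h] at hq
    exact hq
  · obtain ⟨t, h3, h4⟩ := (h2 _ _).1 ⟨_, h, isPair_pr _ _⟩
    rw [CT.inj h3]; exact CT.inj h4

theorem isFun_of_cf {a b : M} (ha : Is E T a) (hb : Is E T' b) (φ : T → T') [h : CF E φ] :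
    ∃ f, IsFun E f a b ∧ Rep E f φ := by
  obtain ⟨f, hf⟩ := cs_iff_coded.1 h.out
  have h2 : Rep E f φ := fun x y => ⟨fun ⟨q, hq, h3⟩ => by
    obtain ⟨⟨t, t'⟩, (rfl : t' = φ t), rfl⟩ := (hf q).1 hq
    exact ⟨t, (pr_inj.1 (isPair_iff.1 h3)).1.symm, (pr_inj.1 (isPair_iff.1 h3)).2.symm⟩, by
    rintro ⟨t, rfl, rfl⟩
    exact ⟨_, (hf _).2 ⟨(t, φ t), rfl, rfl⟩, isPair_pr _ _⟩⟩
  refine ⟨f, ⟨fun q hq => ?_, fun x hx => ?_, fun x y y' h3 h4 => ?_⟩, h2⟩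
  · obtain ⟨⟨t, t'⟩, -, rfl⟩ := (hf q).1 hq
    exact ⟨_, _, (ha _).2 ⟨t, rfl⟩, (hb _).2 ⟨t', rfl⟩, isPair_pr _ _⟩
  · obtain ⟨t, rfl⟩ := (ha x).1 hx
    exact ⟨_, (h2 _ _).2 ⟨t, rfl, rfl⟩⟩
  · obtain ⟨t, rfl, rfl⟩ := (h2 _ _).1 h3
    obtain ⟨s, h5, rfl⟩ := (h2 _ _).1 h4
    rw [CT.inj h5]

/-- members of the code of a coded subset -/
theorem E_code_pw (U : PW E T) (x : M) : E x (CT.code E U) ↔ ∃ t ∈ U.1, CT.code E t = x :=
  (cs_iff_coded.1 U.2).choose_spec x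

/-- a subset of a coded type is the code of a coded subset -/
theorem pw_of_sub {a Y : M} (ha : Is E T a) (hY : Sub E Y a) :
    ∃ U : PW E T, CT.code E U = Y := by
  have hx : CS E fun t : T => t ∈ {t | E (CT.code E t) Y} := ⟨Y, fun _ => Iff.rfl⟩
  refine ⟨⟨_, hx⟩, (zf' E).extensionality _ _ fun y => (E_code_pw _ _).trans
    ⟨fun ⟨t, ht, e⟩ => e ▸ ht, fun hy => ?_⟩⟩
  obtain ⟨t, rfl⟩ := (ha y).1 (hY y hy)
  exact ⟨t, hy, rfl⟩

theorem CS.of_finite {U : Set T} (h : U.Finite) : CS E fun t => t ∈ U := by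
  obtain ⟨F, hF⟩ := exists_finite_set (zf' E) (h.image (CT.code E))
  exact ⟨F, fun t => by rw [hF, CT.inj.mem_set_image]⟩

instance CF.ite (Q : T → Prop) [DecidablePred Q] [CS E Q] (f g : T → T') [CF E f] [CF E g] :
    CF E fun t => if Q t then f t else g t := by
  have h1 : CF E fun p : T × T' => f p.1 := CF.comp f fun p : T × T' => p.1
  have h2 : CF E fun p : T × T' => g p.1 := CF.comp g fun p : T × T' => p.1
  have h3 : CS E fun p : T × T' => Q p.1 := CS.comp inferInstance fun p : T × T' => p.1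
  refine CF.of_rel (fun t y => (Q t ∧ y = f t) ∨ (¬ Q t ∧ y = g t)) fun t y => ?_
  by_cases h : Q t <;> simp [h]

variable (E T T') in
/-- the coded functions -/
abbrev FN : Type := {f : T → T' // CF E f}

/-- the graph of a coded function -/
def FN.gr (f : FN E T T') : PW E (T × T') := ⟨{p | p.2 = f.1 p.1}, f.2.out⟩

noncomputable instance CT.fn : CT E (FN E T T') where
  code f := CT.code E f.gr
  inj := fun f g h => Subtype.ext (funext fun t => by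
    have h1 : f.gr = g.gr := CT.inj h
    have h2 : (t, f.1 t) ∈ g.gr.1 := h1 ▸ (rfl : (t, f.1 t) ∈ f.gr.1)
    exact h2)
  set := by
    have h : CS E fun U : PW E (T × T') => ∃ f : FN E T T', f.gr = U := by
      refine (inferInstance : CS E fun U : PW E (T × T') => (∀ t, ∃ y, (t, y) ∈ U.1) ∧
        ∀ t y y', (t, y) ∈ U.1 → (t, y') ∈ U.1 → y = y').congr fun U => ⟨?_, fun ⟨h1, h2⟩ => ?_⟩
      · rintro ⟨f, rfl⟩
        exact ⟨fun t => ⟨f.1 t, rfl⟩, fun t y y' (a : y = f.1 t) (b : y' = f.1 t) => a.trans b.symm⟩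
      · choose f hf using h1
        have e : ∀ p : T × T', p.2 = f p.1 ↔ p ∈ U.1 := fun p =>
          ⟨fun h => by have := hf p.1; rwa [← h] at this, fun h => h2 p.1 _ _ h (hf p.1)⟩
        exact ⟨⟨f, ⟨U.2.congr e⟩⟩, Subtype.ext (Set.ext e)⟩
    obtain ⟨a, ha⟩ := cs_iff_coded.1 h
    refine ⟨a, fun x => (ha x).trans ⟨?_, ?_⟩⟩
    · rintro ⟨_, ⟨f, rfl⟩, rfl⟩; exact ⟨f, rfl⟩
    · rintro ⟨f, rfl⟩; exact ⟨_, ⟨f, rfl⟩, rfl⟩

theorem E_code_fn (f : FN E T T') (x : M) :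
    E x (CT.code E f) ↔ ∃ t, x = pr E (CT.code E t) (CT.code E (f.1 t)) :=
  (E_code_pw f.gr x).trans ⟨by rintro ⟨⟨t, _⟩, (rfl : _ = f.1 t), rfl⟩; exact ⟨t, rfl⟩,
    by rintro ⟨t, rfl⟩; exact ⟨(t, f.1 t), rfl, rfl⟩⟩

theorem rep_code_fn (f : FN E T T') : Rep E (CT.code E f) f.1 := fun x y =>
  ⟨fun ⟨q, hq, h⟩ => by
    obtain ⟨t, rfl⟩ := (E_code_fn f q).1 hq
    exact ⟨t, (pr_inj.1 (isPair_iff.1 h)).1.symm, (pr_inj.1 (isPair_iff.1 h)).2.symm⟩,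
  by rintro ⟨t, rfl, rfl⟩; exact ⟨_, (E_code_fn f _).2 ⟨t, rfl⟩, isPair_pr _ _⟩⟩

instance CF.fnval (f : FN E T T') : CF E f.1 := f.2

theorem CF.gr0 : CF E (FN.gr : FN E T T' → PW E (T × T')) := by
  have := (zf' E).nonempty
  refine ⟨CS.of_dfn (fun q => ∃ x, IsPair E q x x) fun p => ⟨?_, ?_⟩⟩
  · obtain ⟨s, t⟩ := p
    rintro (rfl : t = s.gr)
    exact ⟨_, isPair_pr _ _⟩
  · obtain ⟨s, t⟩ := p
    rintro ⟨x, hx⟩
    obtain ⟨h1, h2⟩ := pr_inj.1 (isPair_iff.1 hx)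
    exact CT.inj (h2.trans h1.symm)

/-- evaluation -/
instance (priority := 96) CF.eval (g : T → FN E T' T'') (f : T → T') [CF E g] [CF E f] :
    CF E fun t => (g t).1 (f t) := by
  have h1 : CF E fun p : T × T'' => (g p.1).gr :=
    CF.comp FN.gr (fun p : T × T'' => g p.1) (hg := CF.gr0) (hf := CF.comp g fun p : T × T'' => p.1)
  have h2 : CF E fun p : T × T'' => f p.1 := CF.comp f fun p : T × T'' => p.1
  exact CF.of_rel (fun t y => (f t, y) ∈ (g t).gr.1) fun _ _ => Iff.rfl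

/-- a family of coded functions is coded if its evaluation is -/
theorem CF.lam (g : T → FN E T' T'') [h : CF E fun p : T × T' => (g p.1).1 p.2] : CF E g := by
  have h1 : CF E fun q : (T × FN E T' T'') × T' => (g q.1.1).1 q.2 :=
    CF.comp (fun p : T × T' => (g p.1).1 p.2) fun q : (T × FN E T' T'') × T' => (q.1.1, q.2)
  exact CF.of_rel (fun t f => ∀ t', f.1 t' = (g t).1 t') fun t f =>
    ⟨fun h _ => h ▸ rfl, fun h => Subtype.ext (funext h)⟩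

/-- the members of an element of `M` as a type -/
def El (E : M → M → Prop) (a : M) [Small.{0} {x // E x a}] : Type := Shrink.{0} {x // E x a}

noncomputable instance CT.el (a : M) [Small.{0} {x // E x a}] : CT E (El E a) where
  code t := ((equivShrink {x // E x a}).symm t).1
  inj := fun _ _ h => (equivShrink {x // E x a}).symm.injective (Subtype.ext h)
  set := ⟨a, fun x => ⟨fun h => ⟨equivShrink _ ⟨x, h⟩, by simp⟩,
    by rintro ⟨t, rfl⟩; exact ((equivShrink {x // E x a}).symm t).2⟩⟩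

theorem is_el (a : M) [Small.{0} {x // E x a}] : Is E (El E a) a := fun x =>
  ⟨fun h => ⟨equivShrink _ ⟨x, h⟩, congrArg Subtype.val ((equivShrink _).symm_apply_apply _)⟩,
    by rintro ⟨t, rfl⟩; exact ((equivShrink {x // E x a}).symm t).2⟩

/-- membership between codes is a coded relation -/
instance CS.Em (f : T → T') (g : T → T'') [CF E f] [CF E g] :
    CS E fun t => E (CT.code E (f t)) (CT.code E (g t)) := by
  have := (zf' E).nonempty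
  have h : CS E fun p : T' × T'' => E (CT.code E p.1) (CT.code E p.2) := by
    refine CS.of_dfn (fun q => ∃ x y, IsPair E q x y ∧ E x y) fun p => ⟨fun h => ?_, ?_⟩
    · exact ⟨_, _, isPair_pr _ _, h⟩
    · rintro ⟨x, y, h1, h2⟩
      obtain ⟨rfl, rfl⟩ := pr_inj.1 (isPair_iff.1 h1)
      exact h2
  exact h.comp fun t => (f t, g t)

/-- membership of a code in a fixed element of `M` -/
instance CS.Ec (f : T → T') [CF E f] (a : M) : CS E fun t => E (CT.code E (f t)) a :=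
  (⟨a, fun _ => Iff.rfl⟩ : CS E fun t : T' => E (CT.code E t) a).comp f

/-- a fixed relation of `M` between codes -/
instance CS.App (f : T → T') (g : T → T'') [CF E f] [CF E g] (r : M) :
    CS E fun t => App E r (CT.code E (f t)) (CT.code E (g t)) :=
  (CS.Ec (fun t => (f t, g t)) r).congr fun _ =>
    ⟨fun ⟨_, hp, h⟩ => by rw [isPair_iff.1 h] at hp; exact hp, fun h => ⟨_, h, isPair_pr _ _⟩⟩

/-- the natural numbers are coded by the von Neumann numerals -/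
class NatE (E : M → M → Prop) [CT E ℕ] : Prop where
  hN : ∀ x (n : ℕ), E x (CT.code E n) ↔ ∃ m < n, x = CT.code E m

variable [CT E ℕ] [hN : NatE E]

theorem E_nat {m n : ℕ} : E (CT.code E m) (CT.code E n) ↔ m < n :=
  (hN.hN _ _).trans ⟨fun ⟨_, h, e⟩ => CT.inj e ▸ h, fun h => ⟨m, h, rfl⟩⟩

instance CS.lt (f g : T → ℕ) [CF E f] [CF E g] : CS E fun t => f t < g t :=
  (CS.Em f g).congr fun _ => E_nat.symm

instance CS.le (f g : T → ℕ) [CF E f] [CF E g] : CS E fun t => f t ≤ g t :=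
  (inferInstance : CS E fun t => ¬ g t < f t).congr fun _ => not_lt.symm

instance CS.gt (f g : T → ℕ) [CF E f] [CF E g] : CS E fun t => f t > g t := CS.lt g f
instance CS.ge (f g : T → ℕ) [CF E f] [CF E g] : CS E fun t => f t ≥ g t := CS.le g f

theorem CF.succ0 : CF E fun n : ℕ => n + 1 :=
  CF.of_rel (fun n m : ℕ => n < m ∧ ∀ k, n < k → m ≤ k) fun n m =>
    ⟨by rintro rfl; exact ⟨n.lt_succ_self, fun k hk => hk⟩,
      fun h => le_antisymm (h.2 _ n.lt_succ_self) h.1⟩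

/-- recursion on the natural numbers -/
theorem CF.natRec (a : T → T') (s : T → ℕ → T' → T') [CF E a]
    [hs : CF E fun p : T × ℕ × T' => s p.1 p.2.1 p.2.2] (r : T → ℕ → T')
    (h0 : ∀ t, r t 0 = a t) (h1 : ∀ t n, r t (n + 1) = s t n (r t n)) :
    CF E fun p : T × ℕ => r p.1 p.2 := by
  let Q := (((T × ℕ) × T') × PW E (ℕ × T'))
  have e1 : CF E fun q : Q × T' => a q.1.1.1.1 := CF.comp a fun q : Q × T' => q.1.1.1.1
  have e2 : CF E fun q : ((Q × ℕ) × T') × T' => s q.1.1.1.1.1.1 q.1.1.2 q.2 :=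
    CF.comp (fun p : T × ℕ × T' => s p.1 p.2.1 p.2.2)
      fun q : ((Q × ℕ) × T') × T' => (q.1.1.1.1.1.1, q.1.1.2, q.2)
  have e3 : CF E fun q : (Q × ℕ) × T' => q.1.2 + 1 :=
    CF.comp (fun n : ℕ => n + 1) (fun q : (Q × ℕ) × T' => q.1.2) (hg := CF.succ0)
  refine CF.of_rel (fun (p : T × ℕ) y => ∃ U : PW E (ℕ × T'), (p.2, y) ∈ U.1 ∧
    (∀ y', (0, y') ∈ U.1 → y' = a p.1) ∧
    ∀ k y', (k + 1, y') ∈ U.1 → ∃ y'', (k, y'') ∈ U.1 ∧ y' = s p.1 k y'') fun p y => ⟨?_, ?_⟩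
  · rintro rfl
    refine ⟨⟨(fun k => (k, r p.1 k)) '' Set.Iic p.2,
      CS.of_finite ((Set.finite_Iic p.2).image _)⟩, ⟨p.2, le_refl p.2, rfl⟩, ?_, ?_⟩
    · rintro y' ⟨k, -, h⟩
      obtain ⟨h2, h3⟩ := Prod.ext_iff.1 h
      obtain rfl : k = 0 := h2
      exact h3.symm.trans (h0 _)
    · rintro k y' ⟨k', hk, h⟩
      obtain ⟨h2, h3⟩ := Prod.ext_iff.1 h
      obtain rfl : k' = k + 1 := h2
      exact ⟨_, ⟨k, (Nat.le_succ k).trans hk, rfl⟩, h3.symm.trans (h1 _ _)⟩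
  · rintro ⟨U, h2, h3, h4⟩
    have : ∀ k y', (k, y') ∈ U.1 → y' = r p.1 k := fun k => by
      induction k with
      | zero => exact fun y' h => (h3 y' h).trans (h0 _).symm
      | succ k ih =>
        intro y' h
        obtain ⟨y'', h5, rfl⟩ := h4 k y' h
        rw [h1, ih y'' h5]
    exact this _ _ h2

instance CAdd.nat : CAdd E ℕ :=
  ⟨CF.natRec (fun t : ℕ => t) (fun _ _ y => y + 1)
    (hs := CF.comp (fun n : ℕ => n + 1) (fun p : ℕ × ℕ × ℕ => p.2.2) (hg := CF.succ0))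
    (fun t n => t + n) (fun _ => rfl) fun _ _ => rfl⟩

instance (priority := 70) CF.mul (f g : T → ℕ) [CF E f] [CF E g] : CF E fun t => f t * g t :=
  CF.comp (fun p : ℕ × ℕ => p.1 * p.2) (fun t => (f t, g t))
    (hg := CF.natRec (fun _ : ℕ => 0) (fun t _ y => y + t) (fun t n => t * n) (fun _ => rfl)
      fun _ _ => rfl)

/-- the least witness of a coded relation -/
theorem CF.least (r : T → ℕ → Prop) [hr : CS E fun p : T × ℕ => r p.1 p.2]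
    (h : ∀ t, ∃ n, r t n) : ∃ f : T → ℕ, CF E f ∧ ∀ t, r t (f t) ∧ ∀ n, r t n → f t ≤ n := by
  classical
  have h1 : CS E fun q : (T × ℕ) × ℕ => r q.1.1 q.2 :=
    hr.comp fun q : (T × ℕ) × ℕ => (q.1.1, q.2)
  refine ⟨fun t => Nat.find (h t), CF.of_rel (fun t m => r t m ∧ ∀ n, r t n → m ≤ n) fun t m =>
    ⟨?_, fun h2 => le_antisymm (h2.2 _ (Nat.find_spec (h t))) (Nat.find_min' _ h2.1)⟩,
    fun t => ⟨Nat.find_spec (h t), fun n => Nat.find_min' _⟩⟩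
  rintro rfl
  exact ⟨Nat.find_spec (h t), fun n => Nat.find_min' _⟩

theorem code_succ (n : ℕ) (z : M) :
    E z (CT.code E (n + 1)) ↔ E z (CT.code E n) ∨ z = CT.code E n := by
  rw [hN.hN, hN.hN]
  constructor
  · rintro ⟨m, hm, rfl⟩
    rcases Nat.lt_succ_iff_lt_or_eq.1 hm with h | rfl
    · exact Or.inl ⟨m, h, rfl⟩
    · exact Or.inr rfl
  · rintro (⟨m, hm, rfl⟩ | rfl)
    · exact ⟨m, by omega, rfl⟩
    · exact ⟨n, by omega, rfl⟩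

theorem code_zero : IsEmptySet E (CT.code E (0 : ℕ)) := fun x hx => by
  obtain ⟨m, hm, _⟩ := (hN.hN _ _).1 hx
  omega

theorem isOmega_of_is {w : M} (hw : Is E ℕ w) : IsOmega E w := by
  refine ⟨⟨⟨_, (hw _).2 ⟨0, rfl⟩, code_zero⟩, fun x hx => ?_⟩, fun w' hw' x hx => ?_⟩
  · obtain ⟨n, rfl⟩ := (hw _).1 hx
    exact ⟨_, (hw _).2 ⟨n + 1, rfl⟩, code_succ n⟩
  · obtain ⟨n, rfl⟩ := (hw _).1 hx
    clear hx
    induction n with
    | zero =>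
      obtain ⟨e, he, he'⟩ := hw'.1
      exact empty_unique (zf' E) he' code_zero ▸ he
    | succ n ih =>
      obtain ⟨y, hy, h⟩ := hw'.2 _ ih
      have : y = CT.code E (n + 1) :=
        (zf' E).extensionality _ _ fun z => (h z).trans (code_succ n z).symm
      exact this ▸ hy

theorem isOmega_iff {w : M} : IsOmega E w ↔ Is E ℕ w := by
  refine ⟨fun h => ?_, isOmega_of_is⟩
  obtain ⟨w', hw'⟩ := exists_is E ℕ
  have h' := isOmega_of_is hw'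
  rwa [(zf' E).extensionality w w' fun x => ⟨h.2 _ h'.1 x, h'.2 _ h.1 x⟩]

theorem isFin_iff' (F : M) : IsFin E F ↔ {x | E x F}.Finite := by
  have zf := zf' E
  constructor
  · rintro ⟨w, n, f, hw, hn, hf⟩
    obtain ⟨k, rfl⟩ := (isOmega_iff.1 hw _).1 hn
    refine ((Set.finite_lt_nat k).biUnion (t := fun m => {y | App E f (CT.code E m) y})
      fun m _ => Set.Subsingleton.finite fun y hy y' hy' => hf.1.2.2 _ _ _ hy hy').subset ?_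
    intro y hy
    obtain ⟨x, hx⟩ := hf.2.2 y hy
    obtain ⟨m, hm, rfl⟩ := (hN.hN _ _).1 (hf.1.mem zf hx).1
    exact Set.mem_biUnion hm hx
  · intro h
    have := h.to_subtype
    obtain ⟨k, ⟨e⟩⟩ := Finite.exists_equiv_fin {x | E x F}
    choose p hp using fun i : Fin k => exists_pair zf (CT.code E (i : ℕ)) (e.symm i).1
    obtain ⟨f, hf⟩ := exists_finite_set zf (Set.finite_range p)
    have hA : ∀ x y, App E f x y ↔ ∃ i : Fin k, x = CT.code E (i : ℕ) ∧ y = (e.symm i).1 := by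
      intro x y
      constructor
      · rintro ⟨q, hq, h1⟩
        obtain ⟨i, rfl⟩ := (hf q).1 hq
        exact ⟨i, pair_inj zf h1 (hp i)⟩
      · rintro ⟨i, rfl, rfl⟩
        exact ⟨p i, (hf _).2 ⟨i, rfl⟩, hp i⟩
    obtain ⟨w, hw⟩ := exists_is E ℕ
    refine ⟨w, CT.code E k, f, isOmega_of_is hw, (hw _).2 ⟨k, rfl⟩, ⟨?_, ?_, ?_⟩, ?_, ?_⟩
    · intro q hq
      obtain ⟨i, rfl⟩ := (hf q).1 hq
      exact ⟨_, _, E_nat.2 i.2, (e.symm i).2, hp i⟩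
    · intro x hx
      obtain ⟨m, hm, rfl⟩ := (hN.hN _ _).1 hx
      exact ⟨_, (hA _ _).2 ⟨⟨m, hm⟩, rfl, rfl⟩⟩
    · intro x y y' h1 h2
      obtain ⟨i, rfl, rfl⟩ := (hA _ _).1 h1
      obtain ⟨j, h3, rfl⟩ := (hA _ _).1 h2
      rw [Fin.ext (CT.inj h3)]
    · intro x x' y h1 h2
      obtain ⟨i, rfl, rfl⟩ := (hA _ _).1 h1
      obtain ⟨j, rfl, h3⟩ := (hA _ _).1 h2
      rw [e.symm.injective (Subtype.ext h3)]
    · intro y hy
      exact ⟨_, (hA _ _).2 ⟨e ⟨y, hy⟩, rfl, by simp⟩⟩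

theorem isFin_code (U : PW E T) : IsFin E (CT.code E U) ↔ U.1.Finite := by
  rw [isFin_iff', show {x | E x (CT.code E U)} = CT.code E '' U.1 from
    Set.ext fun x => E_code_pw U x]
  exact Set.finite_image_iff CT.inj.injOn

example (B : PW E ℕ) (p : ℕ → ℕ) [CF E p] : CS E fun η : FN E ℕ ℕ =>
    ∀ m, ∃ j, m ≤ j ∧ ∃ b ∈ B.1, b ≤ η.1 (2 * j + 1) ∧ ∀ t, b ≤ t → t < η.1 j → t ∉ B.1 :=
  inferInstance

end Pool.Agent.B8F
end

-- merged part: Pool.Agent.Work.MP_b8a914_gt.F.Iface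
section
/-! The combinatorial properties of the generic model that are used inside the model. -/

namespace Pool.Agent.B8F
open Pool.Agent.Lib.ZFModel

/-- the least element of `B` from `n` on -/
noncomputable def nxt (B : Set ℕ) (n : ℕ) : ℕ := sInf {b | b ∈ B ∧ n ≤ b}

theorem nxt_spec {B : Set ℕ} (hB : B.Infinite) (n : ℕ) : nxt B n ∈ B ∧ n ≤ nxt B n := by
  obtain ⟨b, hb, h⟩ := hB.exists_gt n
  exact Nat.sInf_mem (s := {b | b ∈ B ∧ n ≤ b}) ⟨b, hb, h.le⟩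

theorem nxt_le {B : Set ℕ} {n b : ℕ} (hb : b ∈ B) (h : n ≤ b) : nxt B n ≤ b :=
  Nat.sInf_le (s := {b | b ∈ B ∧ n ≤ b}) ⟨hb, h⟩

variable {M : Type 1}

/-- the reflection data for a relation `Rel` -/
structure RefData (E : M → M → Prop) [Fact (IsZFC E)] [CT E ℕ] (VT : Set (ℕ → ℕ))
    (BB : Set (Set ℕ)) (Rel : FN E ℕ ℕ → FN E ℕ ℕ → FN E ℕ ℕ → Prop) where
  V : ℕ → Set (ℕ → ℕ)
  z : ℕ → ℕ → ℕ
  h : ℕ → ℕ
  V_sub : ∀ n, V n ⊆ VT
  id_mem : id ∈ V 0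
  z_cf : ∀ n, CF E (z n)
  z_mono : ∀ n, StrictMono (z n)
  h_cf : CF E h
  unb : ∀ n, ∀ H ∈ V n, ∀ m, ∃ j, m ≤ j ∧ H j < h j
  clos : ∀ n, ∀ H ∈ V n, ∀ B ∈ BB, ∃ H' ∈ V (n + 1),
    ∀ j k, k ≤ z n (nxt B (z n j) + 1) → H k ≤ H' j
  key : ∀ n, ∀ H : FN E ℕ ℕ, H.1 ∈ V n → ∀ B ∈ BB, ∃ P η : FN E ℕ ℕ, Rel H P η ∧
    StrictMono P.1 ∧ (StrictMono η.1 → ∃ i0, ∀ i, i0 ≤ i →
      (∀ b ∈ B, ¬ (z n i ≤ b ∧ b < z n (i + 1))) →
        ∃ k, P.1 (η.1 k) ≤ z n i ∧ z n (i + 1) ≤ P.1 (η.1 k + 1))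

structure Iface (E : M → M → Prop) [Fact (IsZFC E)] [CT E ℕ] where
  VT : Set (ℕ → ℕ)
  BB : Set (Set ℕ)
  Vf : PW E (FN E ℕ ℕ)
  S : PW E ℕ
  VT_cf : ∀ H ∈ VT, CF E H
  B_inf : ∀ B ∈ BB, B.Infinite
  B_dir : ∀ B ∈ BB, ∀ B' ∈ BB, ∃ B'' ∈ BB, (B'' \ B).Finite ∧ (B'' \ B').Finite
  reap : ∀ A : PW E ℕ, ∃ B ∈ BB, B ⊆ A.1 ∨ Disjoint B A.1
  sparse : ∀ φ : ℕ → ℕ, CF E φ → ∃ η ∈ VT, StrictMono η ∧ ∀ j i, i ≤ η j → φ i < η (j + 1)
  ref : ∀ Rel : FN E ℕ ℕ → FN E ℕ ℕ → FN E ℕ ℕ → Prop,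
    CS E (fun t : FN E ℕ ℕ × FN E ℕ ℕ × FN E ℕ ℕ => Rel t.1 t.2.1 t.2.2) →
    (∀ H P : FN E ℕ ℕ, H.1 ∈ VT → P.1 ∈ VT → ∃ η : FN E ℕ ℕ, η.1 ∈ VT ∧ Rel H P η) →
    Nonempty (RefData E VT BB Rel)
  VT_Vf : ∀ η : FN E ℕ ℕ, η.1 ∈ VT → η ∈ Vf.1
  S_inf : S.1.Infinite
  sacks : ∀ P ∈ VT, StrictMono P → ∀ η ∈ Vf.1, StrictMono η.1 → ∀ e m, ∃ j, m ≤ j ∧
    ∀ i ∈ S.1, ¬ (P i ≤ η.1 (2 * j + e) ∧ η.1 (2 * j + e) < P (i + 1))

end Pool.Agent.B8F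
end

-- merged part: Pool.Agent.Work.MP_b8a914_gt.F.Cond3
section
/-! Reflection to closure points and the thinning argument. -/

namespace Pool.Agent.B8F
open Set

section
variable {I : Type} [LinearOrder I] [OrderTop I]

/-- below `r0` every request has a witness -/
def DDn (Fr : Cond I → VC I → VC I → VC I → Prop) (r0 : Cond I) : Prop :=
  ∀ r, r ≤ r0 → ∀ c1 c2, Nice ⊤ c1 → Nice ⊤ c2 → Le ⊤ r.p c1.1 → Le ⊤ r.p c2.1 →
    ∃ r', r' ≤ r ∧ ∃ c3, Nice ⊤ c3 ∧ Le ⊤ r'.p c3.1 ∧ Fr r' c1 c2 c3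

def Sm (α : I) (p : Pt I → Pt I) : Prop := ∃ s : Set I, s.Countable ∧ s ⊆ Iio α ∧ Supp s p

/-- closure points: requests supported below `α` have witnesses supported below `α` -/
def CP (Fr : Cond I → VC I → VC I → VC I → Prop) (r0 : Cond I) (α : I) : Prop :=
  α < ⊤ ∧ (∀ u γ, α ≤ γ → γ < ⊤ → r0.p u γ = u γ) ∧
  ∀ r, r ≤ r0 → Sm α r.p → ∀ c1 c2, Nice α c1 → Nice α c2 → Le ⊤ r.p c1.1 → Le ⊤ r.p c2.1 →
    ∃ r', r' ≤ r ∧ Sm α r'.p ∧ ∃ c3, Nice α c3 ∧ Le ⊤ r'.p c3.1 ∧ Fr r' c1 c2 c3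

def KeyP (z : ℕ → ℕ) (B : Set ℕ) (P η : ℕ → ℕ) : Prop :=
  StrictMono P ∧ (StrictMono η → ∃ i0, ∀ i, i0 ≤ i → (∀ b ∈ B, ¬ (z i ≤ b ∧ b < z (i + 1))) →
    ∃ k, P (η k) ≤ z i ∧ z (i + 1) ≤ P (η k + 1))

theorem Cond3_in {α : I} {p : Pt I → Pt I} (hp : IsMi p)
    (hid : ∀ u γ, α ≤ γ → γ < ⊤ → p u γ = u γ) {x : Pt I} (h : In α p x) : In ⊤ p x := by
  classical
  obtain ⟨w, hw⟩ := h
  refine ⟨fun γ => if γ < α then w γ else x γ, fun γ hγ => ?_⟩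
  by_cases h1 : γ < α
  · rw [hp.agB (β := α) (v := w) (fun γ' h' => if_pos h') γ h1]
    exact hw γ h1
  · rw [hid _ γ (not_lt.1 h1) hγ]
    exact if_neg h1

omit [OrderTop I] in
theorem Cond3_id {α : I} {p : Pt I → Pt I} {s : Set I} (hs : s ⊆ Iio α) (h : Supp s p)
    (u : Pt I) {γ : I} (hγ : α ≤ γ) : p u γ = u γ :=
  h.1 u γ fun h' => absurd (hs h') (not_lt.2 hγ)

theorem nice_z {α : I} (hα : α < ⊤) : Nice ⊤ ((id, fun w => zf (w α)) : VC I) := by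
  refine ⟨isMi_id, cont_zf.comp (continuous_apply α), {α}, countable_singleton α,
    singleton_subset_iff.2 hα, ⟨fun _ _ _ => rfl, fun _ _ h γ hγ => h γ hγ⟩, fun u v h => ?_⟩
  show zf (u α) = zf (v α)
  rw [h α rfl]

theorem clos_nice {α α' : I} (h : α < α') {c : VC I} (hc : Nice α c) {B : Set ℕ}
    (hB : B.Infinite) : ∃ g, Nice α' (c.1, g) ∧ ∀ w j k,
      k ≤ zf (c.1 w α) (nxt B (zf (c.1 w α) j) + 1) → c.2 w k ≤ g w j := by
  obtain ⟨h1, h2, s, hs, hsα, h3, h4⟩ := hc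
  have hz : Continuous fun w : Pt I => zf (w α) := cont_zf.comp (continuous_apply α)
  refine ⟨fun w j => (Finset.range (zf (w α) (nxt B (zf (w α) j) + 1) + 1)).sup (c.2 w),
    ⟨h1, cont_seq.2 fun w0 j => ?_, insert α s, hs.insert α,
      insert_subset h (hsα.trans (Iio_subset_Iio h.le)), h3.mono (subset_insert _ _),
      fun u v huv => ?_⟩, fun w j k hk => ?_⟩
  · filter_upwards [cont_seq.1 hz w0 j, cont_seq.1 hz w0 (nxt B (zf (w0 α) j) + 1),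
      ev_ag (zf (w0 α) (nxt B (zf (w0 α) j) + 1) + 1) fun i _ => cont_seq.1 h2 w0 i]
      with w a b d
    show (Finset.range (zf (w α) (nxt B (zf (w α) j) + 1) + 1)).sup (c.2 w) = _
    rw [a, b]
    exact Finset.sup_congr rfl fun i hi => d i (Finset.mem_range.1 hi)
  · have a : u α = v α := huv α (mem_insert _ _)
    have b : c.2 u = c.2 v := h4 u v fun γ hγ => huv γ (mem_insert_of_mem _ hγ)
    funext j
    show (Finset.range (zf (u α) (nxt B (zf (u α) j) + 1) + 1)).sup (c.2 u) = _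
    rw [a, b]
  · rw [Cond3_id hsα h3 w le_rfl] at hk
    exact Finset.le_sup (f := c.2 w) (Finset.mem_range.2 (Nat.lt_succ_of_le hk))

/-- the section of `p` at `α` over `u` -/
def Cond3_sig (p : Pt I → Pt I) (α : I) (u : Pt I) (y : ℕ → ℕ) : ℕ → ℕ :=
  p (Function.update u α y) α

omit [OrderTop I] in
theorem Cond3_sig_agB {p : Pt I → Pt I} (hp : IsMi p) {α : I} {u v : Pt I} (h : AgB α u v) :
    Cond3_sig p α u = Cond3_sig p α v := funext fun y =>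
  hp.proj' ((agB_update u y).trans (h.trans (agB_update v y).symm))
    (by rw [Function.update_self, Function.update_self])

omit [OrderTop I] in
theorem Cond3_sig_sec {p : Pt I → Pt I} (hp : IsMi p) (α : I) (u : Pt I) :
    Sec (Cond3_sig p α u) := fun y n => by
  obtain ⟨l, hl⟩ := hp.sec α (Function.update u α y) n
  refine ⟨l, fun y1 y2 h1 h2 => ?_⟩
  have := hl (Function.update u α y1) (Function.update u α y2)
    ((agB_update _ _).trans (agB_update _ _).symm) ((agB_update _ _).trans (agB_update _ _).symm)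
    (by simpa only [Function.update_self] using h1)
    (by simpa only [Function.update_self] using h2)
  simpa only [Function.update_self, Cond3_sig] using this

omit [OrderTop I] in
theorem Cond3_sig_cont {p : Pt I → Pt I} (hp : IsMi p) (α : I) (y : ℕ → ℕ) :
    Continuous fun u => Cond3_sig p α u y :=
  (continuous_apply α).comp (hp.cont.comp (continuous_id.update α continuous_const))

omit [OrderTop I] in
theorem Cond3_sig_dep {p : Pt I → Pt I} (hp : IsMi p) {s : Set I} (hs : Supp s p) (α : I) :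
    DepOn (s ∩ Iio α) (Cond3_sig p α) := fun u v huv => by
  classical
  let w : Pt I := fun γ => if γ < α then u γ else v γ
  rw [Cond3_sig_agB hp (u := u) (v := w) fun γ hγ => (if_pos hγ).symm]
  funext y
  by_cases h : α ∈ s
  · refine hs.2 _ _ (fun γ hγ => ?_) α h
    by_cases h1 : γ = α
    · rw [h1, Function.update_self, Function.update_self]
    · rw [Function.update_of_ne h1, Function.update_of_ne h1]
      by_cases h2 : γ < α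
      · exact (if_pos h2).trans (huv γ ⟨hγ, h2⟩)
      · exact if_neg h2
  · show p _ α = p _ α
    rw [hs.1 _ _ h, hs.1 _ _ h, Function.update_self, Function.update_self]

variable [WellFoundedLT I]

theorem key_dense {Fr : Cond I → VC I → VC I → VC I → Prop}
    (hm : ∀ r r' c1 c2 c3, Fr r c1 c2 c3 → r' ≤ r → Fr r' c1 c2 c3) {r0 : Cond I} {α : I}
    (h : CP Fr r0 α) {r : Cond I} (hr : r ≤ r0) {c1 : VC I} (h1 : Nice α c1)
    (h2 : Le ⊤ r.p c1.1) {B : Set ℕ} (hB : B.Infinite) :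
    ∃ r', r' ≤ r ∧ ∃ c2 c3, Nice ⊤ c2 ∧ Nice ⊤ c3 ∧ Le ⊤ r'.p c2.1 ∧ Le ⊤ r'.p c3.1 ∧
      Fr r' c1 c2 c3 ∧ ∀ v w2 w3, AgB ⊤ (c2.1 w2) (r'.p v) → AgB ⊤ (c3.1 w3) (r'.p v) →
        KeyP (zf (r'.p v α)) B (c2.2 w2) (c3.2 w3) := by
  obtain ⟨PiOf, Th, d1, d2, d3⟩ := dm0
  obtain ⟨-, hid, hcp⟩ := h
  have hp := r.mi
  obtain ⟨s, hs, hsp⟩ := hp.supp
  have hpb : Le α (res α r.p) r.p := fun v => ⟨v, (res_agB α r.p v).symm⟩
  let rb : Cond I := ⟨r.toOP, res α r.p, hp.res α⟩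
  have hrb : rb ≤ r0 := ⟨hr.1, hr.2.1, fun v =>
    Cond3_in r0.mi hid ((hpb v).le (hr.2.2.mono le_top))⟩
  have hsm : Sm α rb.p := ⟨s ∩ Iio α, hs.mono inter_subset_left, inter_subset_right,
    hp.supp_res hsp α⟩
  have hb1 : Le ⊤ rb.p c1.1 := fun v => by
    obtain ⟨a, -, s1, -, b, d, -⟩ := h1
    exact Cond3_in a (fun u γ hγ _ => Cond3_id b d u hγ) ((hpb v).le (h2.mono le_top))
  let c2 : VC I := (res α r.p, fun u => PiOf (Cond3_sig r.p α u))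
  have hc2 : Nice α c2 := ⟨hp.res α,
    (d2 (Pt I) (Cond3_sig r.p α) (Cond3_sig_sec hp α) (Cond3_sig_cont hp α)).1,
    s ∩ Iio α, hs.mono inter_subset_left, inter_subset_right, hp.supp_res hsp α,
    fun u v huv => congrArg PiOf (Cond3_sig_dep hp hsp α u v huv)⟩
  obtain ⟨rb', hle, ⟨s', hs', hs'α, hq'⟩, c3, hc3, hl3, hFr⟩ :=
    hcp rb hrb hsm c1 c2 h1 hc2 hb1 .rfl'
  have hq := rb'.mi
  have hqp : Le α rb'.p r.p := (hle.2.2.mono le_top).trans hpb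
  let θ : Pt I → Pt I := fac α rb'.p r.p
  let η : Pt I → ℕ → ℕ := fun v => c3.2 (fac ⊤ rb'.p c3.1 v)
  have hθ : Continuous θ := fac_cont hq hp hqp
  have hη : Continuous η := hc3.2.1.comp (fac_cont hq hc3.1 hl3)
  have eθ : ∀ {u v}, AgB α u v → Cond3_sig r.p α (θ u) = Cond3_sig r.p α (θ v) :=
    fun huv => Cond3_sig_agB hp (fac_agB hq hp hqp huv)
  have eη : ∀ {u v}, AgB α u v → η u = η v := fun huv => hc3.dep (fac_agB hq hc3.1 hl3 huv)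
  let t : Pt I → ℕ → ℕ := fun v => Th (Cond3_sig r.p α (θ v)) B (η v) (v α)
  have ht : Continuous t :=
    ((d2 (Pt I) (fun z => Cond3_sig r.p α (θ z)) (fun z => Cond3_sig_sec hp α _)
      fun y => (Cond3_sig_cont hp α y).comp hθ).2 B hB η hη).comp
      (continuous_id.prodMk (continuous_apply α))
  let T : Pt I → Pt I := fun v => Function.update v α (t v)
  have Tα : ∀ v, T v α = t v := fun v => Function.update_self _ _ _
  have Tne : ∀ v {γ}, γ ≠ α → T v γ = v γ := fun v _ hγ => Function.update_of_ne hγ _ _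
  have hT : IsMi T := by
    refine ⟨continuous_id.update α ht, fun β u v huv => ?_, ?_, fun β u n => ?_⟩
    · by_cases hβ : β = α
      · subst hβ
        have a : AgB β u v := fun γ hγ => huv γ hγ.le
        rw [Tα, Tα]
        show Th _ B _ _ = Th _ B _ _
        rw [eθ a, eη a, huv β le_rfl]
      · rw [Tne u hβ, Tne v hβ, huv β le_rfl]
    · obtain ⟨hc3', -, s3, h31, -, h32, h33⟩ := hc3
      have a1 : s ⊆ insert α (s ∪ s' ∪ s3) := fun γ a => Or.inr (Or.inl (Or.inl a))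
      have a2 : s' ⊆ insert α (s ∪ s' ∪ s3) := fun γ a => Or.inr (Or.inl (Or.inr a))
      have a3 : s3 ⊆ insert α (s ∪ s' ∪ s3) := fun γ a => Or.inr (Or.inr a)
      refine ⟨insert α (s ∪ s' ∪ s3), ((hs.union hs').union h31).insert α,
        fun u γ hγ => Tne u fun a => hγ (Or.inl a), fun u v huv γ hγ => ?_⟩
      by_cases hβ : γ = α
      · subst hβ
        have b1 : Cond3_sig r.p γ (θ u) = Cond3_sig r.p γ (θ v) :=
          Cond3_sig_dep hp hsp γ _ _ fun γ' h' =>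
            (fac_supp hp hqp (hq'.mono a2) (hsp.mono a1)).2 u v huv γ' (a1 h'.1)
        have b2 : η u = η v := h33 _ _ fun γ' h' =>
          (fac_supp hc3' hl3 (hq'.mono a2) (h32.mono a3)).2 u v huv γ' (a3 h')
        rw [Tα, Tα]
        show Th _ B _ _ = Th _ B _ _
        rw [b1, b2, huv γ hγ]
      · rw [Tne u hβ, Tne v hβ, huv γ hγ]
    · by_cases hβ : β = α
      · subst hβ
        refine ⟨n, fun v v' a b d e => ?_⟩
        rw [Tα, Tα]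
        show Ag n (Th _ B _ _) (Th _ B _ _) ∧ (Th _ B _ _ n = Th _ B _ _ n ↔ _)
        rw [eθ a, eη a, eθ b, eη b]
        exact (d3 _ B _ (Cond3_sig_sec hp β _) hB).1 n _ _ (d.trans e.symm)
      · exact ⟨n, isLen_id (fun v => Tne v hβ) u n⟩
  let r' : Cond I := ⟨rb'.toOP, (r.p ∘ θ) ∘ T, (isMi_glue hq hp hqp).comp hT⟩
  have hr1 : r' ≤ rb' := Cond.le_of Subset.rfl Subset.rfl fun v =>
    Cond3_in hq (fun u γ hγ _ => Cond3_id hs'α hq' u hγ) ⟨T v, (fac_spec hp hqp (T v)).symm⟩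
  refine ⟨r', ⟨hle.1, hle.2.1, fun v => ⟨θ (T v), .rfl'⟩⟩, c2, c3, hc2.mono le_top,
    hc3.mono le_top, hr1.2.2.trans hle.2.2, hr1.2.2.trans hl3, hm _ _ _ _ _ hFr hr1,
    fun v w2 w3 e2 e3 => ?_⟩
  have a0 : AgB α (T v) v := agB_update _ _
  have a1 : AgB α (θ (T v)) (θ v) := fac_agB hq hp hqp a0
  have a2 : r'.p v α = Cond3_sig r.p α (θ v) (t v) :=
    hp.proj' (a1.trans (agB_update _ _).symm)
      (by rw [Function.update_self]; exact (fac_ge _ _ _ le_rfl).trans (Tα v))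
  have a3 : c2.2 w2 = PiOf (Cond3_sig r.p α (θ v)) :=
    congrArg PiOf (Cond3_sig_agB hp (hp.inj
      ((res_agB α r.p w2).symm.trans ((e2.mono le_top).trans (hp.agB a1)))))
  have a4 : c3.2 w3 = η v := hc3.dep (hc3.1.inj ((e3.mono le_top).trans
    ((fac_spec hp hqp (T v)).trans ((hq.agB a0).trans
      ((fac_spec hc3.1 hl3 v).mono le_top).symm))))
  rw [a2, a3, a4]
  exact ⟨d1 _, fun hη' => (d3 _ B _ (Cond3_sig_sec hp α _) hB).2 hη' (v α)⟩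

end

open Cardinal in
theorem Cond3_closed : #{K : Set Cn | IsClosed K} ≤ continuum := by
  have : Countable (TopologicalSpace.countableBasis Cn) :=
    (TopologicalSpace.countable_countableBasis Cn).to_subtype
  have key : ∀ K K' : Set Cn, IsClosed K →
      (∀ b : TopologicalSpace.countableBasis Cn, Disjoint b.1 K → Disjoint b.1 K') → K' ⊆ K := by
    intro K K' hK h y hy
    by_contra hn
    obtain ⟨b, hb, h1, h2⟩ := (TopologicalSpace.isBasis_countableBasis Cn).exists_subset_of_mem_open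
      (show y ∈ Kᶜ from hn) hK.isOpen_compl
    exact disjoint_left.1 (h ⟨b, hb⟩ (disjoint_left.2 fun _ a => h2 a)) h1 hy
  refine (mk_le_of_injective (f := fun K : {K : Set Cn | IsClosed K} =>
    {b : TopologicalSpace.countableBasis Cn | Disjoint b.1 K.1}) fun K K' e => ?_).trans ?_
  · exact Subtype.ext (Subset.antisymm (key _ _ K'.2 fun b hb => (Set.ext_iff.1 e b).2 hb)
      (key _ _ K.2 fun b hb => (Set.ext_iff.1 e b).1 hb))
  · rw [mk_set, ← two_power_aleph0]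
    exact power_le_power_left two_ne_zero mk_le_aleph0

open Cardinal in
theorem Cond3_prod {X Y : Type} (h1 : #X ≤ continuum) (h2 : #Y ≤ continuum) :
    #(X × Y) ≤ continuum := by
  rw [mk_prod, lift_id, lift_id, ← continuum_mul_self]
  exact mul_le_mul' h1 h2

/-- all supports are `s` -/
def Cond3_Sp (s : Set II) (t : Cond II × VC II × VC II) : Prop :=
  Supp s t.1.p ∧ (Continuous t.2.1.1 ∧ Supp s t.2.1.1) ∧ (Continuous t.2.1.2 ∧ DepOn s t.2.1.2) ∧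
    (Continuous t.2.2.1 ∧ Supp s t.2.2.1) ∧ (Continuous t.2.2.2 ∧ DepOn s t.2.2.2)

open Cardinal in
theorem Cond3_card (s : Set II) (hs : s.Countable) : #{t | Cond3_Sp s t} ≤ continuum := by
  have hA : #(Set ℕ) ≤ continuum := by rw [mk_set, mk_nat, two_power_aleph0]
  refine (mk_le_of_injective (f := fun t : {t | Cond3_Sp s t} =>
    ((t.1.1.A, (⟨t.1.1.K, t.1.1.perf.2.1⟩ : {K : Set Cn | IsClosed K}),
      (⟨t.1.1.p, t.1.1.mi.cont, t.2.1⟩ : {p : Pt II → Pt II | Continuous p ∧ Supp s p})),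
      ((⟨t.1.2.1.1, t.2.2.1⟩ : {p : Pt II → Pt II | Continuous p ∧ Supp s p}),
        (⟨t.1.2.1.2, t.2.2.2.1⟩ : {g : Pt II → ℕ → ℕ | Continuous g ∧ DepOn s g})),
      ((⟨t.1.2.2.1, t.2.2.2.2.1⟩ : {p : Pt II → Pt II | Continuous p ∧ Supp s p}),
        (⟨t.1.2.2.2, t.2.2.2.2.2⟩ : {g : Pt II → ℕ → ℕ | Continuous g ∧ DepOn s g}))))
      ?_).trans (Cond3_prod (Cond3_prod hA (Cond3_prod Cond3_closed (card_supp hs)))
      (Cond3_prod (Cond3_prod (card_supp hs) (card_dep hs))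
        (Cond3_prod (card_supp hs) (card_dep hs))))
  rintro ⟨⟨⟨⟨A, K, _, _⟩, p, _⟩, ⟨a, b⟩, c, d⟩, _⟩ ⟨⟨⟨⟨A', K', _, _⟩, p', _⟩, ⟨a', b'⟩, c', d'⟩, _⟩ e
  simp only [Prod.mk.injEq, Subtype.mk.injEq] at e
  obtain ⟨⟨rfl, rfl, rfl⟩, ⟨rfl, rfl⟩, rfl, rfl⟩ := e
  rfl

theorem exists_CP {Fr : Cond II → VC II → VC II → VC II → Prop}
    (hm : ∀ r r' c1 c2 c3, Fr r c1 c2 c3 → r' ≤ r → Fr r' c1 c2 c3) {r0 : Cond II}
    (h : DDn Fr r0) : ∃ (α : ℕ → II) (β : II), StrictMono α ∧ (∀ n, CP Fr r0 (α n)) ∧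
      β < ⊤ ∧ ∀ n, α n ≤ β := by
  have hw : ∀ t : Cond II × VC II × VC II, ∃ b : II, b < ⊤ ∧
      (t.1 ≤ r0 → Nice ⊤ t.2.1 → Nice ⊤ t.2.2 → Le ⊤ t.1.p t.2.1.1 → Le ⊤ t.1.p t.2.2.1 →
        ∃ r', r' ≤ t.1 ∧ Sm b r'.p ∧ ∃ c3, Nice b c3 ∧ Le ⊤ r'.p c3.1 ∧
          Fr r' t.2.1 t.2.2 c3) := by
    rintro ⟨r, c1, c2⟩
    by_cases hq : r ≤ r0 ∧ Nice ⊤ c1 ∧ Nice ⊤ c2 ∧ Le ⊤ r.p c1.1 ∧ Le ⊤ r.p c2.1
    · obtain ⟨r', hr', c3, ⟨n1, n2, s3, n3, n4, n5⟩, hl, hF⟩ :=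
        h r hq.1 c1 c2 hq.2.1 hq.2.2.1 hq.2.2.2.1 hq.2.2.2.2
      obtain ⟨s, hs, hsp⟩ := r'.mi.supp
      obtain ⟨b, hb, hb'⟩ := exists_bound (hs.union n3)
      let r'' : Cond II := ⟨r'.toOP, res ⊤ r'.p, r'.mi.res ⊤⟩
      have hle : r'' ≤ r' := Cond.le_of Subset.rfl Subset.rfl fun v =>
        ⟨v, (res_agB ⊤ r'.p v).symm⟩
      exact ⟨b, hb, fun _ _ _ _ _ => ⟨r'', hle.trans hr',
        ⟨s ∩ Iio ⊤, hs.mono inter_subset_left, fun γ hγ => hb' γ (Or.inl hγ.1) hγ.2,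
          r'.mi.supp_res hsp ⊤⟩, c3,
        ⟨n1, n2, s3, n3, fun γ hγ => hb' γ (Or.inr hγ) (n4 hγ), n5⟩, hle.2.2.trans hl,
        hm _ _ _ _ _ hF hle⟩⟩
    · obtain ⟨b, hb, -⟩ := exists_bound (countable_empty (α := II))
      exact ⟨b, hb, fun a1 a2 a3 a4 a5 => absurd ⟨a1, a2, a3, a4, a5⟩ hq⟩
  choose w hw1 hw2 using hw
  obtain ⟨s0, hs0, hsp0⟩ := r0.mi.supp
  obtain ⟨b0, hb0, hb0'⟩ := exists_bound hs0
  have step : ∀ a : {a : II // b0 ≤ a ∧ a < ⊤}, ∃ a' : {a : II // b0 ≤ a ∧ a < ⊤},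
      a.1 < a'.1 ∧ CP Fr r0 a'.1 := by
    intro a
    obtain ⟨α, h1, h2, h3⟩ := closure_pt Cond3_Sp Cond3_card w hw1 a.1 a.2.2
    refine ⟨⟨α, a.2.1.trans h1.le, h2⟩, h1, h2, fun u γ hγ hγ' => hsp0.1 u γ fun a' =>
      absurd (hb0' γ a' hγ') (not_lt.2 ((a.2.1.trans h1.le).trans hγ)), ?_⟩
    rintro r hr ⟨s, hs, hsα, hsp⟩ c1 c2 hc1 hc2 l1 l2
    obtain ⟨m1, k1, s1, hs1, hs1α, p1, g1⟩ := id hc1
    obtain ⟨m2, k2, s2, hs2, hs2α, p2, g2⟩ := id hc2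
    have a1 : s ⊆ s ∪ s1 ∪ s2 := fun γ a => Or.inl (Or.inl a)
    have a2 : s1 ⊆ s ∪ s1 ∪ s2 := fun γ a => Or.inl (Or.inr a)
    have a3 : s2 ⊆ s ∪ s1 ∪ s2 := fun γ a => Or.inr a
    have hle : w (r, c1, c2) ≤ α := h3 (s ∪ s1 ∪ s2) ((hs.union hs1).union hs2)
      (union_subset (union_subset hsα hs1α) hs2α) (r, c1, c2)
      ⟨hsp.mono a1, ⟨m1.cont, p1.mono a2⟩, ⟨k1, g1.mono a2⟩, ⟨m2.cont, p2.mono a3⟩,
        ⟨k2, g2.mono a3⟩⟩
    obtain ⟨r', e1, ⟨s', e2, e3, e4⟩, c3, e5, e6, e7⟩ :=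
      hw2 (r, c1, c2) hr (hc1.mono le_top) (hc2.mono le_top) l1 l2
    exact ⟨r', e1, ⟨s', e2, e3.trans (Iio_subset_Iio hle), e4⟩, c3, e5.mono hle, e6, e7⟩
  choose f hf1 hf2 using step
  let x : ℕ → {a : II // b0 ≤ a ∧ a < ⊤} := fun n => f^[n + 1] ⟨b0, le_rfl, hb0⟩
  have hx : ∀ n, x n = f (f^[n] ⟨b0, le_rfl, hb0⟩) := fun n => Function.iterate_succ_apply' _ _ _
  obtain ⟨β, hβ, hβ'⟩ := exists_bound (countable_range fun n => (x n).1)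
  refine ⟨fun n => (x n).1, β, strictMono_nat_of_lt_succ fun n => ?_, fun n => ?_, hβ,
    fun n => (hβ' _ ⟨n, rfl⟩ (x n).2.2).le⟩
  · show (x n).1 < (x (n + 1)).1
    rw [hx (n + 1)]
    exact hf1 _
  · show CP Fr r0 (x n).1
    rw [hx n]
    exact hf2 _

end Pool.Agent.B8F
end

-- merged part: Pool.Agent.Work.MP_b8a914_gt.F.Iface2
section
/-! More combinatorial properties of the generic model: the small ultrafilter base is a set of the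
model, its members belong to the first level of the reflection data, and the Sacks property holds
along the ultrafilter. -/

namespace Pool.Agent.B8F
open Pool.Agent.Lib.ZFModel

variable {M : Type 1}

structure Iface2 (E : M → M → Prop) [Fact (IsZFC E)] [CT E ℕ] extends Iface E where
  K : PW E (FN E ℕ ℕ)
  K_spec : ∀ f ∈ K.1, ∃ A : Set ℕ, A.Infinite ∧ f.1 = nxt A ∧ ∃ B ∈ BB, (B \ A).Finite
  K_B : ∀ B ∈ BB, ∃ f ∈ K.1, f.1 = nxt B
  ref0 : ∀ Rel : FN E ℕ ℕ → FN E ℕ ℕ → FN E ℕ ℕ → Prop,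
    CS E (fun t : FN E ℕ ℕ × FN E ℕ ℕ × FN E ℕ ℕ => Rel t.1 t.2.1 t.2.2) →
    (∀ H P : FN E ℕ ℕ, H.1 ∈ VT → P.1 ∈ VT → ∃ η : FN E ℕ ℕ, η.1 ∈ VT ∧ Rel H P η) →
    ∃ d : RefData E VT BB Rel, ∀ f ∈ K.1, f.1 ∈ d.V 0
  sacksB : ∀ P ∈ VT, StrictMono P → ∀ η ∈ Vf.1, StrictMono η.1 → ∀ B ∈ BB, ∀ e m, ∃ k ∈ B,
    m ≤ k ∧ ∀ i ∈ S.1, ¬ (P i ≤ η.1 (k + e) ∧ η.1 (k + e) < P (i + 1))

end Pool.Agent.B8F
end

-- merged part: Pool.Agent.Work.MP_b8a914_gt.F.No2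
section
/-! The combinatorial core: no fan structure on a Menger space of the model. -/

namespace Pool.Agent.B8F
open Pool.Agent.Lib.ZFModel

set_option synthInstance.maxSize 100000

variable {M : Type 1} {E : M → M → Prop} [Fact (IsZFC E)] [CT E ℕ] [NatE E]

/-- every `j ≤ a` has `k` in `[j, b)` such that `O j l x` holds on `[k, H k]` -/
def No2Y {X : Type} (O : ℕ → ℕ → X → Prop) (H : ℕ → ℕ) (x : X) (a b : ℕ) : Prop :=
  ∀ j, j ≤ a → ∃ k, j ≤ k ∧ k < b ∧ ∀ l, k ≤ l → l ≤ H k → O j l x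

theorem No2Y.mono {X : Type} {O : ℕ → ℕ → X → Prop} {H : ℕ → ℕ} {x : X} {a b a' b' : ℕ}
    (h : No2Y O H x a b) (ha : a' ≤ a) (hb : b ≤ b') : No2Y O H x a' b' := fun j hj =>
  let ⟨k, h1, h2, h3⟩ := h j (hj.trans ha); ⟨k, h1, h2.trans_le hb, h3⟩

theorem No2Y.lt {X : Type} {O : ℕ → ℕ → X → Prop} {H : ℕ → ℕ} {x : X} {a b : ℕ}
    (h : No2Y O H x a b) : a < b :=
  let ⟨_, h1, h2, _⟩ := h a le_rfl; h1.trans_lt h2

theorem No2_total {X : Type} {O : ℕ → ℕ → X → Prop}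
    (hcof : ∀ j x, ∃ k0, ∀ k, k0 ≤ k → O j k x) (H : ℕ → ℕ) (x : X) (a : ℕ) :
    ∃ b, No2Y O H x a b := by
  choose k0 hk using fun j => hcof j x
  refine ⟨(Finset.range (a + 1)).sup (fun j => max j (k0 j)) + 1, fun j hj =>
    ⟨max j (k0 j), le_max_left _ _, Nat.lt_succ_of_le ?_, fun l hl _ =>
      hk j l ((le_max_right _ _).trans hl)⟩⟩
  exact Finset.le_sup (f := fun j => max j (k0 j)) (Finset.mem_range.2 (Nat.lt_succ_of_le hj))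

theorem No2_all {X : Type} {Op : Set X → Prop} (hu : Op Set.univ)
    (hi : ∀ U V, Op U → Op V → Op (U ∩ V)) (Q : ℕ → X → Prop) (hQ : ∀ j, Op {x | Q j x})
    (n : ℕ) : Op {x | ∀ j, j < n → Q j x} := by
  induction n with
  | zero => simpa using hu
  | succ n ih =>
    have e : {x | ∀ j, j < n + 1 → Q j x} = {x | ∀ j, j < n → Q j x} ∩ {x | Q n x} := by
      ext x
      refine ⟨fun h => ⟨fun j hj => h j (by omega), h n (by omega)⟩, fun h j hj => ?_⟩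
      rcases Nat.lt_succ_iff_lt_or_eq.1 hj with h1 | rfl
      · exact h.1 j h1
      · exact h.2
    rw [e]; exact hi _ _ ih (hQ n)

theorem No2_ex {X : Type} {Op : Set X → Prop} (he : Op ∅)
    (hU : ∀ U V, Op U → Op V → Op (U ∪ V)) (Q : ℕ → X → Prop) (hQ : ∀ j, Op {x | Q j x})
    (n : ℕ) : Op {x | ∃ j, j < n ∧ Q j x} := by
  induction n with
  | zero => simpa using he
  | succ n ih =>
    have e : {x | ∃ j, j < n + 1 ∧ Q j x} = {x | ∃ j, j < n ∧ Q j x} ∪ {x | Q n x} := by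
      ext x
      refine ⟨fun ⟨j, hj, h⟩ => ?_, ?_⟩
      · rcases Nat.lt_succ_iff_lt_or_eq.1 hj with h1 | rfl
        · exact Or.inl ⟨j, h1, h⟩
        · exact Or.inr h
      · rintro (⟨j, hj, h⟩ | h)
        · exact ⟨j, by omega, h⟩
        · exact ⟨n, by omega, h⟩
    rw [e]; exact hU _ _ ih (hQ n)

theorem No2_guard {X : Type} {Op : Set X → Prop} (hu : Op Set.univ) (he : Op ∅) (p : Prop)
    (Q : X → Prop) (hQ : Op {x | Q x}) : Op {x | p ∧ Q x} ∧ Op {x | p → Q x} := by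
  by_cases h : p
  · simpa [h] using hQ
  · simpa [h] using And.intro he hu

theorem No2_open {X : Type} {Op : Set X → Prop} (hu : Op Set.univ) (he : Op ∅)
    (hi : ∀ U V, Op U → Op V → Op (U ∩ V)) (hU : ∀ U V, Op U → Op V → Op (U ∪ V))
    {O : ℕ → ℕ → X → Prop} (hop : ∀ j k, Op {x | O j k x}) (H : ℕ → ℕ) (a b : ℕ) :
    Op {x | No2Y O H x a b} := by
  have h1 : ∀ j k, Op {x | ∀ l, l < H k + 1 → k ≤ l → O j l x} := fun j k =>
    No2_all hu hi (fun l x => k ≤ l → O j l x)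
      (fun l => (No2_guard hu he (k ≤ l) (fun x => O j l x) (hop j l)).2) _
  have h2 : ∀ j, Op {x | ∃ k, k < b ∧ j ≤ k ∧ ∀ l, l < H k + 1 → k ≤ l → O j l x} := fun j =>
    No2_ex he hU (fun k x => j ≤ k ∧ ∀ l, l < H k + 1 → k ≤ l → O j l x)
      (fun k => (No2_guard hu he (j ≤ k) _ (h1 j k)).1) _
  have h3 := No2_all hu hi _ h2 (a + 1)
  have e : {x | No2Y O H x a b} = {x | ∀ j, j < a + 1 →
      ∃ k, k < b ∧ j ≤ k ∧ ∀ l, l < H k + 1 → k ≤ l → O j l x} := by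
    ext x
    refine ⟨fun h j hj => ?_, fun h j hj => ?_⟩
    · obtain ⟨k, a1, a2, a3⟩ := h j (by omega)
      exact ⟨k, a2, a1, fun l b1 b2 => a3 l b2 (by omega)⟩
    · obtain ⟨k, a1, a2, a3⟩ := h j (by omega)
      exact ⟨k, a2, a1, fun l b1 b2 => a3 l (by omega) b1⟩
  rw [e]; exact h3

theorem No2_cs {X : Type} [CT E X] {O : ℕ → ℕ → X → Prop}
    (hO : CS E fun p : (ℕ × ℕ) × X => O p.1.1 p.1.2 p.2) {T : Type} [CT E T]
    (H : T → FN E ℕ ℕ) (x : T → X) (a b : T → ℕ) [CF E H] [CF E x] [CF E a] [CF E b] :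
    CS E fun t => No2Y O (H t).1 (x t) (a t) (b t) := by
  have hO' : ∀ {T : Type} [CT E T] (f g : T → ℕ) (k : T → X) [CF E f] [CF E g] [CF E k],
      CS E fun t => O (f t) (g t) (k t) := fun f g k _ _ _ => hO.comp fun t => ((f t, g t), k t)
  have h : CS E fun p : (FN E ℕ ℕ × X) × ℕ × ℕ => No2Y O p.1.1.1 p.1.2 p.2.1 p.2.2 := by
    unfold No2Y; infer_instance
  exact h.comp fun t => ((H t, x t), a t, b t)

theorem No2_men {X : Type} [CT E X] {Op : Set X → Prop}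
    (hM : ∀ U : ℕ → ℕ → X → Prop, CS E (fun p : (ℕ × ℕ) × X => U p.1.1 p.1.2 p.2) →
      (∀ n k, Op {x | U n k x}) → (∀ n x, ∃ k, U n k x) →
      ∃ g : ℕ → ℕ, CF E g ∧ ∀ x, ∃ n, ∃ k ≤ g n, U n k x)
    (r : ℕ → ℕ → X → Prop) (hr : CS E fun p : (ℕ × ℕ) × X => r p.1.1 p.1.2 p.2)
    (ho : ∀ n k, Op {x | r n k x}) (ht : ∀ n x, ∃ k, r n k x)
    (hm : ∀ n k k' x, k ≤ k' → r n k x → r n k' x) :
    ∃ g : ℕ → ℕ, CF E g ∧ ∀ x m, ∃ n, m ≤ n ∧ r n (g n) x := by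
  have hr' : ∀ {T : Type} [CT E T] (f g : T → ℕ) (k : T → X) [CF E f] [CF E g] [CF E k],
      CS E fun t => r (f t) (g t) (k t) := fun f g k _ _ _ => hr.comp fun t => ((f t, g t), k t)
  obtain ⟨f, hf, hf'⟩ := CF.choice (E := E)
    (fun (m : ℕ) (G : FN E ℕ ℕ) => ∀ x, ∃ n, ∃ k, k ≤ G.1 n ∧ r (m + n) k x) fun m => by
      obtain ⟨g, hg, h⟩ := hM (fun n k x => r (m + n) k x) inferInstance
        (fun n k => ho _ _) fun n x => ht _ _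
      exact ⟨⟨g, hg⟩, h⟩
  have hf2 : ∀ {T : Type} [CT E T] (u : T → ℕ) [CF E u], CF E fun t => f (u t) :=
    fun u _ => CF.comp f u
  obtain ⟨g, hg, hg'⟩ := CF.choice (E := E)
    (fun n c : ℕ => ∀ m n', m + n' = n → (f m).1 n' ≤ c) fun n =>
      ⟨(Finset.range (n + 1)).sup fun m => (f m).1 (n - m), fun m n' h => by
        have e : n' = n - m := by omega
        rw [e]
        exact Finset.le_sup (f := fun m => (f m).1 (n - m)) (Finset.mem_range.2 (by omega))⟩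
  refine ⟨g, hg, fun x m => ?_⟩
  obtain ⟨n, k, h1, h2⟩ := hf' m x
  exact ⟨m + n, by omega, hm _ _ _ _ (h1.trans (hg' _ m n rfl)) h2⟩

/-- the relation that is reflected -/
def No2Rel {X : Type} (O : ℕ → ℕ → X → Prop) (H P η : FN E ℕ ℕ) : Prop :=
  (∀ i j, i < j → P.1 i < P.1 j) → (∀ i j, i < j → η.1 i < η.1 j) ∧
    ∀ x m, ∃ n, m ≤ n ∧ ∃ b, No2Y O H.1 x n b ∧
      ∀ t, n ≤ t → t < b → ∀ k, ¬ (P.1 (η.1 k) ≤ t ∧ t < P.1 (η.1 k + 1))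

theorem No2_rel_cs {X : Type} [CT E X] {O : ℕ → ℕ → X → Prop}
    (hO : CS E fun p : (ℕ × ℕ) × X => O p.1.1 p.1.2 p.2) :
    CS E fun t : FN E ℕ ℕ × FN E ℕ ℕ × FN E ℕ ℕ => No2Rel O t.1 t.2.1 t.2.2 := by
  have h1 : CS E fun P : FN E ℕ ℕ => ∀ i j, i < j → P.1 i < P.1 j := inferInstance
  have h2 : CS E fun q : (FN E ℕ ℕ × FN E ℕ ℕ) × ℕ × ℕ => ∀ t, q.2.1 ≤ t → t < q.2.2 →
      ∀ k, ¬ (q.1.1.1 (q.1.2.1 k) ≤ t ∧ t < q.1.1.1 (q.1.2.1 k + 1)) := inferInstance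
  have h3 := h1.comp fun t : FN E ℕ ℕ × FN E ℕ ℕ × FN E ℕ ℕ => t.2.1
  have h4 := h1.comp fun t : FN E ℕ ℕ × FN E ℕ ℕ × FN E ℕ ℕ => t.2.2
  have h5 := h2.comp fun q : ((((FN E ℕ ℕ × FN E ℕ ℕ × FN E ℕ ℕ) × X) × ℕ) × ℕ) × ℕ =>
    (q.1.1.1.1.2, q.1.2, q.2)
  have h6 := No2_cs hO
    (fun q : ((((FN E ℕ ℕ × FN E ℕ ℕ × FN E ℕ ℕ) × X) × ℕ) × ℕ) × ℕ => q.1.1.1.1.1)
    (fun q => q.1.1.1.2) (fun q => q.1.2) fun q => q.2
  unfold No2Rel; infer_instance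

theorem No2_rel_ex (I : Iface E) {X : Type} [CT E X] {Op : Set X → Prop}
    (hu : Op Set.univ) (he : Op ∅) (hi : ∀ U V, Op U → Op V → Op (U ∩ V))
    (hU : ∀ U V, Op U → Op V → Op (U ∪ V))
    (hM : ∀ U : ℕ → ℕ → X → Prop, CS E (fun p : (ℕ × ℕ) × X => U p.1.1 p.1.2 p.2) →
      (∀ n k, Op {x | U n k x}) → (∀ n x, ∃ k, U n k x) →
      ∃ g : ℕ → ℕ, CF E g ∧ ∀ x, ∃ n, ∃ k ≤ g n, U n k x)
    {O : ℕ → ℕ → X → Prop} (hO : CS E fun p : (ℕ × ℕ) × X => O p.1.1 p.1.2 p.2)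
    (hop : ∀ j k, Op {x | O j k x}) (hcof : ∀ j x, ∃ k0, ∀ k, k0 ≤ k → O j k x)
    (H P : FN E ℕ ℕ) : ∃ η : FN E ℕ ℕ, η.1 ∈ I.VT ∧ No2Rel O H P η := by
  by_cases hP : StrictMono P.1
  swap
  · obtain ⟨η, h1, -⟩ := I.sparse (fun _ => 0) inferInstance
    exact ⟨⟨η, I.VT_cf η h1⟩, h1, fun h => absurd (fun i j hij => h i j hij) hP⟩
  have hY := @No2_cs M E _ _ _ X _ O hO
  have hP2 : ∀ {T : Type} [CT E T] (u : T → ℕ) [CF E u], CF E fun t => P.1 (u t) :=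
    fun u _ => CF.comp P.1 u
  have hY2 : ∀ {T : Type} [CT E T] (x : T → X) (a b : T → ℕ) [CF E x] [CF E a] [CF E b],
      CS E fun t => No2Y O H.1 (x t) (a t) (b t) :=
    fun x a b _ _ _ => hY (fun _ => H) x a b
  obtain ⟨g, hg, hg'⟩ := No2_men hM
    (fun m c x => ∃ j, j < c ∧ m < j ∧ No2Y O H.1 x (P.1 m) (P.1 j) ∧ No2Y O H.1 x (P.1 j) (P.1 c))
    inferInstance
    (fun m c => No2_ex he hU _ (fun j => (No2_guard hu he (m < j) _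
      (hi _ _ (No2_open hu he hi hU hop H.1 (P.1 m) (P.1 j))
        (No2_open hu he hi hU hop H.1 (P.1 j) (P.1 c)))).1) c)
    (fun m x => by
      obtain ⟨b, hb⟩ := No2_total hcof H.1 x (P.1 m)
      obtain ⟨c, hc⟩ := No2_total hcof H.1 x (P.1 (m + 1 + b))
      refine ⟨m + 1 + b + 1 + c, m + 1 + b, by omega, by omega, hb.mono le_rfl ?_,
        hc.mono le_rfl ?_⟩
      · exact le_trans (by omega) (hP.le_apply (x := m + 1 + b))
      · exact le_trans (by omega) (hP.le_apply (x := m + 1 + b + 1 + c)))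
    (fun m c c' x h ⟨j, h1, h2, h3, h4⟩ =>
      ⟨j, h1.trans_le h, h2, h3, h4.mono le_rfl (hP.monotone h)⟩)
  obtain ⟨η, h1, h2, h3⟩ := I.sparse g hg
  refine ⟨⟨η, I.VT_cf η h1⟩, h1, fun _ => ⟨fun i j hij => h2 hij, fun x m => ?_⟩⟩
  obtain ⟨n, hn, j, a1, a2, a3, a4⟩ := hg' x m
  have key : ∀ u v t k, P.1 u ≤ t → t < P.1 v → P.1 (η k) ≤ t → t < P.1 (η k + 1) →
      u ≤ η k ∧ η k < v := fun u v t k b1 b2 b3 b4 =>
    ⟨Nat.lt_succ_iff.1 (hP.lt_iff_lt.1 (b1.trans_lt b4)), hP.lt_iff_lt.1 (b3.trans_lt b2)⟩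
  by_cases h : ∃ k, n ≤ η k ∧ η k < j
  · obtain ⟨k, c1, c2⟩ := h
    refine ⟨P.1 j, le_trans (by omega) (hP.le_apply (x := j)), _, a4, fun t b1 b2 k' ⟨b3, b4⟩ => ?_⟩
    obtain ⟨d1, d2⟩ := key _ _ _ _ b1 b2 b3 b4
    have e1 : k < k' := h2.lt_iff_lt.1 (c2.trans_le d1)
    have e2 : η (k + 1) ≤ η k' := h2.monotone e1
    have e3 := h3 k n c1
    omega
  · exact ⟨P.1 n, hn.trans (hP.id_le n), _, a3, fun t b1 b2 k ⟨b3, b4⟩ =>
      h ⟨k, key _ _ _ _ b1 b2 b3 b4⟩⟩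

theorem No2_find {z : ℕ → ℕ} (hz : StrictMono z) {i1 n : ℕ} (h : z i1 ≤ n) :
    ∃ i, i1 ≤ i ∧ z i ≤ n ∧ n < z (i + 1) := by
  have h1 : ∃ i, n < z (i1 + i + 1) := ⟨n, lt_of_lt_of_le (by omega) hz.le_apply⟩
  classical
  refine ⟨i1 + Nat.find h1, by omega, ?_, Nat.find_spec h1⟩
  rcases e : Nat.find h1 with _ | k
  · exact h
  · exact not_lt.1 (Nat.find_min h1 (m := k) (by omega))

theorem No2_step (I : Iface E) {X : Type} [CT E X] {O : ℕ → ℕ → X → Prop}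
    (hO : CS E fun p : (ℕ × ℕ) × X => O p.1.1 p.1.2 p.2)
    (d : RefData E I.VT I.BB (No2Rel O)) (n : ℕ) (H : ℕ → ℕ) (hH : H ∈ d.V n) (x : X) :
    ∃ B ∈ I.BB, ∀ j, No2Y O H x j (d.z n (nxt B (d.z n j) + 1)) := by
  have hz := d.z_mono n
  have hzc := d.z_cf n
  let Hf : FN E ℕ ℕ := ⟨H, I.VT_cf H (d.V_sub n hH)⟩
  have hz2 : ∀ {T : Type} [CT E T] (u : T → ℕ) [CF E u], CF E fun t => d.z n (u t) :=
    fun u _ => CF.comp (d.z n) u
  have hY2 : ∀ {T : Type} [CT E T] (a b : T → ℕ) [CF E a] [CF E b],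
      CS E fun t => No2Y O H x (a t) (b t) :=
    fun a b _ _ => No2_cs hO (fun _ => Hf) (fun _ => x) a b
  have c1 : CS E fun t : ℕ =>
      ∃ i, d.z n i ≤ t ∧ t < d.z n (i + 1) ∧ No2Y O H x (d.z n i) (d.z n (i + 1)) := inferInstance
  have c2 : CS E fun t : ℕ => ∃ i, d.z n (2 * i) ≤ t ∧ t < d.z n (2 * i + 1) := inferInstance
  obtain ⟨B1, hB1, h1 | h1⟩ := I.reap ⟨{t | ∃ i, d.z n i ≤ t ∧ t < d.z n (i + 1) ∧
    No2Y O H x (d.z n i) (d.z n (i + 1))}, c1⟩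
  · refine ⟨B1, hB1, fun j => ?_⟩
    obtain ⟨a1, a2⟩ := nxt_spec (I.B_inf B1 hB1) (d.z n j)
    obtain ⟨i, b1, b2, b3⟩ := h1 a1
    have e1 : j < i + 1 := hz.lt_iff_lt.1 (a2.trans_lt b2)
    have e2 : i ≤ d.z n i := hz.id_le i
    exact b3.mono (by omega) (hz.monotone (by omega))
  exfalso
  obtain ⟨B2, hB2, h2⟩ := I.reap ⟨{t | ∃ i, d.z n (2 * i) ≤ t ∧ t < d.z n (2 * i + 1)}, c2⟩
  obtain ⟨B, hB, f1, f2⟩ := I.B_dir B1 hB1 B2 hB2
  obtain ⟨N, hN⟩ := (f1.union f2).bddAbove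
  have hN' : ∀ b ∈ B, N < b → b ∈ B1 ∧ b ∈ B2 := fun b hb h =>
    ⟨by_contra fun h' => absurd (hN (Or.inl ⟨hb, h'⟩)) (not_le.2 h),
      by_contra fun h' => absurd (hN (Or.inr ⟨hb, h'⟩)) (not_le.2 h)⟩
  obtain ⟨P, η, hR, hP, hk⟩ := d.key n Hf hH B hB
  obtain ⟨hη, hR⟩ := hR fun i j hij => hP hij
  obtain ⟨i0, hk⟩ := hk fun i j hij => hη i j hij
  obtain ⟨m, hm, b, hY, hW⟩ := hR x (d.z n (i0 + N + 1))
  obtain ⟨i, a1, a2, a3⟩ := No2_find hz hm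
  have meet : ∀ i' t, i ≤ i' → m ≤ t → t < b → d.z n i' ≤ t → t < d.z n (i' + 1) →
      ∃ c, c ∈ B1 ∧ c ∈ B2 ∧ d.z n i' ≤ c ∧ c < d.z n (i' + 1) := by
    intro i' t b1 b2 b3 b4 b5
    by_contra hc
    obtain ⟨k, d1, d2⟩ := hk i' (by omega) fun c hc' ⟨d1, d2⟩ => by
      have e2 : i' ≤ d.z n i' := hz.id_le i'
      obtain ⟨g1, g2⟩ := hN' c hc' (by omega)
      exact hc ⟨c, g1, g2, d1, d2⟩
    exact hW t b2 b3 k ⟨d1.trans b4, b5.trans_le d2⟩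
  obtain ⟨u, u1, u2, u3, u4⟩ := meet i m le_rfl le_rfl hY.lt a2 a3
  have hb : d.z n (i + 1) < b := by
    by_contra hb
    exact Set.disjoint_left.1 h1 u1 ⟨i, u3, u4, No2Y.mono hY a2 (not_lt.1 hb)⟩
  obtain ⟨v, -, v2, v3, v4⟩ := meet (i + 1) (d.z n (i + 1)) (by omega) a3.le hb le_rfl
    (hz (by omega))
  have par : ∀ s w, d.z n s ≤ w → w < d.z n (s + 1) →
      ((∃ i, d.z n (2 * i) ≤ w ∧ w < d.z n (2 * i + 1)) ↔ s % 2 = 0) := by
    intro s w b1 b2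
    constructor
    · rintro ⟨r, d1, d2⟩
      have e1 := hz.lt_iff_lt.1 (d1.trans_lt b2)
      have e2 := hz.lt_iff_lt.1 (b1.trans_lt d2)
      omega
    · intro h
      obtain ⟨r, rfl⟩ : ∃ r, s = 2 * r := ⟨s / 2, by omega⟩
      exact ⟨r, b1, b2⟩
  have pu := par _ _ u3 u4
  have pv := par _ _ v3 v4
  rcases h2 with h2 | h2
  · have e1 := pu.1 (h2 u2)
    have e2 := pv.1 (h2 v2)
    omega
  · have e1 : ¬ i % 2 = 0 := fun h => Set.disjoint_left.1 h2 u2 (pu.2 h)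
    have e2 : ¬ (i + 1) % 2 = 0 := fun h => Set.disjoint_left.1 h2 v2 (pv.2 h)
    omega

/-- `Op` plays the role of the open sets of `X`, `hM` is the Menger property for increasing covers,
`O j k x` says that the `k`-th points of the first `j` sequences are `j`-close to the limit at `x`. -/
theorem no_core (I : Iface E) {X : Type} [CT E X] (Op : Set X → Prop)
    (hu : Op Set.univ) (he : Op ∅) (hi : ∀ U V, Op U → Op V → Op (U ∩ V))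
    (hU : ∀ U V, Op U → Op V → Op (U ∪ V))
    (hM : ∀ U : ℕ → ℕ → X → Prop, CS E (fun p : (ℕ × ℕ) × X => U p.1.1 p.1.2 p.2) →
      (∀ n k, Op {x | U n k x}) → (∀ n x, ∃ k, U n k x) →
      ∃ g : ℕ → ℕ, CF E g ∧ ∀ x, ∃ n, ∃ k ≤ g n, U n k x)
    (O : ℕ → ℕ → X → Prop) (hO : CS E fun p : (ℕ × ℕ) × X => O p.1.1 p.1.2 p.2)
    (hop : ∀ j k, Op {x | O j k x}) (hanti : ∀ j j' k x, j ≤ j' → O j' k x → O j k x)
    (hcof : ∀ j x, ∃ k0, ∀ k, k0 ≤ k → O j k x)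
    (hfan : ∀ h : ℕ → ℕ, CF E h → ∃ (F : List X) (j0 : ℕ), ∀ j, j0 ≤ j → ∀ k ≤ h j,
      ∃ x ∈ F, ¬ O j k x) : False := by
  obtain ⟨d⟩ := I.ref (No2Rel O) (No2_rel_cs hO) fun H P _ _ =>
    No2_rel_ex I hu he hi hU hM hO hop hcof H P
  have key : ∀ F : List X, ∃ n, ∃ H ∈ d.V n, ∀ j, ∃ l, j ≤ l ∧ l ≤ H j ∧ ∀ x ∈ F, O j l x := by
    intro F
    induction F with
    | nil => exact ⟨0, id, d.id_mem, fun j => ⟨j, le_rfl, le_rfl, by simp⟩⟩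
    | cons x F ih =>
      obtain ⟨n, H, hH, h⟩ := ih
      obtain ⟨B, hB, hY⟩ := No2_step I hO d n H hH x
      obtain ⟨H', hH', hc⟩ := d.clos n H hH B hB
      refine ⟨n + 1, H', hH', fun j => ?_⟩
      obtain ⟨k, a1, a2, a3⟩ := hY j j le_rfl
      obtain ⟨l, b1, b2, b3⟩ := h k
      refine ⟨l, a1.trans b1, b2.trans (hc j k a2.le), fun y hy => ?_⟩
      rcases List.mem_cons.1 hy with rfl | hy
      · exact a3 l b1 b2
      · exact hanti j k l y a1 (b3 y hy)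
  obtain ⟨F, j0, hF⟩ := hfan d.h d.h_cf
  obtain ⟨n, H, hH, h⟩ := key F
  obtain ⟨j, a1, a2⟩ := d.unb n H hH j0
  obtain ⟨l, -, b2, b3⟩ := h j
  obtain ⟨x, hx, hn⟩ := hF j a1 l (by omega)
  exact hn (b3 x hx)

end Pool.Agent.B8F
end

-- merged part: Pool.Agent.Work.MP_b8a914_gt.F.Reals
section
/-! The real line of the model has a coded countable order dense subset. -/

namespace Pool.Agent.B8F
open Pool.Agent.Lib.ZFModel Pool.Agent.Work.MP_63c7e0_lc Pool.Agent.Work.MP_f50f0f_gt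

set_option synthInstance.maxSize 100000

theorem Reals_alg {T : Type} (a m : T → T → T) (z o : T) (r : T → T → Prop)
    (a1 : ∀ x y, a x y = a y x) (a2 : ∀ x y w, a (a x y) w = a x (a y w)) (a3 : ∀ x, a x z = x)
    (m1 : ∀ x y, m x y = m y x) (m2 : ∀ x y w, m (m x y) w = m x (m y w)) (m3 : ∀ x, m x o = x)
    (zo : z ≠ o) (a4 : ∀ x, ∃ y, a x y = z) (m4 : ∀ x, x ≠ z → ∃ y, m x y = o)
    (d : ∀ x y w, m x (a y w) = a (m x y) (m x w))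
    (r1 : ∀ x, ¬ r x x) (r2 : ∀ x y w, r x y → r y w → r x w)
    (r3 : ∀ x y, r x y ∨ x = y ∨ r y x) (r4 : ∀ x y w, r x y → r (a x w) (a y w))
    (r5 : ∀ x y, r z x → r z y → r z (m x y)) :
    ∃ (_ : Field T) (_ : LinearOrder T), IsStrictOrderedRing T ∧ (∀ x y : T, x + y = a x y) ∧
      (∀ x y : T, x * y = m x y) ∧ ∀ x y : T, x < y ↔ r x y := by
  classical
  choose ng hng using a4
  have m4' : ∀ x, ∃ y, (x ≠ z → m x y = o) ∧ (x = z → y = z) := fun x => by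
    by_cases hx : x = z
    · exact ⟨z, fun h => absurd hx h, fun _ => rfl⟩
    · obtain ⟨y, hy⟩ := m4 x hx
      exact ⟨y, fun _ => hy, fun h => absurd h hx⟩
  choose iv hiv1 hiv2 using m4'
  let : Add T := ⟨a⟩
  let : Mul T := ⟨m⟩
  let : Neg T := ⟨ng⟩
  let : Inv T := ⟨iv⟩
  let : Zero T := ⟨z⟩
  let : One T := ⟨o⟩
  let F : Field T := Field.ofMinimalAxioms T a2 (fun x => (a1 z x).trans (a3 x))
    (fun x => (a1 (ng x) x).trans (hng x)) m2 m1 (fun x => (m1 o x).trans (m3 x)) hiv1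
    (hiv2 z rfl) d ⟨z, o, zo⟩
  have : IsStrictTotalOrder T r :=
    { trichotomous := fun x y h1 h2 => ((r3 x y).resolve_left h1).resolve_right h2
      irrefl := r1
      trans := r2 }
  let L : LinearOrder T := linearOrderOfSTO r
  have hlt : ∀ x y : T, x < y ↔ r x y := fun _ _ => Iff.rfl
  have hadd : ∀ x y w : T, x < y → x + w < y + w := r4
  have hmul : ∀ x y : T, 0 < x → 0 < y → 0 < x * y := r5
  have : IsOrderedAddMonoid T :=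
    { add_le_add_left := fun x y h c => by
        rcases h.lt_or_eq with h | rfl
        · exact (hadd x y c h).le
        · exact le_rfl }
  have : ZeroLEOneClass T := ⟨by
    by_contra h
    have h1 : (1 : T) < 0 := not_le.1 h
    have h2 : (0 : T) < -1 := neg_pos.2 h1
    have h3 := hmul _ _ h2 h2
    rw [neg_mul_neg, one_mul] at h3
    exact lt_asymm h1 h3⟩
  exact ⟨F, L, IsStrictOrderedRing.of_mul_pos hmul, fun _ _ => rfl, fun _ _ => rfl, hlt⟩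

theorem Reals_rat {T : Type} [Field T] [LinearOrder T] [IsStrictOrderedRing T] [Archimedean T]
    {x y : T} (h : x < y) : ∃ (i j k : ℕ) (w : T), w * ((k : T) + 1) + j = i ∧ x < w ∧ w < y := by
  obtain ⟨q, h1, h2⟩ := exists_rat_btwn h
  refine ⟨q.num.toNat, (-q.num).toNat, q.den - 1, q, ?_, h1, h2⟩
  have h3 : ((q.den - 1 : ℕ) : T) + 1 = q.den := by
    have := q.den_pos
    rw [Nat.cast_pred this]; ring
  have h4 : (q : T) * q.den = q.num := by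
    rw [Rat.cast_def]
    have : (q.den : T) ≠ 0 := Nat.cast_ne_zero.2 q.den_ne_zero
    field_simp
  have h5 : (q.num.toNat : ℤ) - (-q.num).toNat = q.num := Int.toNat_sub_toNat_neg _
  have h6 : ((q.num.toNat : ℕ) : T) - (((-q.num).toNat : ℕ) : T) = q.num := by
    rw [← Int.cast_natCast q.num.toNat, ← Int.cast_natCast (-q.num).toNat, ← Int.cast_sub, h5]
  rw [h3, h4, ← h6]; ring

variable {M : Type 1} {E : M → M → Prop} [Fact (IsZFC E)] [CT E ℕ] [NatE E]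

omit [CT E ℕ] [NatE E] in
theorem Reals_op {R f e : M} (h : IsCommMon E R f e) {T : Type} [CT E T] (hT : Is E T R) :
    ∃ φ : T × T → T, CF E φ ∧ ∀ x y n, Pool.Agent.Work.MP_d95c0d_gt.Val E f x y n ↔
      ∃ s t : T, x = CT.code E s ∧ y = CT.code E t ∧ n = CT.code E (φ (s, t)) := by
  obtain ⟨⟨W, hW, hf⟩, -⟩ := h
  have hW' : Is E (T × T) W := fun p => (hW p).trans ⟨by
    rintro ⟨a, b, ha, hb, hp⟩
    obtain ⟨s, rfl⟩ := (hT a).1 ha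
    obtain ⟨t, rfl⟩ := (hT b).1 hb
    exact ⟨(s, t), (isPair_iff.1 hp).symm⟩, by
    rintro ⟨⟨s, t⟩, rfl⟩
    exact ⟨_, _, (hT _).2 ⟨s, rfl⟩, (hT _).2 ⟨t, rfl⟩, isPair_pr _ _⟩⟩
  obtain ⟨φ, h1, h2⟩ := rep_of_isFun hW' hT hf
  refine ⟨φ, h1, fun x y n => ⟨?_, ?_⟩⟩
  · rintro ⟨p, hp, h3⟩
    obtain ⟨⟨s, t⟩, rfl, rfl⟩ := (h2 _ _).1 h3
    obtain ⟨h4, h5⟩ := pr_inj.1 (isPair_iff.1 hp)
    exact ⟨s, t, h4.symm, h5.symm, rfl⟩
  · rintro ⟨s, t, rfl, rfl, rfl⟩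
    exact ⟨_, isPair_pr _ _, (h2 _ _).2 ⟨(s, t), rfl, rfl⟩⟩

theorem reals_sep {R add mul lt z o : M} (h : IsReals E R add mul lt z o) {T : Type} [CT E T]
    (hT : Is E T R) :
    (∀ a : T, ∃ b c : T, App E lt (CT.code E b) (CT.code E a) ∧
      App E lt (CT.code E a) (CT.code E c)) ∧
    ∃ q : ℕ × ℕ × ℕ → T, CF E q ∧ ∀ a b : T, App E lt (CT.code E a) (CT.code E b) →
      ∃ t, App E lt (CT.code E a) (CT.code E (q t)) ∧ App E lt (CT.code E (q t)) (CT.code E b) := by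
  obtain ⟨hA, hM, zo, a4, m4, d, -, r1, r2, r3, r4, r5, cp⟩ := h
  obtain ⟨a, ca, ha⟩ := Reals_op hA hT
  obtain ⟨m, cm, hm⟩ := Reals_op hM hT
  obtain ⟨-, hz, a1, a2, a3⟩ := hA
  obtain ⟨-, ho, m1, m2, m3⟩ := hM
  obtain ⟨z, rfl⟩ := (hT z).1 hz
  obtain ⟨o, rfl⟩ := (hT o).1 ho
  have mem : ∀ x : T, E (CT.code E x) R := fun x => (hT _).2 ⟨x, rfl⟩
  have va : ∀ x y : T, Pool.Agent.Work.MP_d95c0d_gt.Val E add (CT.code E x) (CT.code E y)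
      (CT.code E (a (x, y))) := fun x y => (ha _ _ _).2 ⟨x, y, rfl, rfl, rfl⟩
  have vm : ∀ x y : T, Pool.Agent.Work.MP_d95c0d_gt.Val E mul (CT.code E x) (CT.code E y)
      (CT.code E (m (x, y))) := fun x y => (hm _ _ _).2 ⟨x, y, rfl, rfl, rfl⟩
  have ua : ∀ x y w : T, Pool.Agent.Work.MP_d95c0d_gt.Val E add (CT.code E x) (CT.code E y)
      (CT.code E w) → a (x, y) = w := fun x y w h => by
    obtain ⟨s, t, h1, h2, h3⟩ := (ha _ _ _).1 h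
    rw [CT.inj h1, CT.inj h2, CT.inj h3]
  have um : ∀ x y w : T, Pool.Agent.Work.MP_d95c0d_gt.Val E mul (CT.code E x) (CT.code E y)
      (CT.code E w) → m (x, y) = w := fun x y w h => by
    obtain ⟨s, t, h1, h2, h3⟩ := (hm _ _ _).1 h
    rw [CT.inj h1, CT.inj h2, CT.inj h3]
  obtain ⟨F, L, S, hadd, hmul, hlt⟩ := Reals_alg (fun x y => a (x, y)) (fun x y => m (x, y)) z o
    (fun x y => App E lt (CT.code E x) (CT.code E y))
    (fun x y => (ua _ _ _ (a1 _ _ _ (va x y))).symm)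
    (fun x y w => (ua _ _ _ (a2 _ _ _ _ _ _ (va x y) (va _ w) (va y w))).symm)
    (fun x => ua _ _ _ (a3 _ (mem x)))
    (fun x y => (um _ _ _ (m1 _ _ _ (vm x y))).symm)
    (fun x y w => (um _ _ _ (m2 _ _ _ _ _ _ (vm x y) (vm _ w) (vm y w))).symm)
    (fun x => um _ _ _ (m3 _ (mem x)))
    (fun e => zo (congrArg _ e))
    (fun x => by
      obtain ⟨y, hy⟩ := a4 _ (mem x)
      obtain ⟨s, t, -, rfl, -⟩ := (ha _ _ _).1 hy
      exact ⟨t, ua _ _ _ hy⟩)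
    (fun x hx => by
      obtain ⟨y, hy⟩ := m4 _ (mem x) fun e => hx (CT.inj e)
      obtain ⟨s, t, -, rfl, -⟩ := (hm _ _ _).1 hy
      exact ⟨t, um _ _ _ hy⟩)
    (fun x y w => um _ _ _ (d _ _ _ _ _ _ _ (va y w) (vm x y) (vm x w) (va _ _)))
    (fun x => r1 _) (fun x y w => r2 _ _ _)
    (fun x y => (r3 _ _ (mem x) (mem y)).imp_right (Or.imp_left fun e => CT.inj e))
    (fun x y w h => r4 _ _ _ _ _ h (va x w) (va y w))
    (fun x y h1 h2 => r5 _ _ _ h1 h2 (vm x y))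
  have cA : CAdd E T := ⟨ca.congr fun p => hadd p.1 p.2⟩
  have cM : CF E fun p : T × T => p.1 * p.2 := cm.congr fun p => hmul p.1 p.2
  have cN : CF E fun n : ℕ => (n : T) :=
    CF.comp (fun p : ℕ × ℕ => (p.2 : T)) (fun n : ℕ => (n, n))
      (hg := CF.natRec (fun _ : ℕ => (0 : T)) (fun _ _ y => y + 1) (fun _ n => (n : T))
        (fun _ => Nat.cast_zero) fun _ n => Nat.cast_succ n)
  have : Archimedean T := by
    refine archimedean_iff_nat_le.2 fun x => ?_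
    by_contra hx
    push Not at hx
    have c1 : CF E fun p : T × ℕ => (p.2 : T) := CF.comp (fun n : ℕ => (n : T)) fun p : T × ℕ => p.2
    have cU : CS E fun t : T => t ∈ {t : T | ∃ n : ℕ, t = n} :=
      (inferInstance : CS E fun t : T => ∃ n : ℕ, t = n)
    have key : ∀ b : T, IsUB E R lt (CT.code E (⟨_, cU⟩ : PW E T)) (CT.code E b) ↔
        ∀ n : ℕ, (n : T) ≤ b := fun b => ⟨fun h n => not_lt.1 fun h1 =>
        h.2 _ ((mem_code_pw _ _).2 ⟨n, rfl⟩) ((hlt _ _).1 h1), fun h => ⟨mem b, fun y hy h1 => by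
      obtain ⟨t, ⟨n, rfl⟩, rfl⟩ := (E_code_pw _ _).1 hy
      exact not_lt.2 (h n) ((hlt _ _).2 h1)⟩⟩
    obtain ⟨b, hb, hb'⟩ := cp (CT.code E (⟨_, cU⟩ : PW E T))
      (fun y hy => by
        obtain ⟨t, -, rfl⟩ := (E_code_pw _ _).1 hy
        exact mem t)
      ⟨_, (mem_code_pw _ ((0 : ℕ) : T)).2 ⟨0, rfl⟩⟩ ⟨_, (key x).2 fun n => (hx n).le⟩
    obtain ⟨b, rfl⟩ := (hT b).1 hb.1
    refine hb' (CT.code E (b - 1)) ((key _).2 fun n => ?_) ((hlt _ _).1 (sub_one_lt b))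
    have := (key b).1 hb (n + 1)
    push_cast at this
    linarith
  refine ⟨fun x => ⟨x - 1, x + 1, (hlt _ _).1 (sub_one_lt x), (hlt _ _).1 (lt_add_one x)⟩, ?_⟩
  have c1 : CF E fun p : (ℕ × ℕ × ℕ) × T => (p.1.1 : T) :=
    CF.comp (fun n : ℕ => (n : T)) fun p : (ℕ × ℕ × ℕ) × T => p.1.1
  have c2 : CF E fun p : (ℕ × ℕ × ℕ) × T => (p.1.2.1 : T) :=
    CF.comp (fun n : ℕ => (n : T)) fun p : (ℕ × ℕ × ℕ) × T => p.1.2.1
  have c3 : CF E fun p : (ℕ × ℕ × ℕ) × T => (p.1.2.2 : T) :=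
    CF.comp (fun n : ℕ => (n : T)) fun p : (ℕ × ℕ × ℕ) × T => p.1.2.2
  have c4 : CF E fun p : (ℕ × ℕ × ℕ) × T => p.2 * ((p.1.2.2 : T) + 1) :=
    CF.comp (fun p : T × T => p.1 * p.2) fun p : (ℕ × ℕ × ℕ) × T => (p.2, (p.1.2.2 : T) + 1)
  have pos : ∀ k : ℕ, (k : T) + 1 ≠ 0 := fun k => by positivity
  refine ⟨fun t => ((t.1 : T) - t.2.1) / ((t.2.2 : T) + 1),
    CF.of_rel (fun t w => w * ((t.2.2 : T) + 1) + t.2.1 = t.1) fun t w => ?_, fun x y h => ?_⟩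
  · rw [eq_div_iff (pos _), eq_sub_iff_add_eq]
  · obtain ⟨i, j, k, w, h1, h2, h3⟩ := Reals_rat ((hlt _ _).2 h)
    have h4 : ((i : T) - j) / ((k : T) + 1) = w := by
      rw [div_eq_iff (pos _), ← h1]; ring
    refine ⟨(i, j, k), (hlt _ _).1 ?_, (hlt _ _).1 ?_⟩
    · exact h2.trans_eq h4.symm
    · exact h4.trans_lt h3

end Pool.Agent.B8F
end

-- merged part: Pool.Agent.Work.MP_b8a914_gt.F.No1
section
/-! No Menger space of the model has the fan in its space of continuous functions. -/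

set_option linter.unusedSectionVars false

namespace Pool.Agent.B8F
open Pool.Agent.Lib.ZFModel Pool.Agent.Work.MP_63c7e0_lc Pool.Agent.Work.MP_f50f0f_gt

set_option synthInstance.maxSize 100000

variable {M : Type 1} {E : M → M → Prop} [Fact (IsZFC E)] [CT E ℕ] [NatE E]

section
variable {TX TR TC : Type} [CT E TX] [CT E TR] [CT E TC]

/-- the sets of points that are open in the model -/
def No1Op (E : M → M → Prop) {TX : Type} [CT E TX] (τ : M) (U : Set TX) : Prop :=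
  ∃ u, E u τ ∧ ∀ x : TX, x ∈ U ↔ E (CT.code E x) u

theorem no1_univ {X τ : M} (hT : Is E TX X) (hX : IsTop E X τ) :
    No1Op E τ (Set.univ : Set TX) :=
  ⟨X, hX.2.1, fun x => ⟨fun _ => (hT _).2 ⟨x, rfl⟩, fun _ => trivial⟩⟩

theorem no1_empty {X τ : M} (hX : IsTop E X τ) : No1Op E τ (∅ : Set TX) := by
  obtain ⟨e, he⟩ := exists_empty (zf' E)
  exact ⟨e, hX.2.2.2 e e (fun x hx => (he x hx).elim) fun x =>
    ⟨fun h => (he x h).elim, fun ⟨U, hU, _⟩ => (he U hU).elim⟩,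
    fun x => ⟨fun h => h.elim, fun h => (he _ h).elim⟩⟩

theorem no1_inter {X τ : M} (hX : IsTop E X τ) (U V : Set TX) (hU : No1Op E τ U)
    (hV : No1Op E τ V) : No1Op E τ (U ∩ V) := by
  have := (zf' E).nonempty
  obtain ⟨u, hu, h1⟩ := hU
  obtain ⟨v, hv, h2⟩ := hV
  obtain ⟨w, hw⟩ := (zf' E).sep u fun x => E x v
  exact ⟨w, hX.2.2.1 u v w hu hv hw, fun x => by rw [hw, Set.mem_inter_iff, h1, h2]⟩

theorem no1_union {X τ : M} (hX : IsTop E X τ) (U V : Set TX) (hU : No1Op E τ U)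
    (hV : No1Op E τ V) : No1Op E τ (U ∪ V) := by
  obtain ⟨u, hu, h1⟩ := hU
  obtain ⟨v, hv, h2⟩ := hV
  obtain ⟨w, hw⟩ := exists_union (zf' E) u v
  obtain ⟨S, hS⟩ := exists_finite_set (zf' E) (Set.toFinite ({u, v} : Set M))
  refine ⟨w, hX.2.2.2 S w (fun x hx => ?_) fun x => ?_,
    fun x => by rw [hw, Set.mem_union, h1, h2]⟩
  · rcases (hS x).1 hx with rfl | rfl
    · exact hu
    · exact hv
  · rw [hw]
    constructor
    · rintro (h | h)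
      · exact ⟨u, (hS _).2 (Or.inl rfl), h⟩
      · exact ⟨v, (hS _).2 (Or.inr rfl), h⟩
    · rintro ⟨z, hz, h⟩
      rcases (hS z).1 hz with rfl | rfl
      · exact Or.inl h
      · exact Or.inr h

theorem no1_fin {X τ : M} (hT : Is E TX X) (hX : IsTop E X τ) {ι : Type} (P : ι → TX → Prop)
    (hP : ∀ i, No1Op E τ {x | P i x}) {A : Set ι} (hA : A.Finite) :
    No1Op E τ {x | ∀ i ∈ A, P i x} := by
  induction A, hA using Set.Finite.induction_on with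
  | empty =>
    have : {x | ∀ i ∈ (∅ : Set ι), P i x} = Set.univ := by ext x; simp
    rw [this]; exact no1_univ hT hX
  | @insert a s _ _ ih =>
    have : {x | ∀ i ∈ insert a s, P i x} = {x | P a x} ∩ {x | ∀ i ∈ s, P i x} := by ext x; simp
    rw [this]; exact no1_inter hX _ _ (hP a) ih

/-- the Menger property for coded sequences of countable covers -/
theorem no1_menger {X τ : M} (hT : Is E TX X) (hX : IsTop E X τ) (hM : IsMengerM E X τ)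
    (U : ℕ → ℕ → TX → Prop) (hU : CS E (fun p : (ℕ × ℕ) × TX => U p.1.1 p.1.2 p.2))
    (hop : ∀ n k, No1Op E τ {x | U n k x}) (hc : ∀ n x, ∃ k, U n k x) :
    ∃ g : ℕ → ℕ, CF E g ∧ ∀ x, ∃ n, ∃ k ≤ g n, U n k x := by
  obtain ⟨w, hw⟩ := exists_is E ℕ
  obtain ⟨P1, hP1⟩ := exists_is E (PW E TX)
  obtain ⟨P, hP⟩ := exists_is E (PW E (PW E TX))
  have h1 : CS E fun q : ((ℕ × PW E TX) × ℕ) × TX => U q.1.1.1 q.1.2 q.2 :=
    hU.comp fun q : ((ℕ × PW E TX) × ℕ) × TX => ((q.1.1.1, q.1.2), q.2)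
  have h2 : CS E fun p : ℕ × PW E TX => ∃ k, ∀ x, x ∈ p.2.1 ↔ U p.1 k x := inferInstance
  let c : ℕ → PW E (PW E TX) := fun n =>
    ⟨{W | ∃ k, ∀ x, x ∈ W.1 ↔ U n k x},
      h2.comp (fun W : PW E TX => (n, W)) (hf := CF.pair (fun _ => n) fun W => W)⟩
  have h3 : CF E c := @CF.curry _ E _ _ _ _ _ c h2
  obtain ⟨f, hf, hr⟩ := isFun_of_cf hw hP c
  obtain ⟨V, Q, hV, h4, h5⟩ := hM w f P (isOmega_of_is hw) hf (by
    intro n d hd
    obtain ⟨m, rfl, rfl⟩ := (hr _ _).1 hd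
    constructor
    · intro u hu
      obtain ⟨W, ⟨k, hk⟩, rfl⟩ := (E_code_pw _ _).1 hu
      obtain ⟨v, hv, h6⟩ := hop m k
      obtain ⟨W', rfl⟩ := pw_of_sub hT (hX.1 v hv)
      have : W = W' := Subtype.ext (Set.ext fun x => by
        rw [hk, ← mem_code_pw W' x, ← h6]; rfl)
      rw [this]; exact hv
    · intro x hx
      obtain ⟨t, rfl⟩ := (hT x).1 hx
      obtain ⟨k, hk⟩ := hc m t
      let W : PW E TX := ⟨{x | U m k x},
        hU.comp (fun x : TX => ((m, k), x)) (hf := CF.pair (fun _ => (m, k)) fun x => x)⟩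
      exact ⟨CT.code E W, (mem_code_pw _ _).2 ⟨k, fun _ => Iff.rfl⟩, (mem_code_pw _ _).2 hk⟩)
  have h6 : CS E fun q : (((ℕ × ℕ) × PW E TX) × ℕ) × TX => U q.1.1.1.1 q.1.2 q.2 :=
    hU.comp fun q : (((ℕ × ℕ) × PW E TX) × ℕ) × TX => ((q.1.1.1.1, q.1.2), q.2)
  have h7 : CS E fun p : ℕ × PW E TX => ∃ d, App E V (CT.code E p.1) d ∧ E (CT.code E p.2) d := by
    have := (zf' E).nonempty
    refine CS.of_dfn (fun q => ∃ x y, IsPair E q x y ∧ ∃ d, App E V x d ∧ E y d)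
      fun p => ⟨fun h => ⟨_, _, isPair_pr _ _, h⟩, ?_⟩
    rintro ⟨x, y, h8, h9⟩
    obtain ⟨rfl, rfl⟩ := pr_inj.1 (isPair_iff.1 h8)
    exact h9
  have h8 : CS E fun q : (ℕ × ℕ) × PW E TX =>
      ∃ d, App E V (CT.code E q.1.1) d ∧ E (CT.code E q.2) d :=
    h7.comp fun q : (ℕ × ℕ) × PW E TX => (q.1.1, q.2)
  obtain ⟨g, hg, h9⟩ := CF.choice (E := E) (fun (n m : ℕ) => ∀ W : PW E TX,
      (∃ d, App E V (CT.code E n) d ∧ E (CT.code E W) d) → ∃ k, k ≤ m ∧ ∀ x, x ∈ W.1 ↔ U n k x)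
    (by
      intro n
      obtain ⟨d, hd⟩ := hV.2.1 _ ((hw _).2 ⟨n, rfl⟩)
      obtain ⟨h10, h11⟩ := h4 _ _ _ ((hr _ _).2 ⟨n, rfl, rfl⟩) hd
      have h12 : {W : PW E TX | E (CT.code E W) d}.Finite :=
        ((isFin_iff' d).1 h11).preimage CT.inj.injOn
      have h13 : ∀ W : {W : PW E TX | E (CT.code E W) d}, ∃ k, ∀ x, x ∈ W.1.1 ↔ U n k x :=
        fun W => (mem_code_pw (c n) W.1).1 (h10 _ W.2)
      choose κ hκ using h13
      have := h12.to_subtype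
      obtain ⟨m, hm⟩ := (Set.finite_range κ).bddAbove
      refine ⟨m, fun W ⟨d', h14, h15⟩ => ?_⟩
      obtain rfl := hV.2.2 _ _ _ hd h14
      exact ⟨κ ⟨W, h15⟩, hm ⟨_, rfl⟩, hκ ⟨W, h15⟩⟩)
  refine ⟨g, hg, fun x => ?_⟩
  obtain ⟨n, d, u, h10, h11, h12⟩ := h5 _ ((hT _).2 ⟨x, rfl⟩)
  obtain ⟨m, rfl⟩ := (hw n).1 (hV.mem (zf' E) h10).1
  obtain ⟨W, -, rfl⟩ := (E_code_pw _ _).1
    ((h4 _ _ _ ((hr _ _).2 ⟨m, rfl, rfl⟩) h10).1 u h11)
  obtain ⟨k, h13, h14⟩ := h9 m W ⟨d, h10, h11⟩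
  exact ⟨m, k, h13, (h14 x).1 ((mem_code_pw _ _).1 h12)⟩

/-- evaluation of the continuous functions -/
theorem no1_ev {X τ R ρ C : M} (hT : Is E TX X) (hR : Is E TR R) (hC' : Is E TC C)
    (hC : ∀ f, E f C ↔ IsCont E f X τ R ρ) :
    ∃ ev : TC × TX → TR, CF E ev ∧ ∀ (g : TC) (x y : M), App E (CT.code E g) x y ↔
      ∃ t : TX, x = CT.code E t ∧ y = CT.code E (ev (g, t)) := by
  have h0 : ∀ g : TC, IsFun E (CT.code E g) X R := fun g => ((hC _).1 ((hC' _).2 ⟨g, rfl⟩)).1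
  have h1 : ∀ (g : TC) (x : TX) (y : TR), E (CT.code E (x, y)) (CT.code E g) ↔
      App E (CT.code E g) (CT.code E x) (CT.code E y) := fun g x y =>
    ⟨fun h => ⟨_, h, isPair_pr _ _⟩, fun ⟨_, hp, h⟩ => by rw [isPair_iff.1 h] at hp; exact hp⟩
  obtain ⟨ev, h2, h3⟩ := CF.choice (E := E)
    (fun (p : TC × TX) (y : TR) => E (CT.code E (p.2, y)) (CT.code E p.1)) (by
      rintro ⟨g, x⟩
      obtain ⟨y, hy⟩ := (h0 g).2.1 _ ((hT _).2 ⟨x, rfl⟩)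
      obtain ⟨t, rfl⟩ := (hR y).1 ((h0 g).mem (zf' E) hy).2
      exact ⟨t, (h1 _ _ _).2 hy⟩)
  refine ⟨ev, h2, fun g x y => ⟨fun h => ?_, ?_⟩⟩
  · obtain ⟨t, rfl⟩ := (hT x).1 ((h0 g).mem (zf' E) h).1
    exact ⟨t, rfl, (h0 g).2.2 _ _ _ h ((h1 _ _ _).1 (h3 (g, t)))⟩
  · rintro ⟨t, rfl, rfl⟩
    exact (h1 _ _ _).1 (h3 (g, t))

/-- preimages of open sets are open -/
theorem no1_pre {X τ R ρ C : M} (hC' : Is E TC C) (hC : ∀ f, E f C ↔ IsCont E f X τ R ρ)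
    {ev : TC × TX → TR} [CF E ev] (hev : ∀ (g : TC) (x y : M), App E (CT.code E g) x y ↔
      ∃ t : TX, x = CT.code E t ∧ y = CT.code E (ev (g, t)))
    (g : TC) {V : M} (hV : E V ρ) : No1Op E τ {x | E (CT.code E (ev (g, x))) V} := by
  have h1 : CF E fun x : TX => ev (g, x) :=
    CF.comp ev (fun x : TX => (g, x)) (hf := CF.pair (fun _ => g) fun x => x)
  let U : PW E TX := ⟨{x | E (CT.code E (ev (g, x))) V}, CS.Ec (fun x : TX => ev (g, x)) V⟩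
  refine ⟨CT.code E U, ((hC _).1 ((hC' _).2 ⟨g, rfl⟩)).2 V _ hV fun x => ?_,
    fun x => (mem_code_pw U x).symm⟩
  refine (E_code_pw U x).trans ?_
  constructor
  · rintro ⟨t, ht, rfl⟩
    exact ⟨_, ht, (hev _ _ _).2 ⟨t, rfl, rfl⟩⟩
  · rintro ⟨y, hy, h⟩
    obtain ⟨t, rfl, rfl⟩ := (hev _ _ _).1 h
    exact ⟨t, hy, rfl⟩

/-- open rays are open -/
theorem no1_ray {R add mul lt z o ρ : M} (hR : IsReals E R add mul lt z o)
    (hρ : IsOrderTop E R lt ρ) (hT : Is E TR R) (a : TR) :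
    (∃ V, E V ρ ∧ ∀ y, E y V ↔ App E lt (CT.code E a) y) ∧
    ∃ V, E V ρ ∧ ∀ y, E y V ↔ App E lt y (CT.code E a) := by
  have := (zf' E).nonempty
  have hne := (reals_sep hR hT).1
  obtain ⟨-, -, -, -, -, -, h1, -, h2, -⟩ := hR
  have h3 : ∀ x y, App E lt x y → E x R ∧ E y R := by
    rintro x y ⟨p, hp, h⟩
    obtain ⟨x', y', h4, h5, h6⟩ := h1 p hp
    obtain ⟨rfl, rfl⟩ := pair_inj (zf' E) h h6
    exact ⟨h4, h5⟩
  constructor
  · obtain ⟨V, hV⟩ := (zf' E).sep R fun y => App E lt (CT.code E a) y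
    have h4 : ∀ y, E y V ↔ App E lt (CT.code E a) y := fun y =>
      (hV y).trans ⟨fun h => h.2, fun h => ⟨(h3 _ _ h).2, h⟩⟩
    refine ⟨V, (hρ V).2 ⟨fun y hy => ((hV y).1 hy).1, fun y hy => ?_⟩, h4⟩
    obtain ⟨t, rfl⟩ := (hT y).1 ((hV y).1 hy).1
    obtain ⟨b, c, -, h5⟩ := hne t
    exact ⟨_, _, (h4 _).1 hy, h5, fun y' h6 _ => (h4 _).2 h6⟩
  · obtain ⟨V, hV⟩ := (zf' E).sep R fun y => App E lt y (CT.code E a)
    have h4 : ∀ y, E y V ↔ App E lt y (CT.code E a) := fun y =>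
      (hV y).trans ⟨fun h => h.2, fun h => ⟨(h3 _ _ h).1, h⟩⟩
    refine ⟨V, (hρ V).2 ⟨fun y hy => ((hV y).1 hy).1, fun y hy => ?_⟩, h4⟩
    obtain ⟨t, rfl⟩ := (hT y).1 ((hV y).1 hy).1
    obtain ⟨b, c, h5, -⟩ := hne t
    exact ⟨_, _, h5, (h4 _).1 hy, fun y' _ h6 => (h4 _).2 h6⟩

/-- the fan as a coded array of functions with a limit -/
theorem no1_fan {X ρ C π : M} (hT : Is E TX X) (hC' : Is E TC C) (hπ : IsPw E C X ρ π)
    {ev : TC × TX → TR} [CF E ev] (hev : ∀ (g : TC) (x y : M), App E (CT.code E g) x y ↔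
      ∃ t : TX, x = CT.code E t ∧ y = CT.code E (ev (g, t))) (h : FanEmbeds E C π) :
    ∃ (f : ℕ × ℕ → TC) (f0 : TC), CF E f ∧
      (∀ x V, E V ρ → E (CT.code E (ev (f0, x))) V → ∀ n, ∃ m, ∀ k, m ≤ k →
        E (CT.code E (ev (f (n, k), x))) V) ∧
      ∀ h : ℕ → ℕ, CF E h → ∃ A : Set (TX × M), A.Finite ∧
        (∀ p ∈ A, E p.2 ρ ∧ E (CT.code E (ev (f0, p.1))) p.2) ∧
        ∀ n k, k ≤ h n → ∃ p ∈ A, ¬ E (CT.code E (ev (f (n, k), p.1))) p.2 := by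
  have := (zf' E).nonempty
  obtain ⟨S, σ, e, ⟨w, W, i, hw, hW, hi, hS, hσ⟩, he, -, hemb⟩ := h
  have hw' := isOmega_iff.1 hw
  have hW' : Is E (ℕ × ℕ) W := fun p => (hW p).trans ⟨by
    rintro ⟨a, b, ha, hb, hp⟩
    obtain ⟨n, rfl⟩ := (hw' a).1 ha
    obtain ⟨k, rfl⟩ := (hw' b).1 hb
    exact ⟨(n, k), (isPair_iff.1 hp).symm⟩, by
    rintro ⟨⟨n, k⟩, rfl⟩
    exact ⟨_, _, (hw' _).2 ⟨n, rfl⟩, (hw' _).2 ⟨k, rfl⟩, isPair_pr _ _⟩⟩
  have h1 : ∀ p, E p S → ∃ g : TC, App E e p (CT.code E g) := fun p hp => by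
    obtain ⟨y, hy⟩ := he.2.1 p hp
    obtain ⟨g, rfl⟩ := (hC' y).1 (he.mem (zf' E) hy).2
    exact ⟨g, hy⟩
  obtain ⟨f0, hf0⟩ := h1 i ((hS i).2 (Or.inr rfl))
  obtain ⟨f, hf, hf'⟩ := CF.choice (E := E)
    (fun (p : ℕ × ℕ) (g : TC) => App E e (CT.code E p) (CT.code E g))
    fun p => h1 _ ((hS _).2 (Or.inl ((hW' _).2 ⟨p, rfl⟩)))
  refine ⟨f, f0, hf, fun x V hV h2 n => ?_, fun h hh => ?_⟩
  · have h3 : CF E fun g : TC => ev (g, x) := CF.comp ev fun g : TC => (g, x)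
    let B : PW E TC := ⟨{g | E (CT.code E (ev (g, x))) V}, CS.Ec (fun g : TC => ev (g, x)) V⟩
    obtain ⟨F, hF⟩ := exists_finite_set (zf' E) (Set.finite_singleton (pr E (CT.code E x) V))
    have h4 : ∀ g : TC, InBox E F (CT.code E g) ↔ g ∈ B.1 := fun g => by
      constructor
      · intro h5
        exact h5 _ V _ ⟨_, (hF _).2 rfl, isPair_pr _ _⟩ ((hev _ _ _).2 ⟨x, rfl, rfl⟩)
      · rintro h5 x' V' y ⟨p, hp, h6⟩ h7
        obtain rfl : p = pr E (CT.code E x) V := (hF p).1 hp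
        obtain ⟨rfl, rfl⟩ := pr_inj.1 (isPair_iff.1 h6)
        obtain ⟨t, h8, rfl⟩ := (hev _ _ _).1 h7
        rw [← CT.inj h8]; exact h5
    have h5 : E (CT.code E B) π := by
      refine (hπ _).2 ⟨fun y hy => ?_, fun y hy => ⟨F, ?_, fun p hp => ?_, ?_, fun g hg h6 => ?_⟩⟩
      · obtain ⟨g, -, rfl⟩ := (E_code_pw _ _).1 hy
        exact (hC' _).2 ⟨g, rfl⟩
      · rw [isFin_iff']
        exact (Set.finite_singleton _).subset fun p hp => (hF p).1 hp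
      · obtain rfl : p = pr E (CT.code E x) V := (hF p).1 hp
        exact ⟨_, _, (hT _).2 ⟨x, rfl⟩, hV, isPair_pr _ _⟩
      · obtain ⟨g, hg, rfl⟩ := (E_code_pw _ _).1 hy
        exact (h4 g).2 hg
      · obtain ⟨g, rfl⟩ := (hC' g).1 hg
        exact (mem_code_pw _ _).2 ((h4 g).1 h6)
    obtain ⟨U, hU⟩ := (zf' E).sep S fun p => ∃ y, E y (CT.code E B) ∧ App E e p y
    have h6 : ∀ p, E p U ↔ ∃ y, E y (CT.code E B) ∧ App E e p y := fun p =>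
      (hU p).trans ⟨fun h => h.2, fun ⟨y, h7, h8⟩ => ⟨(he.mem (zf' E) h8).1, y, h7, h8⟩⟩
    obtain ⟨m, hm, h7⟩ := ((hσ U).1 ((hemb U).2 ⟨_, h5, h6⟩)).2
      ((h6 i).2 ⟨_, (mem_code_pw B f0).2 h2, hf0⟩) _ ((hw' _).2 ⟨n, rfl⟩)
    obtain ⟨m, rfl⟩ := (hw' m).1 hm
    refine ⟨m + 1, fun k hk => ?_⟩
    obtain ⟨y, h8, h9⟩ := (h6 _).1
      (h7 _ _ ((hw' _).2 ⟨k, rfl⟩) (E_nat.2 hk) (isPair_pr _ _))
    rw [he.2.2 _ _ _ h9 (hf' (n, k))] at h8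
    exact (mem_code_pw B _).1 h8
  · have h2 : CF E fun p : ℕ × ℕ => h p.1 := CF.comp h fun p : ℕ × ℕ => p.1
    let A : PW E (ℕ × ℕ) := ⟨{p | h p.1 < p.2}, CS.lt (fun p : ℕ × ℕ => h p.1) fun p => p.2⟩
    obtain ⟨s, hs⟩ := exists_sing (zf' E) i
    obtain ⟨U, hU⟩ := exists_union (zf' E) s (CT.code E A)
    have h3 : E U σ := by
      refine (hσ U).2 ⟨fun p hp => ?_, fun _ n hn => ?_⟩
      · rcases (hU p).1 hp with h4 | h4
        · exact (hS p).2 (Or.inr ((hs p).1 h4))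
        · obtain ⟨t, -, rfl⟩ := (E_code_pw _ _).1 h4
          exact (hS _).2 (Or.inl ((hW' _).2 ⟨t, rfl⟩))
      · obtain ⟨n, rfl⟩ := (hw' n).1 hn
        refine ⟨_, (hw' _).2 ⟨h n, rfl⟩, fun k p hk h4 h5 => ?_⟩
        obtain ⟨k, rfl⟩ := (hw' k).1 hk
        rw [isPair_iff.1 h5]
        exact (hU _).2 (Or.inr ((mem_code_pw A (n, k)).2 (E_nat.1 h4)))
    obtain ⟨V, hV, h4⟩ := (hemb U).1 h3
    obtain ⟨y, h5, h6⟩ := (h4 i).1 ((hU i).2 (Or.inl ((hs i).2 rfl)))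
    obtain rfl := he.2.2 _ _ _ hf0 h6
    obtain ⟨F, h7, h8, h9, h10⟩ := ((hπ V).1 hV).2 _ h5
    refine ⟨{p | E (pr E (CT.code E p.1) p.2) F}, ?_, fun p hp => ⟨?_, ?_⟩, fun n k hk => ?_⟩
    · refine ((isFin_iff' F).1 h7).preimage (f := fun p : TX × M => pr E (CT.code E p.1) p.2) ?_
      intro p _ p' _ h11
      exact Prod.ext (CT.inj (pr_inj.1 h11).1) (pr_inj.1 h11).2
    · obtain ⟨x, V', -, h11, h12⟩ := h8 _ hp
      rw [(pr_inj.1 (isPair_iff.1 h12)).2]; exact h11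
    · exact h9 _ _ _ ⟨_, hp, isPair_pr _ _⟩ ((hev _ _ _).2 ⟨p.1, rfl, rfl⟩)
    · by_contra h11
      have h12 : InBox E F (CT.code E (f (n, k))) := by
        rintro x V' y ⟨p, hp, h13⟩ h14
        obtain ⟨t, rfl, rfl⟩ := (hev _ _ _).1 h14
        rw [isPair_iff.1 h13] at hp
        by_contra h15
        exact h11 ⟨(t, V'), hp, h15⟩
      have h13 := (h4 _).2 ⟨_, h10 _ ((hC' _).2 ⟨f (n, k), rfl⟩) h12, hf' (n, k)⟩
      rcases (hU _).1 h13 with h14 | h14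
      · exact hi ((hs _).1 h14 ▸ (hW' _).2 ⟨(n, k), rfl⟩)
      · exact absurd ((mem_code_pw A (n, k)).1 h14) (not_lt.2 hk)

/-- the indices of level `j` -/
def No1Lv (j : ℕ) (i : ℕ × (ℕ × ℕ × ℕ) × (ℕ × ℕ × ℕ)) : Prop :=
  i.1 ≤ j ∧ i.2.1.1 + i.2.1.2.1 + i.2.1.2.2 + i.2.2.1 + i.2.2.2.1 + i.2.2.2.2 ≤ j

theorem no1_lv_fin (j : ℕ) : {i | No1Lv j i}.Finite := by
  refine (Set.finite_Iic ((j, (j, j, j), (j, j, j)) : ℕ × (ℕ × ℕ × ℕ) × (ℕ × ℕ × ℕ))).subset ?_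
  rintro ⟨n, ⟨a, b, c⟩, ⟨d, e, f⟩⟩ ⟨h1, h2⟩
  simp only [Set.mem_Iic, Prod.mk_le_mk] at h1 h2 ⊢
  omega

theorem no1_main (I : Iface E) {R add mul lt z o ρ X τ C π : M} (hT : Is E TX X)
    (hR' : Is E TR R) (hC' : Is E TC C) (hR : IsReals E R add mul lt z o)
    (hρ : IsOrderTop E R lt ρ) (hX : IsTop E X τ) (hC : ∀ f, E f C ↔ IsCont E f X τ R ρ)
    (hπ : IsPw E C X ρ π) (hM : IsMengerM E X τ) : ¬ FanEmbeds E C π := by
  intro hfan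
  obtain ⟨ev, hev0, hev⟩ := no1_ev hT hR' hC' hC
  obtain ⟨f, f0, hf, hconv, hbad⟩ := no1_fan hT hC' hπ hev hfan
  obtain ⟨q, hq, hden⟩ := (reals_sep hR hR').2
  have hray := no1_ray hR hρ hR'
  obtain ⟨-, -, -, -, -, -, hl1, hl2, hl3, hl4, -⟩ := hR
  have hl5 : ∀ x y, App E lt x y → E x R ∧ E y R := by
    rintro x y ⟨p, hp, h⟩
    obtain ⟨x', y', h4, h5, h6⟩ := hl1 p hp
    obtain ⟨rfl, rfl⟩ := pair_inj (zf' E) h h6
    exact ⟨h4, h5⟩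
  let L : TR → TR → Prop := fun a b => App E lt (CT.code E a) (CT.code E b)
  have hL : CS E fun p : TR × TR => L p.1 p.2 := CS.App (fun p : TR × TR => p.1) (fun p => p.2) lt
  have hco : ∀ a b c, L a b → L a c ∨ L c b := fun a b c h => by
    rcases hl4 _ _ ((hR' _).2 ⟨a, rfl⟩) ((hR' _).2 ⟨c, rfl⟩) with h1 | h1 | h1
    · exact Or.inl h1
    · exact Or.inr (show App E lt _ _ from h1 ▸ h)
    · exact Or.inr (hl3 _ _ _ h1 h)
  let P : ℕ → ℕ × (ℕ × ℕ × ℕ) × (ℕ × ℕ × ℕ) → TX → Prop := fun k i x =>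
    (L (q i.2.1) (ev (f0, x)) ∨ L (ev (f (i.1, k), x)) (q i.2.2)) ∧
    (L (ev (f0, x)) (q i.2.2) ∨ L (q i.2.1) (ev (f (i.1, k), x)))
  let A : ℕ → Set (ℕ × (ℕ × ℕ × ℕ) × (ℕ × ℕ × ℕ)) := fun j =>
    {i | No1Lv j i ∧ L (q i.2.1) (q i.2.2)}
  have hA : ∀ j, (A j).Finite := fun j => (no1_lv_fin j).subset fun i hi => hi.1
  have hgt : ∀ g a, No1Op E τ {x | L a (ev (g, x))} := fun g a => by
    obtain ⟨V, h1, h2⟩ := (hray a).1
    have := no1_pre hC' hC hev g h1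
    simp only [h2] at this
    exact this
  have hlt : ∀ g a, No1Op E τ {x | L (ev (g, x)) a} := fun g a => by
    obtain ⟨V, h1, h2⟩ := (hray a).2
    have := no1_pre hC' hC hev g h1
    simp only [h2] at this
    exact this
  refine no_core I (No1Op E τ) (no1_univ hT hX) (no1_empty hX) (no1_inter hX) (no1_union hX)
    (no1_menger hT hX hM) (fun j k x => ∀ i ∈ A j, P k i x) ?_ (fun j k => ?_)
    (fun j j' k x h1 h2 i hi => h2 i ⟨⟨hi.1.1.trans h1, hi.1.2.trans h1⟩, hi.2⟩)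
    (fun j x => ?_) fun h hh => ?_
  · let Q := ((ℕ × ℕ) × TX) × (ℕ × (ℕ × ℕ × ℕ) × (ℕ × ℕ × ℕ))
    have e1 : CF E fun p : Q => q p.2.2.1 := CF.comp q fun p : Q => p.2.2.1
    have e2 : CF E fun p : Q => q p.2.2.2 := CF.comp q fun p : Q => p.2.2.2
    have e3 : CF E fun p : Q => ev (f0, p.1.2) := CF.comp ev fun p : Q => (f0, p.1.2)
    have e4 : CF E fun p : Q => f (p.2.1, p.1.1.2) := CF.comp f fun p : Q => (p.2.1, p.1.1.2)
    have e5 : CF E fun p : Q => ev (f (p.2.1, p.1.1.2), p.1.2) :=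
      CF.comp ev fun p : Q => (f (p.2.1, p.1.1.2), p.1.2)
    have e6 : CS E fun p : Q => No1Lv p.1.1.1 p.2 := by unfold No1Lv; infer_instance
    have e7 : CS E fun p : Q => L (q p.2.2.1) (q p.2.2.2) := CS.App _ _ lt
    have e8 : CS E fun p : Q => L (q p.2.2.1) (ev (f0, p.1.2)) := CS.App _ _ lt
    have e9 : CS E fun p : Q => L (ev (f (p.2.1, p.1.1.2), p.1.2)) (q p.2.2.2) := CS.App _ _ lt
    have e10 : CS E fun p : Q => L (ev (f0, p.1.2)) (q p.2.2.2) := CS.App _ _ lt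
    have e11 : CS E fun p : Q => L (q p.2.2.1) (ev (f (p.2.1, p.1.1.2), p.1.2)) := CS.App _ _ lt
    have e12 : CS E fun p : Q => p.2 ∈ A p.1.1.1 := CS.and _ _ (h := e6) (h' := e7)
    have e13 : CS E fun p : Q => P p.1.1.2 p.2 p.1.2 :=
      CS.and _ _ (h := @CS.or _ _ _ _ _ _ _ e8 e9) (h' := @CS.or _ _ _ _ _ _ _ e10 e11)
    have e14 : CS E fun p : Q => p.2 ∈ A p.1.1.1 → P p.1.1.2 p.2 p.1.2 :=
      @CS.imp _ _ _ _ _ _ _ e12 e13
    exact @CS.all _ _ _ _ _ _ _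
      (fun (p : (ℕ × ℕ) × TX) i => i ∈ A p.1.1 → P p.1.2 i p.2) e14
  · exact no1_fin hT hX (P k) (fun i => no1_inter hX _ _ (no1_union hX _ _ (hgt _ _) (hlt _ _))
      (no1_union hX _ _ (hlt _ _) (hgt _ _))) (hA j)
  · refine Filter.eventually_atTop.1 ((Filter.eventually_all_finite (hA j)).2 fun i hi => ?_)
    refine Filter.Eventually.and ?_ ?_
    · rcases hco _ _ (ev (f0, x)) hi.2 with h1 | h1
      · exact Filter.Eventually.of_forall fun _ => Or.inl h1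
      · obtain ⟨V, h2, h3⟩ := (hray (q i.2.2)).2
        obtain ⟨m, hm⟩ := hconv x V h2 ((h3 _).2 h1) i.1
        exact Filter.eventually_atTop.2 ⟨m, fun k hk => Or.inr ((h3 _).1 (hm k hk))⟩
    · rcases hco _ _ (ev (f0, x)) hi.2 with h1 | h1
      · obtain ⟨V, h2, h3⟩ := (hray (q i.2.1)).1
        obtain ⟨m, hm⟩ := hconv x V h2 ((h3 _).2 h1) i.1
        exact Filter.eventually_atTop.2 ⟨m, fun k hk => Or.inr ((h3 _).1 (hm k hk))⟩
      · exact Filter.Eventually.of_forall fun _ => Or.inl h1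
  · obtain ⟨B, hB, h1, h2⟩ := hbad h hh
    have h3 : ∀ p ∈ B, ∀ᶠ j in Filter.atTop, ∀ k, (∀ i ∈ A j, P k i p.1) →
        E (CT.code E (ev (f (j, k), p.1))) p.2 := fun p hp => by
      obtain ⟨c, d, h4, h5, h6⟩ := ((hρ _).1 (h1 p hp).1).2 _ (h1 p hp).2
      obtain ⟨c, rfl⟩ := (hR' c).1 (hl5 _ _ h4).1
      obtain ⟨d, rfl⟩ := (hR' d).1 (hl5 _ _ h5).2
      obtain ⟨a1, h7, h8⟩ := hden _ _ h4
      obtain ⟨b1, h9, h10⟩ := hden _ _ h8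
      obtain ⟨b2, h11, h12⟩ := hden _ _ h5
      obtain ⟨a2, h13, h14⟩ := hden _ _ h11
      refine Filter.eventually_atTop.2 ⟨a1.1 + a1.2.1 + a1.2.2 + b1.1 + b1.2.1 + b1.2.2 +
        (a2.1 + a2.2.1 + a2.2.2 + b2.1 + b2.2.1 + b2.2.2), fun j hj k hk => h6 _ ?_ ?_⟩
      · rcases (hk (j, a1, b1) ⟨⟨le_rfl, le_trans (Nat.le_add_right _ _) hj⟩, h9⟩).2 with h15 | h15
        · exact (hl2 _ (hl3 _ _ _ h15 h10)).elim
        · exact hl3 _ _ _ h7 h15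
      · rcases (hk (j, a2, b2) ⟨⟨le_rfl, le_trans (Nat.le_add_left _ _) hj⟩, h14⟩).1 with h15 | h15
        · exact (hl2 _ (hl3 _ _ _ h15 h13)).elim
        · exact hl3 _ _ _ h15 h12
    obtain ⟨j0, h4⟩ := Filter.eventually_atTop.1 ((Filter.eventually_all_finite hB).2 h3)
    refine ⟨(hB.image Prod.fst).toFinset.toList, j0, fun j hj k hk => ?_⟩
    obtain ⟨p, hp, h5⟩ := h2 j k hk
    refine ⟨p.1, ?_, fun h6 => h5 (h4 j hj p hp k h6)⟩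
    rw [Finset.mem_toList, Set.Finite.mem_toFinset]
    exact ⟨p, hp, rfl⟩

end

theorem no_fan (I : Iface E) (hs : ∀ a, Small.{0} {x // E x a})
    {R add mul lt z o ρ X τ C π : M} (hR : IsReals E R add mul lt z o)
    (hρ : IsOrderTop E R lt ρ) (hX : IsTop E X τ) (hC : ∀ f, E f C ↔ IsCont E f X τ R ρ)
    (hπ : IsPw E C X ρ π) (hM : IsMengerM E X τ) : ¬ FanEmbeds E C π :=
  no1_main I (is_el X) (is_el R) (is_el C) hR hρ hX hC hπ hM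

end Pool.Agent.B8F
end

-- merged part: Pool.Agent.Work.MP_b8a914_gt.F.GU
section
/-! The groupwise density number of the model is at most its reaping number. -/

set_option linter.unusedSectionVars false

namespace Pool.Agent.B8F
open Pool.Agent.Lib.ZFModel Pool.Agent.Work.MP_63c7e0_lc

set_option synthInstance.maxSize 100000

variable {M : Type 1} {E : M → M → Prop} [Fact (IsZFC E)] [CT E ℕ] [NatE E]

/-- `Z` is unbounded and, for each increasing `η` in `Vf` and each parity, infinitely many values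
of `η` lie in the same gap of `Z` as an earlier point of `Bs` -/
def GUGood (Vf : Set (FN E ℕ ℕ)) (Bs Z : Set ℕ) : Prop :=
  (∀ m, ∃ n, m ≤ n ∧ n ∈ Z) ∧ ∀ η : FN E ℕ ℕ, η ∈ Vf → (∀ a b, a < b → η.1 a < η.1 b) →
    ∀ e, e < 2 → ∀ m, ∃ j, m ≤ j ∧ ∃ b, b ∈ Bs ∧ b ≤ η.1 (2 * j + e) ∧
      ∀ s, b ≤ s → s ≤ η.1 (2 * j + e) → s ∉ Z

theorem GU_cs (Vf : PW E (FN E ℕ ℕ)) :
    CS E fun q : PW E ℕ × PW E ℕ => GUGood Vf.1 q.1.1 q.2.1 := by
  have h1 : CS E fun q : (PW E ℕ × PW E ℕ) × ℕ => ∃ b, b ∈ q.1.1.1 ∧ b ≤ q.2 ∧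
      ∀ s, b ≤ s → s ≤ q.2 → s ∉ q.1.2.1 := inferInstance
  have h2 := h1.comp fun q : ((((PW E ℕ × PW E ℕ) × FN E ℕ ℕ) × ℕ) × ℕ) × ℕ =>
    (q.1.1.1.1, q.1.1.1.2.1 (2 * q.2 + q.1.1.2))
  have h3 : CS E fun q : ((((PW E ℕ × PW E ℕ) × FN E ℕ ℕ) × ℕ) × ℕ) × ℕ => q.1.2 ≤ q.2 :=
    inferInstance
  have h4 := @CS.all _ _ _ _ _ _ _ (fun (q : ((PW E ℕ × PW E ℕ) × FN E ℕ ℕ) × ℕ) (m : ℕ) =>
      ∃ j, m ≤ j ∧ ∃ b, b ∈ q.1.1.1.1 ∧ b ≤ q.1.2.1 (2 * j + q.2) ∧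
        ∀ s, b ≤ s → s ≤ q.1.2.1 (2 * j + q.2) → s ∉ q.1.1.2.1)
    (@CS.ex _ _ _ _ _ _ _ (fun (q : (((PW E ℕ × PW E ℕ) × FN E ℕ ℕ) × ℕ) × ℕ) (j : ℕ) =>
      q.2 ≤ j ∧ ∃ b, b ∈ q.1.1.1.1.1 ∧ b ≤ q.1.1.2.1 (2 * j + q.1.2) ∧
        ∀ s, b ≤ s → s ≤ q.1.1.2.1 (2 * j + q.1.2) → s ∉ q.1.1.1.2.1)
      (@CS.and _ _ _ _ _ _ _ h3 h2))
  have h5 : CS E fun q : ((PW E ℕ × PW E ℕ) × FN E ℕ ℕ) × ℕ => q.2 < 2 := inferInstance
  have h6 := @CS.all _ _ _ _ _ _ _ (fun (q : (PW E ℕ × PW E ℕ) × FN E ℕ ℕ) (e : ℕ) =>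
      e < 2 → ∀ m, ∃ j, m ≤ j ∧ ∃ b, b ∈ q.1.1.1 ∧ b ≤ q.2.1 (2 * j + e) ∧
        ∀ s, b ≤ s → s ≤ q.2.1 (2 * j + e) → s ∉ q.1.2.1) (@CS.imp _ _ _ _ _ _ _ h5 h4)
  have h7 : CS E fun q : (PW E ℕ × PW E ℕ) × FN E ℕ ℕ => q.2 ∈ Vf.1 := inferInstance
  have h8 : CS E fun q : (PW E ℕ × PW E ℕ) × FN E ℕ ℕ => ∀ a b, a < b → q.2.1 a < q.2.1 b :=
    inferInstance
  have h9 := @CS.all _ _ _ _ _ _ _ (fun (q : PW E ℕ × PW E ℕ) (η : FN E ℕ ℕ) =>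
      η ∈ Vf.1 → (∀ a b, a < b → η.1 a < η.1 b) →
      ∀ e, e < 2 → ∀ m, ∃ j, m ≤ j ∧ ∃ b, b ∈ q.1.1 ∧ b ≤ η.1 (2 * j + e) ∧
        ∀ s, b ≤ s → s ≤ η.1 (2 * j + e) → s ∉ q.2.1)
    (@CS.imp _ _ _ _ _ _ _ h7 (@CS.imp _ _ _ _ _ _ _ h8 h6))
  have h10 : CS E fun q : PW E ℕ × PW E ℕ => ∀ m, ∃ n, m ≤ n ∧ n ∈ q.2.1 := inferInstance
  exact @CS.and _ _ _ _ _ _ _ h10 h9

theorem GU_unb {Z : Set ℕ} (h : Z.Infinite) (m : ℕ) : ∃ n, m ≤ n ∧ n ∈ Z :=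
  let ⟨n, hn, h1⟩ := h.exists_gt m; ⟨n, h1.le, hn⟩

theorem GU_inf {Vf : Set (FN E ℕ ℕ)} {Bs Z : Set ℕ} (h : GUGood Vf Bs Z) : Z.Infinite :=
  Set.infinite_of_forall_exists_gt fun m =>
    let ⟨n, h1, h2⟩ := h.1 (m + 1); ⟨n, h2, h1⟩

theorem GU_sub {Vf : Set (FN E ℕ ℕ)} {Bs Z Z' D : Set ℕ} (h : GUGood Vf Bs Z)
    (hZ : Z'.Infinite) (hD : D.Finite) (hs : ∀ x ∈ Z', x ∈ Z ∨ x ∈ D) : GUGood Vf Bs Z' := by
  refine ⟨GU_unb hZ, fun η hη hm e he m => ?_⟩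
  obtain ⟨N, hN⟩ := hD.bddAbove
  obtain ⟨n, h1, h2⟩ := h.1 N
  obtain ⟨j, h3, b, h4, h5, h6⟩ := h.2 η hη hm e he (max m n)
  have h7 : StrictMono η.1 := fun a b => hm a b
  have h8 : 2 * j + e ≤ η.1 (2 * j + e) := h7.le_apply
  have h9 : n ≤ j := (le_max_right _ _).trans h3
  have h10 : n < b := by
    by_contra hc
    exact h6 n (by omega) (by omega) h2
  refine ⟨j, (le_max_left _ _).trans h3, b, h4, h5, fun s h11 h12 h13 => ?_⟩
  rcases hs s h13 with h14 | h14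
  · exact h6 s h11 h12 h14
  · have := hN h14
    omega

theorem GU_dense (I : Iface E) (Bs : PW E ℕ) (hB : Bs.1.Infinite) (p : ℕ → ℕ) [CF E p]
    (hp : StrictMono p) : ∃ A Z : PW E ℕ, A.1.Infinite ∧ GUGood I.Vf.1 Bs.1 Z.1 ∧
      ∀ x, x ∈ Z.1 ↔ ∃ j ∈ A.1, p j ≤ x ∧ x < p (j + 1) := by
  let p' : FN E ℕ ℕ := ⟨p, inferInstance⟩
  obtain ⟨φ, hφ, h1⟩ := CF.least (E := E)
    (fun i c : ℕ => ∃ j b, i ≤ p'.1 j ∧ p'.1 (j + 1) ≤ b ∧ b < c ∧ b ∈ Bs.1) fun i => by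
      obtain ⟨b, h1, h2⟩ := GU_unb hB (p (i + 1))
      exact ⟨b + 1, i, b, hp.le_apply, h1, b.lt_succ_self, h2⟩
  obtain ⟨P, hP, hm, h2⟩ := I.sparse φ hφ
  let P' : FN E ℕ ℕ := ⟨P, I.VT_cf P hP⟩
  obtain ⟨J, hJ, h3⟩ := CF.choice (E := E)
    (fun i j : ℕ => ∃ b, P'.1 i ≤ p'.1 j ∧ p'.1 (j + 1) ≤ b ∧ b < P'.1 (i + 1) ∧ b ∈ Bs.1)
    fun i => by
      obtain ⟨j, b, h3, h4, h5, h6⟩ := (h1 (P i)).1
      exact ⟨j, b, h3, h4, h5.trans (h2 i _ le_rfl), h6⟩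
  replace h3 : ∀ i, ∃ b, P i ≤ p (J i) ∧ p (J i + 1) ≤ b ∧ b < P (i + 1) ∧ b ∈ Bs.1 := h3
  let J' : FN E ℕ ℕ := ⟨J, hJ⟩
  have hJm : StrictMono J := fun i i' h => by
    obtain ⟨b, -, h4, h5, -⟩ := h3 i
    obtain ⟨-, h6, -⟩ := h3 i'
    have h7 : P (i + 1) ≤ P i' := hm.monotone h
    have h8 : p (J i) < p (J i + 1) := hp (Nat.lt_succ_self _)
    exact hp.lt_iff_lt.1 (by omega)
  let A : PW E ℕ := ⟨{j | ∃ i, i ∈ I.S.1 ∧ J'.1 i = j},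
    (inferInstance : CS E fun j : ℕ => ∃ i, i ∈ I.S.1 ∧ J'.1 i = j)⟩
  let Z : PW E ℕ := ⟨{x | ∃ j, j ∈ A.1 ∧ p'.1 j ≤ x ∧ x < p'.1 (j + 1)},
    (inferInstance : CS E fun x : ℕ => ∃ j, j ∈ A.1 ∧ p'.1 j ≤ x ∧ x < p'.1 (j + 1))⟩
  refine ⟨A, Z, I.S_inf.image hJm.injective.injOn, ⟨fun m => ?_, fun η hη hη' e _ m => ?_⟩,
    fun _ => Iff.rfl⟩
  · obtain ⟨i, h4, h5⟩ := GU_unb I.S_inf m
    obtain ⟨-, h6, -⟩ := h3 i
    have h7 : i ≤ P i := hm.le_apply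
    exact ⟨p (J i), by omega, J i, ⟨i, h5, rfl⟩, le_rfl, hp (Nat.lt_succ_self _)⟩
  · obtain ⟨i0, hi0⟩ := I.S_inf.nonempty
    have h7 : StrictMono η.1 := fun a b => hη' a b
    obtain ⟨j, h4, h5⟩ := I.sacks P hP hm η hη h7 e (max m (P (i0 + 1)))
    have h8 : 2 * j + e ≤ η.1 (2 * j + e) := h7.le_apply
    have h9 : P (i0 + 1) ≤ j := (le_max_right _ _).trans h4
    have hf : {i | i ∈ I.S.1 ∧ P (i + 1) ≤ η.1 (2 * j + e)}.Finite :=
      (Set.finite_le_nat (η.1 (2 * j + e))).subset fun i hi => by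
        have h10 : i + 1 ≤ P (i + 1) := hm.le_apply
        have h11 := hi.2
        show i ≤ _
        omega
    obtain ⟨i, ⟨-, h10⟩, h11⟩ := Set.exists_max_image _ id hf ⟨i0, hi0, by omega⟩
    obtain ⟨b, -, h12, h13, h14⟩ := h3 i
    refine ⟨j, (le_max_left _ _).trans h4, b, h14, by omega, ?_⟩
    rintro s h15 h16 ⟨_, ⟨i', h17, rfl⟩, h18, h19⟩
    replace h18 : p (J i') ≤ s := h18
    replace h19 : s < p (J i' + 1) := h19
    obtain ⟨-, h20, -⟩ := h3 i'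
    have h21 := h5 i' h17
    have h22 : i' ≤ i := h11 i' ⟨h17, by omega⟩
    have h23 : p (J i' + 1) ≤ p (J i + 1) :=
      hp.monotone (Nat.succ_le_succ (hJm.monotone h22))
    omega

theorem GU_empty (I : Iface E) (Z : PW E ℕ) (hZ : Z.1.Infinite) : ∃ Y : PW E ℕ, ∀ Bs : Set ℕ,
    ((∀ b ∈ Bs, b ∈ Y.1) ∨ ∀ b ∈ Bs, b ∉ Y.1) → ¬ GUGood I.Vf.1 Bs Z.1 := by
  obtain ⟨φ, hφ, h1⟩ := CF.choice (E := E) (fun i n : ℕ => i < n ∧ n ∈ Z.1) fun i =>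
    GU_unb hZ (i + 1)
  obtain ⟨η, hη, hm, h2⟩ := I.sparse φ hφ
  let η' : FN E ℕ ℕ := ⟨η, I.VT_cf η hη⟩
  have key : ∀ k k' b, k < k' → b ≤ η k → ¬ ∀ s, b ≤ s → s ≤ η k' → s ∉ Z.1 := by
    intro k k' b h3 h4 h5
    have h6 := h2 k _ le_rfl
    have h7 : η (k + 1) ≤ η k' := hm.monotone h3
    have h8 := (h1 (η k)).1
    exact h5 _ (by omega) (by omega) (h1 (η k)).2
  refine ⟨⟨{b | ∃ j, b ≤ η'.1 (2 * j) ∧ ∀ s, b ≤ s → s ≤ η'.1 (2 * j) → s ∉ Z.1},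
    (inferInstance : CS E fun b : ℕ =>
      ∃ j, b ≤ η'.1 (2 * j) ∧ ∀ s, b ≤ s → s ≤ η'.1 (2 * j) → s ∉ Z.1)⟩, fun Bs h hG => ?_⟩
  have h3 := hG.2 η' (I.VT_Vf η' hη) fun a b hab => hm hab
  rcases h with h | h
  · obtain ⟨j, -, b, h4, h5, h6⟩ := h3 1 (by omega) 0
    obtain ⟨j', h7, h8⟩ := h b h4
    rcases lt_or_gt_of_ne (show 2 * j' ≠ 2 * j + 1 by omega) with h9 | h9
    · exact key _ _ b h9 h7 h6
    · exact key _ _ b h9 h5 h8
  · obtain ⟨j, -, b, h4, h5, h6⟩ := h3 0 (by omega) 0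
    exact h b h4 ⟨j, h5, h6⟩

theorem GU_infSub {w : M} (hw : Is E ℕ w) (Z : PW E ℕ) (hZ : Z.1.Infinite) :
    InfSub E w (CT.code E Z) :=
  ⟨fun x hx => let ⟨n, _, h⟩ := (E_code_pw Z x).1 hx; (hw x).2 ⟨n, h⟩,
    fun h => hZ ((isFin_code Z).1 h)⟩

theorem GU_gw (I : Iface E) {w : M} (hw : Is E ℕ w) (Bs : PW E ℕ) (hB : Bs.1.Infinite)
    (G : PW E (PW E ℕ)) (hG : ∀ Z, Z ∈ G.1 ↔ GUGood I.Vf.1 Bs.1 Z.1) :
    GwDense E w (CT.code E G) := by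
  refine ⟨fun Z hZ => ?_, fun Z Z' D hZ hZ' hD h => ?_, fun p hp hm => ?_⟩
  · obtain ⟨Z, h, rfl⟩ := (E_code_pw G Z).1 hZ
    exact GU_infSub hw Z (GU_inf ((hG Z).1 h))
  · obtain ⟨Z, h1, rfl⟩ := (E_code_pw G Z).1 hZ
    obtain ⟨Z', rfl⟩ := pw_of_sub hw hZ'.1
    have h2 : {n : ℕ | E (CT.code E n) D}.Finite :=
      ((isFin_iff' D).1 hD).preimage (f := fun n : ℕ => CT.code E n) CT.inj.injOn
    refine (mem_code_pw G Z').2 ((hG Z').2 (GU_sub ((hG Z).1 h1)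
      (fun hf => hZ'.2 ((isFin_code Z').2 hf)) h2 fun x hx => ?_))
    exact (h _ ((mem_code_pw Z' x).2 hx)).imp (mem_code_pw Z x).1 id
  · obtain ⟨φ, hφ, hr⟩ := rep_of_isFun hw hw hp
    have h1 : StrictMono φ := fun i j h => E_nat.1
      (hm _ _ _ _ ((hr _ _).2 ⟨i, rfl, rfl⟩) ((hr _ _).2 ⟨j, rfl, rfl⟩) (E_nat.2 h))
    obtain ⟨A, Z, h2, h3, h4⟩ := GU_dense I Bs hB φ h1
    refine ⟨_, _, GU_infSub hw A h2, (mem_code_pw G Z).2 ((hG Z).2 h3), fun x => ⟨fun hx => ?_, ?_⟩⟩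
    · obtain ⟨n, hn, rfl⟩ := (E_code_pw Z x).1 hx
      obtain ⟨j, h5, h6, h7⟩ := (h4 n).1 hn
      refine ⟨_, _, _, _, (mem_code_pw A j).2 h5, code_succ j, (hr _ _).2 ⟨j, rfl, rfl⟩,
        (hr _ _).2 ⟨j + 1, rfl, rfl⟩, ?_, E_nat.2 h7⟩
      rcases h6.eq_or_lt with h8 | h8
      · exact Or.inl (by rw [h8])
      · exact Or.inr (E_nat.2 h8)
    · rintro ⟨j, j', a, b, h5, h6, h7, h8, h9, h10⟩
      obtain ⟨j, h11, rfl⟩ := (E_code_pw A j).1 h5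
      obtain rfl : j' = CT.code E (j + 1) :=
        (zf' E).extensionality _ _ fun z => (h6 z).trans (code_succ j z).symm
      obtain ⟨t, h12, rfl⟩ := (hr _ _).1 h7
      obtain rfl : j = t := CT.inj h12
      obtain ⟨t, h13, rfl⟩ := (hr _ _).1 h8
      obtain rfl : j + 1 = t := CT.inj h13
      obtain ⟨n, h14, rfl⟩ := (NatE.hN _ _).1 h10
      refine (mem_code_pw Z n).2 ((h4 n).2 ⟨j, h11, ?_, h14⟩)
      rcases h9 with h9 | h9
      · exact (CT.inj h9).ge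
      · exact (E_nat.1 h9).le

theorem g_le_r (I : Iface E) (hs : ∀ a, Small.{0} {x // E x a}) : GLeR E := by
  intro w B hw hB
  have := hs B
  have hw' : Is E ℕ w := isOmega_iff.1 hw
  have hT : Is E (El E B) B := is_el B
  let Bs : El E B → PW E ℕ := fun t =>
    ⟨{n | E (CT.code E n) (CT.code E t)}, ⟨_, fun _ => Iff.rfl⟩⟩
  have hBs : CF E Bs := @CF.curry _ _ _ _ _ _ _ Bs
    (inferInstance : CS E fun p : El E B × ℕ => E (CT.code E p.2) (CT.code E p.1))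
  have hinf : ∀ t, (Bs t).1.Infinite := fun t => by
    have h1 := hB.1 _ ((hT _).2 ⟨t, rfl⟩)
    obtain ⟨U, hU⟩ := pw_of_sub hw' h1.1
    have h2 : (Bs t).1 = U.1 := Set.ext fun n => by rw [← mem_code_pw U n, hU]; rfl
    rw [h2]
    exact fun hf => h1.2 (hU ▸ (isFin_code U).2 hf)
  let G : El E B → PW E (PW E ℕ) := fun t =>
    ⟨{Z | GUGood I.Vf.1 (Bs t).1 Z.1}, (GU_cs I.Vf).comp (fun Z => (Bs t, Z))
      (hf := CF.pair (fun _ => Bs t) fun Z => Z)⟩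
  have h1 : CF E fun p : El E B × PW E ℕ => Bs p.1 := CF.comp Bs fun p : El E B × PW E ℕ => p.1
  have hG : CF E G := @CF.curry _ _ _ _ _ _ _ G
    ((GU_cs I.Vf).comp fun p : El E B × PW E ℕ => (Bs p.1, p.2))
  obtain ⟨P, hP⟩ := exists_is E (PW E (PW E ℕ))
  obtain ⟨Γ, hΓ, hr⟩ := isFun_of_cf hT hP G
  refine ⟨Γ, P, hΓ, fun A G' h => ?_, fun Z => ?_⟩
  · obtain ⟨t, rfl, rfl⟩ := (hr _ _).1 h
    exact GU_gw I hw' (Bs t) (hinf t) (G t) fun _ => Iff.rfl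
  · by_cases hZ : ∃ Z' : PW E ℕ, Z'.1.Infinite ∧ CT.code E Z' = Z
    · obtain ⟨Z, h2, rfl⟩ := hZ
      obtain ⟨Y, hY⟩ := GU_empty I Z h2
      obtain ⟨A, hA, h3⟩ := hB.2 (CT.code E Y) fun x hx =>
        let ⟨n, _, h⟩ := (E_code_pw Y x).1 hx; (hw' x).2 ⟨n, h⟩
      obtain ⟨t, rfl⟩ := (hT _).1 hA
      refine ⟨_, _, (hr _ _).2 ⟨t, rfl, rfl⟩, fun h => hY (Bs t).1 ?_ ((mem_code_pw _ _).1 h)⟩
      exact h3.imp (fun h4 b hb => (mem_code_pw Y b).1 (h4 _ hb))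
        fun h4 b hb h5 => h4 _ hb ((mem_code_pw Y b).2 h5)
    · obtain ⟨A, hA, -⟩ := hB.2 w fun _ h => h
      obtain ⟨t, rfl⟩ := (hT _).1 hA
      refine ⟨_, _, (hr _ _).2 ⟨t, rfl, rfl⟩, fun h => hZ ?_⟩
      obtain ⟨Z', h2, h3⟩ := (E_code_pw _ _).1 h
      exact ⟨Z', GU_inf h2, h3⟩

end Pool.Agent.B8F
end

-- merged part: Pool.Agent.Work.MP_b8a914_gt.F.GU2
section
/-! The bounding number and the groupwise density number for ideals of the model are at most the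
size of the small ultrafilter base. -/

set_option linter.unusedSectionVars false

namespace Pool.Agent.B8F
open Pool.Agent.Lib.ZFModel Pool.Agent.Work.MP_63c7e0_lc

set_option synthInstance.maxSize 100000

variable {M : Type 1} {E : M → M → Prop} [Fact (IsZFC E)] [CT E ℕ] [NatE E]

/-- the set of the `k` with `T k` belongs to the ultrafilter -/
def InU (K : Set (FN E ℕ ℕ)) (T : ℕ → Prop) : Prop :=
  ∃ f : FN E ℕ ℕ, f ∈ K ∧ ∃ m, ∀ n, m ≤ n → T (f.1 n)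

theorem nxt_self {A : Set ℕ} (hA : A.Infinite) {b : ℕ} (hb : b ∈ A) : nxt A b = b :=
  le_antisymm (nxt_le hb le_rfl) (nxt_spec hA b).2

theorem K_ge (I : Iface2 E) {f : FN E ℕ ℕ} (hf : f ∈ I.K.1) (n : ℕ) : n ≤ f.1 n := by
  obtain ⟨A, hA, h, -⟩ := I.K_spec f hf
  rw [h]; exact (nxt_spec hA n).2

theorem inU_iff (I : Iface2 E) (T : ℕ → Prop) :
    InU I.K.1 T ↔ ∃ B ∈ I.BB, ∃ m, ∀ b ∈ B, m ≤ b → T b := by
  constructor
  · rintro ⟨f, hf, m, h⟩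
    obtain ⟨A, hA, h1, B, hB, h2⟩ := I.K_spec f hf
    obtain ⟨N, hN⟩ := h2.bddAbove
    refine ⟨B, hB, max m (N + 1), fun b hb h3 => ?_⟩
    have h4 : b ∈ A := by_contra fun h5 => by
      have := hN (show b ∈ B \ A from ⟨hb, h5⟩)
      omega
    have h5 := h b (by omega)
    rwa [h1, nxt_self hA h4] at h5
  · rintro ⟨B, hB, m, h⟩
    obtain ⟨f, hf, h1⟩ := I.K_B B hB
    refine ⟨f, hf, m, fun n hn => ?_⟩
    rw [h1]
    obtain ⟨h2, h3⟩ := nxt_spec (I.B_inf B hB) n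
    exact h _ h2 (hn.trans h3)

theorem inU_and (I : Iface2 E) {T T' : ℕ → Prop} (h : InU I.K.1 T) (h' : InU I.K.1 T') :
    InU I.K.1 fun k => T k ∧ T' k := by
  obtain ⟨B, hB, m, h1⟩ := (inU_iff I T).1 h
  obtain ⟨B', hB', m', h2⟩ := (inU_iff I T').1 h'
  obtain ⟨C, hC, f1, f2⟩ := I.B_dir B hB B' hB'
  obtain ⟨N, hN⟩ := (f1.union f2).bddAbove
  refine (inU_iff I _).2 ⟨C, hC, max (max m m') (N + 1), fun b hb h3 => ⟨h1 b ?_ (by omega),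
    h2 b ?_ (by omega)⟩⟩
  · by_contra h4
    have := hN (Or.inl ⟨hb, h4⟩)
    omega
  · by_contra h4
    have := hN (Or.inr ⟨hb, h4⟩)
    omega

/-- `t` lies in the same gap of `Z` as an earlier point of `Bs` -/
def Gap (Bs Z : Set ℕ) (t : ℕ) : Prop := ∃ b, b ∈ Bs ∧ b ≤ t ∧ ∀ s, b ≤ s → s ≤ t → s ∉ Z

/-- `Z` is unbounded and, for each increasing `η` in `Vf` and each shift, most values of `η` lie
in the same gap of `Z` as an earlier point of `Bs` -/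
def Good2 (Vf K : Set (FN E ℕ ℕ)) (Bs Z : Set ℕ) : Prop :=
  (∀ m, ∃ n, m ≤ n ∧ n ∈ Z) ∧ ∀ η : FN E ℕ ℕ, η ∈ Vf → (∀ a b, a < b → η.1 a < η.1 b) →
    ∀ e, e < 2 → InU K fun k => Gap Bs Z (η.1 (k + e))

theorem Gap_cs {T : Type} [CT E T] (B Z : T → PW E ℕ) (t : T → ℕ) [CF E B] [CF E Z] [CF E t] :
    CS E fun x => Gap (B x).1 (Z x).1 (t x) := by
  have h1 : CS E fun q : (PW E ℕ × PW E ℕ) × ℕ => ∃ b, b ∈ q.1.1.1 ∧ b ≤ q.2 ∧
      ∀ s, b ≤ s → s ≤ q.2 → s ∉ q.1.2.1 := inferInstance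
  exact h1.comp fun x => ((B x, Z x), t x)

theorem Good2_cs (Vf K : PW E (FN E ℕ ℕ)) :
    CS E fun q : PW E ℕ × PW E ℕ => Good2 Vf.1 K.1 q.1.1 q.2.1 := by
  let Q := ((PW E ℕ × PW E ℕ) × FN E ℕ ℕ) × ℕ
  have h2 : CS E fun q : ((Q × FN E ℕ ℕ) × ℕ) × ℕ =>
      Gap q.1.1.1.1.1.1.1 q.1.1.1.1.1.2.1 (q.1.1.1.1.2.1 (q.1.1.2.1 q.2 + q.1.1.1.2)) :=
    Gap_cs (fun q : ((Q × FN E ℕ ℕ) × ℕ) × ℕ => q.1.1.1.1.1.1) (fun q => q.1.1.1.1.1.2)
      fun q => q.1.1.1.1.2.1 (q.1.1.2.1 q.2 + q.1.1.1.2)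
  have h3 : CS E fun q : ((Q × FN E ℕ ℕ) × ℕ) × ℕ => q.1.2 ≤ q.2 := inferInstance
  have h4 := @CS.ex _ _ _ _ _ _ _ (fun (q : Q × FN E ℕ ℕ) (m : ℕ) => ∀ n, m ≤ n →
      Gap q.1.1.1.1.1 q.1.1.1.2.1 (q.1.1.2.1 (q.2.1 n + q.1.2)))
    (@CS.all _ _ _ _ _ _ _ (fun (q : (Q × FN E ℕ ℕ) × ℕ) (n : ℕ) => q.2 ≤ n →
      Gap q.1.1.1.1.1.1 q.1.1.1.1.2.1 (q.1.1.1.2.1 (q.1.2.1 n + q.1.1.2)))
      (@CS.imp _ _ _ _ _ _ _ h3 h2))
  have h4a : CS E fun q : Q × FN E ℕ ℕ => q.2 ∈ K.1 := inferInstance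
  have h4b : CS E fun q : Q => InU K.1 fun k => Gap q.1.1.1.1 q.1.1.2.1 (q.1.2.1 (k + q.2)) :=
    @CS.ex _ _ _ _ _ _ _ (fun (q : Q) (f : FN E ℕ ℕ) => f ∈ K.1 ∧ ∃ m, ∀ n, m ≤ n →
      Gap q.1.1.1.1 q.1.1.2.1 (q.1.2.1 (f.1 n + q.2))) (@CS.and _ _ _ _ _ _ _ h4a h4)
  have h5 : CS E fun q : Q => q.2 < 2 := inferInstance
  have h6 := @CS.all _ _ _ _ _ _ _ (fun (q : (PW E ℕ × PW E ℕ) × FN E ℕ ℕ) (e : ℕ) =>
      e < 2 → InU K.1 fun k => Gap q.1.1.1 q.1.2.1 (q.2.1 (k + e))) (@CS.imp _ _ _ _ _ _ _ h5 h4b)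
  have h7 : CS E fun q : (PW E ℕ × PW E ℕ) × FN E ℕ ℕ => q.2 ∈ Vf.1 := inferInstance
  have h8 : CS E fun q : (PW E ℕ × PW E ℕ) × FN E ℕ ℕ => ∀ a b, a < b → q.2.1 a < q.2.1 b :=
    inferInstance
  have h9 := @CS.all _ _ _ _ _ _ _ (fun (q : PW E ℕ × PW E ℕ) (η : FN E ℕ ℕ) =>
      η ∈ Vf.1 → (∀ a b, a < b → η.1 a < η.1 b) →
      ∀ e, e < 2 → InU K.1 fun k => Gap q.1.1 q.2.1 (η.1 (k + e)))
    (@CS.imp _ _ _ _ _ _ _ h7 (@CS.imp _ _ _ _ _ _ _ h8 h6))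
  have h10 : CS E fun q : PW E ℕ × PW E ℕ => ∀ m, ∃ n, m ≤ n ∧ n ∈ q.2.1 := inferInstance
  exact @CS.and _ _ _ _ _ _ _ h10 h9

theorem Good2_inf {Vf K : Set (FN E ℕ ℕ)} {Bs Z : Set ℕ} (h : Good2 Vf K Bs Z) : Z.Infinite :=
  Set.infinite_of_forall_exists_gt fun m =>
    let ⟨n, h1, h2⟩ := h.1 (m + 1); ⟨n, h2, h1⟩

theorem Good2_sub (I : Iface2 E) {Bs Z Z' D : Set ℕ} (h : Good2 I.Vf.1 I.K.1 Bs Z)
    (hZ : Z'.Infinite) (hD : D.Finite) (hs : ∀ x ∈ Z', x ∈ Z ∨ x ∈ D) :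
    Good2 I.Vf.1 I.K.1 Bs Z' := by
  refine ⟨GU_unb hZ, fun η hη hm e he => ?_⟩
  obtain ⟨N, hN⟩ := hD.bddAbove
  obtain ⟨n, h1, h2⟩ := h.1 N
  obtain ⟨f, hf, m, h3⟩ := h.2 η hη hm e he
  refine ⟨f, hf, max m n, fun j hj => ?_⟩
  obtain ⟨b, h4, h5, h6⟩ := h3 j ((le_max_left _ _).trans hj)
  have h7 : StrictMono η.1 := fun a b => hm a b
  have h8 : f.1 j + e ≤ η.1 (f.1 j + e) := h7.le_apply
  have h9 : n ≤ j := (le_max_right _ _).trans hj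
  have h9' := K_ge I hf j
  have h10 : n < b := by
    by_contra hc
    exact h6 n (by omega) (by omega) h2
  refine ⟨b, h4, h5, fun s h11 h12 h13 => ?_⟩
  rcases hs s h13 with h14 | h14
  · exact h6 s h11 h12 h14
  · have := hN h14
    omega

theorem Good2_union (I : Iface2 E) {Bs Z Z' Y : Set ℕ} (h : Good2 I.Vf.1 I.K.1 Bs Z)
    (h' : Good2 I.Vf.1 I.K.1 Bs Z') (hY : ∀ x, x ∈ Y ↔ x ∈ Z ∨ x ∈ Z') :
    Good2 I.Vf.1 I.K.1 Bs Y := by
  refine ⟨fun m => let ⟨n, h1, h2⟩ := h.1 m; ⟨n, h1, (hY n).2 (Or.inl h2)⟩,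
    fun η hη hm e he => ?_⟩
  obtain ⟨f, hf, m, h1⟩ := inU_and I (h.2 η hη hm e he) (h'.2 η hη hm e he)
  refine ⟨f, hf, m, fun n hn => ?_⟩
  obtain ⟨⟨b, a1, a2, a3⟩, b', b1, b2, b3⟩ := h1 n hn
  rcases le_total b b' with h2 | h2
  · exact ⟨b', b1, b2, fun s h3 h4 h5 => ((hY s).1 h5).elim (a3 s (h2.trans h3) h4) (b3 s h3 h4)⟩
  · exact ⟨b, a1, a2, fun s h3 h4 h5 => ((hY s).1 h5).elim (a3 s h3 h4) (b3 s (h2.trans h3) h4)⟩

theorem Good2_dense (I : Iface2 E) (Bs : PW E ℕ) (hB : Bs.1.Infinite) (p : ℕ → ℕ) [CF E p]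
    (hp : StrictMono p) : ∃ A Z : PW E ℕ, A.1.Infinite ∧ Good2 I.Vf.1 I.K.1 Bs.1 Z.1 ∧
      ∀ x, x ∈ Z.1 ↔ ∃ j ∈ A.1, p j ≤ x ∧ x < p (j + 1) := by
  let p' : FN E ℕ ℕ := ⟨p, inferInstance⟩
  obtain ⟨φ, hφ, h1⟩ := CF.least (E := E)
    (fun i c : ℕ => ∃ j b, i ≤ p'.1 j ∧ p'.1 (j + 1) ≤ b ∧ b < c ∧ b ∈ Bs.1) fun i => by
      obtain ⟨b, h1, h2⟩ := GU_unb hB (p (i + 1))
      exact ⟨b + 1, i, b, hp.le_apply, h1, b.lt_succ_self, h2⟩
  obtain ⟨P, hP, hm, h2⟩ := I.sparse φ hφ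
  let P' : FN E ℕ ℕ := ⟨P, I.VT_cf P hP⟩
  obtain ⟨J, hJ, h3⟩ := CF.choice (E := E)
    (fun i j : ℕ => ∃ b, P'.1 i ≤ p'.1 j ∧ p'.1 (j + 1) ≤ b ∧ b < P'.1 (i + 1) ∧ b ∈ Bs.1)
    fun i => by
      obtain ⟨j, b, h3, h4, h5, h6⟩ := (h1 (P i)).1
      exact ⟨j, b, h3, h4, h5.trans (h2 i _ le_rfl), h6⟩
  replace h3 : ∀ i, ∃ b, P i ≤ p (J i) ∧ p (J i + 1) ≤ b ∧ b < P (i + 1) ∧ b ∈ Bs.1 := h3
  let J' : FN E ℕ ℕ := ⟨J, hJ⟩
  have hJm : StrictMono J := fun i i' h => by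
    obtain ⟨b, -, h4, h5, -⟩ := h3 i
    obtain ⟨-, h6, -⟩ := h3 i'
    have h7 : P (i + 1) ≤ P i' := hm.monotone h
    have h8 : p (J i) < p (J i + 1) := hp (Nat.lt_succ_self _)
    exact hp.lt_iff_lt.1 (by omega)
  let A : PW E ℕ := ⟨{j | ∃ i, i ∈ I.S.1 ∧ J'.1 i = j},
    (inferInstance : CS E fun j : ℕ => ∃ i, i ∈ I.S.1 ∧ J'.1 i = j)⟩
  let Z : PW E ℕ := ⟨{x | ∃ j, j ∈ A.1 ∧ p'.1 j ≤ x ∧ x < p'.1 (j + 1)},
    (inferInstance : CS E fun x : ℕ => ∃ j, j ∈ A.1 ∧ p'.1 j ≤ x ∧ x < p'.1 (j + 1))⟩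
  refine ⟨A, Z, I.S_inf.image hJm.injective.injOn, ⟨fun m => ?_, fun η hη hη' e _ => ?_⟩,
    fun _ => Iff.rfl⟩
  · obtain ⟨i, h4, h5⟩ := GU_unb I.S_inf m
    obtain ⟨-, h6, -⟩ := h3 i
    have h7 : i ≤ P i := hm.le_apply
    exact ⟨p (J i), by omega, J i, ⟨i, h5, rfl⟩, le_rfl, hp (Nat.lt_succ_self _)⟩
  · obtain ⟨C, hC, hC' | hC'⟩ := I.reap ⟨{k | Gap Bs.1 Z.1 (η.1 (k + e))},
      Gap_cs (fun _ => Bs) (fun _ => Z) fun k => η.1 (k + e)⟩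
    · exact (inU_iff I _).2 ⟨C, hC, 0, fun b hb _ => hC' hb⟩
    exfalso
    obtain ⟨i0, hi0⟩ := I.S_inf.nonempty
    have h7 : StrictMono η.1 := fun a b => hη' a b
    obtain ⟨j, hj, h9, h5⟩ := I.sacksB P hP hm η hη h7 C hC e (P (i0 + 1))
    have h8 : j + e ≤ η.1 (j + e) := h7.le_apply
    have hf : {i | i ∈ I.S.1 ∧ P (i + 1) ≤ η.1 (j + e)}.Finite :=
      (Set.finite_le_nat (η.1 (j + e))).subset fun i hi => by
        have h10 : i + 1 ≤ P (i + 1) := hm.le_apply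
        have h11 := hi.2
        show i ≤ _
        omega
    obtain ⟨i, ⟨-, h10⟩, h11⟩ := Set.exists_max_image _ id hf ⟨i0, hi0, by omega⟩
    obtain ⟨b, -, h12, h13, h14⟩ := h3 i
    refine Set.disjoint_left.1 hC' hj ⟨b, h14, by omega, ?_⟩
    rintro s h15 h16 ⟨_, ⟨i', h17, rfl⟩, h18, h19⟩
    replace h18 : p (J i') ≤ s := h18
    replace h19 : s < p (J i' + 1) := h19
    obtain ⟨-, h20, -⟩ := h3 i'
    have h21 := h5 i' h17
    have h22 : i' ≤ i := h11 i' ⟨h17, by omega⟩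
    have h23 : p (J i' + 1) ≤ p (J i + 1) :=
      hp.monotone (Nat.succ_le_succ (hJm.monotone h22))
    omega

theorem Good2_empty (I : Iface2 E) (Z : PW E ℕ) (hZ : Z.1.Infinite) : ∃ Y : PW E ℕ, ∀ Bs : Set ℕ,
    ((∀ b ∈ Bs, b ∈ Y.1) ∨ ∀ b ∈ Bs, b ∉ Y.1) → ¬ Good2 I.Vf.1 I.K.1 Bs Z.1 := by
  obtain ⟨φ, hφ, h1⟩ := CF.choice (E := E) (fun i n : ℕ => i < n ∧ n ∈ Z.1) fun i =>
    GU_unb hZ (i + 1)
  obtain ⟨η, hη, hm, h2⟩ := I.sparse φ hφ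
  let η' : FN E ℕ ℕ := ⟨η, I.VT_cf η hη⟩
  have key : ∀ k k' b, k < k' → b ≤ η k → ¬ ∀ s, b ≤ s → s ≤ η k' → s ∉ Z.1 := by
    intro k k' b h3 h4 h5
    have h6 := h2 k _ le_rfl
    have h7 : η (k + 1) ≤ η k' := hm.monotone h3
    have h8 := (h1 (η k)).1
    exact h5 _ (by omega) (by omega) (h1 (η k)).2
  refine ⟨⟨{b | ∃ j, b ≤ η'.1 (2 * j) ∧ ∀ s, b ≤ s → s ≤ η'.1 (2 * j) → s ∉ Z.1},
    (inferInstance : CS E fun b : ℕ =>
      ∃ j, b ≤ η'.1 (2 * j) ∧ ∀ s, b ≤ s → s ≤ η'.1 (2 * j) → s ∉ Z.1)⟩, fun Bs h hG => ?_⟩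
  have h3 := hG.2 η' (I.VT_Vf η' hη) fun a b hab => hm hab
  obtain ⟨f, -, m, h4⟩ := inU_and I (h3 0 (by omega)) (h3 1 (by omega))
  obtain ⟨⟨b, a1, a2, a3⟩, b', b1, b2, b3⟩ := h4 m le_rfl
  generalize f.1 m = k at a2 a3 b2 b3
  rcases h with h | h
  · have h5 : ∀ t c, c ∈ Bs → c ≤ η t → (∀ s, c ≤ s → s ≤ η t → s ∉ Z.1) → t % 2 = 0 := by
      intro t c c1 c2 c3
      obtain ⟨j', h7, h8⟩ := h c c1
      rcases lt_trichotomy (2 * j') t with h9 | h9 | h9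
      · exact (key _ _ c h9 h7 c3).elim
      · omega
      · exact (key _ _ c h9 c2 h8).elim
    have h6 := h5 _ b a1 a2 a3
    have h7 := h5 _ b' b1 b2 b3
    omega
  · obtain ⟨j, hj | hj⟩ : ∃ j, k + 0 = 2 * j ∨ k + 1 = 2 * j := ⟨(k + 1) / 2, by omega⟩
    · exact h b a1 ⟨j, hj ▸ a2, hj ▸ a3⟩
    · exact h b' b1 ⟨j, hj ▸ b2, hj ▸ b3⟩

theorem Good2_gw (I : Iface2 E) {w : M} (hw : Is E ℕ w) (Bs : PW E ℕ) (hB : Bs.1.Infinite)
    (G : PW E (PW E ℕ)) (hG : ∀ Z, Z ∈ G.1 ↔ Good2 I.Vf.1 I.K.1 Bs.1 Z.1) :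
    GwDense E w (CT.code E G) ∧ ∀ Z Z' Y, E Z (CT.code E G) → E Z' (CT.code E G) →
      (∀ x, E x Y ↔ E x Z ∨ E x Z') → E Y (CT.code E G) := by
  refine ⟨⟨fun Z hZ => ?_, fun Z Z' D hZ hZ' hD h => ?_, fun p hp hm => ?_⟩,
    fun Z Z' Y hZ hZ' hY => ?_⟩
  · obtain ⟨Z, h, rfl⟩ := (E_code_pw G Z).1 hZ
    exact GU_infSub hw Z (Good2_inf ((hG Z).1 h))
  · obtain ⟨Z, h1, rfl⟩ := (E_code_pw G Z).1 hZ
    obtain ⟨Z', rfl⟩ := pw_of_sub hw hZ'.1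
    have h2 : {n : ℕ | E (CT.code E n) D}.Finite :=
      ((isFin_iff' D).1 hD).preimage (f := fun n : ℕ => CT.code E n) CT.inj.injOn
    refine (mem_code_pw G Z').2 ((hG Z').2 (Good2_sub I ((hG Z).1 h1)
      (fun hf => hZ'.2 ((isFin_code Z').2 hf)) h2 fun x hx => ?_))
    exact (h _ ((mem_code_pw Z' x).2 hx)).imp (mem_code_pw Z x).1 id
  · obtain ⟨φ, hφ, hr⟩ := rep_of_isFun hw hw hp
    have h1 : StrictMono φ := fun i j h => E_nat.1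
      (hm _ _ _ _ ((hr _ _).2 ⟨i, rfl, rfl⟩) ((hr _ _).2 ⟨j, rfl, rfl⟩) (E_nat.2 h))
    obtain ⟨A, Z, h2, h3, h4⟩ := Good2_dense I Bs hB φ h1
    refine ⟨_, _, GU_infSub hw A h2, (mem_code_pw G Z).2 ((hG Z).2 h3), fun x => ⟨fun hx => ?_, ?_⟩⟩
    · obtain ⟨n, hn, rfl⟩ := (E_code_pw Z x).1 hx
      obtain ⟨j, h5, h6, h7⟩ := (h4 n).1 hn
      refine ⟨_, _, _, _, (mem_code_pw A j).2 h5, code_succ j, (hr _ _).2 ⟨j, rfl, rfl⟩,
        (hr _ _).2 ⟨j + 1, rfl, rfl⟩, ?_, E_nat.2 h7⟩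
      rcases h6.eq_or_lt with h8 | h8
      · exact Or.inl (by rw [h8])
      · exact Or.inr (E_nat.2 h8)
    · rintro ⟨j, j', a, b, h5, h6, h7, h8, h9, h10⟩
      obtain ⟨j, h11, rfl⟩ := (E_code_pw A j).1 h5
      obtain rfl : j' = CT.code E (j + 1) :=
        (zf' E).extensionality _ _ fun z => (h6 z).trans (code_succ j z).symm
      obtain ⟨t, h12, rfl⟩ := (hr _ _).1 h7
      obtain rfl : j = t := CT.inj h12
      obtain ⟨t, h13, rfl⟩ := (hr _ _).1 h8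
      obtain rfl : j + 1 = t := CT.inj h13
      obtain ⟨n, h14, rfl⟩ := (NatE.hN _ _).1 h10
      refine (mem_code_pw Z n).2 ((h4 n).2 ⟨j, h11, ?_, h14⟩)
      rcases h9 with h9 | h9
      · exact (CT.inj h9).ge
      · exact (E_nat.1 h9).le
  · obtain ⟨Z, h1, rfl⟩ := (E_code_pw G Z).1 hZ
    obtain ⟨Z', h2, rfl⟩ := (E_code_pw G Z').1 hZ'
    obtain ⟨Y, rfl⟩ := pw_of_sub hw (show Sub E Y w from fun x hx => ((hY x).1 hx).elim
      ((GU_infSub hw Z (Good2_inf ((hG Z).1 h1))).1 x)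
      ((GU_infSub hw Z' (Good2_inf ((hG Z').1 h2))).1 x))
    refine (mem_code_pw G Y).2 ((hG Y).2 (Good2_union I ((hG Z).1 h1) ((hG Z').1 h2) fun x => ?_))
    rw [← mem_code_pw Y, ← mem_code_pw Z, ← mem_code_pw Z', hY]

theorem is_sub {T : Type} [CT E T] (U : PW E T) : Is E {t : T // t ∈ U.1} (CT.code E U) :=
  fun x => (E_code_pw U x).trans ⟨fun ⟨t, h, e⟩ => ⟨⟨t, h⟩, e⟩, fun ⟨t, e⟩ => ⟨t.1, t.2, e⟩⟩

theorem gf_le_r (I : Iface2 E) (hs : ∀ a, Small.{0} {x // E x a}) : GfLeR E := by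
  intro w B hw hB
  have := hs B
  have hw' : Is E ℕ w := isOmega_iff.1 hw
  have hT : Is E (El E B) B := is_el B
  let Bs : El E B → PW E ℕ := fun t =>
    ⟨{n | E (CT.code E n) (CT.code E t)}, ⟨_, fun _ => Iff.rfl⟩⟩
  have hBs : CF E Bs := @CF.curry _ _ _ _ _ _ _ Bs
    (inferInstance : CS E fun p : El E B × ℕ => E (CT.code E p.2) (CT.code E p.1))
  have hinf : ∀ t, (Bs t).1.Infinite := fun t => by
    have h1 := hB.1 _ ((hT _).2 ⟨t, rfl⟩)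
    obtain ⟨U, hU⟩ := pw_of_sub hw' h1.1
    have h2 : (Bs t).1 = U.1 := Set.ext fun n => by rw [← mem_code_pw U n, hU]; rfl
    rw [h2]
    exact fun hf => h1.2 (hU ▸ (isFin_code U).2 hf)
  let G : El E B → PW E (PW E ℕ) := fun t =>
    ⟨{Z | Good2 I.Vf.1 I.K.1 (Bs t).1 Z.1}, (Good2_cs I.Vf I.K).comp (fun Z => (Bs t, Z))
      (hf := CF.pair (fun _ => Bs t) fun Z => Z)⟩
  have h1 : CF E fun p : El E B × PW E ℕ => Bs p.1 := CF.comp Bs fun p : El E B × PW E ℕ => p.1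
  have hG : CF E G := @CF.curry _ _ _ _ _ _ _ G
    ((Good2_cs I.Vf I.K).comp fun p : El E B × PW E ℕ => (Bs p.1, p.2))
  obtain ⟨P, hP⟩ := exists_is E (PW E (PW E ℕ))
  obtain ⟨Γ, hΓ, hr⟩ := isFun_of_cf hT hP G
  refine ⟨Γ, P, hΓ, fun A G' h => ?_, fun Z => ?_⟩
  · obtain ⟨t, rfl, rfl⟩ := (hr _ _).1 h
    exact Good2_gw I hw' (Bs t) (hinf t) (G t) fun _ => Iff.rfl
  · by_cases hZ : ∃ Z' : PW E ℕ, Z'.1.Infinite ∧ CT.code E Z' = Z
    · obtain ⟨Z, h2, rfl⟩ := hZ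
      obtain ⟨Y, hY⟩ := Good2_empty I Z h2
      obtain ⟨A, hA, h3⟩ := hB.2 (CT.code E Y) fun x hx =>
        let ⟨n, _, h⟩ := (E_code_pw Y x).1 hx; (hw' x).2 ⟨n, h⟩
      obtain ⟨t, rfl⟩ := (hT _).1 hA
      refine ⟨_, _, (hr _ _).2 ⟨t, rfl, rfl⟩, fun h => hY (Bs t).1 ?_ ((mem_code_pw _ _).1 h)⟩
      exact h3.imp (fun h4 b hb => (mem_code_pw Y b).1 (h4 _ hb))
        fun h4 b hb h5 => h4 _ hb ((mem_code_pw Y b).2 h5)
    · obtain ⟨A, hA, -⟩ := hB.2 w fun _ h => h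
      obtain ⟨t, rfl⟩ := (hT _).1 hA
      refine ⟨_, _, (hr _ _).2 ⟨t, rfl, rfl⟩, fun h => hZ ?_⟩
      obtain ⟨Z', h2, h3⟩ := (E_code_pw _ _).1 h
      exact ⟨Z', Good2_inf h2, h3⟩

end Pool.Agent.B8F
end

-- merged part: Pool.Agent.Work.MP_b8a914_gt.F.Add
section
/-! A union of Menger sets of reals indexed by the small ultrafilter base is Menger. -/

set_option linter.unusedSectionVars false

namespace Pool.Agent.B8F
open Pool.Agent.Lib.ZFModel Pool.Agent.Work.MP_63c7e0_lc Pool.Agent.Work.MP_f50f0f_gt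

set_option synthInstance.maxSize 100000

variable {M : Type 1} {E : M → M → Prop} [Fact (IsZFC E)] [CT E ℕ] [NatE E]

theorem add_step (I : Iface E) {X : Type} [CT E X] {O : ℕ → ℕ → X → Prop}
    (hO : CS E fun p : (ℕ × ℕ) × X => O p.1.1 p.1.2 p.2)
    {Rel : FN E ℕ ℕ → FN E ℕ ℕ → FN E ℕ ℕ → Prop}
    (d : RefData E I.VT I.BB Rel) (n : ℕ) (f : FN E ℕ ℕ) (hf : f.1 ∈ d.V n) (Hf : FN E ℕ ℕ) (x : X)
    (hRel : ∀ P η : FN E ℕ ℕ, Rel f P η → StrictMono P.1 → StrictMono η.1 ∧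
      ∀ m, ∃ n, m ≤ n ∧ ∃ b, No2Y O Hf.1 x n b ∧
        ∀ t, n ≤ t → t < b → ∀ k, ¬ (P.1 (η.1 k) ≤ t ∧ t < P.1 (η.1 k + 1))) :
    ∃ B ∈ I.BB, ∀ j, No2Y O Hf.1 x j (d.z n (nxt B (d.z n j) + 1)) := by
  have hz := d.z_mono n
  have hzc := d.z_cf n
  have hz2 : ∀ {T : Type} [CT E T] (u : T → ℕ) [CF E u], CF E fun t => d.z n (u t) :=
    fun u _ => CF.comp (d.z n) u
  have hY2 : ∀ {T : Type} [CT E T] (a b : T → ℕ) [CF E a] [CF E b],
      CS E fun t => No2Y O Hf.1 x (a t) (b t) :=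
    fun a b _ _ => No2_cs hO (fun _ => Hf) (fun _ => x) a b
  have c1 : CS E fun t : ℕ =>
      ∃ i, d.z n i ≤ t ∧ t < d.z n (i + 1) ∧ No2Y O Hf.1 x (d.z n i) (d.z n (i + 1)) := inferInstance
  have c2 : CS E fun t : ℕ => ∃ i, d.z n (2 * i) ≤ t ∧ t < d.z n (2 * i + 1) := inferInstance
  obtain ⟨B1, hB1, h1 | h1⟩ := I.reap ⟨{t | ∃ i, d.z n i ≤ t ∧ t < d.z n (i + 1) ∧
    No2Y O Hf.1 x (d.z n i) (d.z n (i + 1))}, c1⟩
  · refine ⟨B1, hB1, fun j => ?_⟩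
    obtain ⟨a1, a2⟩ := nxt_spec (I.B_inf B1 hB1) (d.z n j)
    obtain ⟨i, b1, b2, b3⟩ := h1 a1
    have e1 : j < i + 1 := hz.lt_iff_lt.1 (a2.trans_lt b2)
    have e2 : i ≤ d.z n i := hz.id_le i
    exact b3.mono (by omega) (hz.monotone (by omega))
  exfalso
  obtain ⟨B2, hB2, h2⟩ := I.reap ⟨{t | ∃ i, d.z n (2 * i) ≤ t ∧ t < d.z n (2 * i + 1)}, c2⟩
  obtain ⟨B, hB, f1, f2⟩ := I.B_dir B1 hB1 B2 hB2
  obtain ⟨N, hN⟩ := (f1.union f2).bddAbove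
  have hN' : ∀ b ∈ B, N < b → b ∈ B1 ∧ b ∈ B2 := fun b hb h =>
    ⟨by_contra fun h' => absurd (hN (Or.inl ⟨hb, h'⟩)) (not_le.2 h),
      by_contra fun h' => absurd (hN (Or.inr ⟨hb, h'⟩)) (not_le.2 h)⟩
  obtain ⟨P, η, hR, hP, hk⟩ := d.key n f hf B hB
  obtain ⟨hη, hR⟩ := hRel P η hR hP
  obtain ⟨i0, hk⟩ := hk hη
  obtain ⟨m, hm, b, hY, hW⟩ := hR (d.z n (i0 + N + 1))
  obtain ⟨i, a1, a2, a3⟩ := No2_find hz hm
  have meet : ∀ i' t, i ≤ i' → m ≤ t → t < b → d.z n i' ≤ t → t < d.z n (i' + 1) →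
      ∃ c, c ∈ B1 ∧ c ∈ B2 ∧ d.z n i' ≤ c ∧ c < d.z n (i' + 1) := by
    intro i' t b1 b2 b3 b4 b5
    by_contra hc
    obtain ⟨k, d1, d2⟩ := hk i' (by omega) fun c hc' ⟨d1, d2⟩ => by
      have e2 : i' ≤ d.z n i' := hz.id_le i'
      obtain ⟨g1, g2⟩ := hN' c hc' (by omega)
      exact hc ⟨c, g1, g2, d1, d2⟩
    exact hW t b2 b3 k ⟨d1.trans b4, b5.trans_le d2⟩
  obtain ⟨u, u1, u2, u3, u4⟩ := meet i m le_rfl le_rfl hY.lt a2 a3
  have hb : d.z n (i + 1) < b := by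
    by_contra hb
    exact Set.disjoint_left.1 h1 u1 ⟨i, u3, u4, No2Y.mono hY a2 (not_lt.1 hb)⟩
  obtain ⟨v, -, v2, v3, v4⟩ := meet (i + 1) (d.z n (i + 1)) (by omega) a3.le hb le_rfl
    (hz (by omega))
  have par : ∀ s w, d.z n s ≤ w → w < d.z n (s + 1) →
      ((∃ i, d.z n (2 * i) ≤ w ∧ w < d.z n (2 * i + 1)) ↔ s % 2 = 0) := by
    intro s w b1 b2
    constructor
    · rintro ⟨r, d1, d2⟩
      have e1 := hz.lt_iff_lt.1 (d1.trans_lt b2)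
      have e2 := hz.lt_iff_lt.1 (b1.trans_lt d2)
      omega
    · intro h
      obtain ⟨r, rfl⟩ : ∃ r, s = 2 * r := ⟨s / 2, by omega⟩
      exact ⟨r, b1, b2⟩
  have pu := par _ _ u3 u4
  have pv := par _ _ v3 v4
  rcases h2 with h2 | h2
  · have e1 := pu.1 (h2 u2)
    have e2 := pv.1 (h2 v2)
    omega
  · have e1 : ¬ i % 2 = 0 := fun h => Set.disjoint_left.1 h2 u2 (pu.2 h)
    have e2 : ¬ (i + 1) % 2 = 0 := fun h => Set.disjoint_left.1 h2 v2 (pv.2 h)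
    omega

/-- the relation that is reflected -/
def AddRel {X : Type} [CT E X] (K : PW E (FN E ℕ ℕ)) (Af : FN E ℕ ℕ → PW E X)
    (O : ℕ → ℕ → X → Prop) (H f P η : FN E ℕ ℕ) : Prop :=
  f ∈ K.1 → (∀ i j, i < j → P.1 i < P.1 j) → (∀ i j, i < j → η.1 i < η.1 j) ∧
    ∀ x, x ∈ (Af f).1 → ∀ m, ∃ n, m ≤ n ∧ ∃ b, No2Y O H.1 x n b ∧
      ∀ t, n ≤ t → t < b → ∀ k, ¬ (P.1 (η.1 k) ≤ t ∧ t < P.1 (η.1 k + 1))

theorem addRel_cs {X : Type} [CT E X] (K : PW E (FN E ℕ ℕ)) (Af : FN E ℕ ℕ → PW E X) [CF E Af]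
    {O : ℕ → ℕ → X → Prop} (hO : CS E fun p : (ℕ × ℕ) × X => O p.1.1 p.1.2 p.2) (H : FN E ℕ ℕ) :
    CS E fun t : FN E ℕ ℕ × FN E ℕ ℕ × FN E ℕ ℕ => AddRel K Af O H t.1 t.2.1 t.2.2 := by
  have h1 : CS E fun P : FN E ℕ ℕ => ∀ i j, i < j → P.1 i < P.1 j := inferInstance
  have h2 : CS E fun q : (FN E ℕ ℕ × FN E ℕ ℕ) × ℕ × ℕ => ∀ t, q.2.1 ≤ t → t < q.2.2 →
      ∀ k, ¬ (q.1.1.1 (q.1.2.1 k) ≤ t ∧ t < q.1.1.1 (q.1.2.1 k + 1)) := inferInstance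
  have h3 := h1.comp fun t : FN E ℕ ℕ × FN E ℕ ℕ × FN E ℕ ℕ => t.2.1
  have h4 := h1.comp fun t : FN E ℕ ℕ × FN E ℕ ℕ × FN E ℕ ℕ => t.2.2
  have h5 := h2.comp fun q : ((((FN E ℕ ℕ × FN E ℕ ℕ × FN E ℕ ℕ) × X) × ℕ) × ℕ) × ℕ =>
    (q.1.1.1.1.2, q.1.2, q.2)
  have h6 := No2_cs hO
    (fun _ : ((((FN E ℕ ℕ × FN E ℕ ℕ × FN E ℕ ℕ) × X) × ℕ) × ℕ) × ℕ => H)
    (fun q => q.1.1.1.2) (fun q => q.1.2) fun q => q.2
  have h7 : CF E fun q : (FN E ℕ ℕ × FN E ℕ ℕ × FN E ℕ ℕ) × X => Af q.1.1 :=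
    CF.comp Af fun q : (FN E ℕ ℕ × FN E ℕ ℕ × FN E ℕ ℕ) × X => q.1.1
  have h8 : CS E fun q : (FN E ℕ ℕ × FN E ℕ ℕ × FN E ℕ ℕ) × X => q.2 ∈ (Af q.1.1).1 :=
    CS.memPW _ _
  have h9 : CS E fun t : FN E ℕ ℕ × FN E ℕ ℕ × FN E ℕ ℕ => t.1 ∈ K.1 := inferInstance
  unfold AddRel; infer_instance

theorem add_core (I : Iface2 E) {X : Type} [CT E X] (Af : FN E ℕ ℕ → PW E X) [CF E Af]
    (Op : ∀ f, Set {x // x ∈ (Af f).1} → Prop)
    (hu : ∀ f, Op f Set.univ) (he : ∀ f, Op f ∅) (hi : ∀ f U V, Op f U → Op f V → Op f (U ∩ V))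
    (hU : ∀ f U V, Op f U → Op f V → Op f (U ∪ V))
    (hM : ∀ f ∈ I.K.1, ∀ U : ℕ → ℕ → {x // x ∈ (Af f).1} → Prop,
      CS E (fun p : (ℕ × ℕ) × {x // x ∈ (Af f).1} => U p.1.1 p.1.2 p.2) →
      (∀ n k, Op f {x | U n k x}) → (∀ n x, ∃ k, U n k x) →
      ∃ g : ℕ → ℕ, CF E g ∧ ∀ x, ∃ n, ∃ k ≤ g n, U n k x)
    (O : ℕ → ℕ → X → Prop) (hO : CS E fun p : (ℕ × ℕ) × X => O p.1.1 p.1.2 p.2)
    (hop : ∀ f j k, Op f {x | O j k x.1})
    (hcof : ∀ f j x, x ∈ (Af f).1 → ∃ k0, ∀ k, k0 ≤ k → O j k x) :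
    ∃ h : ℕ → ℕ, CF E h ∧ ∀ f ∈ I.K.1, ∀ x ∈ (Af f).1, ∃ j, ∃ l ≤ h j, O j l x := by
  let H : FN E ℕ ℕ := ⟨fun n => n, inferInstance⟩
  obtain ⟨d, hd⟩ := I.ref0 (AddRel I.K Af O H) (addRel_cs I.K Af hO H) fun f P _ _ => by
    by_cases hf : f ∈ I.K.1
    · obtain ⟨η, h1, h2⟩ := No2_rel_ex I.toIface (hu f) (he f) (hi f) (hU f) (hM f hf)
        (O := fun j k x => O j k x.1)
        (hO.comp fun p : (ℕ × ℕ) × {x // x ∈ (Af f).1} => (p.1, p.2.1)) (hop f)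
        (fun j x => hcof f j x.1 x.2) H P
      exact ⟨η, h1, fun _ hP => ⟨(h2 hP).1, fun x hx => (h2 hP).2 ⟨x, hx⟩⟩⟩
    · obtain ⟨η, h1, -⟩ := I.sparse (fun _ => 0) inferInstance
      exact ⟨⟨η, I.VT_cf η h1⟩, h1, fun h => absurd h hf⟩
  refine ⟨d.h, d.h_cf, fun f hf x hx => ?_⟩
  obtain ⟨B, hB, h1⟩ := add_step I.toIface hO d 0 f (hd f hf) H x fun P η h hP =>
    ⟨fun i j hij => (h hf fun i j hij => hP hij).1 i j hij, (h hf fun i j hij => hP hij).2 x hx⟩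
  obtain ⟨H', h2, h3⟩ := d.clos 0 id d.id_mem B hB
  obtain ⟨j, -, h4⟩ := d.unb 1 H' h2 0
  obtain ⟨k, -, h5, h6⟩ := h1 j j le_rfl
  exact ⟨j, k, ((h3 j k h5.le).trans h4.le), h6 k le_rfl le_rfl⟩

/-- the Menger property of a subset for coded sequences of countable covers -/
theorem add_menger {TX TT : Type} [CT E TX] [CT E TT] {X τ : M} (hT : Is E TX X) (hτ : Is E TT τ)
    (hM : IsMengerM E X τ)
    (U : ℕ → ℕ → TX → Prop) (hU : CS E (fun p : (ℕ × ℕ) × TX => U p.1.1 p.1.2 p.2))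
    (hop : ∀ n k, No1Op E τ {x | U n k x}) (hc : ∀ n x, ∃ k, U n k x) :
    ∃ g : ℕ → ℕ, CF E g ∧ ∀ x, ∃ n, ∃ k ≤ g n, U n k x := by
  obtain ⟨w, hw⟩ := exists_is E ℕ
  obtain ⟨P, hP⟩ := exists_is E (PW E TT)
  have h1 : CS E fun q : ((ℕ × TT) × ℕ) × TX => U q.1.1.1 q.1.2 q.2 :=
    hU.comp fun q : ((ℕ × TT) × ℕ) × TX => ((q.1.1.1, q.1.2), q.2)
  have h2 : CS E fun p : ℕ × TT => ∃ k, ∀ x : TX, E (CT.code E x) (CT.code E p.2) ↔ U p.1 k x :=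
    inferInstance
  let c : ℕ → PW E TT := fun n =>
    ⟨{W | ∃ k, ∀ x : TX, E (CT.code E x) (CT.code E W) ↔ U n k x},
      h2.comp (fun W : TT => (n, W)) (hf := CF.pair (fun _ => n) fun W => W)⟩
  have h3 : CF E c := @CF.curry _ E _ _ _ _ _ c h2
  obtain ⟨f, hf, hr⟩ := isFun_of_cf hw hP c
  obtain ⟨V, Q, hV, h4, h5⟩ := hM w f P (isOmega_of_is hw) hf (by
    intro n d hd
    obtain ⟨m, rfl, rfl⟩ := (hr _ _).1 hd
    constructor
    · intro u hu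
      obtain ⟨W, -, rfl⟩ := (E_code_pw _ _).1 hu
      exact (hτ _).2 ⟨W, rfl⟩
    · intro x hx
      obtain ⟨t, rfl⟩ := (hT x).1 hx
      obtain ⟨k, hk⟩ := hc m t
      obtain ⟨v, hv, h6⟩ := hop m k
      obtain ⟨W, rfl⟩ := (hτ v).1 hv
      exact ⟨CT.code E W, (mem_code_pw _ _).2 ⟨k, fun x => (h6 x).symm⟩, (h6 t).1 hk⟩)
  have h6 : CS E fun q : (((ℕ × ℕ) × TT) × ℕ) × TX => U q.1.1.1.1 q.1.2 q.2 :=
    hU.comp fun q : (((ℕ × ℕ) × TT) × ℕ) × TX => ((q.1.1.1.1, q.1.2), q.2)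
  have h7 : CS E fun p : ℕ × TT => ∃ d, App E V (CT.code E p.1) d ∧ E (CT.code E p.2) d := by
    have := (zf' E).nonempty
    refine CS.of_dfn (fun q => ∃ x y, IsPair E q x y ∧ ∃ d, App E V x d ∧ E y d)
      fun p => ⟨fun h => ⟨_, _, isPair_pr _ _, h⟩, ?_⟩
    rintro ⟨x, y, h8, h9⟩
    obtain ⟨rfl, rfl⟩ := pr_inj.1 (isPair_iff.1 h8)
    exact h9
  have h8 : CS E fun q : (ℕ × ℕ) × TT =>
      ∃ d, App E V (CT.code E q.1.1) d ∧ E (CT.code E q.2) d :=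
    h7.comp fun q : (ℕ × ℕ) × TT => (q.1.1, q.2)
  obtain ⟨g, hg, h9⟩ := CF.choice (E := E) (fun (n m : ℕ) => ∀ W : TT,
      (∃ d, App E V (CT.code E n) d ∧ E (CT.code E W) d) → ∃ k, k ≤ m ∧
        ∀ x : TX, E (CT.code E x) (CT.code E W) ↔ U n k x)
    (by
      intro n
      obtain ⟨d, hd⟩ := hV.2.1 _ ((hw _).2 ⟨n, rfl⟩)
      obtain ⟨h10, h11⟩ := h4 _ _ _ ((hr _ _).2 ⟨n, rfl, rfl⟩) hd
      have h12 : {W : TT | E (CT.code E W) d}.Finite :=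
        ((isFin_iff' d).1 h11).preimage CT.inj.injOn
      have h13 : ∀ W : {W : TT | E (CT.code E W) d}, ∃ k,
          ∀ x : TX, E (CT.code E x) (CT.code E W.1) ↔ U n k x :=
        fun W => (mem_code_pw (c n) W.1).1 (h10 _ W.2)
      choose κ hκ using h13
      have := h12.to_subtype
      obtain ⟨m, hm⟩ := (Set.finite_range κ).bddAbove
      refine ⟨m, fun W ⟨d', h14, h15⟩ => ?_⟩
      obtain rfl := hV.2.2 _ _ _ hd h14
      exact ⟨κ ⟨W, h15⟩, hm ⟨_, rfl⟩, hκ ⟨W, h15⟩⟩)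
  refine ⟨g, hg, fun x => ?_⟩
  obtain ⟨n, d, u, h10, h11, h12⟩ := h5 _ ((hT _).2 ⟨x, rfl⟩)
  obtain ⟨m, rfl⟩ := (hw n).1 (hV.mem (zf' E) h10).1
  obtain ⟨W, -, rfl⟩ := (E_code_pw _ _).1
    ((h4 _ _ _ ((hr _ _).2 ⟨m, rfl, rfl⟩) h10).1 u h11)
  obtain ⟨k, h13, h14⟩ := h9 m W ⟨d, h10, h11⟩
  exact ⟨m, k, h13, (h14 x).1 h12⟩

theorem add_lt_mem {R add mul lt z o : M} (hR : IsReals E R add mul lt z o) {x y : M}
    (h : App E lt x y) : E x R ∧ E y R := by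
  obtain ⟨p, hp, h⟩ := h
  obtain ⟨x', y', h4, h5, h6⟩ := hR.2.2.2.2.2.2.1 p hp
  obtain ⟨rfl, rfl⟩ := pair_inj (zf' E) h h6
  exact ⟨h4, h5⟩

/-- the order topology is a topology -/
theorem add_top {TR : Type} [CT E TR] {R add mul lt z o ρ : M} (hR : IsReals E R add mul lt z o)
    (hρ : IsOrderTop E R lt ρ) (hT : Is E TR R) : IsTop E R ρ := by
  have hm := @add_lt_mem _ E _ _ _ _ _ _ _ _ _ hR
  have hne := (reals_sep hR hT).1
  obtain ⟨-, -, -, -, -, -, -, -, h2, h3, -⟩ := hR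
  refine ⟨fun U hU => ((hρ U).1 hU).1, (hρ R).2 ⟨fun _ h => h, fun x hx => ?_⟩,
    fun U V W hU hV hW => (hρ W).2 ⟨fun x hx => ((hρ U).1 hU).1 x ((hW x).1 hx).1, fun x hx => ?_⟩,
    fun S W hS hW => (hρ W).2 ⟨fun x hx => ?_, fun x hx => ?_⟩⟩
  · obtain ⟨t, rfl⟩ := (hT x).1 hx
    obtain ⟨b, c, h4, h5⟩ := hne t
    exact ⟨_, _, h4, h5, fun y h6 _ => (hm h6).2⟩
  · obtain ⟨a, b, a1, a2, a3⟩ := ((hρ U).1 hU).2 x ((hW x).1 hx).1
    obtain ⟨c, d, b1, b2, b3⟩ := ((hρ V).1 hV).2 x ((hW x).1 hx).2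
    obtain ⟨s, s1, s2⟩ : ∃ s, App E lt s x ∧ ∀ y, App E lt s y → App E lt a y ∧ App E lt c y := by
      rcases h3 a c (hm a1).1 (hm b1).1 with h | rfl | h
      · exact ⟨c, b1, fun y hy => ⟨h2 _ _ _ h hy, hy⟩⟩
      · exact ⟨a, a1, fun y hy => ⟨hy, hy⟩⟩
      · exact ⟨a, a1, fun y hy => ⟨hy, h2 _ _ _ h hy⟩⟩
    obtain ⟨t, t1, t2⟩ : ∃ t, App E lt x t ∧ ∀ y, App E lt y t → App E lt y b ∧ App E lt y d := by
      rcases h3 b d (hm a2).2 (hm b2).2 with h | rfl | h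
      · exact ⟨b, a2, fun y hy => ⟨hy, h2 _ _ _ hy h⟩⟩
      · exact ⟨b, a2, fun y hy => ⟨hy, hy⟩⟩
      · exact ⟨d, b2, fun y hy => ⟨h2 _ _ _ hy h, hy⟩⟩
    exact ⟨s, t, s1, t1, fun y h4 h5 => (hW y).2
      ⟨a3 y (s2 y h4).1 (t2 y h5).1, b3 y (s2 y h4).2 (t2 y h5).2⟩⟩
  · obtain ⟨U, h4, h5⟩ := (hW x).1 hx
    exact ((hρ U).1 (hS U h4)).1 x h5
  · obtain ⟨U, h4, h5⟩ := (hW x).1 hx
    obtain ⟨a, b, a1, a2, a3⟩ := ((hρ U).1 (hS U h4)).2 x h5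
    exact ⟨a, b, a1, a2, fun y h6 h7 => (hW y).2 ⟨U, h4, a3 y h6 h7⟩⟩

theorem add_main (I : Iface2 E) {TR TT TP TQ : Type} [CT E TR] [CT E TT] [CT E TP] [CT E TQ]
    {R add mul lt z o ρ X w U Q : M} (hR' : Is E TR R) (hτ : Is E TT ρ)
    (hQ : Is E TQ Q) (hR : IsReals E R add mul lt z o) (hρ : IsOrderTop E R lt ρ)
    (φ : {f // f ∈ I.K.1} → TP) [CF E φ]
    (hA : ∀ t, Sub E (CT.code E (φ t)) R ∧ IsMengerM E (CT.code E (φ t)) ρ)
    (hX : ∀ x, E x X ↔ ∃ t, E x (CT.code E (φ t))) (hw : Is E ℕ w) (hU : IsFun E U w Q)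
    (hc : ∀ n c, App E U n c → Sub E c ρ ∧ ∀ x, E x X → ∃ u, E u c ∧ E x u) :
    ∃ V Q', IsFun E V w Q' ∧ (∀ n c d, App E U n c → App E V n d → Sub E d c ∧ IsFin E d) ∧
      ∀ x, E x X → ∃ n d u, App E V n d ∧ E u d ∧ E x u := by
  have htop := add_top hR hρ hR'
  have hm := @add_lt_mem _ E _ _ _ _ _ _ _ _ _ hR
  obtain ⟨q, hq, hden⟩ := (reals_sep hR hR').2
  have hl3 := hR.2.2.2.2.2.2.2.2.1
  obtain ⟨u, hu, hur⟩ := rep_of_isFun hw hQ hU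
  have e0 : CF E fun p : (FN E ℕ ℕ × TR) × {f // f ∈ I.K.1} => φ p.2 :=
    CF.comp φ fun p : (FN E ℕ ℕ × TR) × {f // f ∈ I.K.1} => p.2
  have e1 : CS E fun p : FN E ℕ ℕ × TR => ∃ t : {f // f ∈ I.K.1}, t.1 = p.1 ∧
      E (CT.code E p.2) (CT.code E (φ t)) := inferInstance
  obtain ⟨Af, hAf, hAf'⟩ : ∃ Af : FN E ℕ ℕ → PW E TR, CF E Af ∧ ∀ f x, x ∈ (Af f).1 ↔
      ∃ t : {f // f ∈ I.K.1}, t.1 = f ∧ E (CT.code E x) (CT.code E (φ t)) := by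
    let Af : FN E ℕ ℕ → PW E TR := fun f =>
      ⟨{x | ∃ t : {f // f ∈ I.K.1}, t.1 = f ∧ E (CT.code E x) (CT.code E (φ t))},
        e1.comp (fun x : TR => (f, x)) (hf := CF.pair (fun _ => f) fun x => x)⟩
    exact ⟨Af, @CF.curry _ E _ _ _ _ _ Af e1, fun _ _ => Iff.rfl⟩
  let ι := ℕ × (ℕ × ℕ × ℕ) × (ℕ × ℕ × ℕ)
  let L : TR → TR → Prop := fun a b => App E lt (CT.code E a) (CT.code E b)
  let C : ℕ → ι → TT → Prop := fun j i V => E (CT.code E V) (CT.code E (u j)) ∧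
    ∀ y : TR, L (q i.2.1) y → L y (q i.2.2) → E (CT.code E y) (CT.code E V)
  have hC : CS E fun p : (ℕ × ι) × TT => C p.1.1 p.1.2 p.2 := by
    have a1 : CF E fun p : (ℕ × ι) × TT => u p.1.1 := CF.comp u fun p : (ℕ × ι) × TT => p.1.1
    have a2 : CF E fun p : ((ℕ × ι) × TT) × TR => q p.1.1.2.2.1 :=
      CF.comp q fun p : ((ℕ × ι) × TT) × TR => p.1.1.2.2.1
    have a3 : CF E fun p : ((ℕ × ι) × TT) × TR => q p.1.1.2.2.2 :=
      CF.comp q fun p : ((ℕ × ι) × TT) × TR => p.1.1.2.2.2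
    have a4 : CS E fun p : ((ℕ × ι) × TT) × TR => L (q p.1.1.2.2.1) p.2 := CS.App _ _ lt
    have a5 : CS E fun p : ((ℕ × ι) × TT) × TR => L p.2 (q p.1.1.2.2.2) := CS.App _ _ lt
    have a6 : CS E fun p : ((ℕ × ι) × TT) × TR => E (CT.code E p.2) (CT.code E p.1.2) :=
      CS.Em _ _
    have a7 : CS E fun p : (ℕ × ι) × TT => E (CT.code E p.2) (CT.code E (u p.1.1)) := CS.Em _ _
    exact @CS.and _ _ _ _ _ _ _ a7 (@CS.all _ _ _ _ _ _ _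
      (fun (p : (ℕ × ι) × TT) (y : TR) => L (q p.1.2.2.1) y → L y (q p.1.2.2.2) →
        E (CT.code E y) (CT.code E p.2)) (@CS.imp _ _ _ _ _ _ _ a4 (@CS.imp _ _ _ _ _ _ _ a5 a6)))
  have hC' : CS E fun p : ℕ × ι => ∃ V, C p.1 p.2 V :=
    @CS.ex _ _ _ _ _ _ _ (fun (p : ℕ × ι) V => C p.1 p.2 V) hC
  have hLv : CS E fun p : ℕ × ι => No1Lv p.1 p.2 := by unfold No1Lv; infer_instance
  let O : ℕ → ℕ → TR → Prop := fun j k x => ∃ i : ι, No1Lv k i ∧ (∃ V, C j i V) ∧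
    L (q i.2.1) x ∧ L x (q i.2.2)
  have hO : CS E fun p : (ℕ × ℕ) × TR => O p.1.1 p.1.2 p.2 := by
    have a1 := hLv.comp fun p : ((ℕ × ℕ) × TR) × ι => (p.1.1.2, p.2)
    have a2 := hC'.comp fun p : ((ℕ × ℕ) × TR) × ι => (p.1.1.1, p.2)
    have a3 : CF E fun p : ((ℕ × ℕ) × TR) × ι => q p.2.2.1 :=
      CF.comp q fun p : ((ℕ × ℕ) × TR) × ι => p.2.2.1
    have a4 : CF E fun p : ((ℕ × ℕ) × TR) × ι => q p.2.2.2 :=
      CF.comp q fun p : ((ℕ × ℕ) × TR) × ι => p.2.2.2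
    have a5 : CS E fun p : ((ℕ × ℕ) × TR) × ι => L (q p.2.2.1) p.1.2 := CS.App _ _ lt
    have a6 : CS E fun p : ((ℕ × ℕ) × TR) × ι => L p.1.2 (q p.2.2.2) := CS.App _ _ lt
    exact @CS.ex _ _ _ _ _ _ _ (fun (p : (ℕ × ℕ) × TR) (i : ι) => No1Lv p.1.2 i ∧
      (∃ V, C p.1.1 i V) ∧ L (q i.2.1) p.2 ∧ L p.2 (q i.2.2))
      (@CS.and _ _ _ _ _ _ _ a1 (@CS.and _ _ _ _ _ _ _ a2 (@CS.and _ _ _ _ _ _ _ a5 a6)))
  have hAX : ∀ f, ∀ x ∈ (Af f).1, E (CT.code E x) X := by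
    intro f x hx
    obtain ⟨t, -, h⟩ := (hAf' f x).1 hx
    exact (hX _).2 ⟨t, h⟩
  obtain ⟨h, hh, hmain⟩ := add_core I Af (fun f => No1Op E ρ)
    (fun f => ⟨R, htop.2.1, fun x => ⟨fun _ => (hR' _).2 ⟨x.1, rfl⟩, fun _ => trivial⟩⟩)
    (fun f => no1_empty htop) (fun f => no1_inter htop) (fun f => no1_union htop)
    (fun f hf => by
      obtain ⟨h1, h2⟩ := hA ⟨f, hf⟩
      refine add_menger (fun x => ⟨fun hx => ?_, ?_⟩) hτ h2
      · obtain ⟨t, rfl⟩ := (hR' x).1 (h1 x hx)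
        exact ⟨⟨t, (hAf' f t).2 ⟨⟨f, hf⟩, rfl, hx⟩⟩, rfl⟩
      · rintro ⟨⟨t, ht⟩, rfl⟩
        obtain ⟨⟨f', hf'⟩, rfl, h3⟩ := (hAf' f t).1 ht
        exact h3)
    O hO
    (fun f j k => by
      let W : PW E TR := ⟨{x | O j k x},
        hO.comp (fun x : TR => ((j, k), x)) (hf := CF.pair (fun _ => (j, k)) fun x => x)⟩
      refine ⟨CT.code E W, (hρ _).2 ⟨fun x hx => ?_, fun x hx => ?_⟩,
        fun x => (mem_code_pw W x.1).symm⟩
      · obtain ⟨t, -, rfl⟩ := (E_code_pw W x).1 hx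
        exact (hR' _).2 ⟨t, rfl⟩
      · obtain ⟨t, ⟨i, a1, a2, a3, a4⟩, rfl⟩ := (E_code_pw W x).1 hx
        refine ⟨_, _, a3, a4, fun y b1 b2 => ?_⟩
        obtain ⟨s, rfl⟩ := (hR' y).1 (hm b1).2
        exact (mem_code_pw W s).2 ⟨i, a1, a2, b1, b2⟩)
    (fun f j x hx => by
      obtain ⟨h1, h2⟩ := hc _ _ ((hur _ _).2 ⟨j, rfl, rfl⟩)
      obtain ⟨v, h3, h4⟩ := h2 _ (hAX f x hx)
      obtain ⟨a, b, a1, a2, a3⟩ := ((hρ v).1 (h1 v h3)).2 _ h4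
      obtain ⟨V, rfl⟩ := (hτ v).1 (h1 v h3)
      obtain ⟨a, rfl⟩ := (hR' a).1 (hm a1).1
      obtain ⟨b, rfl⟩ := (hR' b).1 (hm a2).2
      obtain ⟨s, s1, s2⟩ := hden _ _ a1
      obtain ⟨t, t1, t2⟩ := hden _ _ a2
      exact ⟨s.1 + s.2.1 + s.2.2 + t.1 + t.2.1 + t.2.2, fun k hk => ⟨(0, s, t),
        ⟨Nat.zero_le _, hk⟩, ⟨V, h3, fun y b1 b2 => a3 _ (hl3 _ _ _ s1 b1) (hl3 _ _ _ b2 t2)⟩,
        s2, t1⟩⟩)
  obtain ⟨V0, -⟩ := (hτ R).1 htop.2.1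
  have hC2 := hC'.comp fun p : (ℕ × ι) × TT => p.1
  obtain ⟨ψ, hψ, hψ'⟩ := CF.choice (E := E)
    (fun (p : ℕ × ι) (V : TT) => (∃ V, C p.1 p.2 V) → C p.1 p.2 V)
    (hr := @CS.imp _ _ _ _ _ _ _ hC2 hC) fun p => by
      by_cases h1 : ∃ V, C p.1 p.2 V
      · exact ⟨h1.choose, fun _ => h1.choose_spec⟩
      · exact ⟨V0, fun h2 => absurd h2 h1⟩
  have e2 : CS E fun p : ℕ × TT => ∃ i : ι, No1Lv (h p.1) i ∧ (∃ V, C p.1 i V) ∧
      p.2 = ψ (p.1, i) := by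
    have a0 : CF E fun p : (ℕ × TT) × ι => h p.1.1 := CF.comp h fun p : (ℕ × TT) × ι => p.1.1
    have a1 := hLv.comp fun p : (ℕ × TT) × ι => (h p.1.1, p.2)
    have a2 := hC'.comp fun p : (ℕ × TT) × ι => (p.1.1, p.2)
    have a3 : CF E fun p : (ℕ × TT) × ι => ψ (p.1.1, p.2) :=
      CF.comp ψ fun p : (ℕ × TT) × ι => (p.1.1, p.2)
    have a4 : CS E fun p : (ℕ × TT) × ι => p.1.2 = ψ (p.1.1, p.2) := CS.eq _ _
    exact @CS.ex _ _ _ _ _ _ _ (fun (p : ℕ × TT) (i : ι) => No1Lv (h p.1) i ∧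
      (∃ V, C p.1 i V) ∧ p.2 = ψ (p.1, i))
      (@CS.and _ _ _ _ _ _ _ a1 (@CS.and _ _ _ _ _ _ _ a2 a4))
  let D : ℕ → PW E TT := fun j =>
    ⟨{V | ∃ i : ι, No1Lv (h j) i ∧ (∃ V, C j i V) ∧ V = ψ (j, i)},
      e2.comp (fun V : TT => (j, V)) (hf := CF.pair (fun _ => j) fun V => V)⟩
  have hD : CF E D := @CF.curry _ E _ _ _ _ _ D e2
  obtain ⟨Q', hQ'⟩ := exists_is E (PW E TT)
  obtain ⟨V, hV, hVr⟩ := isFun_of_cf hw hQ' D
  refine ⟨V, Q', hV, fun n c d h1 h2 => ?_, fun x hx => ?_⟩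
  · obtain ⟨j, rfl, rfl⟩ := (hVr _ _).1 h2
    obtain ⟨j', h3, rfl⟩ := (hur _ _).1 h1
    obtain rfl : j = j' := CT.inj h3
    refine ⟨fun y hy => ?_, (isFin_code _).2
      (((no1_lv_fin (h j)).image fun i => ψ (j, i)).subset ?_)⟩
    · obtain ⟨_, ⟨i, -, a2, rfl⟩, rfl⟩ := (E_code_pw _ _).1 hy
      exact (hψ' (j, i) a2).1
    · rintro _ ⟨i, a1, -, rfl⟩
      exact ⟨i, a1, rfl⟩
  · obtain ⟨f, h2⟩ := (hX x).1 hx
    obtain ⟨t, rfl⟩ := (hR' x).1 ((hA f).1 x h2)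
    obtain ⟨j, l, h3, i, a1, a2, a3, a4⟩ := hmain f.1 f.2 t ((hAf' _ t).2 ⟨f, rfl, h2⟩)
    exact ⟨_, _, _, (hVr _ _).2 ⟨j, rfl, rfl⟩,
      (mem_code_pw (D j) _).2 ⟨i, ⟨a1.1.trans h3, a1.2.trans h3⟩, a2, rfl⟩,
      (hψ' (j, i) a2).2 t a3 a4⟩

theorem r_lt_add (I : Iface2 E) (hs : ∀ a, Small.{0} {x // E x a}) :
    ∃ w K, IsOmega E w ∧ IsReap E w K ∧ AddGt E K := by
  obtain ⟨w, hw⟩ := exists_is E ℕ
  have h0 : CS E fun p : {f // f ∈ I.K.1} × ℕ => ∃ k, p.1.1.1 k = p.2 := inferInstance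
  obtain ⟨Bs, hBs, hB⟩ : ∃ Bs : {f // f ∈ I.K.1} → PW E ℕ, CF E Bs ∧
      ∀ t n, n ∈ (Bs t).1 ↔ ∃ k, t.1.1 k = n := by
    let Bs : {f // f ∈ I.K.1} → PW E ℕ := fun t =>
      ⟨{n | ∃ k, t.1.1 k = n}, (inferInstance : CS E fun n : ℕ => ∃ k, t.1.1 k = n)⟩
    exact ⟨Bs, @CF.curry _ _ _ _ _ _ _ Bs h0, fun _ _ => Iff.rfl⟩
  have h1 : CF E fun p : PW E ℕ × {f // f ∈ I.K.1} => Bs p.2 :=
    CF.comp Bs fun p : PW E ℕ × {f // f ∈ I.K.1} => p.2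
  obtain ⟨K, hK⟩ : ∃ K : PW E (PW E ℕ), ∀ B, B ∈ K.1 ↔ ∃ t, Bs t = B :=
    ⟨⟨{B | ∃ t, Bs t = B}, (inferInstance : CS E fun B : PW E ℕ => ∃ t, Bs t = B)⟩,
      fun _ => Iff.rfl⟩
  refine ⟨w, CT.code E K, isOmega_of_is hw, ⟨fun A hA => ?_, fun Y hY => ?_⟩, ?_⟩
  · obtain ⟨B, h2, rfl⟩ := (E_code_pw K A).1 hA
    obtain ⟨t, rfl⟩ := (hK B).1 h2
    exact GU_infSub hw _ (Set.infinite_of_forall_exists_gt fun m =>
      ⟨_, (hB t _).2 ⟨m + 1, rfl⟩, K_ge I t.2 (m + 1)⟩)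
  · obtain ⟨Y, rfl⟩ := pw_of_sub hw hY
    obtain ⟨B, h2, h3⟩ := I.reap Y
    obtain ⟨f, hf, h4⟩ := I.K_B B h2
    have h5 : ∀ x, E x (CT.code E (Bs ⟨f, hf⟩)) → ∃ b ∈ B, CT.code E b = x := fun x hx => by
      obtain ⟨n, h6, rfl⟩ := (E_code_pw _ x).1 hx
      obtain ⟨k, rfl⟩ := (hB _ n).1 h6
      exact ⟨_, h4 ▸ (nxt_spec (I.B_inf B h2) k).1, rfl⟩
    refine ⟨_, (mem_code_pw K _).2 ((hK _).2 ⟨⟨f, hf⟩, rfl⟩), h3.imp (fun h6 x hx => ?_)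
      fun h6 x hx h7 => ?_⟩
    · obtain ⟨b, h7, rfl⟩ := h5 x hx
      exact (mem_code_pw Y b).2 (h6 h7)
    · obtain ⟨b, h8, rfl⟩ := h5 x hx
      exact Set.disjoint_left.1 h6 h8 ((mem_code_pw Y b).1 h7)
  · intro R _ _ _ _ _ ρ Y P X hR hρ hY hA hX w U Q hw hU hc
    obtain ⟨φ, hφ, hr⟩ := rep_of_isFun (is_sub K) (is_el P) hY
    let σ : {f // f ∈ I.K.1} → {B // B ∈ K.1} := fun t => ⟨Bs t, (hK _).2 ⟨t, rfl⟩⟩
    have hσ : CF E σ := @CF.toSub _ _ _ _ _ _ _ _ _ _ _ σ hBs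
    have h2 : CF E fun t => φ (σ t) := CF.comp φ σ
    refine add_main I (is_el R) (is_el ρ) (is_el Q) hR hρ (fun t => φ (σ t))
      (fun t => hA _ _ ((hr _ _).2 ⟨σ t, rfl, rfl⟩)) (fun x => (hX x).trans ⟨?_, ?_⟩)
      (isOmega_iff.1 hw) hU hc
    · rintro ⟨k, A, h3, h4⟩
      obtain ⟨⟨B, h5⟩, rfl, rfl⟩ := (hr _ _).1 h3
      obtain ⟨t, rfl⟩ := (hK B).1 h5
      exact ⟨t, h4⟩
    · rintro ⟨t, h⟩
      exact ⟨_, _, (hr _ _).2 ⟨σ t, rfl, rfl⟩, h⟩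

end Pool.Agent.B8F
end
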