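import Pool.Agent.Work.MP_b8a914_gt.F.Main2

/-! The literal form of the inequality: some set `K` of the model has `𝔟 ≤ |K|`, `𝔤_f ≤ |K|` and
`|K| < add(Menger)`. -/

set_option linter.unusedSectionVars false

namespace Pool.Agent.B8F
open Pool.Agent.Lib.ZFModel Pool.Agent.Work.MP_63c7e0_lc

section
universe u
variable {M : Type u} (E : M → M → Prop)

/-- `𝔟 ≤ |K|`: there is a family of functions from `ω` to `ω`, indexed by `K`, such that every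
function `g` is exceeded infinitely often by some member. -/
def BLe (K : M) : Prop :=
  ∃ w F P, IsOmega E w ∧ IsFun E F K P ∧ (∀ k f, App E F k f → IsFun E f w w) ∧
    ∀ g, IsFun E g w w → ∃ k f, App E F k f ∧ ∀ m, E m w →
      ∃ n a b, E m n ∧ App E f n a ∧ App E g n b ∧ E b a

/-- `𝔤_f ≤ |K|` (so `𝔤 ≤ |K|`): there is a family of groupwise dense families, each closed under
unions of two members, indexed by `K`, with empty intersection. -/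
def GfLe (K : M) : Prop :=
  ∃ w Γ P, IsOmega E w ∧ IsFun E Γ K P ∧
    (∀ k G, App E Γ k G → GwDense E w G ∧
      ∀ Z Z' Y, E Z G → E Z' G → (∀ x, E x Y ↔ E x Z ∨ E x Z') → E Y G) ∧
    ∀ Z, ∃ k G, App E Γ k G ∧ ¬ E Z G

end

set_option synthInstance.maxSize 100000

variable {M : Type 1} {E : M → M → Prop} [Fact (IsZFC E)] [CT E ℕ] [NatE E]

theorem gf_le (I : Iface2 E) : GfLe E (CT.code E I.K) := by
  obtain ⟨w, hw'⟩ := exists_is E ℕ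
  have hT := is_sub I.K
  have h0 : CS E fun p : {f // f ∈ I.K.1} × ℕ => ∃ k, p.1.1.1 k = p.2 := inferInstance
  let Bs : {f // f ∈ I.K.1} → PW E ℕ := fun t =>
    ⟨{n | ∃ k, t.1.1 k = n}, (inferInstance : CS E fun n : ℕ => ∃ k, t.1.1 k = n)⟩
  have hBs : CF E Bs := @CF.curry _ _ _ _ _ _ _ Bs h0
  have hinf : ∀ t, (Bs t).1.Infinite := fun t =>
    Set.infinite_of_forall_exists_gt fun m => ⟨_, ⟨m + 1, rfl⟩, K_ge I t.2 (m + 1)⟩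
  let G : {f // f ∈ I.K.1} → PW E (PW E ℕ) := fun t =>
    ⟨{Z | Good2 I.Vf.1 I.K.1 (Bs t).1 Z.1}, (Good2_cs I.Vf I.K).comp (fun Z => (Bs t, Z))
      (hf := CF.pair (fun _ => Bs t) fun Z => Z)⟩
  have h1 : CF E fun p : {f // f ∈ I.K.1} × PW E ℕ => Bs p.1 :=
    CF.comp Bs fun p : {f // f ∈ I.K.1} × PW E ℕ => p.1
  have hG : CF E G := @CF.curry _ _ _ _ _ _ _ G
    ((Good2_cs I.Vf I.K).comp fun p : {f // f ∈ I.K.1} × PW E ℕ => (Bs p.1, p.2))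
  obtain ⟨P, hP⟩ := exists_is E (PW E (PW E ℕ))
  obtain ⟨Γ, hΓ, hr⟩ := isFun_of_cf hT hP G
  refine ⟨w, Γ, P, isOmega_of_is hw', hΓ, fun A G' h => ?_, fun Z => ?_⟩
  · obtain ⟨t, rfl, rfl⟩ := (hr _ _).1 h
    exact Good2_gw I hw' (Bs t) (hinf t) (G t) fun _ => Iff.rfl
  · by_cases hZ : ∃ Z' : PW E ℕ, Z'.1.Infinite ∧ CT.code E Z' = Z
    · obtain ⟨Z, h2, rfl⟩ := hZ
      obtain ⟨Y, hY⟩ := Good2_empty I Z h2
      obtain ⟨B, hB, h3⟩ := I.reap Y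
      obtain ⟨f, hf, h4⟩ := I.K_B B hB
      have h5 : ∀ b ∈ (Bs ⟨f, hf⟩).1, b ∈ B := by
        rintro _ ⟨k, rfl⟩
        exact h4 ▸ (nxt_spec (I.B_inf B hB) k).1
      refine ⟨_, _, (hr _ _).2 ⟨⟨f, hf⟩, rfl, rfl⟩, fun h => hY (Bs ⟨f, hf⟩).1 ?_
        ((mem_code_pw _ _).1 h)⟩
      exact h3.imp (fun h6 b hb => h6 (h5 b hb)) fun h6 b hb => Set.disjoint_left.1 h6 (h5 b hb)
    · obtain ⟨B, hB, -⟩ := I.reap I.S
      obtain ⟨f, hf, -⟩ := I.K_B B hB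
      refine ⟨_, _, (hr _ _).2 ⟨⟨f, hf⟩, rfl, rfl⟩, fun h => hZ ?_⟩
      obtain ⟨Z', h2, h3⟩ := (E_code_pw _ _).1 h
      exact ⟨Z', Good2_inf h2, h3⟩

theorem K_unb (I : Iface2 E) (φ : ℕ → ℕ) (hφ : CF E φ) :
    ∃ f ∈ I.K.1, ∀ m, ∃ n, m < n ∧ φ n < f.1 n := by
  obtain ⟨η, hη, hm, h2⟩ := I.sparse φ hφ
  let η' : FN E ℕ ℕ := ⟨η, I.VT_cf η hη⟩
  obtain ⟨B, hB, h3⟩ := I.reap ⟨{t | ∃ i, η'.1 (2 * i) ≤ t ∧ t < η'.1 (2 * i + 1)},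
    (inferInstance : CS E fun t : ℕ => ∃ i, η'.1 (2 * i) ≤ t ∧ t < η'.1 (2 * i + 1))⟩
  obtain ⟨f, hf, h4⟩ := I.K_B B hB
  refine ⟨f, hf, fun m => ?_⟩
  rw [h4]
  rcases h3 with h3 | h3
  · obtain ⟨h5, h6⟩ := nxt_spec (I.B_inf B hB) (η (2 * m + 1))
    obtain ⟨i, h7, h8⟩ := h3 h5
    have h9 : 2 * m + 1 < 2 * i + 1 := hm.lt_iff_lt.1 (h6.trans_lt h8)
    have h10 : η (2 * m + 1 + 1) ≤ η (2 * i) := hm.monotone (by omega)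
    exact ⟨η (2 * m + 1), lt_of_lt_of_le (by omega) hm.le_apply,
      (h2 _ _ le_rfl).trans_le (h10.trans h7)⟩
  · obtain ⟨h5, h6⟩ := nxt_spec (I.B_inf B hB) (η (2 * (m + 1)))
    refine ⟨η (2 * (m + 1)), lt_of_lt_of_le (by omega) hm.le_apply,
      (h2 _ _ le_rfl).trans_le (not_lt.1 fun h7 => ?_)⟩
    exact Set.disjoint_left.1 h3 h5 ⟨m + 1, h6, h7⟩

theorem isFun_code {w : M} (hw : Is E ℕ w) (f : FN E ℕ ℕ) : IsFun E (CT.code E f) w w := by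
  refine ⟨fun p hp => ?_, fun x hx => ?_, fun x y y' h1 h2 => ?_⟩
  · obtain ⟨t, rfl⟩ := (E_code_fn f p).1 hp
    exact ⟨_, _, (hw _).2 ⟨t, rfl⟩, (hw _).2 ⟨_, rfl⟩, isPair_pr _ _⟩
  · obtain ⟨t, rfl⟩ := (hw x).1 hx
    exact ⟨_, (rep_code_fn f _ _).2 ⟨t, rfl, rfl⟩⟩
  · obtain ⟨t, rfl, rfl⟩ := (rep_code_fn f _ _).1 h1
    obtain ⟨s, h3, rfl⟩ := (rep_code_fn f _ _).1 h2
    rw [CT.inj h3]

theorem b_le (I : Iface2 E) : BLe E (CT.code E I.K) := by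
  obtain ⟨w, hw⟩ := exists_is E ℕ
  obtain ⟨P, hP⟩ := exists_is E (FN E ℕ ℕ)
  obtain ⟨F, hF, hr⟩ := isFun_of_cf (is_sub I.K) hP fun t : {f // f ∈ I.K.1} => t.1
  refine ⟨w, F, P, isOmega_of_is hw, hF, fun k f h => ?_, fun g hg => ?_⟩
  · obtain ⟨t, rfl, rfl⟩ := (hr _ _).1 h
    exact isFun_code hw t.1
  · obtain ⟨φ, hφ, h1⟩ := rep_of_isFun hw hw hg
    obtain ⟨f, hf, h2⟩ := K_unb I φ hφ
    refine ⟨_, _, (hr _ _).2 ⟨⟨f, hf⟩, rfl, rfl⟩, fun m hm => ?_⟩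
    obtain ⟨m, rfl⟩ := (hw m).1 hm
    obtain ⟨n, h3, h4⟩ := h2 m
    exact ⟨_, _, _, E_nat.2 h3, (rep_code_fn f _ _).2 ⟨n, rfl, rfl⟩, (h1 _ _).2 ⟨n, rfl, rfl⟩,
      E_nat.2 h4⟩

theorem add_gt (I : Iface2 E) (hs : ∀ a, Small.{0} {x // E x a}) :
    AddGt E (CT.code E I.K) := by
  intro R _ _ _ _ _ ρ Y P X hR hρ hY hA hX w U Q hw hU hc
  obtain ⟨φ, hφ, hr⟩ := rep_of_isFun (is_sub I.K) (is_el P) hY
  refine add_main I (is_el R) (is_el ρ) (is_el Q) hR hρ φ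
    (fun t => hA _ _ ((hr _ _).2 ⟨t, rfl, rfl⟩)) (fun x => (hX x).trans ⟨?_, ?_⟩)
    (isOmega_iff.1 hw) hU hc
  · rintro ⟨k, A, h1, h2⟩
    obtain ⟨t, rfl, rfl⟩ := (hr _ _).1 h1
    exact ⟨t, h2⟩
  · rintro ⟨t, h⟩
    exact ⟨_, _, (hr _ _).2 ⟨t, rfl, rfl⟩, h⟩

theorem max_lt_add : ∃ (M : Type 1) (E : M → M → Prop), IsZFC E ∧
    ∃ K, BLe E K ∧ GfLe E K ∧ AddGt E K := by
  obtain ⟨M, E, hE, _, _, hs, ⟨I⟩⟩ := B.exists_model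
  exact ⟨M, E, hE.out, _, b_le I, gf_le I, add_gt I hs⟩

end Pool.Agent.B8F
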