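import Pool.Agent.Work.MP_b8a914_gt.F.Add
import Pool.Agent.Lib.ZFModel.ZFC

-- merged part: Pool.Agent.Work.MP_b8a914_gt.F.ML1
section
/-! The successor step and the limit step of the master lemma. -/

set_option linter.unusedSectionVars false

namespace Pool.Agent.B8F
open Filter Topology Function Set

variable {I : Type} [LinearOrder I]

/-- the conditions on one coordinate -/
def MiAt (p : Pt I → Pt I) (β : I) : Prop :=
  (Continuous fun u => p u β) ∧ (∀ u v, (∀ γ ≤ β, u γ = v γ) → p u β = p v β) ∧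
    ∀ u n, ∃ l, IsLen p β u n l

theorem IsMi.at {p q : Pt I → Pt I} (hp : IsMi p) {β : I} (h : ∀ u, q u β = p u β) :
    MiAt q β := by
  refine ⟨?_, fun u v huv => by rw [h, h, hp.proj β u v huv], fun u n => ?_⟩
  · rw [funext h]; exact (continuous_apply β).comp hp.cont
  · obtain ⟨l, hl⟩ := hp.sec β u n
    exact ⟨l, fun v v' a b c d => by rw [h, h]; exact hl v v' a b c d⟩

theorem isMi_of_at {p : Pt I → Pt I} (h : ∀ β, MiAt p β) {s : Set I} (hs : s.Countable)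
    (h' : Supp s p) : IsMi p :=
  ⟨continuous_pi fun β => (h β).1, fun β => (h β).2.1, ⟨s, hs, h'⟩, fun β => (h β).2.2⟩

variable [WellFoundedLT I]

theorem IsMi.inj_supp {p : Pt I → Pt I} (hp : IsMi p) {s : Set I} (hs : Supp s p) {β : I}
    {w w' : Pt I} (h : ∀ γ ∈ s, γ < β → p w γ = p w' γ) : ∀ γ ∈ s, γ < β → w γ = w' γ := by
  classical
  intro γ hγ h3
  let w2 : Pt I := fun γ' => if γ' ∈ s then w γ' else w' γ'
  have : AgB β (p w2) (p w') := fun γ' h' => by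
    by_cases h4 : γ' ∈ s
    · rw [hs.2 w2 w (fun _ a => if_pos a) γ' h4, h γ' h4 h']
    · rw [hs.1 _ _ h4, hs.1 _ _ h4]; exact if_neg h4
  rw [← hp.inj this γ h3]; exact (if_pos hγ).symm

theorem in_limit {p : Pt I → Pt I} (hp : IsMi p) {a : Set I} (hs : Supp a p) {b : ℕ → I}
    {δ : I} {x : Pt I} (h : ∀ k, In (b k) p x) (hc : ∀ γ ∈ a, γ < δ → ∃ k, γ < b k) :
    In δ p x := by
  classical
  choose w hw using h
  let w' : Pt I := fun γ => if h : ∃ k, γ < b k then w h.choose γ else x γ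
  have h1 : ∀ k, AgB (b k) w' (w k) := fun k γ hγ => by
    have h2 : ∃ k, γ < b k := ⟨k, hγ⟩
    show (if h : ∃ k, γ < b k then w h.choose γ else x γ) = _
    rw [dif_pos h2]
    exact hp.inj (β := min (b k) (b h2.choose)) (((hw _).mono (min_le_right _ _)).trans
      ((hw k).mono (min_le_left _ _)).symm) γ (lt_min hγ h2.choose_spec)
  refine ⟨w', fun γ hγ => ?_⟩
  by_cases h2 : ∃ k, γ < b k
  · obtain ⟨k, hk⟩ := h2
    rw [hp.agB (h1 k) γ hk, hw k γ hk]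
  · rw [hs.1 _ _ fun h3 => h2 (hc γ h3 hγ)]
    exact dif_neg h2

/-- `x` is in the section of `p` at `β` over the point `x0` -/
def InS (β : I) (p : Pt I → Pt I) (x0 : Pt I) (x : ℕ → ℕ) : Prop :=
  ∃ w, AgB β (p w) x0 ∧ p w β = x

theorem miller {β : I} {q : Pt I → Pt I} (hq : IsMi q) {s : Set I} (hs : s.Countable)
    (hβ : β ∈ s) (hqs : Supp (s ∩ Iio β) q) (nd : (ℕ → ℕ) → ℕ → Pt I → Pt I → Pt I)
    (m : (ℕ → ℕ) → ℕ → Pt I → ℕ → ℕ)
    (h_ag : ∀ x x' n, Ag n x x' → nd x n = nd x' n ∧ m x n = m x' n)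
    (h_lc : ∀ x n, IsLocallyConstant (nd x n)) (h_dep : ∀ x n, DepOn (s ∩ Iio β) (nd x n))
    (h_mi : ∀ x n u, IsMi (nd x n u)) (h_supp : ∀ x n u, Supp s (nd x n u))
    (h_in : ∀ x n u, In β (nd x n u) (q u)) (h_inj : ∀ x n u, Injective (m x n u))
    (h_succ : ∀ x n u v, ∃ w, AgB β (nd x n u w) (nd x (n + 1) u v) ∧
      nd x n u w β = nd x (n + 1) u v β ∧ w β 0 = m x n u (x n)) :
    ∃ q', IsMi q' ∧ Supp (insert β (s ∩ Iio β)) q' ∧ (∀ u γ, γ ≠ β → q' u γ = q u γ) ∧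
      ∀ u n, InS β (nd (u β) n u) (q u) (q' u β) := by
  classical
  have hdB : ∀ x n u v, AgB β u v → nd x n u = nd x n v := fun x n u v h =>
    h_dep x n u v fun γ hγ => h γ hγ.2
  have kid : ∀ x n u x0 y, InS β (nd x (n + 1) u) x0 y →
      ∃ w, AgB β (nd x n u w) x0 ∧ nd x n u w β = y ∧ w β 0 = m x n u (x n) := by
    rintro x n u x0 y ⟨v, h1, h2⟩
    obtain ⟨w, h3, h4, h5⟩ := h_succ x n u v
    exact ⟨w, h3.trans h1, h4.trans h2, h5⟩
  have nest : ∀ x u x0 y n k, n ≤ k → InS β (nd x k u) x0 y → InS β (nd x n u) x0 y := by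
    intro x u x0 y n k hk
    induction hk with
    | refl => exact id
    | step _ ih => exact fun h => let ⟨w, a, b, _⟩ := kid _ _ _ _ _ h; ih ⟨w, a, b⟩
  have stem : ∀ x u x0 n y y', InS β (nd x n u) x0 y → InS β (nd x n u) x0 y' → Ag n y y' := by
    intro x u x0
    have key : ∀ n w l, AgB β (nd x n u w) x0 → IsLen (nd x n u) β w 0 l → n ≤ l := by
      intro n
      induction n with
      | zero => exact fun _ _ _ _ => Nat.zero_le _
      | succ n ih =>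
        intro w l h1 h2
        let w1 := update w β (update (w β) 0 (w β 0 + 1))
        have a := (h2 w1 w (agB_update _ _) .rfl' (fun _ h => absurd h (Nat.not_lt_zero _))
          .rfl').2
        simp only [w1, update_self, Nat.add_eq_left, one_ne_zero, iff_false] at a
        obtain ⟨v1, b1, c1, d1⟩ := kid x n u x0 _
          ⟨w1, ((h_mi _ _ _).agB (agB_update _ _)).trans h1, rfl⟩
        obtain ⟨v2, b2, c2, d2⟩ := kid x n u x0 _ ⟨w, h1, rfl⟩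
        obtain ⟨l', hl'⟩ := (h_mi x n u).sec β v2 0
        have e := hl' v1 v2 ((h_mi x n u).inj (b1.trans b2.symm)) .rfl'
          (fun _ h => absurd h (Nat.not_lt_zero _)) .rfl'
        have e2 := e.1.succ (e.2.2 (d1.trans d2.symm))
        rw [c1, c2] at e2
        have := ih v2 l' b2 hl'
        by_contra hc
        exact a (e2 l (by omega))
    rintro n y y' ⟨w, h1, rfl⟩ ⟨w', h2, rfl⟩
    obtain ⟨l, hl⟩ := (h_mi x n u).sec β w 0
    exact (hl w w' .rfl' ((h_mi x n u).inj (h2.trans h1.symm)) .rfl'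
      (fun _ h => absurd h (Nat.not_lt_zero _))).1.mono (key n w l h1 hl)
  let θ : (ℕ → ℕ) → ℕ → Pt I → Pt I := fun x n u => inv β (nd x n u) (q u) fun _ _ => 0
  have hθ : ∀ x n u, AgB β (nd x n u (θ x n u)) (q u) := fun x n u =>
    (h_mi x n u).inv_spec (h_in x n u) _
  let f : Pt I → ℕ → ℕ := fun u i => nd (u β) (i + 1) u (θ (u β) (i + 1) u) β i
  have hf : ∀ u n, InS β (nd (u β) n u) (q u) (f u) := fun u n => by
    obtain ⟨y, hy⟩ := (h_mi (u β) n u).closed_sec (β := β) (u := θ (u β) n u) (x := f u) fun k => by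
      obtain ⟨w, h1, h2⟩ := nest (u β) u (q u) _ n (max n k) (le_max_left _ _)
        ⟨θ (u β) (max n k) u, hθ _ _ _, rfl⟩
      refine ⟨w β, fun i hi => ?_⟩
      rw [(h_mi (u β) n u).proj' (u := update (θ (u β) n u) β (w β)) (v := w)
        ((agB_update _ _).trans ((h_mi _ _ _).inj ((hθ _ _ _).trans h1.symm))) (update_self ..), h2]
      exact stem (u β) u (q u) (i + 1) _ _ (nest (u β) u (q u) _ (i + 1) (max n k) (by omega)
        ⟨_, hθ _ _ _, rfl⟩) ⟨_, hθ _ _ _, rfl⟩ i i.lt_succ_self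
    exact ⟨_, ((h_mi _ _ _).agB (agB_update _ _)).trans (hθ _ _ _), hy⟩
  have hfs : ∀ u v, (∀ γ ∈ insert β (s ∩ Iio β), u γ = v γ) → f u = f v := fun u v h => by
    funext i
    have h1 : u β = v β := h β (mem_insert _ _)
    have h2 : ∀ γ ∈ s ∩ Iio β, u γ = v γ := fun γ hγ => h γ (mem_insert_of_mem _ hγ)
    have h3 := h_dep (v β) (i + 1) u v h2
    show nd (u β) (i + 1) u (θ (u β) (i + 1) u) β i = nd (v β) (i + 1) v (θ (v β) (i + 1) v) β i
    rw [h1, ← h3]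
    refine congrFun ((h_supp (v β) (i + 1) u).2 _ _ (fun γ hγ => ?_) β hβ) i
    by_cases h4 : γ < β
    · refine (h_mi (v β) (i + 1) u).inj_supp (h_supp _ _ _) (fun γ' a b => ?_) γ hγ h4
      rw [hθ _ _ _ γ' b, hqs.2 u v h2 γ' ⟨a, b⟩, h3, hθ _ _ _ γ' b]
    · simp only [θ, inv_ge _ _ _ (not_lt.1 h4)]
  let q' : Pt I → Pt I := fun u => update (q u) β (f u)
  have e1 : ∀ u, q' u β = f u := fun u => update_self ..
  have e2 : ∀ u γ, γ ≠ β → q' u γ = q u γ := fun u γ h => update_of_ne h _ _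
  have hsup : Supp (insert β (s ∩ Iio β)) q' := by
    refine ⟨fun u γ hγ => ?_, fun u v h γ hγ => ?_⟩
    · rw [e2 u γ fun h => hγ (h ▸ mem_insert _ _), hqs.1 u γ fun h => hγ (mem_insert_of_mem _ h)]
    · by_cases h1 : γ = β
      · rw [h1, e1, e1, hfs u v h]
      · rw [e2 u γ h1, e2 v γ h1]
        exact hqs.2 u v (fun γ hγ => h γ (mem_insert_of_mem _ hγ)) γ (hγ.resolve_left h1)
  refine ⟨q', isMi_of_at (fun γ => ?_) ((hs.mono inter_subset_left).insert β) hsup, hsup, e2,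
    fun u n => by rw [e1]; exact hf u n⟩
  by_cases hγ : γ = β
  swap
  · exact hq.at fun u => e2 u γ hγ
  subst hγ
  refine ⟨?_, fun u v h => ?_, fun u n => ?_⟩
  · simp only [e1]
    refine cont_seq.2 fun u0 i => ?_
    have h1 : Continuous (θ (u0 γ) (i + 1)) :=
      cont_inv (h_lc _ _) (h_mi _ _) hq.cont continuous_const (h_in _ _)
    have h2 := cont_pt.1 ((h_mi (u0 γ) (i + 1) u0).cont.comp h1) u0 γ i
    filter_upwards [h2, (h_lc (u0 γ) (i + 1)).eventually_eq u0, ev_box u0 {γ} (i + 1)]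
      with u a b c
    have d := (h_ag _ _ _ (c γ (Finset.mem_singleton_self γ))).1
    show nd (u γ) (i + 1) u (θ (u γ) (i + 1) u) γ i = _
    have d' : θ (u γ) (i + 1) u = θ (u0 γ) (i + 1) u := by simp only [θ, d]
    rw [d', d, b]
    exact a
  · rw [e1, e1]
    refine hfs u v fun γ' hγ' => h γ' ?_
    rcases hγ' with rfl | h1
    · exact le_rfl
    · exact le_of_lt h1.2
  · obtain ⟨l, hl⟩ := (h_mi (u γ) n u).sec γ (θ (u γ) n u) 0
    have key : ∀ v, AgB γ v u → Ag n (v γ) (u γ) → ∃ w, AgB γ w (θ (u γ) n u) ∧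
        nd (u γ) n u w γ = q' v γ ∧ w γ 0 = m (u γ) n u (v γ n) := fun v h1 h2 => by
      have h3 := hf v (n + 1)
      rw [hdB _ _ v u h1] at h3
      obtain ⟨w, a, b, c⟩ := kid _ _ _ _ _ h3
      rw [(h_ag _ _ _ h2).1] at a b
      rw [(h_ag _ _ _ h2).2] at c
      exact ⟨w, (h_mi _ _ _).inj (a.trans ((hq.agB h1).trans (hθ _ _ _).symm)),
        b.trans (e1 v).symm, c⟩
    refine ⟨l, fun v v' a b c d => ?_⟩
    obtain ⟨w, h1, h2, h3⟩ := key v a c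
    obtain ⟨w', h4, h5, h6⟩ := key v' b d
    have := hl w w' h1 h4 (fun _ h => absurd h (Nat.not_lt_zero _))
      fun _ h => absurd h (Nat.not_lt_zero _)
    rw [h2, h5, h3, h6] at this
    exact ⟨this.1, this.2.trans (h_inj _ _ _).eq_iff⟩

omit [WellFoundedLT I] in
/-- the union of a coherent sequence -/
theorem exists_union_mi {a : Set I} (ha : a.Countable) {δ : I} {b : ℕ → I} (hb : Monotone b)
    (hδ : ∀ k, b k ≤ δ) (hc : ∀ γ ∈ a, γ < δ → ∃ k, γ < b k) {q : ℕ → Pt I → Pt I}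
    (hq : ∀ k, IsMi (q k)) (hs : ∀ k, Supp (a ∩ Iio (b k)) (q k))
    (hco : ∀ k u, AgB (b k) (q (k + 1) u) (q k u)) :
    ∃ q', IsMi q' ∧ Supp (a ∩ Iio δ) q' ∧ ∀ k u, AgB (b k) (q' u) (q k u) := by
  classical
  have h1 : ∀ k k', k ≤ k' → ∀ u, AgB (b k) (q k' u) (q k u) := by
    intro k k' h u
    induction h with
    | refl => exact .rfl'
    | step h ih => exact ((hco _ u).mono (hb h)).trans ih
  let q' : Pt I → Pt I := fun u γ => if h : ∃ k, γ < b k then q h.choose u γ else u γ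
  have h2 : ∀ k u, AgB (b k) (q' u) (q k u) := fun k u γ hγ => by
    have h3 : ∃ k, γ < b k := ⟨k, hγ⟩
    show (if h : ∃ k, γ < b k then q h.choose u γ else u γ) = _
    rw [dif_pos h3, ← h1 _ _ (le_max_left h3.choose k) u γ h3.choose_spec,
      h1 _ _ (le_max_right h3.choose k) u γ hγ]
  have h3 : ∀ γ, (¬ ∃ k, γ < b k) → ∀ u, q' u γ = u γ := fun γ h u => dif_neg h
  have hsup : Supp (a ∩ Iio δ) q' := by
    refine ⟨fun u γ hγ => ?_, fun u v h γ hγ => ?_⟩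
    · by_cases h4 : ∃ k, γ < b k
      · obtain ⟨k, hk⟩ := h4
        rw [h2 k u γ hk, (hs k).1 u γ fun h => hγ ⟨h.1, hk.trans_le (hδ k)⟩]
      · exact h3 γ h4 u
    · obtain ⟨k, hk⟩ := hc γ hγ.1 hγ.2
      rw [h2 k u γ hk, h2 k v γ hk]
      exact (hs k).2 u v (fun γ' h' => h γ' ⟨h'.1, lt_of_lt_of_le h'.2 (hδ k)⟩) γ ⟨hγ.1, hk⟩
  refine ⟨q', isMi_of_at (fun γ => ?_) (ha.mono inter_subset_left) hsup, hsup, h2⟩
  by_cases h4 : ∃ k, γ < b k
  · obtain ⟨k, hk⟩ := h4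
    exact (hq k).at fun u => h2 k u γ hk
  · exact isMi_id.at (h3 γ h4)

omit [WellFoundedLT I] in
theorem exists_cofinal_seq {S : Set I} (hS : S.Countable) {β : I} (hβ : β ∈ S)
    (h : ∀ γ ∈ S, ∃ γ' ∈ S, γ < γ') :
    ∃ b : ℕ → I, b 0 = β ∧ Monotone b ∧ (∀ k, b k ∈ S) ∧ ∀ γ ∈ S, ∃ k, γ < b k := by
  obtain ⟨e, he⟩ := hS.exists_eq_range ⟨β, hβ⟩
  choose! nx h1 h2 using h
  let b : ℕ → I := fun k => Nat.rec β (fun k x => nx (max x (e k))) k
  have h4 : ∀ k x, x ∈ S → max x (e k) ∈ S := fun k x hx => by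
    rcases max_choice x (e k) with h | h <;> rw [h]
    · exact hx
    · exact he ▸ mem_range_self k
  have h3 : ∀ k, b k ∈ S := fun k => by
    induction k with
    | zero => exact hβ
    | succ k ih => exact h1 _ (h4 k _ ih)
  have h5 : ∀ k, max (b k) (e k) < b (k + 1) := fun k => h2 _ (h4 k _ (h3 k))
  refine ⟨b, rfl, monotone_nat_of_le_succ fun k => (le_max_left _ _).trans (h5 k).le, h3,
    fun γ hγ => ?_⟩
  obtain ⟨k, rfl⟩ : γ ∈ range e := he ▸ hγ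
  exact ⟨k + 1, (le_max_right _ _).trans_lt (h5 k)⟩

end Pool.Agent.B8F
end

-- merged part: Pool.Agent.Work.MP_b8a914_gt.F.Gen1
section
/-! Names for numbers, pairs and relations in a generic model. -/

namespace Pool.Agent.B8F
open Pool.Agent.Lib.ZFModel Pool.Agent.Lib.ZFModel.Name Pool.Agent.Work.MP_63c7e0_lc

variable {P : Type}

/-- the name of a relation on the natural numbers -/
def relName (R : ℕ → ℕ → P → Prop) : Name P :=
  rName (fun kn : ℕ × ℕ => pairN (natN kn.1) (natN kn.2)) fun kn r => R kn.1 kn.2 r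

variable [Preorder P]

theorem gen1_natN_lt {j : ℕ} : ∀ i < j, ∀ p : P, ¬ EqF (natN i) (natN j) p := by
  induction j using Nat.strong_induction_on with
  | _ j ih =>
    intro i hi p h
    rw [natN_eq j] at h
    have h1 := (eqF_iff.1 h).2 ⟨(⟨i, hi⟩, p), trivial⟩ p le_rfl le_rfl
    have h3 : MemF (natN i) (rName (fun j : Fin i => natN j) fun _ _ => True) p :=
      natN_eq (P := P) i ▸ h1
    obtain ⟨r, -, k, -, h2⟩ := h3 p le_rfl
    exact ih i hi k.1.1.1 k.1.1.2 r h2.symm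

theorem gen1_natN_inj {i j : ℕ} {p : P} (h : EqF (natN i) (natN j) p) : i = j := by
  rcases lt_trichotomy i j with h1 | h1 | h1
  · exact absurd h (gen1_natN_lt i h1 p)
  · exact h1
  · exact absurd h.symm (gen1_natN_lt j h1 p)

theorem gen1_small (g : Gen (P := P) Unit) (a : g.M) : Small.{0} {x // g.E x a} := by
  obtain ⟨y, rfl⟩ := g.cl_surj a
  refine small_of_surjective
    (f := fun j : {j : y.1.Idx // y.1.ch j ∈ g.N ∧ g.G (y.1.cond j)} =>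
      (⟨g.cl ⟨_, j.2.1⟩, g.E_cl_child.2 ⟨j.1, j.2.1, j.2.2, rfl⟩⟩ : {x // g.E x (g.cl y)})) ?_
  rintro ⟨x, hx⟩
  obtain ⟨j, hj, h1, rfl⟩ := g.E_cl_child.1 hx
  exact ⟨⟨j, hj, h1⟩, rfl⟩

theorem gen1_isPair (g : Gen (P := P) Unit) (hu : ∀ a ∈ g.N, ∀ b ∈ g.N, upairN a b ∈ g.N)
    {a b : Name P} (ha : a ∈ g.N) (hb : b ∈ g.N) (h : pairN a b ∈ g.N) :
    IsPair g.E (g.cl ⟨_, h⟩) (g.cl ⟨_, ha⟩) (g.cl ⟨_, hb⟩) := by
  intro z
  refine (g.mem_upair (hu a ha a ha) (hu a ha b hb) h z).trans (or_congr ⟨?_, ?_⟩ ⟨?_, ?_⟩)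
  · rintro rfl x
    exact (g.mem_upair ha ha _ x).trans or_self_iff
  · intro hz
    exact g.extensionality _ _ fun x =>
      (hz x).trans ((g.mem_upair ha ha _ x).trans or_self_iff).symm
  · rintro rfl x
    exact g.mem_upair ha hb _ x
  · intro hz
    exact g.extensionality _ _ fun x => (hz x).trans (g.mem_upair ha hb _ x).symm

variable {A K : Type} {p0 : P} {a0 : A} {RN : Fam P A K (Name P)} {W : Fam P A K (P × A)}
  (g : GenW p0 a0 RN W)

instance gen1_zfc : Fact (IsZFC g.toGen.E) := ⟨g.zfc⟩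

instance gen1_ct : CT g.toGen.E ℕ where
  code n := g.toGen.cl ⟨_, g.nat_mem n⟩
  inj m n h := by
    obtain ⟨p, -, h⟩ := g.toGen.cl_eq.1 h
    exact gen1_natN_inj h
  set := ⟨g.toGen.cl ⟨_, g.omega_mem⟩, fun x =>
    (g.toGen.mem_omega g.nat_mem g.omega_mem x).trans
      ⟨fun ⟨n, h⟩ => ⟨n, h.symm⟩, fun ⟨n, h⟩ => ⟨n, h.symm⟩⟩⟩

theorem gen1_code_nat (n : ℕ) : CT.code g.toGen.E n = g.toGen.cl ⟨_, g.nat_mem n⟩ := rfl

theorem gen1_natE : NatE g.toGen.E := ⟨fun x n => g.toGen.mem_nat g.nat_mem x n⟩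

theorem gen1_pair_mem {a b : Name P} (ha : a ∈ g.N) (hb : b ∈ g.N) : pairN a b ∈ g.N :=
  g.upair_mem _ (g.upair_mem _ ha _ ha) _ (g.upair_mem _ ha _ hb)

theorem gen1_pr {a b : Name P} (ha : a ∈ g.N) (hb : b ∈ g.N) :
    pr g.toGen.E (g.toGen.cl ⟨_, ha⟩) (g.toGen.cl ⟨_, hb⟩) =
      g.toGen.cl ⟨_, gen1_pair_mem g ha hb⟩ :=
  (isPair_iff.1 (gen1_isPair g.toGen g.upair_mem ha hb _)).symm

theorem gen1_dir {p q : P} (hp : g.G p) (hq : g.G q) : ∃ r ∈ g.PN, g.G r ∧ r ≤ p ∧ r ≤ q := by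
  obtain ⟨r, hr, h1, h2⟩ := g.dir p q hp hq
  obtain ⟨s, hs, h3, h4⟩ := g.below r hr
  exact ⟨s, hs, h3, h4.trans h1, h4.trans h2⟩

theorem gen1_E_rel {R : ℕ → ℕ → P → Prop} (h : relName R ∈ g.N) (a : g.toGen.M) :
    g.toGen.E a (g.toGen.cl ⟨_, h⟩) ↔ ∃ k n r, R k n r ∧ g.G r ∧
      a = pr g.toGen.E (CT.code g.toGen.E k) (CT.code g.toGen.E n) := by
  refine (g.toGen.E_rName h a).trans ⟨?_, ?_⟩
  · rintro ⟨⟨k, n⟩, r, h1, h2, h3, rfl⟩
    exact ⟨k, n, r, h1, h2, (gen1_pr g (g.nat_mem k) (g.nat_mem n)).symm⟩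
  · rintro ⟨k, n, r, h1, h2, rfl⟩
    exact ⟨(k, n), r, h1, h2, _, gen1_pr g (g.nat_mem k) (g.nat_mem n)⟩

theorem gen1_E_rel' {R : ℕ → ℕ → P → Prop} (h : relName R ∈ g.N) (k n : ℕ) :
    g.toGen.E (pr g.toGen.E (CT.code g.toGen.E k) (CT.code g.toGen.E n)) (g.toGen.cl ⟨_, h⟩) ↔
      ∃ r, g.G r ∧ R k n r := by
  refine (gen1_E_rel g h _).trans ⟨?_, fun ⟨r, h1, h2⟩ => ⟨k, n, r, h2, h1, rfl⟩⟩
  rintro ⟨k', n', r, h1, h2, e⟩
  obtain ⟨e1, e2⟩ := pr_inj.1 e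
  obtain rfl := CT.inj e1
  obtain rfl := CT.inj e2
  exact ⟨r, h2, h1⟩

theorem gen1_fn_iff {R : ℕ → ℕ → P → Prop} (h : relName R ∈ g.N) (η : FN g.toGen.E ℕ ℕ)
    (e : CT.code g.toGen.E η = g.toGen.cl ⟨_, h⟩) (k n : ℕ) :
    (∃ r, g.G r ∧ R k n r) ↔ η.1 k = n := by
  rw [← gen1_E_rel' g h, ← e, E_code_fn η]
  refine ⟨?_, fun e => ⟨k, by rw [e]⟩⟩
  rintro ⟨t, e⟩
  obtain ⟨e1, e2⟩ := pr_inj.1 e
  obtain rfl := CT.inj e1
  exact (CT.inj e2).symm

theorem gen1_cf {R : ℕ → ℕ → P → Prop} (h : relName R ∈ g.N) {H : ℕ → ℕ}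
    (hH : ∀ k n, (∃ r, g.G r ∧ R k n r) ↔ H k = n) : CF g.toGen.E H :=
  ⟨⟨g.toGen.cl ⟨_, h⟩, fun p =>
    (eq_comm.trans (hH p.1 p.2).symm).trans (gen1_E_rel' g h p.1 p.2).symm⟩⟩

theorem gen1_code {R : ℕ → ℕ → P → Prop} (h : relName R ∈ g.N) (η : FN g.toGen.E ℕ ℕ)
    (hH : ∀ k n, (∃ r, g.G r ∧ R k n r) ↔ η.1 k = n) :
    CT.code g.toGen.E η = g.toGen.cl ⟨_, h⟩ := by
  refine g.toGen.extensionality _ _ fun x => ?_
  rw [E_code_fn η, gen1_E_rel]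
  constructor
  · rintro ⟨k, rfl⟩
    obtain ⟨r, h1, h2⟩ := (hH k _).2 rfl
    exact ⟨k, _, r, h2, h1, rfl⟩
  · rintro ⟨k, n, r, h1, h2, rfl⟩
    exact ⟨k, by rw [(hH k n).1 ⟨r, h2, h1⟩]⟩

theorem gen1_cs {T : Type} [CT g.toGen.E T] {Q : T → Prop} (h : CS g.toGen.E Q) :
    ∃ a ∈ g.N, ∀ t x (hx : x ∈ g.N), CT.code g.toGen.E t = g.toGen.cl ⟨x, hx⟩ →
      (Q t ↔ ∃ r, g.G r ∧ MemF x a r) := by
  obtain ⟨a, ha⟩ := h.out
  obtain ⟨⟨a, haN⟩, rfl⟩ := g.toGen.cl_surj a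
  exact ⟨a, haN, fun t x hx e => by rw [ha, e]; exact g.toGen.E_cl⟩

end Pool.Agent.B8F
end
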