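import Pool.Agent.Work.MP_b8a914_gt.F.Cond2
import Pool.Agent.Work.MP_b8a914_gt.F.Cond3
import Pool.Agent.Work.MP_b8a914_gt.F.Gen1
import Pool.Agent.Lib.ZFModel.ZFC

/-! The generic model. -/

namespace Pool.Agent.B8F
open Pool.Agent.Lib.ZFModel Pool.Agent.Lib.ZFModel.Name Pool.Agent.Work.MP_63c7e0_lc

/-- the name of the value of a code -/
def genV (c : VC II) : Name (Cond II) := relName (Dec c)

/-- the name of the set of the numbers of the initial segments of the generic branch -/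
def genS : Name (Cond II) := rName natN fun a r => ∃ i, ∀ y ∈ r.K, enc y i = a

/-- relations that do not look at the tree coordinate -/
def GenKI (R : ℕ → ℕ → Cond II → Prop) : Prop :=
  ∀ k n (r r' : Cond II), r.A = r'.A → r.p = r'.p → R k n r → R k n r'

def genVf : Name (Cond II) := rName (fun R : {R // GenKI R} => relName R.1) fun _ _ => True

def GenFr (a : Name (Cond II)) (r : Cond II) (c1 c2 c3 : VC II) : Prop :=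
  MemF (pairN (genV c1) (pairN (genV c2) (genV c3))) a r

def GenPh (a : Name (Cond II)) (i n : ℕ) (r : Cond II) : Prop := MemF (pairN (natN i) (natN n)) a r

def GenUp (R : ℕ → ℕ → Cond II → Prop) (k n : ℕ) (r : Cond II) : Prop := ∃ r1, r ≤ r1 ∧ R k n r1

theorem gen_en (r : Cond II) : ∃ e : ℕ → II, Supp (Set.range e) r.p := by
  obtain ⟨s, hs, h⟩ := r.mi.supp
  obtain ⟨e, he⟩ := (hs.insert ⊤).exists_eq_range ⟨⊤, Set.mem_insert _ _⟩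
  exact ⟨e, he ▸ h.mono (Set.subset_insert _ _)⟩

theorem gen_cp (a : Name (Cond II)) (r : Cond II) : ∃ αβ : (ℕ → II) × II, DDn (GenFr a) r →
    StrictMono αβ.1 ∧ (∀ n, CP (GenFr a) r (αβ.1 n)) ∧ αβ.2 < ⊤ ∧ ∀ n, αβ.1 n ≤ αβ.2 := by
  by_cases h : DDn (GenFr a) r
  · obtain ⟨α, β, h1⟩ := exists_CP (Fr := GenFr a) (fun _ _ _ _ _ h h' => MemF.mono h h') h
    exact ⟨(α, β), fun _ => h1⟩
  · exact ⟨(fun _ => ⊤, ⊤), fun h' => absurd h' h⟩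

/-- indices of the dense sets -/
inductive GenK : Type
  | supp (n : ℕ) | inv (i : ℕ) | dec (k : ℕ) | reap | dom | fin (i b : ℕ) | unb (m : ℕ)
  | encd (m : ℕ) | sacks (e m : ℕ) | refl | seq (n : ℕ) | bnd | key | clos | zc
  deriving Countable

/-- the dense sets -/
def GenW0 (k : GenK) (a : Name (Cond II)) (r : Cond II) (c : VC II) (γ γ' : II) (q : Cond II)
    (δ : II) (c2 c3 : VC II) : Prop :=
  match k with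
  | .supp n => δ = (gen_en r).choose n
  | .inv i => ∃ n, Dec (r.p, fun w => w γ) i n q
  | .dec k => ∃ n, Dec c k n q
  | .reap => (∀ b ∈ q.A, MemF (natN b) a q) ∨ ∀ b ∈ q.A, ∀ q', q' ≤ q → ¬ MemF (natN b) a q'
  | .dom => (∃ i, ∀ q', q' ≤ q → ∀ n, ¬ GenPh a i n q') ∨
      (c2.1 = q.p ∧ Nice ⊤ c2 ∧ (∀ w, StrictMono (c2.2 w)) ∧ ∀ q', q' ≤ q → ∀ v w,
        AgB ⊤ (q.p w) (q'.p v) → ∀ j i, i ≤ c2.2 w j →
          ∃ q'', q'' ≤ q' ∧ ∃ n < c2.2 w (j + 1), GenPh a i n q'')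
  | .fin i b => ∃ n < b, GenPh a i n q
  | .unb m => ∃ j, m ≤ j ∧ ∀ v w, AgB ⊤ (c.1 w) (q.p v) → c.2 w j < q.p v γ j
  | .encd m => ∃ b, m ≤ b ∧ ∃ i, ∀ y ∈ q.K, enc y i = b
  | .sacks e m => ∃ R, a = relName R ∧ ((∃ k, ∀ q', q' ≤ q → ∀ n, ¬ GenUp R k n q') ∨
      ∃ j, m ≤ j ∧ ∃ n, GenUp R (2 * j + e) n q ∧ ∀ y ∈ q.K, ∀ v w,
        AgB ⊤ (c.1 w) (q.p v) → StrictMono (c.2 w) → 2 * j + e ≤ n →
          ∀ i, ¬ (c.2 w (enc y i) ≤ n ∧ n < c.2 w (enc y i + 1)))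
  | .refl => DDn (GenFr a) q ∨ (Nice ⊤ c2 ∧ Nice ⊤ c3 ∧ Le ⊤ q.p c2.1 ∧ Le ⊤ q.p c3.1 ∧
      ∀ r', r' ≤ q → ∀ c4, Nice ⊤ c4 → Le ⊤ r'.p c4.1 → ¬ GenFr a r' c2 c3 c4)
  | .seq n => δ = (gen_cp a r).choose.1 n
  | .bnd => δ = (gen_cp a r).choose.2
  | .key => Nice ⊤ c2 ∧ Nice ⊤ c3 ∧ Le ⊤ q.p c2.1 ∧ Le ⊤ q.p c3.1 ∧ GenFr a q c c2 c3 ∧
      ∀ v w2 w3, AgB ⊤ (c2.1 w2) (q.p v) → AgB ⊤ (c3.1 w3) (q.p v) →
        KeyP (zf (q.p v γ)) r.A (c2.2 w2) (c3.2 w3)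
  | .clos => c2.1 = c.1 ∧ Nice γ' c2 ∧ ∀ w j k,
      k ≤ zf (c.1 w γ) (nxt r.A (zf (c.1 w γ) j) + 1) → c.2 w k ≤ c2.2 w j
  | .zc => c2 = (id, fun w => zf (w γ))

def genW : Fam (Cond II) (II × VC II × VC II) (Option GenK) (Cond II × (II × VC II × VC II)) :=
  fun k v c a qj => match k with
  | none => qj.2.2.1 = (a 0).2.2
  | some k => GenW0 k (v 0) (c 0) (a 0).2.1 (a 1).1 (a 2).1 qj.1 qj.2.1 qj.2.2.1 qj.2.2.2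

def genRN : Fam (Cond II) (II × VC II × VC II) (Option GenK) (Name (Cond II)) :=
  fun k _ _ a x => match k with
  | none => x = genV (a 0).2.1
  | some .reap => x = genS
  | some _ => x = genVf

def genId : VC II := (id, fun _ => id)

/-- the generic models -/
abbrev GenM := GenW (Cond.one II) ((⊤, genId, genId) : II × VC II × VC II) genRN genW

variable (g : GenM)

def GenHC (c : VC II) : Prop := ∃ j ∈ g.AN, j.2.1 = c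

def GenHI (γ : II) : Prop := ∃ j ∈ g.AN, j.1 = γ

theorem gen_hc_id : GenHC g genId := ⟨_, g.a0_mem, rfl⟩

theorem gen_hi_top : GenHI g ⊤ := ⟨_, g.a0_mem, rfl⟩

theorem gen_S_mem : genS ∈ g.N := by
  obtain ⟨y, hy, h⟩ := g.clN (some .reap) [] [] [] mem_list₀ mem_list₀ mem_list₀ ⟨_, rfl⟩
  exact (h : y = _) ▸ hy

theorem gen_Vf_mem : genVf ∈ g.N := by
  obtain ⟨y, hy, h⟩ := g.clN (some .dom) [] [] [] mem_list₀ mem_list₀ mem_list₀ ⟨_, rfl⟩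
  exact (h : y = _) ▸ hy

variable {g}

theorem GenHC.mem {c : VC II} (h : GenHC g c) : relName (Dec c) ∈ g.N := by
  obtain ⟨j, hj, rfl⟩ := h
  obtain ⟨y, hy, h⟩ := g.clN none [] [] [j] mem_list₀ mem_list₀ (mem_list₁ hj) ⟨_, rfl⟩
  have h' : y = relName (Dec j.2.1) := h
  exact h' ▸ hy

theorem gen_meet (k : GenK) {a : Name (Cond II)} (ha : a ∈ g.N) {r : Cond II} (hr : r ∈ g.PN)
    {c : VC II} (hc : GenHC g c) {γ γ' : II} (h1 : GenHI g γ) (h2 : GenHI g γ') {p : Cond II}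
    (hp : g.G p) (hd : ∀ q, q ≤ p → ∃ q', q' ≤ q ∧ ∃ δ c2 c3, GenW0 k a r c γ γ' q' δ c2 c3) :
    ∃ q ∈ g.PN, g.G q ∧ ∃ δ c2 c3, GenHI g δ ∧ GenHC g c2 ∧ GenHC g c3 ∧
      GenW0 k a r c γ γ' q δ c2 c3 := by
  obtain ⟨j0, hj0, rfl⟩ := hc
  obtain ⟨j1, hj1, rfl⟩ := h1
  obtain ⟨j2, hj2, rfl⟩ := h2
  obtain ⟨q, hq, hG, j, hj, h⟩ := g.meet (some k) [a] [r] [j0, j1, j2] (mem_list₁ ha)
    (mem_list₁ hr) (mem_listc hj0 (mem_list₂ hj1 hj2)) p hp fun q hq => by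
      obtain ⟨q', h1, δ, c2, c3, h2⟩ := hd q hq
      exact ⟨q', h1, (δ, c2, c3), h2⟩
  obtain ⟨_, -, -, j', hj', h'⟩ := g.meet none [] [] [j] mem_list₀ mem_list₀ (mem_list₁ hj) p hp
    fun q _ => ⟨q, le_rfl, (⊤, j.2.2, j.2.2), rfl⟩
  exact ⟨q, hq, hG, j.1, j.2.1, j.2.2, ⟨j, hj, rfl⟩, ⟨j, hj, rfl⟩, ⟨j', hj', h'⟩, h⟩

theorem gen_x (g : GenM) : ∃ x, ∀ r, g.G r → In ⊤ r.p x := by
  refine exists_xG g.G g.PN {γ | GenHI g γ} (fun _ _ => gen1_dir g) g.p0_mem g.G_p0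
    (fun r hr => (gen_en r).choose_spec.mono ?_) fun r hr hG γ hγ ht i => ?_
  · rintro _ ⟨n, rfl⟩
    obtain ⟨_, -, -, δ, c2, c3, h1, -, -, h⟩ := gen_meet (.supp n) g.empty_mem hr (gen_hc_id g)
      (gen_hi_top g) (gen_hi_top g) g.G_p0 fun q _ => ⟨q, le_rfl, _, genId, genId, rfl⟩
    exact (h : δ = _) ▸ h1
  · obtain ⟨q, -, hq, _, _, _, -, -, -, h⟩ := gen_meet (.inv i) g.empty_mem hr (gen_hc_id g)
      hγ hγ hG fun q hq => by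
        obtain ⟨q', h1, h2⟩ := dec_dense (c := (r.p, fun w => w γ)) r.mi (continuous_apply γ)
          (fun u v h => h γ ht) hq.2.2 i
        exact ⟨q', h1, ⊤, genId, genId, h2⟩
    exact ⟨q, hq, h⟩

variable (g) in
/-- `H` is the value of the code `c` -/
structure GenVal (x : Pt II) (α : II) (c : VC II) (H : ℕ → ℕ) : Prop where
  hc : GenHC g c
  nice : Nice α c
  valid : ∃ r, g.G r ∧ Le ⊤ r.p c.1
  val : ∃ w, AgB ⊤ (c.1 w) x ∧ H = c.2 w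

variable {x : Pt II} {α β : II} {c c2 c3 : VC II} {H : ℕ → ℕ}

theorem GenVal.mono (h : GenVal g x α c H) (hb : α ≤ β) : GenVal g x β c H :=
  ⟨h.hc, h.nice.mono hb, h.valid, h.val⟩

theorem gen_z (hγ : GenHI g α) (ht : α < ⊤) :
    GenVal g x ⊤ (id, fun w => zf (w α)) (zf (x α)) := by
  obtain ⟨_, -, -, _, c2, _, -, h1, -, h⟩ := gen_meet .zc g.empty_mem g.p0_mem (gen_hc_id g)
    hγ hγ g.G_p0 fun q _ => ⟨q, le_rfl, ⊤, _, genId, rfl⟩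
  exact ⟨(h : c2 = _) ▸ h1, nice_z ht, ⟨_, g.G_p0, le_id _⟩, x, .rfl', rfl⟩

variable (hx : ∀ r, g.G r → In ⊤ r.p x)
include hx

theorem gen_val (h1 : GenHC g c) (h2 : Nice α c) {r : Cond II} (hr : g.G r) (h3 : Le ⊤ r.p c.1) :
    ∃ w, AgB ⊤ (c.1 w) x ∧ GenVal g x α c (c.2 w) := by
  obtain ⟨w, hw⟩ := (hx r hr).le h3
  exact ⟨w, hw, h1, h2, ⟨r, hr, h3⟩, w, hw, rfl⟩

theorem GenVal.dec (h : GenVal g x α c H) (k n : ℕ) : (∃ r, g.G r ∧ Dec c k n r) ↔ H k = n := by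
  obtain ⟨w, hw, rfl⟩ := h.val
  have h1 : ∀ n, (∃ r, g.G r ∧ Dec c k n r) → c.2 w k = n := by
    rintro n ⟨r, hr, h1⟩
    obtain ⟨v, hv⟩ := hx r hr
    exact h1.2 v w (hw.trans hv.symm)
  refine ⟨h1 n, ?_⟩
  rintro rfl
  obtain ⟨r, hr, h2⟩ := h.valid
  obtain ⟨q, -, hq, -, -, -, -, -, -, n, h3⟩ := gen_meet (.dec k) g.empty_mem g.p0_mem h.hc
    (gen_hi_top g) (gen_hi_top g) hr fun q hq => by
      obtain ⟨q', h3, h4⟩ := dec_dense h.nice.1 h.nice.2.1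
        (fun u v huv => (h.nice.mono le_top).dep huv) (hq.2.2.trans h2) k
      exact ⟨q', h3, ⊤, genId, genId, h4⟩
  exact ⟨q, hq, h1 n ⟨q, hq, h3⟩ ▸ h3⟩

theorem GenVal.cf (h : GenVal g x α c H) : CF g.toGen.E H := gen1_cf g h.hc.mem (h.dec hx)

theorem GenVal.code {η : FN g.toGen.E ℕ ℕ} (h : GenVal g x α c η.1) :
    CT.code g.toGen.E η = g.toGen.cl ⟨_, h.hc.mem⟩ := gen1_code g h.hc.mem η (h.dec hx)

omit hx in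
theorem gen_reap (A : PW g.toGen.E ℕ) : ∃ r ∈ g.PN, g.G r ∧ (r.A ⊆ A.1 ∨ Disjoint r.A A.1) := by
  obtain ⟨a, ha, h⟩ := gen1_cs g A.2
  have h1 : ∀ t, t ∈ A.1 ↔ ∃ r, g.G r ∧ MemF (natN t) a r := fun t => h t _ (g.nat_mem t) rfl
  obtain ⟨q, hq, hG, _, _, _, -, -, -, h2⟩ := gen_meet .reap ha g.p0_mem (gen_hc_id g)
    (gen_hi_top g) (gen_hi_top g) g.G_p0 fun q _ => by
      obtain ⟨q', h2, h3⟩ := reap_dense (fun b r => MemF (natN b) a r)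
        (fun _ _ _ h h' => h.mono h') q
      exact ⟨q', h2, ⊤, genId, genId, h3.imp (fun h b hb => MemF.reg (h b hb)) id⟩
  refine ⟨q, hq, hG, Or.imp (fun h2 b hb => (h1 b).2 ⟨q, hG, h2 b hb⟩)
    (fun h2 => Set.disjoint_left.2 fun b hb hb' => ?_) h2⟩
  obtain ⟨r, hr, h3⟩ := (h1 b).1 hb'
  obtain ⟨s, -, h4, h5⟩ := g.dir _ _ hG hr
  exact h2 b hb s h4 (h3.mono h5)

theorem gen_sparse (φ : ℕ → ℕ) (hφ : CF g.toGen.E φ) : ∃ c η, GenVal g x ⊤ c η ∧ StrictMono η ∧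
    ∀ j i, i ≤ η j → φ i < η (j + 1) := by
  obtain ⟨a, ha, h⟩ := gen1_cs g hφ.out
  have h1 : ∀ i n, n = φ i ↔ ∃ r, g.G r ∧ GenPh a i n r := fun i n =>
    h (i, n) _ (gen1_pair_mem g (g.nat_mem i) (g.nat_mem n))
      (gen1_pr g (g.nat_mem i) (g.nat_mem n))
  obtain ⟨q, -, hG, -, c, -, -, hc, -, ⟨i, h2⟩ | ⟨h2, h3, h4, h5⟩⟩ := gen_meet .dom ha g.p0_mem
    (gen_hc_id g) (gen_hi_top g) (gen_hi_top g) g.G_p0 fun q _ => by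
      by_cases hd : ∀ i q', q' ≤ q → ∃ q'', q'' ≤ q' ∧ ∃ n, GenPh a i n q''
      · obtain ⟨q', h2, f, h3⟩ := dom_dense (GenPh a) (fun _ _ _ _ h h' => MemF.mono h h') q hd
        exact ⟨q', h2, ⊤, (q'.p, f), genId, Or.inr ⟨rfl, h3⟩⟩
      · push Not at hd
        obtain ⟨i, q', h2, h3⟩ := hd
        exact ⟨q', h2, ⊤, genId, genId, Or.inl ⟨i, h3⟩⟩
  · obtain ⟨r, hr, h3⟩ := (h1 i _).1 rfl
    obtain ⟨s, -, h4, h5⟩ := g.dir _ _ hG hr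
    exact absurd (MemF.mono h3 h5) (h2 s h4 _)
  · obtain ⟨w, -, hv⟩ := gen_val hx hc h3 hG (h2 ▸ Le.rfl')
    refine ⟨c, _, hv, h4 w, fun j i hi => ?_⟩
    obtain ⟨r1, hr1, d1⟩ := (hv.dec hx j _).2 rfl
    obtain ⟨r2, hr2, d2⟩ := (hv.dec hx (j + 1) _).2 rfl
    obtain ⟨s, hs, s1, s2⟩ := g.dir _ _ hr1 hr2
    obtain ⟨t, ht, t1, t2⟩ := g.dir _ _ hs hG
    obtain ⟨u, -, hu, -, -, -, -, -, -, n, h6, h7⟩ := gen_meet (.fin i (c.2 w (j + 1))) ha g.p0_mem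
      (gen_hc_id g) (gen_hi_top g) (gen_hi_top g) ht fun q' hq' => by
        obtain ⟨w', hw'⟩ := (hq'.trans t2).2.2 x
        have e1 := (d1.mono (hq'.trans (t1.trans s1))).2 x w' (h2 ▸ hw')
        have e2 := (d2.mono (hq'.trans (t1.trans s2))).2 x w' (h2 ▸ hw')
        obtain ⟨q'', h6, h7⟩ := h5 q' (hq'.trans t2) x w' hw' j i (e1 ▸ hi)
        exact ⟨q'', h6, ⊤, genId, genId, e2 ▸ h7⟩
    rwa [← (h1 i n).2 ⟨u, hu, h7⟩]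

omit hx in
theorem gen_E_S (b : ℕ) : g.toGen.E (CT.code g.toGen.E b) (g.toGen.cl ⟨_, gen_S_mem g⟩) ↔
    ∃ r, g.G r ∧ ∃ i, ∀ y ∈ r.K, enc y i = b := by
  refine (g.toGen.E_rName (gen_S_mem g) _).trans
    ⟨?_, fun ⟨r, h1, h2⟩ => ⟨b, r, h2, h1, g.nat_mem b, rfl⟩⟩
  rintro ⟨b', r, h1, h2, h3, e⟩
  obtain rfl : b = b' := CT.inj (E := g.toGen.E) e
  exact ⟨r, h2, h1⟩

theorem gen_sacks (h : GenVal g x ⊤ c H) (hH : StrictMono H) (η : FN g.toGen.E ℕ ℕ)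
    (hη : g.toGen.E (CT.code g.toGen.E η) (g.toGen.cl ⟨_, gen_Vf_mem g⟩)) (hm : StrictMono η.1)
    (e m : ℕ) : ∃ j, m ≤ j ∧ ∀ i, (∃ r, g.G r ∧ ∃ l, ∀ y ∈ r.K, enc y l = i) →
      ¬ (H i ≤ η.1 (2 * j + e) ∧ η.1 (2 * j + e) < H (i + 1)) := by
  obtain ⟨⟨R, hR⟩, -, -, -, hN, e1⟩ := (g.toGen.E_rName (gen_Vf_mem g) _).1 hη
  obtain ⟨r, hr, h2⟩ := h.valid
  obtain ⟨w, hw, rfl⟩ := h.val
  obtain ⟨q, -, hq, -, -, -, -, -, -, R', e2, h3⟩ := gen_meet (.sacks e m) hN g.p0_mem h.hc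
    (gen_hi_top g) (gen_hi_top g) hr fun q hq => by
      by_cases hd : ∀ k q', q' ≤ q → ∃ q'', q'' ≤ q' ∧ ∃ n, GenUp R k n q''
      · obtain ⟨q', h3, h4⟩ := sacks_dense (GenUp R)
          (fun _ _ _ _ ⟨r1, a, b⟩ h' => ⟨r1, h'.trans a, b⟩)
          (fun k n r r' eA ep ⟨r1, a, b⟩ => ⟨⟨⟨r1.A, r'.K, r1.inf, r'.perf⟩, r1.p, r1.mi⟩,
            ⟨eA ▸ a.1, subset_rfl, ep ▸ a.2.2⟩, hR k n r1 _ rfl rfl b⟩)
          h.nice (hq.2.2.trans h2) hd e m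
        exact ⟨q', h3, ⊤, genId, genId, R, rfl, Or.inr h4⟩
      · push Not at hd
        obtain ⟨k, q', h3, h4⟩ := hd
        exact ⟨q', h3, ⊤, genId, genId, R, rfl, Or.inl ⟨k, h4⟩⟩
  have hN' : relName R' ∈ g.N := e2 ▸ hN
  have h4 := gen1_fn_iff g hN' η (e1.trans (congrArg _ (Subtype.ext e2)))
  rcases h3 with ⟨k, h3⟩ | ⟨j, hj, n, ⟨r1, a, b⟩, h3⟩
  · obtain ⟨s, hs, h5⟩ := (h4 k _).2 rfl
    obtain ⟨t, -, t1, t2⟩ := g.dir _ _ hq hs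
    exact absurd ⟨s, t2, h5⟩ (h3 t t1 _)
  · obtain rfl := (h4 _ _).1 ⟨r1, g.up _ _ hq a, b⟩
    refine ⟨j, hj, ?_⟩
    rintro i ⟨s, hs, l, hl⟩
    obtain ⟨t, -, t1, t2⟩ := g.dir _ _ hq hs
    obtain ⟨y, hy⟩ := t.perf.1
    obtain ⟨v, hv⟩ := hx q hq
    rw [← hl y (t2.2.1 hy)]
    exact h3 y (t1.2.1 hy) v w (hw.trans hv.symm) hH hm.le_apply l

theorem gen_ref (Rel : FN g.toGen.E ℕ ℕ → FN g.toGen.E ℕ ℕ → FN g.toGen.E ℕ ℕ → Prop)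
    (hR : CS g.toGen.E (fun t : FN g.toGen.E ℕ ℕ × FN g.toGen.E ℕ ℕ × FN g.toGen.E ℕ ℕ =>
      Rel t.1 t.2.1 t.2.2))
    (hT : ∀ H P : FN g.toGen.E ℕ ℕ, (∃ c, GenVal g x ⊤ c H.1) → (∃ c, GenVal g x ⊤ c P.1) →
      ∃ η : FN g.toGen.E ℕ ℕ, (∃ c, GenVal g x ⊤ c η.1) ∧ Rel H P η) :
    Nonempty (RefData g.toGen.E {H | ∃ c, GenVal g x ⊤ c H} {B | ∃ r ∈ g.PN, g.G r ∧ r.A = B}
      Rel) := by
  obtain ⟨a, ha, h⟩ := gen1_cs g hR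
  have h1 : ∀ {c1 c2 c3 : VC II} {H P η : FN g.toGen.E ℕ ℕ}, GenVal g x ⊤ c1 H.1 →
      GenVal g x ⊤ c2 P.1 → GenVal g x ⊤ c3 η.1 →
      (Rel H P η ↔ ∃ r, g.G r ∧ GenFr a r c1 c2 c3) := by
    intro c1 c2 c3 H P η v1 v2 v3
    refine h (H, P, η) _ (gen1_pair_mem g v1.hc.mem (gen1_pair_mem g v2.hc.mem v3.hc.mem)) ?_
    rw [code_prod, code_prod, v1.code hx, v2.code hx, v3.code hx, gen1_pr, gen1_pr]
    rfl
  obtain ⟨r0, hr0, hG0, -, c1, c2, -, hc1, hc2, hD | ⟨n1, n2, l1, l2, h2⟩⟩ := gen_meet .refl ha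
    g.p0_mem (gen_hc_id g) (gen_hi_top g) (gen_hi_top g) g.G_p0 fun q _ => by
      by_cases hd : DDn (GenFr a) q
      · exact ⟨q, le_rfl, ⊤, genId, genId, Or.inl hd⟩
      · unfold DDn at hd
        push Not at hd
        obtain ⟨r, hr, c1, c2, h2⟩ := hd
        exact ⟨r, hr, ⊤, c1, c2, Or.inr h2⟩
  swap
  · obtain ⟨w1, -, v1⟩ := gen_val hx hc1 n1 hG0 l1
    obtain ⟨w2, -, v2⟩ := gen_val hx hc2 n2 hG0 l2
    obtain ⟨η, ⟨c3, v3⟩, h3⟩ := hT ⟨_, v1.cf hx⟩ ⟨_, v2.cf hx⟩ ⟨_, v1⟩ ⟨_, v2⟩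
    obtain ⟨r, hr, h4⟩ := (h1 v1 v2 v3).1 h3
    obtain ⟨r', hr', h5⟩ := v3.valid
    obtain ⟨s, hs, s1, s2⟩ := g.dir _ _ hr hr'
    obtain ⟨t, -, t1, t2⟩ := g.dir _ _ hs hG0
    exact absurd (MemF.mono h4 (t1.trans s1)) (h2 t t2 c3 v3.nice ((t1.trans s2).2.2.trans h5))
  obtain ⟨hα, hC, hβ, hαβ⟩ := (gen_cp a r0).choose_spec hD
  have hI : ∀ n, GenHI g ((gen_cp a r0).choose.1 n) := fun n => by
    obtain ⟨_, -, -, δ, c2, c3, h2, -, -, h3⟩ := gen_meet (.seq n) ha hr0 (gen_hc_id g)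
      (gen_hi_top g) (gen_hi_top g) g.G_p0 fun q _ => ⟨q, le_rfl, _, genId, genId, rfl⟩
    exact (h3 : δ = _) ▸ h2
  have hJ : GenHI g (gen_cp a r0).choose.2 := by
    obtain ⟨_, -, -, δ, c2, c3, h2, -, -, h3⟩ := gen_meet .bnd ha hr0 (gen_hc_id g)
      (gen_hi_top g) (gen_hi_top g) g.G_p0 fun q _ => ⟨q, le_rfl, _, genId, genId, rfl⟩
    exact (h3 : δ = _) ▸ h2
  generalize (gen_cp a r0).choose.1 = α at hα hC hαβ hI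
  generalize (gen_cp a r0).choose.2 = β at hβ hαβ hJ
  refine ⟨⟨fun n => {H | ∃ c, GenVal g x (α n) c H}, fun n => zf (x (α n)), zf (x β),
    fun n H ⟨c, hv⟩ => ⟨c, hv.mono le_top⟩,
    ⟨genId, gen_hc_id g, nice_id _ _, ⟨_, g.G_p0, le_id _⟩, x, .rfl', rfl⟩,
    fun n => (gen_z (hI n) (hC n).1).cf hx, fun n => zf_mono _, (gen_z hJ hβ).cf hx, ?_, ?_, ?_⟩⟩
  · rintro n H ⟨c, hv⟩ m
    obtain ⟨r, hr, h2⟩ := hv.valid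
    obtain ⟨w, hw, rfl⟩ := hv.val
    obtain ⟨q, -, hq, -, -, -, -, -, -, j, hj, h3⟩ := gen_meet (.unb m) ha hr0 hv.hc hJ hJ hr
      fun q hq => by
        obtain ⟨q', h3, h4⟩ := unb_dense hβ (hv.nice.mono (hαβ n)) (hq.2.2.trans h2) m
        exact ⟨q', h3, ⊤, genId, genId, h4⟩
    obtain ⟨v, hv⟩ := hx q hq
    refine ⟨j, hj, (h3 v w (hw.trans hv.symm)).trans ?_⟩
    rw [hv β hβ]
    exact lt_zf _ _
  · rintro n H ⟨c, hv⟩ _ ⟨r, hr, -, rfl⟩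
    obtain ⟨w, hw, rfl⟩ := hv.val
    obtain ⟨-, -, -, -, c', -, -, h2, -, h3, h4, h5⟩ := gen_meet .clos ha hr hv.hc (hI n)
      (hI (n + 1)) g.G_p0 fun q _ => by
        obtain ⟨f, h3⟩ := clos_nice (hα n.lt_succ_self) hv.nice r.inf
        exact ⟨q, le_rfl, ⊤, (c.1, f), genId, rfl, h3⟩
    refine ⟨c'.2 w, ⟨c', h2, h4, h3 ▸ hv.valid, w, h3 ▸ hw, rfl⟩, fun j k hk => h5 w j k ?_⟩
    rwa [hw _ (hC n).1]
  · rintro n H ⟨c, hv⟩ _ ⟨r, hr, -, rfl⟩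
    obtain ⟨r1, hr1, h2⟩ := hv.valid
    obtain ⟨s, hs, s1, s2⟩ := g.dir _ _ hG0 hr1
    obtain ⟨q, -, hq, -, c2, c3, -, hc2, hc3, n2, n3, l2, l3, h3, h4⟩ := gen_meet .key ha hr hv.hc
      (hI n) (hI n) hs fun q hq => by
        obtain ⟨q', h3, c2, c3, h4⟩ := key_dense (Fr := GenFr a)
          (fun _ _ _ _ _ h h' => MemF.mono h h') (hC n)
          (hq.trans s1) hv.nice ((hq.trans s2).2.2.trans h2) r.inf
        exact ⟨q', h3, ⊤, c2, c3, h4⟩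
    obtain ⟨w2, hw2, v2⟩ := gen_val hx hc2 n2 hq l2
    obtain ⟨w3, hw3, v3⟩ := gen_val hx hc3 n3 hq l3
    obtain ⟨v, hv'⟩ := hx q hq
    have h5 := h4 v w2 w3 (hw2.trans hv'.symm) (hw3.trans hv'.symm)
    rw [hv' _ (hC n).1] at h5
    exact ⟨⟨_, v2.cf hx⟩, ⟨_, v3.cf hx⟩, (h1 (hv.mono le_top) v2 v3).2 ⟨q, hq, h3⟩, h5⟩

theorem gen_iface : Nonempty (Iface g.toGen.E) := by
  refine ⟨⟨{H | ∃ c, GenVal g x ⊤ c H}, {B | ∃ r ∈ g.PN, g.G r ∧ r.A = B},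
    ⟨{η | g.toGen.E (CT.code g.toGen.E η) (g.toGen.cl ⟨_, gen_Vf_mem g⟩)}, ⟨_, fun _ => Iff.rfl⟩⟩,
    ⟨{b | g.toGen.E (CT.code g.toGen.E b) (g.toGen.cl ⟨_, gen_S_mem g⟩)}, ⟨_, fun _ => Iff.rfl⟩⟩,
    fun H ⟨c, hv⟩ => hv.cf hx, ?_, ?_, fun A => ?_, fun φ hφ => ?_, gen_ref hx, ?_, ?_, ?_⟩⟩
  · rintro _ ⟨r, -, -, rfl⟩
    exact r.inf
  · rintro _ ⟨r, -, hr, rfl⟩ _ ⟨r', -, hr', rfl⟩
    obtain ⟨s, hs, h1, h2, h3⟩ := gen1_dir g hr hr'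
    exact ⟨_, ⟨s, hs, h1, rfl⟩, h2.1, h3.1⟩
  · obtain ⟨r, h1, h2, h3⟩ := gen_reap A
    exact ⟨_, ⟨r, h1, h2, rfl⟩, h3⟩
  · obtain ⟨c, η, h1, h2⟩ := gen_sparse hx φ hφ
    exact ⟨η, ⟨c, h1⟩, h2⟩
  · rintro η ⟨c, hv⟩
    exact (g.toGen.E_rName (gen_Vf_mem g) _).2 ⟨⟨Dec c, fun k n r r' _ e h => by
      unfold Dec at h ⊢; rwa [← e]⟩, _, trivial, g.G_p0, hv.hc.mem, hv.code hx⟩
  · refine Set.infinite_of_forall_exists_gt fun m => ?_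
    obtain ⟨q, -, hq, -, -, -, -, -, -, b, hb, h⟩ := gen_meet (.encd (m + 1)) g.empty_mem g.p0_mem
      (gen_hc_id g) (gen_hi_top g) (gen_hi_top g) g.G_p0 fun q _ => by
        obtain ⟨q', h1, h2⟩ := enc_dense q (m + 1)
        exact ⟨q', h1, ⊤, genId, genId, h2⟩
    exact ⟨b, (gen_E_S b).2 ⟨q, hq, h⟩, hb⟩
  · rintro P ⟨c, hv⟩ hP η hη hm e m
    obtain ⟨j, hj, h⟩ := gen_sacks hx hv hP η hη hm e m
    exact ⟨j, hj, fun i hi => h i ((gen_E_S i).1 hi)⟩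

omit hx in
theorem exists_model : ∃ (M : Type 1) (E : M → M → Prop) (_ : Fact (IsZFC E)) (_ : CT E ℕ),
    NatE E ∧ (∀ a, Small.{0} {x // E x a}) ∧ Nonempty (Iface E) := by
  obtain ⟨g⟩ := exists_genW (Cond.one II) ((⊤, genId, genId) : II × VC II × VC II) genRN genW
  obtain ⟨x, hx⟩ := gen_x g
  exact ⟨g.toGen.M, g.toGen.E, gen1_zfc g, gen1_ct g, gen1_natE g, gen1_small _, gen_iface hx⟩

end Pool.Agent.B8F
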