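import Pool.Agent.Work.MP_b8a914_gt.F.Gen
import Pool.Agent.Work.MP_b8a914_gt.F.No1
import Pool.Agent.Work.MP_b8a914_gt.F.GU

namespace Pool.Agent.B8F
open Pool.Agent.Lib.ZFModel Pool.Agent.Work.MP_63c7e0_lc Pool.Agent.Work.MP_f50f0f_gt

theorem main : ∃ (M : Type 1) (E : M → M → Prop), IsZFC E ∧
    (∀ R add mul lt z o ρ X τ C π : M, IsReals E R add mul lt z o → IsOrderTop E R lt ρ →
      IsTop E X τ → (∀ f, E f C ↔ IsCont E f X τ R ρ) → IsPw E C X ρ π →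
      IsMengerM E X τ → ¬ FanEmbeds E C π) ∧ GLeR E := by
  obtain ⟨M, E, hE, _, _, hs, ⟨I⟩⟩ := exists_model
  exact ⟨M, E, hE.out, fun _ _ _ _ _ _ _ _ _ _ _ h1 h2 h3 h4 h5 h6 =>
    no_fan I hs h1 h2 h3 h4 h5 h6, g_le_r I hs⟩

end Pool.Agent.B8F
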