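import Pool.Agent.Work.MP_b8a914_gt.F.Gen1
import Pool.Agent.Lib.ZFModel.Generic

-- merged part: Pool.Agent.Work.MP_b8a914_gt.F.ML
section
/-! The master lemma and the fusion lemma. -/

set_option linter.unusedSectionVars false

namespace Pool.Agent.B8F
open Filter Topology Function Set

variable {I : Type} [LinearOrder I] [WellFoundedLT I] [OrderBot I]

def Dn (β : I) (D : Set (RP I)) : Prop := ∀ r, ∃ r' ∈ D, RLe β r' r

def Dh (δ β : I) (m : ℕ) (r : RP I) (D : Set (RP I)) : Set (RP I) :=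
  {r2 | (r2 ∈ D ∧ ∃ m', m ≤ m' ∧ Succ δ β m' r.p r2.p) ∨ ∀ r1, RLe β r1 r2 → ¬ RLe β r1 r}

structure Hull (I : Type) [LinearOrder I] [OrderBot I] where
  a : Set I
  N : Set (RP I)
  DD : Set (Set (RP I))
  o : OP
  ac : a.Countable
  Nc : N.Countable
  Dc : DD.Countable
  univ_mem : univ ∈ DD
  supp : ∀ r ∈ N, Supp a r.p
  dh : ∀ δ ∈ a, ∀ β ∈ a, ∀ m, ∀ r ∈ N, ∀ D ∈ DD, Dh δ β m r D ∈ DD
  gen0 : ∀ D ∈ DD, Dn ⊥ D → ∃ r ∈ D, r ∈ N ∧ OLe r.l o r.toOP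

namespace Hull
variable (H : Hull I)

/-- `D` is met near every point -/
def Met (β : I) (q : Pt I → Pt I) (D : Set (RP I)) : Prop :=
  ∀ u, ∃ r ∈ D, r ∈ H.N ∧ OLe r.l H.o r.toOP ∧ ∀ᶠ u' in 𝓝 u, In β r.p (q u')

structure Gn (β : I) (q : Pt I → Pt I) : Prop where
  mi : IsMi q
  supp : Supp (H.a ∩ Iio β) q
  gen : ∀ D ∈ H.DD, Dn β D → H.Met β q D

structure St (β : I) (q : Pt I → Pt I) (st : Pt I → RP I) : Prop where
  lc : IsLocallyConstant st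
  dep : DepOn (H.a ∩ Iio β) st
  mem : ∀ u, st u ∈ H.N
  ole : ∀ u, OLe (st u).l H.o (st u).toOP
  inn : ∀ u, In β (st u).p (q u)

variable {H}

theorem St.up {β β' : I} {q q' : Pt I → Pt I} {st : Pt I → RP I} (h : H.St β q st)
    (hb : β ≤ β') (h' : ∀ u, In β' (st u).p (q' u)) : H.St β' q' st :=
  ⟨h.lc, h.dep.mono (inter_subset_inter_right _ (Iio_subset_Iio hb)), h.mem, h.ole, h'⟩

theorem stepSel {δ β : I} (hδ : δ ∈ H.a) (hβ : β ∈ H.a) {q : Pt I → Pt I} (hq : H.Gn β q)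
    {st : Pt I → RP I} (hst : H.St β q st) {F : Set (RP I)} (hF : F ∈ H.DD) {mm : Pt I → ℕ}
    (h1 : IsLocallyConstant mm) (h2 : DepOn (H.a ∩ Iio β) mm)
    (hS : ∀ u m r1, RLe β r1 (st u) →
      ∃ r2 ∈ F, RLe β r2 r1 ∧ ∃ m', m ≤ m' ∧ Succ δ β m' (st u).p r2.p) :
    ∃ (st' : Pt I → RP I) (m' : Pt I → ℕ), H.St β q st' ∧ IsLocallyConstant m' ∧
      DepOn (H.a ∩ Iio β) m' ∧
      ∀ u, st' u ∈ F ∧ mm u ≤ m' u ∧ Succ δ β (m' u) (st u).p (st' u).p := by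
  obtain ⟨sel, a, b, c⟩ := lc_sel (s := H.a ∩ Iio β) (H.ac.mono inter_subset_left)
    (N := H.N ×ˢ (univ : Set ℕ)) (H.Nc.prod countable_univ)
    (P := fun u z => z.1 ∈ F ∧ OLe z.1.l H.o z.1.toOP ∧ In β z.1.p (q u) ∧ mm u ≤ z.2 ∧
      Succ δ β z.2 (st u).p z.1.p)
    (fun z hz u v huv => by
      have e := dep_In (H.supp z.1 hz.1) hq.supp u v huv
      simp only at e ⊢
      rw [e, h2 u v huv, hst.dep u v huv])
    (fun u => by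
      obtain ⟨r2, hr2, hN, ho, hev⟩ := hq.gen _ (H.dh δ hδ β hβ (mm u) (st u) (hst.mem u) F hF)
        (fun r1 => by
          by_cases h : ∃ r1', RLe β r1' r1 ∧ RLe β r1' (st u)
          · obtain ⟨r1', h3, h4⟩ := h
            obtain ⟨r2, h5, h6, h7⟩ := hS u (mm u) r1' h4
            exact ⟨r2, Or.inl ⟨h5, h7⟩, h6.trans h3⟩
          · exact ⟨r1, Or.inr fun r1' h3 h4 => h ⟨r1', h3, h4⟩, .rfl'⟩) u
      rcases hr2 with ⟨h3, m', h4, h5⟩ | h3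
      · refine ⟨(r2, m'), ⟨hN, trivial⟩, ?_⟩
        filter_upwards [hev, h1.eventually_eq u, hst.lc.eventually_eq u] with v a b c
        exact ⟨h3, ho, a, b ▸ h4, c ▸ h5⟩
      · obtain ⟨Ψ, hΨ, h4⟩ := exists_box (hev.and (hst.lc.eventually_eq u))
        exact (h3 ⟨H.o, max r2.l (st u).l, q ∘ Ψ, hq.mi.comp hΨ⟩
          ⟨le_max_left _ _, ho, fun v => (h4 v).1⟩
          ⟨le_max_right _ _, hst.ole u, fun v => (h4 v).2 ▸ hst.inn (Ψ v)⟩).elim)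
  exact ⟨fun u => (sel u).1, fun u => (sel u).2,
    ⟨a.comp Prod.fst, fun u v h => congrArg Prod.fst (b u v h), fun u => (c u).1.1,
      fun u => (c u).2.2.1, fun u => (c u).2.2.2.1⟩, a.comp Prod.snd,
    fun u v h => congrArg Prod.snd (b u v h), fun u => ⟨(c u).2.1, (c u).2.2.2.2⟩⟩

variable (H) in
def Pp (δ : I) : Prop :=
  ∀ β ∈ H.a, β ≤ δ → ∀ q st, H.Gn β q → H.St β q st →
    ∃ q', H.Gn δ q' ∧ (∀ u, AgB β (q' u) (q u)) ∧ ∀ u, In δ (st u).p (q' u)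

section Q
variable {δ : I} (hδ : δ ∈ H.a) {Val : I → Set (RP I)} {F : ℕ → I → Set (RP I)}
  (hF : ∀ n β, F n β ⊆ Val β) (hD : ∀ n, ∀ β ∈ H.a, F n β ∈ H.DD)
  (hS : ∀ β β', β ≤ β' → β' < δ → ∀ r ∈ Val β, ∀ n m r1, RLe β r1 r →
    ∃ r2 ∈ F n β', RLe β r2 r1 ∧ ∃ m', m ≤ m' ∧ Succ δ β m' r.p r2.p)
include hδ hF hD hS

theorem kids {β : I} (hβ : β ∈ H.a) (hβδ : β < δ) {q : Pt I → Pt I} (hq : H.Gn β q) (n : ℕ)
    (st : {st : Pt I → RP I // H.St β q st ∧ ∀ u, st u ∈ Val β}) :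
    ∃ (k : ℕ → {st : Pt I → RP I // H.St β q st ∧ ∀ u, st u ∈ Val β}) (m : Pt I → ℕ → ℕ),
      (∀ u, Injective (m u)) ∧
      ∀ j u, (k j).1 u ∈ F n β ∧ Succ δ β (m u j) (st.1 u).p ((k j).1 u).p := by
  have step := fun mm : {mm : Pt I → ℕ // IsLocallyConstant mm ∧ DepOn (H.a ∩ Iio β) mm} =>
    stepSel hδ hβ hq st.2.1 (hD n β hβ) mm.2.1 mm.2.2
      fun u m r1 h => hS β β le_rfl hβδ _ (st.2.2 u) n m r1 h
  choose k m h1 h2 h3 h4 using step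
  let mm : ℕ → {mm : Pt I → ℕ // IsLocallyConstant mm ∧ DepOn (H.a ∩ Iio β) mm} := fun j =>
    Nat.rec ⟨fun _ => 0, IsLocallyConstant.const 0, fun _ _ _ => rfl⟩
      (fun _ x => ⟨fun u => m x u + 1, (h2 x).comp (· + 1),
        fun u v h => congrArg (· + 1) (h3 x u v h)⟩) j
  exact ⟨fun j => ⟨k (mm j), h1 _, fun u => hF n β (h4 _ u).1⟩, fun u j => m (mm j) u,
    fun u => (strictMono_nat_of_lt_succ fun j => (h4 (mm (j + 1)) u).2.1).injective,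
    fun j u => ⟨(h4 _ u).1, (h4 _ u).2.2⟩⟩

theorem succ_case {β : I} (hβ : β ∈ H.a) (hβδ : β < δ) (hmax : ∀ γ ∈ H.a, γ < δ → γ ≤ β)
    {q : Pt I → Pt I} (hq : H.Gn β q) {st : Pt I → RP I} (hst : H.St β q st)
    (hV : ∀ u, st u ∈ Val β) :
    ∃ q', IsMi q' ∧ Supp (H.a ∩ Iio δ) q' ∧ (∀ u, AgB β (q' u) (q u)) ∧
      (∀ u, In δ (st u).p (q' u)) ∧ ∀ n, H.Met δ q' {r | ∃ β', r ∈ F n β'} := by
  classical
  choose k m h1 h2 using kids hδ hF hD hS hβ hβδ hq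
  let nd : (ℕ → ℕ) → ℕ → {st : Pt I → RP I // H.St β q st ∧ ∀ u, st u ∈ Val β} := fun x n =>
    Nat.rec ⟨st, hst, hV⟩ (fun n s => k n s (x n)) n
  have hag : ∀ x x' n, Ag n x x' → nd x n = nd x' n := fun x x' n => by
    induction n with
    | zero => exact fun _ => rfl
    | succ n ih =>
      intro h
      show k n (nd x n) (x n) = k n (nd x' n) (x' n)
      rw [ih (h.mono n.le_succ), h n n.lt_succ_self]
  obtain ⟨q', a, b, c, d⟩ := miller hq.mi H.ac hβ hq.supp (fun x n u => ((nd x n).1 u).p)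
    (fun x n => m n (nd x n)) (fun x x' n h => by rw [hag x x' n h]; exact ⟨rfl, rfl⟩)
    (fun x n => (nd x n).2.1.lc.comp RP.p)
    (fun x n u v h => congrArg RP.p ((nd x n).2.1.dep u v h)) (fun x n u => ((nd x n).1 u).mi)
    (fun x n u => H.supp _ ((nd x n).2.1.mem u)) (fun x n u => (nd x n).2.1.inn u)
    (fun x n u => h1 n _ u) (fun x n u v => by
      obtain ⟨w, h3, h4⟩ := (h2 n (nd x n) (x n) u).2 v
      exact ⟨w, h3.mono hβδ.le, h3 β hβδ, h4⟩)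
  have hin : ∀ u n, In δ ((nd (u β) n).1 u).p (q' u) := fun u n => by
    obtain ⟨w, h3, h4⟩ := d u n
    refine ⟨fun γ => if γ ≤ β then w γ else u γ, fun γ hγ => ?_⟩
    by_cases h5 : γ ≤ β
    · rw [((nd (u β) n).1 u).mi.proj γ _ w fun γ' h' => if_pos (h'.trans h5)]
      rcases h5.lt_or_eq with h6 | rfl
      · rw [h3 γ h6, c u γ h6.ne]
      · exact h4
    · have h6 : γ ∉ H.a := fun h => h5 (hmax γ h hγ)
      rw [(H.supp _ ((nd (u β) n).2.1.mem u)).1 _ γ h6, if_neg h5,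
        c u γ (fun h => h5 h.le), hq.supp.1 u γ fun h => h6 h.1]
  refine ⟨q', a, b.mono (insert_subset ⟨hβ, hβδ⟩
    (inter_subset_inter_right _ (Iio_subset_Iio hβδ.le))), fun u γ hγ => c u γ hγ.ne,
    fun u => hin u 0, fun n u => ⟨(nd (u β) (n + 1)).1 u, ⟨β, (h2 n _ _ u).1⟩,
      (nd (u β) (n + 1)).2.1.mem u, (nd (u β) (n + 1)).2.1.ole u, ?_⟩⟩
  filter_upwards [(nd (u β) (n + 1)).2.1.lc.eventually_eq u, ev_box u {β} (n + 1)] with v h3 h4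
  have := hin v (n + 1)
  rwa [hag _ _ _ (h4 β (Finset.mem_singleton_self β)), h3] at this

theorem step_up {β β' : I} (hβ : β ∈ H.a) (hβ' : β' ∈ H.a) (h1 : β ≤ β') (h2 : β' < δ)
    (hP : H.Pp β') (n : ℕ) {q : Pt I → Pt I} (hq : H.Gn β q) {st : Pt I → RP I}
    (hst : H.St β q st) (hV : ∀ u, st u ∈ Val β) :
    ∃ q' st', H.Gn β' q' ∧ H.St β' q' st' ∧ (∀ u, AgB β (q' u) (q u)) ∧
      ∀ u, st' u ∈ F n β' ∧ Le δ (st' u).p (st u).p := by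
  obtain ⟨st', m, a, -, -, b⟩ := stepSel hδ hβ hq hst (hD n β' hβ') (IsLocallyConstant.const 0)
    (fun _ _ _ => rfl) fun u m r1 h => hS β β' h1 h2 _ (hV u) n m r1 h
  obtain ⟨q', c, d, e⟩ := hP β hβ h1 q st' hq a
  exact ⟨q', st', c, a.up h1 e, d, fun u => ⟨(b u).1, (b u).2.2.le⟩⟩

theorem q_step (hP : ∀ β ∈ H.a, β < δ → H.Pp β) {β : I} (hβ : β ∈ H.a) (hβδ : β < δ)
    {q : Pt I → Pt I} (hq : H.Gn β q) {st : Pt I → RP I} (hst : H.St β q st)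
    (hV : ∀ u, st u ∈ Val β) :
    ∃ q', IsMi q' ∧ Supp (H.a ∩ Iio δ) q' ∧ (∀ u, AgB β (q' u) (q u)) ∧
      (∀ u, In δ (st u).p (q' u)) ∧ ∀ n, H.Met δ q' {r | ∃ β', r ∈ F n β'} := by
  by_cases hmax : ∃ β' ∈ H.a ∩ Iio δ, ∀ γ ∈ H.a ∩ Iio δ, γ ≤ β'
  · obtain ⟨β', h1, h2⟩ := hmax
    have h3 := h2 β ⟨hβ, hβδ⟩
    obtain ⟨q1, st1, a, b, c, d⟩ := step_up hδ hF hD hS hβ h1.1 h3 h1.2 (hP _ h1.1 h1.2) 0 hq
      hst hV
    obtain ⟨q', e1, e2, e3, e4, e5⟩ := succ_case hδ hF hD hS h1.1 h1.2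
      (fun γ x y => h2 γ ⟨x, y⟩) a b fun u => hF _ _ (d u).1
    exact ⟨q', e1, e2, fun u => ((e3 u).mono h3).trans (c u), fun u => (e4 u).le (d u).2, e5⟩
  push Not at hmax
  obtain ⟨b, rfl, hb, hm, hc⟩ := exists_cofinal_seq (H.ac.mono inter_subset_left)
    (⟨hβ, hβδ⟩ : β ∈ H.a ∩ Iio δ) hmax
  let T : ℕ → Type := fun k => {z : (Pt I → Pt I) × (Pt I → RP I) //
    H.Gn (b k) z.1 ∧ H.St (b k) z.1 z.2 ∧ ∀ u, z.2 u ∈ Val (b k)}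
  have step : ∀ k (z : T k), ∃ z' : T (k + 1), (∀ u, AgB (b k) (z'.1.1 u) (z.1.1 u)) ∧
      ∀ u, z'.1.2 u ∈ F k (b (k + 1)) ∧ Le δ (z'.1.2 u).p (z.1.2 u).p := fun k z => by
    obtain ⟨q', st', a1, a2, a3, a4⟩ := step_up hδ hF hD hS (hm k).1 (hm (k + 1)).1
      (hb k.le_succ) (hm (k + 1)).2 (hP _ (hm _).1 (hm _).2) k z.2.1 z.2.2.1 z.2.2.2
    exact ⟨⟨(q', st'), a1, a2, fun u => hF _ _ (a4 u).1⟩, a3, a4⟩
  choose nx h1 h2 using step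
  let z : ∀ k, T k := fun k => Nat.rec ⟨(q, st), hq, hst, hV⟩ nx k
  have hc' : ∀ γ ∈ H.a, γ < δ → ∃ k, γ < b k := fun γ x y => hc γ ⟨x, y⟩
  obtain ⟨q', e1, e2, e3⟩ := exists_union_mi H.ac hb (fun k => le_of_lt (hm k).2) hc'
    (q := fun k => (z k).1.1) (fun k => (z k).2.1.mi) (fun k => (z k).2.1.supp)
    fun k => h1 k (z k)
  have hle : ∀ n k, n ≤ k → ∀ u, Le δ ((z k).1.2 u).p ((z n).1.2 u).p := by
    intro n k h u
    induction h with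
    | refl => exact .rfl'
    | step _ ih => exact (h2 _ (z _) u).2.trans ih
  have hin : ∀ n u, In δ ((z n).1.2 u).p (q' u) := fun n u =>
    in_limit ((z n).1.2 u).mi (H.supp _ ((z n).2.2.1.mem u)) (b := b) (fun k =>
      ((((z (max n k)).2.2.1.inn u).congr (e3 _ u).symm).le
        ((hle n _ (le_max_left _ _) u).mono (le_of_lt (hm _).2))).mono (hb (le_max_right _ _))) hc'
  refine ⟨q', e1, e2, e3 0, hin 0, fun n u => ⟨(z (n + 1)).1.2 u, ⟨_, (h2 n (z n) u).1⟩,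
    (z (n + 1)).2.2.1.mem u, (z (n + 1)).2.2.1.ole u, ?_⟩⟩
  filter_upwards [(z (n + 1)).2.2.1.lc.eventually_eq u] with v h3
  exact h3 ▸ hin (n + 1) v

end Q

theorem pp (δ : I) : δ ∈ H.a → H.Pp δ := by
  induction δ using WellFoundedLT.induction with
  | _ δ ih =>
    intro hδ β hβ hβδ q st hq hst
    rcases hβδ.lt_or_eq with h | rfl
    swap
    · exact ⟨q, hq, fun _ => .rfl', hst.inn⟩
    obtain ⟨e, he⟩ := (H.Dc.mono (s₁ := {D | D ∈ H.DD ∧ Dn δ D}) fun _ h => h.1).exists_eq_range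
      ⟨univ, H.univ_mem, fun r => ⟨r, trivial, .rfl'⟩⟩
    have h1 : ∀ n, e n ∈ H.DD ∧ Dn δ (e n) := fun n =>
      (he ▸ mem_range_self n : e n ∈ {D | D ∈ H.DD ∧ Dn δ D})
    obtain ⟨q', a, b, c, d, f⟩ := q_step hδ (Val := fun _ => univ) (F := fun n _ => e n)
      (fun _ _ => subset_univ _) (fun n _ _ => (h1 n).1) (fun β β' x y r _ n m r1 h2 => by
        obtain ⟨p', h3, h4, h5⟩ := exists_succ (δ := δ) r1.mi r.mi h2.2.2 m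
        obtain ⟨r2, h6, h7⟩ := (h1 n).2 ⟨r1.toOP, r1.l, p', h3⟩
        exact ⟨r2, h6, (h7.mono (x.trans y.le)).trans ⟨le_rfl, .rfl', h4⟩, m, le_rfl,
          h5.of_le h7.2.2⟩) (fun β x y => ih β y x) hβ h hq hst fun _ => trivial
    refine ⟨q', ⟨a, b, fun D h2 h3 u => ?_⟩, c, d⟩
    obtain ⟨n, rfl⟩ : D ∈ range e := he ▸ (⟨h2, h3⟩ : D ∈ {D | D ∈ H.DD ∧ Dn δ D})
    obtain ⟨r, ⟨_, h4⟩, h5⟩ := f n u
    exact ⟨r, h4, h5⟩

end Hull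

theorem fusion_seq (N : Set (RP I)) {r0 : RP I} (h0 : r0 ∈ N) (D : ℕ → Set (RP I))
    (h : ∀ n, ∀ r ∈ N, ∃ r' ∈ N, r' ∈ D n ∧ RLe ⊥ r' r)
    (hab : ∀ n, ∀ r ∈ N, ∃ r' ∈ N, Absorb n r'.toOP r'.l ∧ RLe ⊥ r' r) :
    ∃ o, OLe r0.l o r0.toOP ∧ ∀ n, ∃ r ∈ N, r ∈ D n ∧ OLe r.l o r.toOP := by
  have step : ∀ n (r : N), ∃ r' : N, (∃ r1 ∈ N, r1 ∈ D n ∧ RLe ⊥ r'.1 r1) ∧
      Absorb n r'.1.toOP r'.1.l ∧ RLe ⊥ r'.1 r.1 := fun n r => by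
    obtain ⟨r1, a, b, c⟩ := h n r.1 r.2
    obtain ⟨r2, d, e, f⟩ := hab n r1 a
    exact ⟨⟨r2, d⟩, ⟨r1, a, b, f⟩, e, f.trans c⟩
  choose nx h1 h2 h3 using step
  let r : ℕ → N := fun n => Nat.rec ⟨r0, h0⟩ nx n
  obtain ⟨o, ho⟩ := fusion (fun n => (r n).1.toOP) (fun n => (r n).1.l)
    (monotone_nat_of_le_succ fun n => (h3 n (r n)).1) (fun n => (h3 n (r n)).2.1)
    fun n => ⟨n + 1, h2 n (r n)⟩
  refine ⟨o, ho 0, fun n => ?_⟩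
  obtain ⟨r1, a, b, c⟩ := h1 n (r n)
  exact ⟨r1, a, b, ((ho (n + 1)).mono c.1).trans c.2.1⟩

theorem dn_absorb (β : I) (n : ℕ) : Dn β {r : RP I | Absorb n r.toOP r.l} := fun r =>
  let ⟨l, h1, h2⟩ := exists_absorb n r.toOP r.l
  ⟨⟨r.toOP, l, r.p, r.mi⟩, h2, h1, .rfl', .rfl'⟩

theorem exists_hull' (δ : I) (F : ℕ → I → Set (RP I)) (r0 : RP I) :
    ∃ H : Hull I, δ ∈ H.a ∧ ⊥ ∈ H.a ∧ r0 ∈ H.N ∧ OLe r0.l H.o r0.toOP ∧
      ∀ n, ∀ β ∈ H.a, F n β ∈ H.DD := by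
  let X := I ⊕ RP I ⊕ Set (RP I)
  have hsp : ∀ r : RP I, ∃ e : ℕ → I, Supp (range e) r.p := fun r => by
    obtain ⟨s, hs, h⟩ := r.mi.supp
    obtain ⟨e, he⟩ := (hs.insert δ).exists_eq_range (insert_nonempty _ _)
    exact ⟨e, he ▸ h.mono (subset_insert _ _)⟩
  choose e he using hsp
  let Rel : ℕ × ℕ → List X → X → Prop := fun k l x =>
    match k.1 with
    | 0 => x = .inl δ
    | 1 => x = .inl ⊥
    | 2 => x = .inr (.inl r0)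
    | 3 => x = .inr (.inr univ)
    | 4 => x = .inr (.inr {r | Absorb k.2 r.toOP r.l})
    | 5 => ∃ β, l = [.inl β] ∧ x = .inr (.inr (F k.2 β))
    | 6 => ∃ r, l = [.inr (.inl r)] ∧ x = .inl (e r k.2)
    | 7 => ∃ δ' β r D, l = [.inl δ', .inl β, .inr (.inl r), .inr (.inr D)] ∧
        x = .inr (.inr (Dh δ' β k.2 r D))
    | _ => ∃ r D r', l = [.inr (.inl r), .inr (.inr D)] ∧ x = .inr (.inl r') ∧ r' ∈ D ∧
        RLe ⊥ r' r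
  obtain ⟨H, hH, -, hcl⟩ := Pool.Agent.Lib.ZFModel.exists_hull (X := X) (fun _ => True) Rel
  have c0 : ∀ k l x, (∀ y ∈ l, y ∈ H) → Rel k l x → (∀ y, Rel k l y → y = x) → x ∈ H :=
    fun k l x h1 h2 h3 => by
      obtain ⟨y, hy, h⟩ := hcl k l h1 ⟨x, trivial, h2⟩
      exact h3 y h ▸ hy
  let N : Set (RP I) := {r | (.inr (.inl r) : X) ∈ H}
  let DD : Set (Set (RP I)) := {D | (.inr (.inr D) : X) ∈ H}
  have hDD : DD.Countable := hH.preimage_of_injOn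
    (f := fun D => (.inr (.inr D) : X)) fun _ _ _ _ h => by cases h; rfl
  have hr0 : r0 ∈ N := c0 (2, 0) [] _ (by simp) rfl fun _ h => h
  have hu : univ ∈ DD := c0 (3, 0) [] _ (by simp) rfl fun _ h => h
  have hm : ∀ D ∈ DD, Dn ⊥ D → ∀ r ∈ N, ∃ r' ∈ N, r' ∈ D ∧ RLe ⊥ r' r := fun D h1 h2 r h3 => by
    obtain ⟨r', h4, h5⟩ := h2 r
    obtain ⟨y, hy, r1, D1, r2, h6, rfl, h7⟩ := hcl (8, 0) [.inr (.inl r), .inr (.inr D)]
      (by simpa using ⟨h3, h1⟩) ⟨_, trivial, r, D, r', rfl, rfl, h4, h5⟩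
    cases h6
    exact ⟨r2, hy, h7⟩
  obtain ⟨d, hd⟩ := (hDD.mono (s₁ := {D | D ∈ DD ∧ Dn ⊥ D}) fun _ h => h.1).exists_eq_range
    ⟨univ, hu, fun r => ⟨r, trivial, .rfl'⟩⟩
  have h1 : ∀ n, d n ∈ DD ∧ Dn ⊥ (d n) := fun n =>
    (hd ▸ mem_range_self n : d n ∈ {D | D ∈ DD ∧ Dn ⊥ D})
  obtain ⟨o, ho, ho'⟩ := fusion_seq N hr0 d (fun n => hm _ (h1 n).1 (h1 n).2) fun n =>
    hm _ (c0 (4, n) [] _ (by simp) rfl fun _ h => h) (dn_absorb ⊥ n)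
  refine ⟨⟨{β | (.inl β : X) ∈ H}, N, DD, o,
    hH.preimage_of_injOn (f := fun β => (.inl β : X)) fun _ _ _ _ h => by cases h; rfl,
    hH.preimage_of_injOn (f := fun r => (.inr (.inl r) : X)) fun _ _ _ _ h => by cases h; rfl,
    hDD, hu, fun r hr => (he r).mono ?_, fun δ' a β b m r c D f => ?_, fun D a b => ?_⟩,
    c0 (0, 0) [] _ (by simp) rfl fun _ h => h, c0 (1, 0) [] _ (by simp) rfl fun _ h => h,
    hr0, ho, fun n β hβ => ?_⟩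
  · rintro _ ⟨n, rfl⟩
    refine c0 (6, n) [.inr (.inl r)] _ (by simpa [N] using hr) ⟨r, rfl, rfl⟩ ?_
    rintro y ⟨r', h, rfl⟩
    cases h; rfl
  · refine c0 (7, m) [.inl δ', .inl β, .inr (.inl r), .inr (.inr D)] _
      (by simpa using ⟨a, b, c, f⟩) ⟨δ', β, r, D, rfl, rfl⟩ ?_
    rintro y ⟨_, _, _, _, h, rfl⟩
    cases h; rfl
  · obtain ⟨n, rfl⟩ : D ∈ range d := hd ▸ (⟨a, b⟩ : D ∈ {D | D ∈ DD ∧ Dn ⊥ D})
    obtain ⟨r, h2, h3, h4⟩ := ho' n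
    exact ⟨r, h3, h2, h4⟩
  · refine c0 (5, n) [.inl β] _ (by simpa using hβ) ⟨β, rfl, rfl⟩ ?_
    rintro y ⟨_, h, rfl⟩
    cases h; rfl

theorem master {δ : I} (hδ : ⊥ < δ) (Val : I → Set (RP I)) (F : ℕ → I → Set (RP I))
    (hF : ∀ n β, F n β ⊆ Val β) (r0 : RP I) (h0 : r0 ∈ Val ⊥)
    (hS : ∀ β β', β ≤ β' → β' < δ → ∀ r ∈ Val β, ∀ n m r1, RLe β r1 r →
      ∃ r2 ∈ F n β', RLe β r2 r1 ∧ ∃ m', m ≤ m' ∧ Succ δ β m' r.p r2.p) :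
    ∃ (o : OP) (q : Pt I → Pt I), OLe r0.l o r0.toOP ∧ IsMi q ∧
      (∃ s : Set I, s.Countable ∧ s ⊆ Iio δ ∧ Supp s q) ∧ Le δ q r0.p ∧
      ∀ n, Good δ o q {r | ∃ β', r ∈ F n β'} := by
  obtain ⟨H, h1, h2, h3, h4, h5⟩ := exists_hull' δ F r0
  have hb : ∀ (p : Pt I → Pt I) x, In ⊥ p x := fun p x => ⟨x, fun _ h => absurd h not_lt_bot⟩
  obtain ⟨q, a, b, -, c, d⟩ := Hull.q_step h1 hF h5 hS (fun β x _ => Hull.pp β x) h2 hδ (q := id)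
    ⟨isMi_id, ⟨fun _ _ _ => rfl, fun _ _ h => h⟩, fun D x y u =>
      let ⟨r, e, f, g⟩ := H.gen0 D x y; ⟨r, e, f, g, .of_forall fun _ => hb _ _⟩⟩
    (st := fun _ => r0) ⟨.const _, fun _ _ _ => rfl, fun _ => h3, fun _ => h4, fun _ => hb _ _⟩
    fun _ => h0
  have hs := H.ac.mono (inter_subset_left (t := Iio δ))
  refine ⟨H.o, q, h4, a, ⟨_, hs, inter_subset_right, b⟩, c, fun n => ?_⟩
  obtain ⟨sel, e, f, g⟩ := lc_sel hs H.Nc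
    (P := fun u r => (∃ β', r ∈ F n β') ∧ OLe r.l H.o r.toOP ∧ In δ r.p (q u))
    (fun r hr u v huv => by
      have e := dep_In (H.supp r hr) b u v huv
      simp only at e ⊢
      rw [e])
    fun u => let ⟨r, x, y, z, w⟩ := d n u; ⟨r, y, w.mono fun _ h => ⟨x, z, h⟩⟩
  exact ⟨sel, e, ⟨_, hs, inter_subset_right, f⟩, fun u => (g u).2⟩

theorem FL (δ : I) (r0 : RP I) (D : ℕ → Set (RP I))
    (hD : ∀ n r, RLe δ r r0 → ∃ r' ∈ D n, RLe δ r' r) :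
    ∃ (o : OP) (q : Pt I → Pt I), OLe r0.l o r0.toOP ∧ IsMi q ∧
      (∃ s : Set I, s.Countable ∧ s ⊆ Iio δ ∧ Supp s q) ∧ Le δ q r0.p ∧
      ∀ n, Good δ o q (D n) := by
  rcases (bot_le : ⊥ ≤ δ).lt_or_eq with hδ | rfl
  · obtain ⟨o, q, a, b, c, d, e⟩ := master hδ (fun _ => {r | RLe δ r r0})
      (fun n _ => D n ∩ {r | RLe δ r r0}) (fun _ _ => inter_subset_right) r0 RLe.rfl'
      fun β β' x y r hr n m r1 h2 => by
        obtain ⟨p', h3, h4, h5⟩ := exists_succ (δ := δ) r1.mi r.mi h2.2.2 m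
        have h6 : RLe δ ⟨r1.toOP, r1.l, p', h3⟩ r0 :=
          RLe.trans (r' := r) ⟨h2.1, h2.2.1, h5.le⟩ hr
        obtain ⟨r2, h7, h8⟩ := hD n _ h6
        exact ⟨r2, ⟨h7, h8.trans h6⟩, (h8.mono (x.trans y.le)).trans ⟨le_rfl, .rfl', h4⟩, m,
          le_rfl, h5.of_le h8.2.2⟩
    refine ⟨o, q, a, b, c, d, fun n => ?_⟩
    obtain ⟨sel, f, g, h⟩ := e n
    exact ⟨sel, f, g, fun u => ⟨(h u).1.choose_spec.1, (h u).2⟩⟩
  · have hb : ∀ (p : Pt I → Pt I) x, In ⊥ p x := fun p x => ⟨x, fun _ h => absurd h not_lt_bot⟩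
    obtain ⟨o, a, b⟩ := fusion_seq {r | RLe ⊥ r r0} RLe.rfl' D
      (fun n r hr => let ⟨r', x, y⟩ := hD n r hr; ⟨r', y.trans hr, x, y⟩)
      fun n r hr => let ⟨r', x, y⟩ := dn_absorb ⊥ n r; ⟨r', y.trans hr, x, y⟩
    refine ⟨o, id, a, isMi_id, ⟨∅, countable_empty, empty_subset _, fun _ _ _ => rfl,
      fun _ _ _ _ h => h.elim⟩, fun _ => hb _ _, fun n => ?_⟩
    obtain ⟨r, -, c, d⟩ := b n
    exact ⟨fun _ => r, .const _, ⟨∅, countable_empty, empty_subset _, fun _ _ _ => rfl⟩,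
      fun _ => ⟨c, d, hb _ _⟩⟩

end Pool.Agent.B8F
end

-- merged part: Pool.Agent.Work.MP_b8a914_gt.F.RT
section
/-! The Ramsey property of the product. -/

set_option linter.unusedSectionVars false

namespace Pool.Agent.B8F
open Set Filter Topology Function

variable {I : Type} [LinearOrder I] [WellFoundedLT I] [OrderBot I]

/-- the Ramsey property below `δ` -/
def RTp (δ : I) : Prop :=
  ∀ f : Pt I → Cn → ℕ → Bool, (∀ a, Continuous fun z : Pt I × Cn => f z.1 z.2 a) →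
    (∀ u v, AgB δ u v → f u = f v) → ∀ o : OP,
    ∃ Ψ, IsMi Ψ ∧ ∃ o' : OP, o'.A ⊆ o.A ∧ o'.K ⊆ o.K ∧
      ∃ ε, ∀ v, ∀ y ∈ o'.K, ∀ a ∈ o'.A, f (Ψ v) y a = ε

/-- continuous colourings that depend on the coordinates below `δ` -/
structure RTCol (δ : I) (f : Pt I → Cn → ℕ → Bool) : Prop where
  cont : ∀ a, Continuous fun z : Pt I × Cn => f z.1 z.2 a
  dep : ∀ u v, AgB δ u v → f u = f v

theorem RT_nhds {y0 : Cn} {P : Cn → Prop} (h : ∀ᶠ y in 𝓝 y0, P y) :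
    ∃ n, ∀ y, Ag n y y0 → P y := by
  by_contra hc
  push Not at hc
  choose y h1 h2 using hc
  have ht : Tendsto y atTop (𝓝 y0) := by
    simp only [tendsto_pi_nhds, nhds_discrete, tendsto_pure]
    intro i
    filter_upwards [eventually_gt_atTop i] with n hn using h1 n i hn
  obtain ⟨n, hn⟩ := (ht.eventually h).exists
  exact h2 n hn

theorem RT_cont_lc {X Y Z W : Type} [TopologicalSpace X] [TopologicalSpace Y]
    [TopologicalSpace W] {s : X → Z} (hs : IsLocallyConstant s) {g : Z → X × Y → W}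
    (hg : ∀ z, Continuous (g z)) : Continuous fun x : X × Y => g (s x.1) x := by
  refine continuous_iff_continuousAt.2 fun x => (hg (s x.1)).continuousAt.congr ?_
  filter_upwards [(hs.comp_continuous continuous_fst).eventually_eq x] with x' h
  exact congrArg (fun z => g z x') h.symm

theorem RTCol.comp {δ : I} {f : Pt I → Cn → ℕ → Bool} (hf : RTCol δ f) {θ : Pt I → Pt I}
    (h1 : Continuous θ) (h2 : ∀ u v, AgB δ u v → AgB δ (θ u) (θ v)) :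
    RTCol δ fun u => f (θ u) :=
  ⟨fun a => (hf.cont a).comp (h1.prodMap continuous_id), fun u v h => hf.dep _ _ (h2 u v h)⟩

theorem RT_inf_ge {A : Set ℕ} (h : A.Infinite) (l : ℕ) : {a | a ∈ A ∧ l ≤ a}.Infinite :=
  (h.sdiff (finite_lt_nat l)).mono fun _ ha => ⟨ha.1, not_lt.1 ha.2⟩

/-- finitely many colours become constant on ranges and pieces -/
theorem RT_lc {δ : I} {f : Pt I → Cn → ℕ → Bool} (hf : RTCol δ f) (m : ℕ) {p : Pt I → Pt I}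
    (hp : IsMi p) {K : Set Cn} (hK : Perf K) (l : ℕ) :
    ∃ p', IsMi p' ∧ Le δ p' p ∧ ∃ K', Perf K' ∧ KLe l K' K ∧
      ∀ a < m, ∀ v v', ∀ y ∈ K', ∀ y' ∈ K', Ag l y y' → f (p' v) y a = f (p' v') y' a := by
  obtain ⟨z, h1, K', h2, h3, h4⟩ := pw (Z := {p : Pt I → Pt I // IsMi p})
    (fun a b => Le δ a.1 b.1) (fun _ => .rfl') (fun _ _ _ h h' => h.trans h')
    (fun z L => ∀ a < m, ∀ v v', ∀ y ∈ L, ∀ y' ∈ L, f (z.1 v) y a = f (z.1 v') y' a)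
    (fun z z' L h hz a ha v v' y hy y' hy' => by
      obtain ⟨w, hw⟩ := hz v
      obtain ⟨w', hw'⟩ := hz v'
      rw [← hf.dep _ _ hw, ← hf.dep _ _ hw']
      exact h a ha w w' y hy y' hy') ⟨p, hp⟩ hK (fun z _ L hL _ => by
      obtain ⟨y0, hy0⟩ := hL.1
      let v0 : Pt I := fun _ _ => 0
      have hc := hf.comp z.2.cont fun _ _ => z.2.agB
      have h0 : ∀ᶠ x : Pt I × Cn in 𝓝 (v0, y0), ∀ a ∈ {a | a < m},
          f (z.1 x.1) x.2 a = f (z.1 v0) y0 a :=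
        (eventually_all_finite (finite_lt_nat m)).2 fun a _ =>
          ((IsLocallyConstant.iff_continuous _).2 (hc.cont a)).eventually_eq (v0, y0)
      rw [nhds_prod_eq, eventually_prod_iff] at h0
      obtain ⟨pa, h1, pb, h2, h3⟩ := h0
      obtain ⟨Ψ, hΨ, h4⟩ := exists_box h1
      obtain ⟨n, h5⟩ := RT_nhds h2
      refine ⟨⟨z.1 ∘ Ψ, z.2.comp hΨ⟩, le_comp _ _, piece L n y0, hL.piece n hy0, piece_sub _ _ _,
        fun a ha v v' y hy y' hy' => ?_⟩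
      exact (h3 (h4 v) (h5 y hy.2) a ha).trans (h3 (h4 v') (h5 y' hy'.2) a ha).symm) l
  exact ⟨z.1, z.2, h1, K', h2, h3, fun a ha v v' y hy y' hy' h =>
    h4 y' hy' a ha v v' y ⟨hy, h⟩ y' ⟨hy', .rfl'⟩⟩

/-- the Ramsey property on all pieces -/
theorem RT_pw {β : I} (hβ : RTp β) {g : Pt I → Cn → ℕ → Bool} (hg : RTCol β g)
    {q p : Pt I → Pt I} (hq : IsMi q) (hp : IsMi p) (hpq : Le β p q) {A : Set ℕ}
    (hA : A.Infinite) {K : Set Cn} (hK : Perf K) (l : ℕ) :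
    ∃ A', A'.Infinite ∧ A' ⊆ A ∧ ∃ p', IsMi p' ∧ Le β p' p ∧ ∃ K', Perf K' ∧ KLe l K' K ∧
      ∀ m ∈ A', ∀ m' ∈ A', ∀ u u', In β p' (q u) → In β p' (q u') →
        ∀ y ∈ K', ∀ y' ∈ K', Ag l y y' → g u y m = g u' y' m' := by
  obtain ⟨z, h1, K', h2, h3, h4⟩ := pw
    (Z := {A : Set ℕ // A.Infinite} × {p : Pt I → Pt I // IsMi p})
    (fun a b => a.1.1 ⊆ b.1.1 ∧ Le β a.2.1 b.2.1) (fun _ => ⟨Subset.rfl, .rfl'⟩)
    (fun _ _ _ h h' => ⟨h.1.trans h'.1, h.2.trans h'.2⟩)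
    (fun z L => ∀ m ∈ z.1.1, ∀ m' ∈ z.1.1, ∀ u u', In β z.2.1 (q u) → In β z.2.1 (q u') →
      ∀ y ∈ L, ∀ y' ∈ L, g u y m = g u' y' m')
    (fun z z' L h hz m hm m' hm' u u' hu hu' =>
      h m (hz.1 hm) m' (hz.1 hm') u u' (hu.le hz.2) (hu'.le hz.2))
    (⟨A, hA⟩, ⟨p, hp⟩) hK (fun z hz L hL _ => by
      have hle : Le β z.2.1 q := hz.2.trans hpq
      have hc := hg.comp (fac_cont z.2.2 hq hle) fun _ _ => fac_agB z.2.2 hq hle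
      obtain ⟨Ψ, hΨ, o', a1, a2, ε, a3⟩ := hβ _ hc.cont hc.dep ⟨z.1.1, L, z.1.2, hL⟩
      have key : ∀ m ∈ o'.A, ∀ u, In β (z.2.1 ∘ Ψ) (q u) → ∀ y ∈ o'.K, g u y m = ε := by
        rintro m hm u ⟨w, hw⟩ y hy
        rw [← hg.dep _ _ (hq.inj ((fac_spec hq hle (Ψ w)).trans hw))]
        exact a3 w y hy m hm
      exact ⟨(⟨o'.A, o'.inf⟩, ⟨z.2.1 ∘ Ψ, z.2.2.comp hΨ⟩), ⟨a1, le_comp _ _⟩, o'.K, o'.perf, a2,
        fun m hm m' hm' u u' hu hu' y hy y' hy' =>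
          (key m hm u hu y hy).trans (key m' hm' u' hu' y' hy').symm⟩) l
  exact ⟨z.1.1, z.1.2, h1.1, z.2.1, z.2.2, h1.2, K', h2, h3,
    fun m hm m' hm' u u' hu hu' y hy y' hy' h =>
      h4 y' hy' m hm m' hm' u u' hu hu' y ⟨hy, h⟩ y' ⟨hy', .rfl'⟩⟩

theorem RT_succ_glue {δ β : I} (hb : β ≤ δ) {p q p2 : Pt I → Pt I} (hq : IsMi q) (hp : IsMi p)
    (h : Le β q p) {m : ℕ} (hs : Succ δ β m p p2) (h2 : Le β p2 (p ∘ fac β q p)) :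
    Succ δ β m (p ∘ fac β q p) p2 := fun v => by
  classical
  obtain ⟨w0, a1, a2⟩ := hs v
  obtain ⟨w1, a3⟩ := h2 v
  have a4 : AgB β (fac β q p w1) w0 := hp.inj (a3.trans (a1.mono hb).symm)
  let w : Pt I := fun γ => if γ < β then w1 γ else w0 γ
  have a5 : fac β q p w = w0 := funext fun γ => by
    by_cases hγ : γ < β
    · exact ((fac_agB hq hp h (β' := β) (u := w) (v := w1) fun _ a => if_pos a).trans a4) γ hγ
    · rw [fac_ge _ _ _ (not_lt.1 hγ)]; exact if_neg hγ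
  refine ⟨w, by rw [comp, a5]; exact a1, ?_⟩
  simp only [w, lt_irrefl, if_false, a2]

/-- the colour `c` persists at successors at the coordinate `β` -/
def RTPers (f : Pt I → Cn → ℕ → Bool) (δ β : I) (c : Cn → Bool) (B : Set ℕ) (K : Set Cn)
    (p : Pt I → Pt I) : Prop :=
  ∀ m j p1, IsMi p1 → Le β p1 p → ∃ m', m ≤ m' ∧ ∃ p2, IsMi p2 ∧ Le β p2 p1 ∧
    Succ δ β m' p p2 ∧ ∀ v, ∀ y ∈ K, ∀ a ∈ B, a < j → f (p2 v) y a = c y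

theorem RTPers.sub {f : Pt I → Cn → ℕ → Bool} {δ β : I} {c c' : Cn → Bool} {B B' : Set ℕ}
    {K K' : Set Cn} {p : Pt I → Pt I} (h : RTPers f δ β c B K p) (hB : B' ⊆ B) (hK : K' ⊆ K)
    (hc : ∀ y ∈ K', c y = c' y) : RTPers f δ β c' B' K' p := fun m j p1 a b =>
  let ⟨m', h1, p2, h2, h3, h4, h5⟩ := h m j p1 a b
  ⟨m', h1, p2, h2, h3, h4, fun v y hy a ha hj => (h5 v y (hK hy) a (hB ha) hj).trans (hc y hy)⟩

theorem RTPers.down {f : Pt I → Cn → ℕ → Bool} {δ β β' : I} {c : Cn → Bool} {B : Set ℕ}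
    {K : Set Cn} {p : Pt I → Pt I} (h : RTPers f δ β' c B K p) (hp : IsMi p) (hb : β ≤ β')
    (hδ : β' ≤ δ) : RTPers f δ β c B K p := by
  rcases hb.eq_or_lt with rfl | hb'
  · exact h
  intro m j p1 a b
  obtain ⟨p1', a1, a2, a3⟩ := exists_succ (δ := δ) a hp b m
  obtain ⟨m', -, p2, h2, h3, h4, h5⟩ := h 0 j p1' a1 (a3.le.mono hδ)
  refine ⟨m, le_rfl, p2, h2, (h3.mono hb).trans a2, fun v => ?_, h5⟩
  obtain ⟨w, b1, -⟩ := h4 v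
  obtain ⟨w1, b2⟩ := h3 v
  obtain ⟨w2, b3, b4⟩ := a3 w1
  refine ⟨w, b1, ?_⟩
  rw [← hp.inj (((b3.mono hδ).trans b2).trans (b1.mono hδ).symm) β hb', b4]

/-- a colour for each piece -/
theorem RT_cs {δ β : I} (hb : β ≤ δ) (hβ : RTp β) {f : Pt I → Cn → ℕ → Bool} (hf : RTCol δ f)
    {A : Set ℕ} (hA : A.Infinite) {K : Set Cn} (hK : Perf K) (l : ℕ) {p : Pt I → Pt I}
    (hp : IsMi p) :
    ∃ B, B.Infinite ∧ B ⊆ A ∧ ∃ K', Perf K' ∧ KLe l K' K ∧ ∃ p', IsMi p' ∧ Le δ p' p ∧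
      ∃ c : Cn → Bool, (∀ y ∈ K', ∀ y' ∈ K', Ag l y y' → c y = c y') ∧
        RTPers f δ β c B K' p' := by
  -- first step
  obtain ⟨o1, q1, h11, hq1, -, h12, h13⟩ := FL β ⟨⟨A, K, hA, hK⟩, l, p, hp⟩
    (fun m => {r | Succ δ β m p r.p ∧ ∀ a < m, ∀ v v', ∀ y ∈ r.K, f (r.p v) y a = f (r.p v') y a})
    (fun m r hr => by
      obtain ⟨p1, a1, a2, a3⟩ := exists_succ (δ := δ) r.mi hp hr.2.2 m
      obtain ⟨p2, b1, b2, K', b3, b4, b5⟩ := RT_lc hf m a1 r.perf r.l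
      exact ⟨⟨⟨r.A, K', r.inf, b3⟩, r.l, p2, b1⟩,
        ⟨a3.of_le b2, fun a ha v v' y hy => b5 a ha v v' y hy y hy .rfl'⟩, le_rfl,
        ⟨Subset.rfl, fun _ _ h => h, b4⟩, (b2.mono hb).trans a2⟩)
  choose sel hs1 hs2 hs3 using h13
  let v0 : Pt I := fun _ _ => 0
  let d : ℕ → Pt I → Cn → ℕ → Bool := fun a u y m => f ((sel m u).p v0) y a
  have hd : ∀ a, RTCol β (d a) := fun a => by
    refine ⟨fun m => RT_cont_lc (hs1 m) (g := fun r x => f (r.p v0) x.2 a) fun r =>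
      (hf.cont a).comp (continuous_const.prodMk continuous_snd), fun u v h => ?_⟩
    funext y m
    obtain ⟨s, -, b1, b2⟩ := hs2 m
    simp only [d, b2 u v fun γ hγ => h γ (b1 hγ)]
  -- second step
  obtain ⟨o2, q2, h21, hq2, -, h22, h23⟩ := FL β ⟨o1, l, q1, hq1⟩
    (fun a => {r | ∀ m ∈ r.A, r.l ≤ m → ∀ m' ∈ r.A, r.l ≤ m' → ∀ u, In β r.p (q1 u) →
      ∀ y ∈ r.K, d a u y m = d a u y m'})
    (fun a r hr => by
      obtain ⟨A', a1, a2, p', a3, a4, K', a5, a6, a7⟩ :=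
        RT_pw hβ (hd a) hq1 r.mi hr.2.2 r.inf r.perf r.l
      refine ⟨⟨⟨A' ∪ {m | m ∈ r.A ∧ m < r.l}, K', a1.mono subset_union_left, a5⟩, r.l, p', a3⟩,
        fun m hm h1 m' hm' h2 u hu y hy => a7 m ?_ m' ?_ u u hu hu y hy y hy .rfl', le_rfl,
        ⟨union_subset a2 fun _ h => h.1, fun a h1 h2 => .inr ⟨h2, h1⟩, a6⟩, a4⟩
      · exact hm.resolve_right fun h => h1.not_gt h.2
      · exact hm'.resolve_right fun h => h2.not_gt h.2)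
  choose sel' ht1 ht2 ht3 using h23
  have hμ : ∀ r : RP I, ∃ m ∈ r.A, r.l ≤ m := fun r =>
    let ⟨m, h⟩ := (RT_inf_ge r.inf r.l).nonempty; ⟨m, h⟩
  choose μ hμ1 hμ2 using hμ
  let θ := fac β q2 q1
  have hθ : ∀ a, RTCol β fun u => d a (θ u) := fun a =>
    (hd a).comp (fac_cont hq2 hq1 h22) fun _ _ => fac_agB hq2 hq1 h22
  let c : Pt I → Cn → ℕ → Bool := fun u y a => d a (θ u) y (μ (sel' a u))
  have hc : RTCol β c := by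
    refine ⟨fun a => RT_cont_lc (ht1 a) (g := fun r x => d a (θ x.1) x.2 (μ r)) fun r =>
      (hθ a).cont (μ r), fun u v h => ?_⟩
    funext y a
    obtain ⟨s, -, b1, b2⟩ := ht2 a
    simp only [c, b2 u v fun γ hγ => h γ (b1 hγ), (hθ a).dep u v h]
  have hdc : ∀ a u, ∀ y ∈ o2.K, ∀ m ∈ o2.A, (sel' a u).l ≤ m → d a (θ u) y m = c u y a :=
    fun a u y hy m hm h =>
      (ht3 a u).1 m ((ht3 a u).2.1.1 hm) h _ (hμ1 _) (hμ2 _) (θ u)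
        ((ht3 a u).2.2.congr (fac_spec hq1 h22 u).symm) y ((ht3 a u).2.1.2.2.1 hy)
  -- third step
  obtain ⟨B, b1, b2, q3, hq3, h32, K', b3, b4, b5⟩ :=
    RT_pw hβ hc hq2 hq2 .rfl' o2.inf o2.perf l
  have h3p : Le β q3 p := (h32.trans h22).trans h12
  obtain ⟨a0, ha0⟩ := b1.nonempty
  have hu0 : In β q3 (q2 (fac β q3 q2 v0)) := In.self.congr (fac_spec hq2 h32 v0).symm
  refine ⟨B, b1, (b2.trans h21.1).trans h11.1, K', b3, (b4.trans h21.2.2).trans h11.2.2,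
    p ∘ fac β q3 p, isMi_glue hq3 hp h3p, le_comp _ _, fun y => c (fac β q3 q2 v0) y a0,
    fun y hy y' hy' h => b5 a0 ha0 a0 ha0 _ _ hu0 hu0 y hy y' hy' h, fun m j p1 hp1 h1 => ?_⟩
  have e3 : Le β p1 q3 := h1.trans (glue_le hp h3p)
  have e2 : Le β p1 q2 := e3.trans h32
  let θ2 := fac β p1 q2
  have eθ : ∀ v, AgB β (q1 (θ (θ2 v))) (p1 v) := fun v =>
    (fac_spec hq1 h22 _).trans (fac_spec hq2 e2 v)
  obtain ⟨m', hm', hm''⟩ := (RT_inf_ge o2.inf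
    (max (max m j) ((Finset.range j).sup fun a => (sel' a (θ2 v0)).l))).nonempty
  obtain ⟨Ψ, hΨ, c1⟩ := exists_box (((hs1 m').comp_continuous
    ((fac_cont hq2 hq1 h22).comp (fac_cont hp1 hq2 e2))).eventually_eq v0)
  set r := sel m' (θ (θ2 v0)) with hr
  have c2 : Le β (p1 ∘ Ψ) r.p := fun v => by
    have := (hs3 m' (θ (θ2 (Ψ v)))).2.2
    rw [show sel m' (θ (θ2 (Ψ v))) = r from c1 v] at this
    exact this.congr (eθ _)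
  have c3 : Le β (r.p ∘ fac β (p1 ∘ Ψ) r.p) p1 := (glue_le r.mi c2).trans (le_comp _ _)
  obtain ⟨⟨c4, c5⟩, c6, -⟩ := hs3 m' (θ (θ2 v0))
  refine ⟨m', by omega, r.p ∘ fac β (p1 ∘ Ψ) r.p, isMi_glue (hp1.comp hΨ) r.mi c2, c3,
    RT_succ_glue hb hq3 hp h3p (c4.of_le (le_comp _ _)) (c3.trans h1), fun v y hy a ha hj => ?_⟩
  have hy2 : y ∈ o2.K := b4.1 hy
  have c7 : (sel' a (θ2 v0)).l ≤ m' :=
    (Finset.le_sup (f := fun a => (sel' a (θ2 v0)).l) (Finset.mem_range.2 hj)).trans (by omega)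
  refine (c5 a (by omega) _ v0 y (c6.2.2.1 (h21.2.2.1 hy2))).trans ?_
  refine (hdc a (θ2 v0) y hy2 m' hm' c7).trans ?_
  exact b5 a ha a0 ha0 _ _ ((e3 v0).congr (fac_spec hq2 e2 v0).symm) hu0 y hy y hy .rfl'

/-- the colour `e` is admissible -/
def RTAdm (f : Pt I → Cn → ℕ → Bool) (δ β : I) (e : Bool) (A : Set ℕ) (K : Set Cn) (l : ℕ)
    (p : Pt I → Pt I) : Prop :=
  ∃ B, B.Infinite ∧ B ⊆ A ∧ ∃ K', Perf K' ∧ KLe l K' K ∧ ∃ p', IsMi p' ∧ Le δ p' p ∧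
    RTPers f δ β (fun _ => e) B K' p'

theorem RTAdm.mono {f : Pt I → Cn → ℕ → Bool} {δ β β' : I} {e : Bool} {A A' : Set ℕ}
    {K : Set Cn} {l l' : ℕ} {p p' : Pt I → Pt I} (h : RTAdm f δ β' e A' K l' p') (hb : β ≤ β')
    (hδ : β' ≤ δ) (hA : A' ⊆ A) (hl : l ≤ l') (hp : Le δ p' p) : RTAdm f δ β e A K l p :=
  let ⟨B, a1, a2, K', a3, a4, q, a5, a6, a7⟩ := h
  ⟨B, a1, a2.trans hA, K', a3, a4.mono hl, q, a5, a6.trans hp, a7.down a5 hb hδ⟩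

/-- the colour `e` is admissible everywhere below -/
def RTFull (f : Pt I → Cn → ℕ → Bool) (δ : I) (e : Bool) (A : Set ℕ) (K : Set Cn)
    (p : Pt I → Pt I) : Prop :=
  ∀ β < δ, ∀ A', A'.Infinite → A' ⊆ A → ∀ K', Perf K' → K' ⊆ K → ∀ l p', IsMi p' → Le δ p' p →
    RTAdm f δ β e A' K' l p'

theorem RT_dich {δ : I} (ih : ∀ β < δ, RTp β) {f : Pt I → Cn → ℕ → Bool} (hf : RTCol δ f)
    (o : OP) : ∃ e A, A.Infinite ∧ A ⊆ o.A ∧ ∃ K, Perf K ∧ K ⊆ o.K ∧ ∃ p, IsMi p ∧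
      RTFull f δ e A K p := by
  by_contra hc
  push Not at hc
  have h0 := hc false o.A o.inf Subset.rfl o.K o.perf Subset.rfl id isMi_id
  unfold RTFull at h0
  push Not at h0
  obtain ⟨β0, hβ0, A1, hA1, hA1', K1, hK1, hK1', l, p1, hp1, -, h0⟩ := h0
  obtain ⟨z, h1, Ks, h2, h3, h4⟩ := pw
    (Z := {A : Set ℕ // A.Infinite} × {p : Pt I → Pt I // IsMi p} × {β : I // β < δ} × ℕ)
    (fun a b => a.1.1 ⊆ b.1.1 ∧ Le δ a.2.1.1 b.2.1.1 ∧ b.2.2.1.1 ≤ a.2.2.1.1 ∧ b.2.2.2 ≤ a.2.2.2)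
    (fun _ => ⟨Subset.rfl, .rfl', le_rfl, le_rfl⟩)
    (fun _ _ _ h h' => ⟨h.1.trans h'.1, h.2.1.trans h'.2.1, h'.2.2.1.trans h.2.2.1,
      h'.2.2.2.trans h.2.2.2⟩)
    (fun z L => ¬ RTAdm f δ z.2.2.1.1 true z.1.1 L z.2.2.2 z.2.1.1)
    (fun z z' L h hz h' => h (h'.mono hz.2.2.1 z'.2.2.1.2.le hz.1 hz.2.2.2 hz.2.1))
    (⟨A1, hA1⟩, ⟨p1, hp1⟩, ⟨β0, hβ0⟩, l) hK1 (fun z hz L hL hL' => by
      have h1 := hc true z.1.1 z.1.2 (hz.1.trans hA1') L hL (hL'.trans hK1') z.2.1.1 z.2.1.2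
      unfold RTFull at h1
      push Not at h1
      obtain ⟨β, hβ, A, hA, hA', L', a1, a2, l', p, hp, a3, a4⟩ := h1
      have hm := max_lt z.2.2.1.2 hβ
      exact ⟨(⟨A, hA⟩, ⟨p, hp⟩, ⟨_, hm⟩, max z.2.2.2 l'),
        ⟨hA', a3, le_max_left _ _, le_max_left _ _⟩, L', a1, a2, fun h =>
          a4 (h.mono (le_max_right _ _) hm.le Subset.rfl (le_max_right _ _) .rfl')⟩) l
  obtain ⟨⟨As, hAs⟩, ⟨ps, hps⟩, ⟨βs, hβs⟩, ls⟩ := z
  obtain ⟨e1, e2, e3, e4⟩ : As ⊆ A1 ∧ Le δ ps p1 ∧ β0 ≤ βs ∧ l ≤ ls := h1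
  obtain ⟨B, b1, b2, K', b3, b4, p', b5, b6, c, b7, b8⟩ :=
    RT_cs hβs.le (ih βs hβs) hf hAs h2 ls hps
  have key : ∀ y ∈ Ks, ∃ y' ∈ K', Ag l y' y ∧ c y' = false := fun y hy => by
    by_contra hn
    push Not at hn
    obtain ⟨y2, a1, a2⟩ := b4.2 y hy
    refine h4 y hy ⟨B, b1, b2, piece K' l y, ?_, ⟨fun x hx => ⟨b4.1 hx.1, hx.2⟩, fun x hx => ?_⟩,
      p', b5, b6, b8.sub Subset.rfl (piece_sub _ _ _) fun x hx => ?_⟩
    · rw [← piece_congr (a2.mono e4)]; exact b3.piece l a1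
    · obtain ⟨x', c1, c2⟩ := b4.2 x hx.1
      exact ⟨x', ⟨c1, (c2.mono e4).trans hx.2⟩, c2⟩
    · simpa using hn x hx.1 hx.2
  obtain ⟨y0, hy0⟩ := h2.1
  obtain ⟨y1, hy1, -, hy1'⟩ := key y0 hy0
  refine h0 ⟨B, b1, b2.trans e1, {y | y ∈ K' ∧ ∃ y' ∈ K', Ag ls y y' ∧ c y' = false},
    b3.sub_of_dep ls _ (fun y y' h ⟨x, a1, a2, a3⟩ => ⟨x, a1, h.symm.trans a2, a3⟩)
      ⟨y1, hy1, y1, hy1, .rfl', hy1'⟩,
    ⟨fun y hy => h3.1 (b4.1 hy.1), fun y hy => ?_⟩, p', b5, b6.trans e2,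
    (b8.sub Subset.rfl (fun y hy => hy.1) fun y hy =>
      hy.2.elim fun x a => (b7 y hy.1 x a.1 a.2.1).trans a.2.2).down b5 e3 hβs.le⟩
  obtain ⟨x, a1, a2⟩ := h3.2 y hy
  obtain ⟨x', a3, a4, a5⟩ := key x a1
  exact ⟨x', ⟨a3, x', a3, .rfl', a5⟩, a4.trans a2⟩

theorem RT_full {δ : I} (hδ : ⊥ < δ) {f : Pt I → Cn → ℕ → Bool} (hf : RTCol δ f) {e : Bool}
    {A0 : Set ℕ} (hA0 : A0.Infinite) {K0 : Set Cn} (hK0 : Perf K0) {p0 : Pt I → Pt I}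
    (hp0 : IsMi p0) (h : RTFull f δ e A0 K0 p0) :
    ∃ Ψ, IsMi Ψ ∧ ∃ o' : OP, o'.A ⊆ A0 ∧ o'.K ⊆ K0 ∧
      ∀ v, ∀ y ∈ o'.K, ∀ a ∈ o'.A, f (Ψ v) y a = e := by
  let Val : I → Set (RP I) := fun β => {r | r.A ⊆ A0 ∧ r.K ⊆ K0 ∧ Le δ r.p p0 ∧
    (∀ v, ∀ y ∈ r.K, ∀ a ∈ r.A, a < r.l → f (r.p v) y a = e) ∧
    RTPers f δ β (fun _ => e) {a | a ∈ r.A ∧ r.l ≤ a} r.K r.p}
  obtain ⟨B, b1, b2, K', b3, b4, p', b5, b6, b7⟩ :=
    h ⊥ hδ A0 hA0 Subset.rfl K0 hK0 Subset.rfl 0 p0 hp0 .rfl'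
  obtain ⟨o', q, c1, c2, -, -, c3⟩ := master hδ Val (fun n β => {r | r ∈ Val β ∧ n ≤ r.l})
    (fun _ _ _ h => h.1) ⟨⟨B, K', b1, b3⟩, 0, p', b5⟩
    ⟨b2, b4.1, b6, fun _ _ _ _ _ h => absurd h (Nat.not_lt_zero _),
      b7.sub (fun _ h => h.1) Subset.rfl fun _ _ => rfl⟩
    (fun β β' hb hb' r hr n m r1 h1 => by
      obtain ⟨r1', r2', r3', r4', r5'⟩ := hr
      obtain ⟨m', a1, p2, a2, a3, a4, a5⟩ := r5' m (max r1.l n) r1.p r1.mi h1.2.2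
      obtain ⟨B, d1, d2, K', d3, d4, p3, d5, d6, d7⟩ := h β' hb' _ (RT_inf_ge r1.inf (max r1.l n))
        (fun _ h => r1' (h1.2.1.1 h.1)) r1.K r1.perf (h1.2.1.2.2.1.trans r2') (max r1.l n) p2 a2
        (a4.le.trans r3')
      have hs : B ∪ {a | a ∈ r1.A ∧ a < max r1.l n} ⊆ r1.A :=
        union_subset (fun _ h => (d2 h).1) fun _ h => h.1
      refine ⟨⟨⟨B ∪ {a | a ∈ r1.A ∧ a < max r1.l n}, K', d1.mono subset_union_left, d3⟩,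
        max r1.l n, p3, d5⟩, ⟨⟨(hs.trans h1.2.1.1).trans r1', (d4.1.trans h1.2.1.2.2.1).trans r2',
          d6.trans (a4.le.trans r3'), fun v y hy a ha hl => ?_,
          d7.sub (fun a ha => ha.1.resolve_right fun h => ha.2.not_gt h.2) Subset.rfl
            fun _ _ => rfl⟩, le_max_right _ _⟩,
        ⟨le_max_left _ _, ⟨hs, fun a h1 h2 => .inr ⟨h2, h1.trans_le (le_max_left _ _)⟩,
          d4.mono (le_max_left _ _)⟩, (d6.mono (hb.trans hb'.le)).trans a3⟩, m', a1, a4.of_le d6⟩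
      have hy' : y ∈ r.K := h1.2.1.2.2.1 (d4.1 hy)
      have ha' : a ∈ r.A := h1.2.1.1 (hs ha)
      obtain ⟨w, hw⟩ := d6 v
      show f (p3 v) y a = e
      rw [← hf.dep _ _ hw]
      by_cases hlt : a < r.l
      · obtain ⟨w', hw'⟩ := a4.le w
        rw [← hf.dep _ _ hw']
        exact r4' w' y hy' a ha' hlt
      · exact a5 w y hy' a ⟨ha', not_lt.1 hlt⟩ hl)
  refine ⟨q, c2, o', c1.1.trans b2, c1.2.2.1.trans b4.1, fun v y hy a ha => ?_⟩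
  obtain ⟨sel, -, -, h3⟩ := c3 (a + 1)
  obtain ⟨⟨β', ⟨-, -, -, h4, -⟩, h5⟩, h6, w, hw⟩ := h3 v
  rw [← hf.dep _ _ hw]
  exact h4 w y (h6.2.2.1 hy) a (h6.1 ha) h5

theorem RT (δ : I) : RTp δ := by
  induction δ using WellFoundedLT.induction with
  | _ δ ih =>
    intro f h1 h2 o
    rcases (bot_le (a := δ)).eq_or_lt with rfl | hδ
    · obtain ⟨o', a1, a2, ε, a3⟩ := rt_bot (f fun _ _ => 0)
        (fun a => (h1 a).comp (continuous_const.prodMk continuous_id)) o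
      refine ⟨id, isMi_id, o', a1, a2, ε, fun v y hy a ha => ?_⟩
      rw [h2 (id v) (fun _ _ => 0) fun _ h => absurd h not_lt_bot]
      exact a3 y hy a ha
    · obtain ⟨e, A, a1, a2, K, a3, a4, p, a5, a6⟩ := RT_dich ih ⟨h1, h2⟩ o
      obtain ⟨Ψ, b1, o', b2, b3, b4⟩ := RT_full hδ ⟨h1, h2⟩ a1 a3 a5 a6
      exact ⟨Ψ, b1, o', b2.trans a2, b3.trans a4, e, b4⟩

end Pool.Agent.B8F
end
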