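import Pool.Agent.Work.MP_b8a914_gt.F.Add
import Pool.Agent.Work.MP_b8a914_gt.F.RT
import Pool.Agent.Work.MP_b8a914_gt.F.Gen1
import Pool.Agent.Lib.ZFModel.ZFC

-- merged part: Pool.Agent.Work.MP_b8a914_gt.F.Cond2
section
/-! Density arguments that use the fusion lemma and the Ramsey property. -/

namespace Pool.Agent.B8F
open Set

variable {I : Type} [LinearOrder I] [OrderTop I] [OrderBot I] [WellFoundedLT I]

theorem Cond2_bdd {ν : Cn → ℕ} {l : ℕ} (h : ∀ y y', Ag l y y' → ν y = ν y') :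
    ∃ c, ∀ y, ν y ≤ c := by
  let e : (Fin l → Bool) → Cn := fun s i => if hi : i < l then s ⟨i, hi⟩ else false
  refine ⟨Finset.univ.sup (ν ∘ e), fun y => ?_⟩
  rw [h y (e fun i => y i) fun i hi => by simp only [e, dif_pos hi]]
  exact Finset.le_sup (f := ν ∘ e) (Finset.mem_univ fun i : Fin l => y i)

/-- a piece of a condition with a level -/
def Cond2_pc {I : Type} [LinearOrder I] (t : RP I) (y : Cn) (hy : y ∈ t.K) : Cond I :=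
  ⟨⟨t.A, piece t.K t.l y, t.inf, t.perf.piece t.l hy⟩, t.p, t.mi⟩

/-- each piece decides -/
def Cond2_D {I : Type} [LinearOrder I] (Q : ℕ → Cond I → Prop) (t : RP I) (ν : Cn → ℕ)
    (c : ℕ) : Prop :=
  (∀ y y', Ag t.l y y' → ν y = ν y') ∧ (∀ y, ν y ≤ c) ∧
    ∀ y (hy : y ∈ t.K), Q (ν y) (Cond2_pc t y hy)

omit [OrderBot I] [WellFoundedLT I] in
theorem Cond2_dense (Q : ℕ → Cond I → Prop) (hm : ∀ n r r', Q n r → r' ≤ r → Q n r')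
    (r : Cond I) (hd : ∀ q, q ≤ r → ∃ q', q' ≤ q ∧ ∃ n, Q n q') (t : RP I)
    (ht : RLe ⊤ t ⟨r.toOP, 0, r.p, r.mi⟩) :
    ∃ t' ∈ {t : RP I | ∃ ν c, Cond2_D Q t ν c}, RLe ⊤ t' t := by
  classical
  let P : Cond I → Set Cn → ℕ → Prop := fun z L n =>
    ∀ hL : Perf L, Q n ⟨⟨z.A, L, z.inf, hL⟩, z.p, z.mi⟩
  obtain ⟨z, hz, K', hK', hle, hQ⟩ := pw (Z := Cond I)
    (fun z' z => (z'.A \ z.A).Finite ∧ Le ⊤ z'.p z.p) (fun z => ⟨by simp, .rfl'⟩)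
    (fun a b c h h' => ⟨(h.1.union h'.1).subset fun x hx => by
      by_cases hb : x ∈ b.A
      · exact Or.inr ⟨hb, hx.2⟩
      · exact Or.inl ⟨hx.1, hb⟩, h.2.trans h'.2⟩)
    (fun z L => ∃ n, P z L n)
    (fun z z' L ⟨n, hn⟩ h => ⟨n, fun hL => hm n _ _ (hn hL) ⟨h.1, Subset.rfl, h.2⟩⟩)
    ⟨t.toOP, t.p, t.mi⟩ t.perf
    (fun z hz L hL hLK => by
      obtain ⟨q', h1, n, h2⟩ := hd ⟨⟨z.A, L, z.inf, hL⟩, z.p, z.mi⟩
        ⟨hz.1.subset fun x hx => ⟨hx.1, fun h => hx.2 (ht.2.1.1 h)⟩,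
          hLK.trans ht.2.1.2.2.1, hz.2.trans ht.2.2⟩
      exact ⟨q', ⟨h1.1, h1.2.2⟩, q'.K, q'.perf, h1.2.1, n, fun _ => h2⟩) t.l
  have hinf : ((z.A ∩ t.A) ∪ (t.A ∩ Iio t.l)).Infinite :=
    (z.inf.sdiff hz.1).mono fun x hx => Or.inl ⟨hx.1, by_contra fun h => hx.2 ⟨hx.1, h⟩⟩
  let μ : Set Cn → ℕ := fun L => if h : ∃ n, P z L n then h.choose else 0
  have hν : ∀ y y', Ag t.l y y' → μ (piece K' t.l y) = μ (piece K' t.l y') :=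
    fun y y' h => by rw [piece_congr h]
  obtain ⟨c, hc⟩ := Cond2_bdd (ν := fun y => μ (piece K' t.l y)) hν
  refine ⟨⟨⟨_, K', hinf, hK'⟩, t.l, z.p, z.mi⟩, ⟨_, c, hν, hc, fun y hy => ?_⟩,
    le_rfl, ⟨fun x hx => hx.elim And.right And.left, fun a ha h => Or.inr ⟨h, ha⟩, hle⟩, hz.2⟩
  have h1 : P z (piece K' t.l y) (μ (piece K' t.l y)) := by
    simp only [μ, dif_pos (hQ y hy)]
    exact (hQ y hy).choose_spec
  refine hm _ _ _ (h1 (hK'.piece t.l hy)) ⟨(finite_lt_nat t.l).subset fun x hx => ?_,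
    Subset.rfl, .rfl'⟩
  exact hx.1.elim (fun h => absurd h.1 hx.2) And.right

/-- a fast sequence read off from a bound -/
def Cond2_G (β : ℕ → ℕ) : ℕ → ℕ
  | 0 => 0
  | j + 1 => 1 + max (Cond2_G β j) ((Finset.range (Cond2_G β j + 1)).sup β)

theorem Cond2_G_cont : Continuous Cond2_G := by
  refine cont_seq.2 fun β0 j => ?_
  induction j with
  | zero => exact Filter.Eventually.of_forall fun _ => rfl
  | succ j ih =>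
    filter_upwards [ih, ev_ag (x := fun β => β) (y := fun _ => β0) (Cond2_G β0 j + 1)
      fun i _ => cont_seq.1 continuous_id β0 i] with β h1 h2
    rw [Cond2_G, Cond2_G, h1, Finset.sup_congr rfl fun i hi => h2 i (Finset.mem_range.1 hi)]

/-- continuous reading of a sequence of decisions -/
theorem PT (Q : ℕ → ℕ → Cond I → Prop) (hm : ∀ i n r r', Q i n r → r' ≤ r → Q i n r')
    (r : Cond I) (hd : ∀ i q, q ≤ r → ∃ q', q' ≤ q ∧ ∃ n, Q i n q') :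
    ∃ r' : Cond I, r'.A ⊆ r.A ∧ r' ≤ r ∧ ∃ (f : Pt I → Cn → ℕ → ℕ) (b : Pt I → ℕ → ℕ),
      Nice ⊤ (r'.p, b) ∧ (∀ i, Continuous fun z : Pt I × Cn => f z.1 z.2 i) ∧
      (∀ u v, AgB ⊤ u v → f u = f v) ∧ (∀ u y i, f u y i ≤ b u i) ∧
      ∀ i q, q ≤ r' → ∀ v w, AgB ⊤ (r'.p w) (q.p v) → ∀ y ∈ q.K,
        ∃ q', q' ≤ q ∧ Q i (f w y i) q' := by
  classical
  obtain ⟨o, q, ho, hq, ⟨s, hs1, hs2, hs3⟩, hle, hG⟩ := FL ⊤ ⟨r.toOP, 0, r.p, r.mi⟩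
    (fun i => {t : RP I | ∃ ν c, Cond2_D (Q i) t ν c})
    fun i t ht => Cond2_dense (Q i) (hm i) r (hd i) t ht
  choose sel hlc hdep hsel using hG
  choose S hS1 hS2 hS3 using hdep
  have hex : ∀ i (t : RP I), ∃ ν c, (∃ ν c, Cond2_D (Q i) t ν c) → Cond2_D (Q i) t ν c :=
    fun i t => by
      by_cases h : ∃ ν c, Cond2_D (Q i) t ν c
      · obtain ⟨ν, c, h⟩ := h
        exact ⟨ν, c, fun _ => h⟩
      · exact ⟨fun _ => 0, 0, fun h' => absurd h' h⟩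
  choose ν c hν using hex
  have hD : ∀ i u, Cond2_D (Q i) (sel i u) (ν i (sel i u)) (c i (sel i u)) :=
    fun i u => hν i _ (hsel i u).1
  have hag : ∀ i u v, AgB ⊤ u v → sel i u = sel i v :=
    fun i u v h => hS3 i u v fun γ hγ => h γ (hS2 i hγ)
  refine ⟨⟨o, q, hq⟩, ho.1, Cond.le_of ho.1 ho.2.2.1 hle, fun u y i => ν i (sel i u) y,
    fun u i => c i (sel i u), ⟨hq, continuous_pi fun i => ((hlc i).comp (c i)).continuous,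
      s ∪ ⋃ i, S i, hs1.union (countable_iUnion hS1), union_subset hs2 (iUnion_subset hS2),
      hs3.mono subset_union_left, fun u v h => funext fun i => congrArg (c i)
        (hS3 i u v fun γ hγ => h γ (Or.inr (mem_iUnion.2 ⟨i, hγ⟩)))⟩,
    fun i => ?_, fun u v h => funext fun y => funext fun i => congrArg (ν i · y) (hag i u v h),
    fun u y i => (hD i u).2.1 y, fun i q0 h0 v w hw y hy => ?_⟩
  · refine ((IsLocallyConstant.iff_eventually_eq _).2 fun z0 => ?_).continuous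
    filter_upwards [((hlc i).comp_continuous continuous_fst).eventually_eq z0,
      ev_ag (x := fun z : Pt I × Cn => z.2) (y := fun _ => z0.2) (sel i z0.1).l fun j _ =>
        ((IsLocallyConstant.iff_continuous fun z : Pt I × Cn => z.2 j).2
          (by fun_prop)).eventually_eq z0] with z h1 h2
    rw [show sel i z.1 = sel i z0.1 from h1]
    exact (hD i z0.1).1 _ _ h2
  · have hθ : Continuous (fac ⊤ q0.p q) := fac_cont q0.mi hq h0.2.2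
    have h1 : sel i (fac ⊤ q0.p q v) = sel i w :=
      hag i _ _ (hq.inj ((fac_spec hq h0.2.2 v).trans hw.symm))
    obtain ⟨Ψ, hΨ, h2⟩ := exists_box (((hlc i).comp_continuous hθ).eventually_eq v)
    have h3 : ∀ v', sel i (fac ⊤ q0.p q (Ψ v')) = sel i w := fun v' => (h2 v').trans h1
    have h4 : q0.K ⊆ (sel i w).K := h0.2.1.trans (hsel i w).2.1.2.2.1
    refine ⟨⟨⟨q0.A, piece q0.K (sel i w).l y, q0.inf, q0.perf.piece _ hy⟩, q0.p ∘ Ψ,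
      q0.mi.comp hΨ⟩, Cond.le_of Subset.rfl (piece_sub _ _ _) (le_comp _ _),
      hm _ _ _ _ ((hD i w).2.2 y (h4 hy)) ⟨h0.1.subset fun x hx =>
        ⟨hx.1, fun h => hx.2 ((hsel i w).2.1.1 h)⟩, fun y' h => ⟨h4 h.1, h.2⟩, fun v' => ?_⟩⟩
    have h5 := (hsel i (fac ⊤ q0.p q (Ψ v'))).2.2
    rw [h3] at h5
    exact h5.congr (fac_spec hq h0.2.2 (Ψ v'))

theorem reap_dense (Φ : ℕ → Cond I → Prop) (hm : ∀ a r r', Φ a r → r' ≤ r → Φ a r')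
    (r : Cond I) : ∃ r', r' ≤ r ∧ ((∀ a ∈ r'.A, ∀ q, q ≤ r' → ∃ q', q' ≤ q ∧ Φ a q') ∨
      ∀ a ∈ r'.A, ∀ q, q ≤ r' → ¬ Φ a q) := by
  obtain ⟨r', -, h1, f, b, -, hc, hdep, -, hl⟩ := PT
    (fun a n r => (n = 1 ∧ Φ a r) ∨ (n = 0 ∧ ∀ q, q ≤ r → ¬ Φ a q))
    (fun a n r r' h h' => h.imp (fun h => ⟨h.1, hm _ _ _ h.2 h'⟩)
      fun h => ⟨h.1, fun q hq => h.2 q (hq.trans h')⟩) r
    (fun a q _ => by
      by_cases h : ∃ q', q' ≤ q ∧ Φ a q'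
      · obtain ⟨q', h1, h2⟩ := h
        exact ⟨q', h1, 1, Or.inl ⟨rfl, h2⟩⟩
      · exact ⟨q, le_rfl, 0, Or.inr ⟨rfl, fun q' h1 h2 => h ⟨q', h1, h2⟩⟩⟩)
  obtain ⟨Ψ, hΨ, o', hA, hK, ε, hε⟩ := RT (⊤ : I) (fun u y a => decide (f u y a = 1))
    (fun a => (continuous_of_discreteTopology (f := fun n : ℕ => decide (n = 1))).comp (hc a))
    (fun u v h => by rw [hdep u v h]) r'.toOP
  let r'' : Cond I := ⟨o', r'.p ∘ Ψ, r'.mi.comp hΨ⟩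
  have h2 : r'' ≤ r' := Cond.le_of hA hK (le_comp _ _)
  have key : ∀ a ∈ o'.A, ∀ q, q ≤ r'' → ∃ q', q' ≤ q ∧ ∃ n, decide (n = 1) = ε ∧
      ((n = 1 ∧ Φ a q') ∨ (n = 0 ∧ ∀ q, q ≤ q' → ¬ Φ a q)) := fun a ha q hq => by
    obtain ⟨w, hw⟩ := hq.2.2 fun _ _ => 0
    obtain ⟨y, hy⟩ := q.perf.1
    obtain ⟨q', h3, h4⟩ := hl a q (hq.trans h2) _ (Ψ w) hw y hy
    exact ⟨q', h3, _, hε w y (hq.2.1 hy) a ha, h4⟩
  refine ⟨r'', h2.trans h1, ?_⟩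
  cases ε with
  | true =>
    refine Or.inl fun a ha q hq => ?_
    obtain ⟨q', h3, n, h4, h5⟩ := key a ha q hq
    obtain rfl : n = 1 := of_decide_eq_true h4
    exact ⟨q', h3, h5.elim And.right fun h => absurd h.1 one_ne_zero⟩
  | false =>
    refine Or.inr fun a ha q hq h => ?_
    obtain ⟨q', h3, n, h4, h5⟩ := key a ha q hq
    exact h5.elim (fun h' => of_decide_eq_false h4 h'.1) fun h' => h'.2 q' le_rfl (hm _ _ _ h h3)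

theorem dom_dense (Φ : ℕ → ℕ → Cond I → Prop) (hm : ∀ i n r r', Φ i n r → r' ≤ r → Φ i n r')
    (r : Cond I) (hd : ∀ i q, q ≤ r → ∃ q', q' ≤ q ∧ ∃ n, Φ i n q') :
    ∃ r', r' ≤ r ∧ ∃ g, Nice ⊤ (r'.p, g) ∧ (∀ w, StrictMono (g w)) ∧
      ∀ q, q ≤ r' → ∀ v w, AgB ⊤ (r'.p w) (q.p v) → ∀ j i, i ≤ g w j →
        ∃ q', q' ≤ q ∧ ∃ n < g w (j + 1), Φ i n q' := by
  obtain ⟨r', -, h1, f, b, ⟨h2, h3, s, h4, h5, h6, h7⟩, -, -, hb, hl⟩ := PT Φ hm r hd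
  refine ⟨r', h1, fun w => Cond2_G (b w), ⟨h2, Cond2_G_cont.comp h3, s, h4, h5, h6,
    fun u v h => congrArg Cond2_G (h7 u v h)⟩, fun w => strictMono_nat_of_lt_succ fun j => ?_,
    fun q hq v w hw j i hi => ?_⟩
  · show Cond2_G (b w) j < Cond2_G (b w) (j + 1)
    rw [Cond2_G]; omega
  · obtain ⟨y, hy⟩ := q.perf.1
    obtain ⟨q', h8, h9⟩ := hl i q hq v w hw y hy
    refine ⟨q', h8, _, ?_, h9⟩
    have : b w i ≤ (Finset.range (Cond2_G (b w) j + 1)).sup (b w) :=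
      Finset.le_sup (f := b w) (Finset.mem_range.2 (Nat.lt_succ_of_le hi))
    have := hb w y i
    show _ < Cond2_G (b w) (j + 1)
    rw [Cond2_G]; omega

end Pool.Agent.B8F
end

-- merged part: Pool.Agent.Work.MP_b8a914_gt.F.GenB
section
/-! The generic model, with the additional dense sets for the extended interface. -/

namespace Pool.Agent.B8F.B
open Pool.Agent.Lib.ZFModel Pool.Agent.Lib.ZFModel.Name Pool.Agent.Work.MP_63c7e0_lc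

/-- the name of the value of a code -/
def genV (c : VC II) : Name (Cond II) := relName (Dec c)

/-- the name of the set of the numbers of the initial segments of the generic branch -/
def genS : Name (Cond II) := rName natN fun a r => ∃ i, ∀ y ∈ r.K, enc y i = a

/-- relations that do not look at the tree coordinate -/
def GenKI (R : ℕ → ℕ → Cond II → Prop) : Prop :=
  ∀ k n (r r' : Cond II), r.A = r'.A → r.p = r'.p → R k n r → R k n r'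

def genVf : Name (Cond II) := rName (fun R : {R // GenKI R} => relName R.1) fun _ _ => True

/-- the code of a function of the ground model -/
def genC (f : ℕ → ℕ) : VC II := (id, fun _ => f)

/-- the name of the set of the successor functions of the sets in the generic ultrafilter base -/
noncomputable def genKN : Name (Cond II) :=
  rName (fun A : {A : Set ℕ // A.Infinite} => genV (genC (nxt A.1))) fun A r => r.A = A.1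

def GenFr (a : Name (Cond II)) (r : Cond II) (c1 c2 c3 : VC II) : Prop :=
  MemF (pairN (genV c1) (pairN (genV c2) (genV c3))) a r

def GenPh (a : Name (Cond II)) (i n : ℕ) (r : Cond II) : Prop := MemF (pairN (natN i) (natN n)) a r

def GenUp (R : ℕ → ℕ → Cond II → Prop) (k n : ℕ) (r : Cond II) : Prop := ∃ r1, r ≤ r1 ∧ R k n r1

theorem gen_en (r : Cond II) : ∃ e : ℕ → II, Supp (Set.range e) r.p := by
  obtain ⟨s, hs, h⟩ := r.mi.supp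
  obtain ⟨e, he⟩ := (hs.insert ⊤).exists_eq_range ⟨⊤, Set.mem_insert _ _⟩
  exact ⟨e, he ▸ h.mono (Set.subset_insert _ _)⟩

theorem gen_cp (a : Name (Cond II)) (r : Cond II) : ∃ αβ : (ℕ → II) × II, DDn (GenFr a) r →
    StrictMono αβ.1 ∧ (∀ n, CP (GenFr a) r (αβ.1 n)) ∧ αβ.2 < ⊤ ∧ ∀ n, αβ.1 n ≤ αβ.2 := by
  by_cases h : DDn (GenFr a) r
  · obtain ⟨α, β, h1⟩ := exists_CP (Fr := GenFr a) (fun _ _ _ _ _ h h' => MemF.mono h h') h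
    exact ⟨(α, β), fun _ => h1⟩
  · exact ⟨(fun _ => ⊤, ⊤), fun h' => absurd h' h⟩

/-- indices of the dense sets -/
inductive GenK : Type
  | supp (n : ℕ) | inv (i : ℕ) | dec (k : ℕ) | reap | dom | fin (i b : ℕ) | unb (m : ℕ)
  | encd (m : ℕ) | sacks (e m : ℕ) | refl | seq (n : ℕ) | bnd | key | clos | zc
  | grd | nx | sacksB (e m : ℕ)
  deriving Countable

/-- the dense sets -/
def GenW0 (k : GenK) (a : Name (Cond II)) (r : Cond II) (c : VC II) (γ γ' : II) (q : Cond II)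
    (δ : II) (c2 c3 : VC II) : Prop :=
  match k with
  | .supp n => δ = (gen_en r).choose n
  | .inv i => ∃ n, Dec (r.p, fun w => w γ) i n q
  | .dec k => ∃ n, Dec c k n q
  | .reap => (∀ b ∈ q.A, MemF (natN b) a q) ∨ ∀ b ∈ q.A, ∀ q', q' ≤ q → ¬ MemF (natN b) a q'
  | .dom => (∃ i, ∀ q', q' ≤ q → ∀ n, ¬ GenPh a i n q') ∨
      (c2.1 = q.p ∧ Nice ⊤ c2 ∧ (∀ w, StrictMono (c2.2 w)) ∧ ∀ q', q' ≤ q → ∀ v w,
        AgB ⊤ (q.p w) (q'.p v) → ∀ j i, i ≤ c2.2 w j →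
          ∃ q'', q'' ≤ q' ∧ ∃ n < c2.2 w (j + 1), GenPh a i n q'')
  | .fin i b => ∃ n < b, GenPh a i n q
  | .unb m => ∃ j, m ≤ j ∧ ∀ v w, AgB ⊤ (c.1 w) (q.p v) → c.2 w j < q.p v γ j
  | .encd m => ∃ b, m ≤ b ∧ ∃ i, ∀ y ∈ q.K, enc y i = b
  | .sacks e m => ∃ R, a = relName R ∧ ((∃ k, ∀ q', q' ≤ q → ∀ n, ¬ GenUp R k n q') ∨
      ∃ j, m ≤ j ∧ ∃ n, GenUp R (2 * j + e) n q ∧ ∀ y ∈ q.K, ∀ v w,
        AgB ⊤ (c.1 w) (q.p v) → StrictMono (c.2 w) → 2 * j + e ≤ n →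
          ∀ i, ¬ (c.2 w (enc y i) ≤ n ∧ n < c.2 w (enc y i + 1)))
  | .refl => DDn (GenFr a) q ∨ (Nice ⊤ c2 ∧ Nice ⊤ c3 ∧ Le ⊤ q.p c2.1 ∧ Le ⊤ q.p c3.1 ∧
      ∀ r', r' ≤ q → ∀ c4, Nice ⊤ c4 → Le ⊤ r'.p c4.1 → ¬ GenFr a r' c2 c3 c4)
  | .seq n => δ = (gen_cp a r).choose.1 n
  | .bnd => δ = (gen_cp a r).choose.2
  | .key => Nice ⊤ c2 ∧ Nice ⊤ c3 ∧ Le ⊤ q.p c2.1 ∧ Le ⊤ q.p c3.1 ∧ GenFr a q c c2 c3 ∧
      ∀ v w2 w3, AgB ⊤ (c2.1 w2) (q.p v) → AgB ⊤ (c3.1 w3) (q.p v) →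
        KeyP (zf (q.p v γ)) r.A (c2.2 w2) (c3.2 w3)
  | .clos => c2.1 = c.1 ∧ Nice γ' c2 ∧ ∀ w j k,
      k ≤ zf (c.1 w γ) (nxt r.A (zf (c.1 w γ) j) + 1) → c.2 w k ≤ c2.2 w j
  | .zc => c2 = (id, fun w => zf (w γ))
  | .grd => ∃ f, a = genV (genC f) ∧ c2 = genC f
  | .nx => c2 = genC (nxt r.A)
  | .sacksB e m => ∃ R, a = relName R ∧ ((∃ k, ∀ q', q' ≤ q → ∀ n, ¬ GenUp R k n q') ∨
      ∃ j, m ≤ j ∧ ∃ n, GenUp R (nxt r.A (2 * j + 0) + e) n q ∧ ∀ y ∈ q.K, ∀ v w,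
        AgB ⊤ (c.1 w) (q.p v) → StrictMono (c.2 w) → 2 * j + 0 ≤ n →
          ∀ i, ¬ (c.2 w (enc y i) ≤ n ∧ n < c.2 w (enc y i + 1)))

def genW : Fam (Cond II) (II × VC II × VC II) (Option GenK) (Cond II × (II × VC II × VC II)) :=
  fun k v c a qj => match k with
  | none => qj.2.2.1 = (a 0).2.2
  | some k => GenW0 k (v 0) (c 0) (a 0).2.1 (a 1).1 (a 2).1 qj.1 qj.2.1 qj.2.2.1 qj.2.2.2

def genRN : Fam (Cond II) (II × VC II × VC II) (Option GenK) (Name (Cond II)) :=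
  fun k _ _ a x => match k with
  | none => x = genV (a 0).2.1
  | some .reap => x = genS
  | some .grd => x = genKN
  | some _ => x = genVf

def genId : VC II := (id, fun _ => id)

/-- the generic models -/
abbrev GenM := GenW (Cond.one II) ((⊤, genId, genId) : II × VC II × VC II) genRN genW

variable (g : GenM)

def GenHC (c : VC II) : Prop := ∃ j ∈ g.AN, j.2.1 = c

def GenHI (γ : II) : Prop := ∃ j ∈ g.AN, j.1 = γ

theorem gen_hc_id : GenHC g genId := ⟨_, g.a0_mem, rfl⟩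

theorem gen_hi_top : GenHI g ⊤ := ⟨_, g.a0_mem, rfl⟩

theorem gen_S_mem : genS ∈ g.N := by
  obtain ⟨y, hy, h⟩ := g.clN (some .reap) [] [] [] mem_list₀ mem_list₀ mem_list₀ ⟨_, rfl⟩
  exact (h : y = _) ▸ hy

theorem gen_Vf_mem : genVf ∈ g.N := by
  obtain ⟨y, hy, h⟩ := g.clN (some .dom) [] [] [] mem_list₀ mem_list₀ mem_list₀ ⟨_, rfl⟩
  exact (h : y = _) ▸ hy

theorem gen_K_mem : genKN ∈ g.N := by
  obtain ⟨y, hy, h⟩ := g.clN (some .grd) [] [] [] mem_list₀ mem_list₀ mem_list₀ ⟨_, rfl⟩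
  exact (h : y = _) ▸ hy

variable {g}

theorem GenHC.mem {c : VC II} (h : GenHC g c) : relName (Dec c) ∈ g.N := by
  obtain ⟨j, hj, rfl⟩ := h
  obtain ⟨y, hy, h⟩ := g.clN none [] [] [j] mem_list₀ mem_list₀ (mem_list₁ hj) ⟨_, rfl⟩
  have h' : y = relName (Dec j.2.1) := h
  exact h' ▸ hy

theorem gen_meet (k : GenK) {a : Name (Cond II)} (ha : a ∈ g.N) {r : Cond II} (hr : r ∈ g.PN)
    {c : VC II} (hc : GenHC g c) {γ γ' : II} (h1 : GenHI g γ) (h2 : GenHI g γ') {p : Cond II}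
    (hp : g.G p) (hd : ∀ q, q ≤ p → ∃ q', q' ≤ q ∧ ∃ δ c2 c3, GenW0 k a r c γ γ' q' δ c2 c3) :
    ∃ q ∈ g.PN, g.G q ∧ ∃ δ c2 c3, GenHI g δ ∧ GenHC g c2 ∧ GenHC g c3 ∧
      GenW0 k a r c γ γ' q δ c2 c3 := by
  obtain ⟨j0, hj0, rfl⟩ := hc
  obtain ⟨j1, hj1, rfl⟩ := h1
  obtain ⟨j2, hj2, rfl⟩ := h2
  obtain ⟨q, hq, hG, j, hj, h⟩ := g.meet (some k) [a] [r] [j0, j1, j2] (mem_list₁ ha)
    (mem_list₁ hr) (mem_listc hj0 (mem_list₂ hj1 hj2)) p hp fun q hq => by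
      obtain ⟨q', h1, δ, c2, c3, h2⟩ := hd q hq
      exact ⟨q', h1, (δ, c2, c3), h2⟩
  obtain ⟨_, -, -, j', hj', h'⟩ := g.meet none [] [] [j] mem_list₀ mem_list₀ (mem_list₁ hj) p hp
    fun q _ => ⟨q, le_rfl, (⊤, j.2.2, j.2.2), rfl⟩
  exact ⟨q, hq, hG, j.1, j.2.1, j.2.2, ⟨j, hj, rfl⟩, ⟨j, hj, rfl⟩, ⟨j', hj', h'⟩, h⟩

theorem gen_x (g : GenM) : ∃ x, ∀ r, g.G r → In ⊤ r.p x := by
  refine exists_xG g.G g.PN {γ | GenHI g γ} (fun _ _ => gen1_dir g) g.p0_mem g.G_p0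
    (fun r hr => (gen_en r).choose_spec.mono ?_) fun r hr hG γ hγ ht i => ?_
  · rintro _ ⟨n, rfl⟩
    obtain ⟨_, -, -, δ, c2, c3, h1, -, -, h⟩ := gen_meet (.supp n) g.empty_mem hr (gen_hc_id g)
      (gen_hi_top g) (gen_hi_top g) g.G_p0 fun q _ => ⟨q, le_rfl, _, genId, genId, rfl⟩
    exact (h : δ = _) ▸ h1
  · obtain ⟨q, -, hq, _, _, _, -, -, -, h⟩ := gen_meet (.inv i) g.empty_mem hr (gen_hc_id g)
      hγ hγ hG fun q hq => by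
        obtain ⟨q', h1, h2⟩ := dec_dense (c := (r.p, fun w => w γ)) r.mi (continuous_apply γ)
          (fun u v h => h γ ht) hq.2.2 i
        exact ⟨q', h1, ⊤, genId, genId, h2⟩
    exact ⟨q, hq, h⟩

variable (g) in
/-- `H` is the value of the code `c` -/
structure GenVal (x : Pt II) (α : II) (c : VC II) (H : ℕ → ℕ) : Prop where
  hc : GenHC g c
  nice : Nice α c
  valid : ∃ r, g.G r ∧ Le ⊤ r.p c.1
  val : ∃ w, AgB ⊤ (c.1 w) x ∧ H = c.2 w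

variable {x : Pt II} {α β : II} {c c2 c3 : VC II} {H : ℕ → ℕ}

theorem GenVal.mono (h : GenVal g x α c H) (hb : α ≤ β) : GenVal g x β c H :=
  ⟨h.hc, h.nice.mono hb, h.valid, h.val⟩

theorem gen_z (hγ : GenHI g α) (ht : α < ⊤) :
    GenVal g x ⊤ (id, fun w => zf (w α)) (zf (x α)) := by
  obtain ⟨_, -, -, _, c2, _, -, h1, -, h⟩ := gen_meet .zc g.empty_mem g.p0_mem (gen_hc_id g)
    hγ hγ g.G_p0 fun q _ => ⟨q, le_rfl, ⊤, _, genId, rfl⟩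
  exact ⟨(h : c2 = _) ▸ h1, nice_z ht, ⟨_, g.G_p0, le_id _⟩, x, .rfl', rfl⟩

variable (hx : ∀ r, g.G r → In ⊤ r.p x)
include hx

theorem gen_val (h1 : GenHC g c) (h2 : Nice α c) {r : Cond II} (hr : g.G r) (h3 : Le ⊤ r.p c.1) :
    ∃ w, AgB ⊤ (c.1 w) x ∧ GenVal g x α c (c.2 w) := by
  obtain ⟨w, hw⟩ := (hx r hr).le h3
  exact ⟨w, hw, h1, h2, ⟨r, hr, h3⟩, w, hw, rfl⟩

theorem GenVal.dec (h : GenVal g x α c H) (k n : ℕ) : (∃ r, g.G r ∧ Dec c k n r) ↔ H k = n := by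
  obtain ⟨w, hw, rfl⟩ := h.val
  have h1 : ∀ n, (∃ r, g.G r ∧ Dec c k n r) → c.2 w k = n := by
    rintro n ⟨r, hr, h1⟩
    obtain ⟨v, hv⟩ := hx r hr
    exact h1.2 v w (hw.trans hv.symm)
  refine ⟨h1 n, ?_⟩
  rintro rfl
  obtain ⟨r, hr, h2⟩ := h.valid
  obtain ⟨q, -, hq, -, -, -, -, -, -, n, h3⟩ := gen_meet (.dec k) g.empty_mem g.p0_mem h.hc
    (gen_hi_top g) (gen_hi_top g) hr fun q hq => by
      obtain ⟨q', h3, h4⟩ := dec_dense h.nice.1 h.nice.2.1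
        (fun u v huv => (h.nice.mono le_top).dep huv) (hq.2.2.trans h2) k
      exact ⟨q', h3, ⊤, genId, genId, h4⟩
  exact ⟨q, hq, h1 n ⟨q, hq, h3⟩ ▸ h3⟩

theorem GenVal.cf (h : GenVal g x α c H) : CF g.toGen.E H := gen1_cf g h.hc.mem (h.dec hx)

theorem GenVal.code {η : FN g.toGen.E ℕ ℕ} (h : GenVal g x α c η.1) :
    CT.code g.toGen.E η = g.toGen.cl ⟨_, h.hc.mem⟩ := gen1_code g h.hc.mem η (h.dec hx)

omit hx in
theorem gen_reap (A : PW g.toGen.E ℕ) : ∃ r ∈ g.PN, g.G r ∧ (r.A ⊆ A.1 ∨ Disjoint r.A A.1) := by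
  obtain ⟨a, ha, h⟩ := gen1_cs g A.2
  have h1 : ∀ t, t ∈ A.1 ↔ ∃ r, g.G r ∧ MemF (natN t) a r := fun t => h t _ (g.nat_mem t) rfl
  obtain ⟨q, hq, hG, _, _, _, -, -, -, h2⟩ := gen_meet .reap ha g.p0_mem (gen_hc_id g)
    (gen_hi_top g) (gen_hi_top g) g.G_p0 fun q _ => by
      obtain ⟨q', h2, h3⟩ := reap_dense (fun b r => MemF (natN b) a r)
        (fun _ _ _ h h' => h.mono h') q
      exact ⟨q', h2, ⊤, genId, genId, h3.imp (fun h b hb => MemF.reg (h b hb)) id⟩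
  refine ⟨q, hq, hG, Or.imp (fun h2 b hb => (h1 b).2 ⟨q, hG, h2 b hb⟩)
    (fun h2 => Set.disjoint_left.2 fun b hb hb' => ?_) h2⟩
  obtain ⟨r, hr, h3⟩ := (h1 b).1 hb'
  obtain ⟨s, -, h4, h5⟩ := g.dir _ _ hG hr
  exact h2 b hb s h4 (h3.mono h5)

theorem gen_sparse (φ : ℕ → ℕ) (hφ : CF g.toGen.E φ) : ∃ c η, GenVal g x ⊤ c η ∧ StrictMono η ∧
    ∀ j i, i ≤ η j → φ i < η (j + 1) := by
  obtain ⟨a, ha, h⟩ := gen1_cs g hφ.out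
  have h1 : ∀ i n, n = φ i ↔ ∃ r, g.G r ∧ GenPh a i n r := fun i n =>
    h (i, n) _ (gen1_pair_mem g (g.nat_mem i) (g.nat_mem n))
      (gen1_pr g (g.nat_mem i) (g.nat_mem n))
  obtain ⟨q, -, hG, -, c, -, -, hc, -, ⟨i, h2⟩ | ⟨h2, h3, h4, h5⟩⟩ := gen_meet .dom ha g.p0_mem
    (gen_hc_id g) (gen_hi_top g) (gen_hi_top g) g.G_p0 fun q _ => by
      by_cases hd : ∀ i q', q' ≤ q → ∃ q'', q'' ≤ q' ∧ ∃ n, GenPh a i n q''
      · obtain ⟨q', h2, f, h3⟩ := dom_dense (GenPh a) (fun _ _ _ _ h h' => MemF.mono h h') q hd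
        exact ⟨q', h2, ⊤, (q'.p, f), genId, Or.inr ⟨rfl, h3⟩⟩
      · push Not at hd
        obtain ⟨i, q', h2, h3⟩ := hd
        exact ⟨q', h2, ⊤, genId, genId, Or.inl ⟨i, h3⟩⟩
  · obtain ⟨r, hr, h3⟩ := (h1 i _).1 rfl
    obtain ⟨s, -, h4, h5⟩ := g.dir _ _ hG hr
    exact absurd (MemF.mono h3 h5) (h2 s h4 _)
  · obtain ⟨w, -, hv⟩ := gen_val hx hc h3 hG (h2 ▸ Le.rfl')
    refine ⟨c, _, hv, h4 w, fun j i hi => ?_⟩
    obtain ⟨r1, hr1, d1⟩ := (hv.dec hx j _).2 rfl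
    obtain ⟨r2, hr2, d2⟩ := (hv.dec hx (j + 1) _).2 rfl
    obtain ⟨s, hs, s1, s2⟩ := g.dir _ _ hr1 hr2
    obtain ⟨t, ht, t1, t2⟩ := g.dir _ _ hs hG
    obtain ⟨u, -, hu, -, -, -, -, -, -, n, h6, h7⟩ := gen_meet (.fin i (c.2 w (j + 1))) ha g.p0_mem
      (gen_hc_id g) (gen_hi_top g) (gen_hi_top g) ht fun q' hq' => by
        obtain ⟨w', hw'⟩ := (hq'.trans t2).2.2 x
        have e1 := (d1.mono (hq'.trans (t1.trans s1))).2 x w' (h2 ▸ hw')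
        have e2 := (d2.mono (hq'.trans (t1.trans s2))).2 x w' (h2 ▸ hw')
        obtain ⟨q'', h6, h7⟩ := h5 q' (hq'.trans t2) x w' hw' j i (e1 ▸ hi)
        exact ⟨q'', h6, ⊤, genId, genId, e2 ▸ h7⟩
    rwa [← (h1 i n).2 ⟨u, hu, h7⟩]

omit hx in
theorem gen_E_S (b : ℕ) : g.toGen.E (CT.code g.toGen.E b) (g.toGen.cl ⟨_, gen_S_mem g⟩) ↔
    ∃ r, g.G r ∧ ∃ i, ∀ y ∈ r.K, enc y i = b := by
  refine (g.toGen.E_rName (gen_S_mem g) _).trans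
    ⟨?_, fun ⟨r, h1, h2⟩ => ⟨b, r, h2, h1, g.nat_mem b, rfl⟩⟩
  rintro ⟨b', r, h1, h2, h3, e⟩
  obtain rfl : b = b' := CT.inj (E := g.toGen.E) e
  exact ⟨r, h2, h1⟩

theorem gen_sacks (h : GenVal g x ⊤ c H) (hH : StrictMono H) (η : FN g.toGen.E ℕ ℕ)
    (hη : g.toGen.E (CT.code g.toGen.E η) (g.toGen.cl ⟨_, gen_Vf_mem g⟩)) (hm : StrictMono η.1)
    (e m : ℕ) : ∃ j, m ≤ j ∧ ∀ i, (∃ r, g.G r ∧ ∃ l, ∀ y ∈ r.K, enc y l = i) →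
      ¬ (H i ≤ η.1 (2 * j + e) ∧ η.1 (2 * j + e) < H (i + 1)) := by
  obtain ⟨⟨R, hR⟩, -, -, -, hN, e1⟩ := (g.toGen.E_rName (gen_Vf_mem g) _).1 hη
  obtain ⟨r, hr, h2⟩ := h.valid
  obtain ⟨w, hw, rfl⟩ := h.val
  obtain ⟨q, -, hq, -, -, -, -, -, -, R', e2, h3⟩ := gen_meet (.sacks e m) hN g.p0_mem h.hc
    (gen_hi_top g) (gen_hi_top g) hr fun q hq => by
      by_cases hd : ∀ k q', q' ≤ q → ∃ q'', q'' ≤ q' ∧ ∃ n, GenUp R k n q''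
      · obtain ⟨q', h3, h4⟩ := sacks_dense (GenUp R)
          (fun _ _ _ _ ⟨r1, a, b⟩ h' => ⟨r1, h'.trans a, b⟩)
          (fun k n r r' eA ep ⟨r1, a, b⟩ => ⟨⟨⟨r1.A, r'.K, r1.inf, r'.perf⟩, r1.p, r1.mi⟩,
            ⟨eA ▸ a.1, subset_rfl, ep ▸ a.2.2⟩, hR k n r1 _ rfl rfl b⟩)
          h.nice (hq.2.2.trans h2) hd e m
        exact ⟨q', h3, ⊤, genId, genId, R, rfl, Or.inr h4⟩
      · push Not at hd
        obtain ⟨k, q', h3, h4⟩ := hd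
        exact ⟨q', h3, ⊤, genId, genId, R, rfl, Or.inl ⟨k, h4⟩⟩
  have hN' : relName R' ∈ g.N := e2 ▸ hN
  have h4 := gen1_fn_iff g hN' η (e1.trans (congrArg _ (Subtype.ext e2)))
  rcases h3 with ⟨k, h3⟩ | ⟨j, hj, n, ⟨r1, a, b⟩, h3⟩
  · obtain ⟨s, hs, h5⟩ := (h4 k _).2 rfl
    obtain ⟨t, -, t1, t2⟩ := g.dir _ _ hq hs
    exact absurd ⟨s, t2, h5⟩ (h3 t t1 _)
  · obtain rfl := (h4 _ _).1 ⟨r1, g.up _ _ hq a, b⟩
    refine ⟨j, hj, ?_⟩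
    rintro i ⟨s, hs, l, hl⟩
    obtain ⟨t, -, t1, t2⟩ := g.dir _ _ hq hs
    obtain ⟨y, hy⟩ := t.perf.1
    obtain ⟨v, hv⟩ := hx q hq
    rw [← hl y (t2.2.1 hy)]
    exact h3 y (t1.2.1 hy) v w (hw.trans hv.symm) hH hm.le_apply l

theorem gen_sacksB (h : GenVal g x ⊤ c H) (hH : StrictMono H) (η : FN g.toGen.E ℕ ℕ)
    (hη : g.toGen.E (CT.code g.toGen.E η) (g.toGen.cl ⟨_, gen_Vf_mem g⟩)) (hm : StrictMono η.1)
    {r0 : Cond II} (hr0 : r0 ∈ g.PN) (e m : ℕ) : ∃ k ∈ r0.A, m ≤ k ∧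
      ∀ i, (∃ r, g.G r ∧ ∃ l, ∀ y ∈ r.K, enc y l = i) →
        ¬ (H i ≤ η.1 (k + e) ∧ η.1 (k + e) < H (i + 1)) := by
  obtain ⟨⟨R, hR⟩, -, -, -, hN, e1⟩ := (g.toGen.E_rName (gen_Vf_mem g) _).1 hη
  obtain ⟨r, hr, h2⟩ := h.valid
  obtain ⟨w, hw, rfl⟩ := h.val
  obtain ⟨q, -, hq, -, -, -, -, -, -, R', e2, h3⟩ := gen_meet (.sacksB e m) hN hr0 h.hc
    (gen_hi_top g) (gen_hi_top g) hr fun q hq => by
      by_cases hd : ∀ k q', q' ≤ q → ∃ q'', q'' ≤ q' ∧ ∃ n, GenUp R k n q''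
      · obtain ⟨q', h3, h4⟩ := sacks_dense (fun k => GenUp R (nxt r0.A k + e))
          (fun _ _ _ _ ⟨r1, a, b⟩ h' => ⟨r1, h'.trans a, b⟩)
          (fun k n r r' eA ep ⟨r1, a, b⟩ => ⟨⟨⟨r1.A, r'.K, r1.inf, r'.perf⟩, r1.p, r1.mi⟩,
            ⟨eA ▸ a.1, subset_rfl, ep ▸ a.2.2⟩, hR _ n r1 _ rfl rfl b⟩)
          h.nice (hq.2.2.trans h2) (fun k => hd _) 0 m
        exact ⟨q', h3, ⊤, genId, genId, R, rfl, Or.inr h4⟩
      · push Not at hd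
        obtain ⟨k, q', h3, h4⟩ := hd
        exact ⟨q', h3, ⊤, genId, genId, R, rfl, Or.inl ⟨k, h4⟩⟩
  have hN' : relName R' ∈ g.N := e2 ▸ hN
  have h4 := gen1_fn_iff g hN' η (e1.trans (congrArg _ (Subtype.ext e2)))
  rcases h3 with ⟨k, h3⟩ | ⟨j, hj, n, ⟨r1, a, b⟩, h3⟩
  · obtain ⟨s, hs, h5⟩ := (h4 k _).2 rfl
    obtain ⟨t, -, t1, t2⟩ := g.dir _ _ hq hs
    exact absurd ⟨s, t2, h5⟩ (h3 t t1 _)
  · obtain rfl := (h4 _ _).1 ⟨r1, g.up _ _ hq a, b⟩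
    obtain ⟨n1, n2⟩ := nxt_spec r0.inf (2 * j + 0)
    refine ⟨_, n1, by omega, ?_⟩
    rintro i ⟨s, hs, l, hl⟩
    obtain ⟨t, -, t1, t2⟩ := g.dir _ _ hq hs
    obtain ⟨y, hy⟩ := t.perf.1
    obtain ⟨v, hv⟩ := hx q hq
    rw [← hl y (t2.2.1 hy)]
    exact h3 y (t1.2.1 hy) v w (hw.trans hv.symm) hH
      (le_trans (by omega) (hm.le_apply (x := nxt r0.A (2 * j + 0) + e))) l

omit hx in
theorem gen_valC {f : ℕ → ℕ} (h : GenHC g (genC f)) (α : II) : GenVal g x α (genC f) f :=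
  ⟨h, nice_id _ _, ⟨_, g.G_p0, le_id _⟩, x, .rfl', rfl⟩

omit hx in
theorem gen_nx {r : Cond II} (hr : r ∈ g.PN) : GenHC g (genC (nxt r.A)) := by
  obtain ⟨_, -, -, _, c2, _, -, h1, -, h⟩ := gen_meet .nx g.empty_mem hr (gen_hc_id g)
    (gen_hi_top g) (gen_hi_top g) g.G_p0 fun q _ => ⟨q, le_rfl, ⊤, _, genId, rfl⟩
  exact (h : c2 = _) ▸ h1

theorem gen_fnC {f : ℕ → ℕ} (h : genV (genC f) ∈ g.N) (η : FN g.toGen.E ℕ ℕ)
    (e : CT.code g.toGen.E η = g.toGen.cl ⟨_, h⟩) : η.1 = f := funext fun k =>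
  (gen1_fn_iff g h η e k _).1 ⟨_, g.G_p0, le_id _, fun _ _ _ => rfl⟩

theorem gen_E_K (η : FN g.toGen.E ℕ ℕ)
    (h : g.toGen.E (CT.code g.toGen.E η) (g.toGen.cl ⟨_, gen_K_mem g⟩)) :
    GenHC g (genC η.1) ∧ ∃ r, g.G r ∧ η.1 = nxt r.A := by
  obtain ⟨⟨A, hA⟩, r, h1, h2, h3, e⟩ := (g.toGen.E_rName (gen_K_mem g) _).1 h
  obtain rfl : r.A = A := h1
  refine ⟨?_, r, h2, gen_fnC hx h3 η e⟩
  obtain ⟨_, -, -, _, c2, _, -, h4, -, f, e1, e2⟩ := gen_meet .grd h3 g.p0_mem (gen_hc_id g)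
    (gen_hi_top g) (gen_hi_top g) g.G_p0 fun q _ => ⟨q, le_rfl, ⊤, _, genId, _, rfl, rfl⟩
  have h5 : genV (genC f) ∈ g.N := e1 ▸ h3
  rw [gen_fnC hx h5 η (e.trans (congrArg _ (Subtype.ext e1)))]
  exact e2 ▸ h4

theorem gen_ref (Rel : FN g.toGen.E ℕ ℕ → FN g.toGen.E ℕ ℕ → FN g.toGen.E ℕ ℕ → Prop)
    (hR : CS g.toGen.E (fun t : FN g.toGen.E ℕ ℕ × FN g.toGen.E ℕ ℕ × FN g.toGen.E ℕ ℕ =>
      Rel t.1 t.2.1 t.2.2))
    (hT : ∀ H P : FN g.toGen.E ℕ ℕ, (∃ c, GenVal g x ⊤ c H.1) → (∃ c, GenVal g x ⊤ c P.1) →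
      ∃ η : FN g.toGen.E ℕ ℕ, (∃ c, GenVal g x ⊤ c η.1) ∧ Rel H P η) :
    ∃ d : RefData g.toGen.E {H | ∃ c, GenVal g x ⊤ c H} {B | ∃ r ∈ g.PN, g.G r ∧ r.A = B} Rel,
      ∀ f, GenHC g (genC f) → f ∈ d.V 0 := by
  obtain ⟨a, ha, h⟩ := gen1_cs g hR
  have h1 : ∀ {c1 c2 c3 : VC II} {H P η : FN g.toGen.E ℕ ℕ}, GenVal g x ⊤ c1 H.1 →
      GenVal g x ⊤ c2 P.1 → GenVal g x ⊤ c3 η.1 →
      (Rel H P η ↔ ∃ r, g.G r ∧ GenFr a r c1 c2 c3) := by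
    intro c1 c2 c3 H P η v1 v2 v3
    refine h (H, P, η) _ (gen1_pair_mem g v1.hc.mem (gen1_pair_mem g v2.hc.mem v3.hc.mem)) ?_
    rw [code_prod, code_prod, v1.code hx, v2.code hx, v3.code hx, gen1_pr, gen1_pr]
    rfl
  obtain ⟨r0, hr0, hG0, -, c1, c2, -, hc1, hc2, hD | ⟨n1, n2, l1, l2, h2⟩⟩ := gen_meet .refl ha
    g.p0_mem (gen_hc_id g) (gen_hi_top g) (gen_hi_top g) g.G_p0 fun q _ => by
      by_cases hd : DDn (GenFr a) q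
      · exact ⟨q, le_rfl, ⊤, genId, genId, Or.inl hd⟩
      · unfold DDn at hd
        push Not at hd
        obtain ⟨r, hr, c1, c2, h2⟩ := hd
        exact ⟨r, hr, ⊤, c1, c2, Or.inr h2⟩
  swap
  · obtain ⟨w1, -, v1⟩ := gen_val hx hc1 n1 hG0 l1
    obtain ⟨w2, -, v2⟩ := gen_val hx hc2 n2 hG0 l2
    obtain ⟨η, ⟨c3, v3⟩, h3⟩ := hT ⟨_, v1.cf hx⟩ ⟨_, v2.cf hx⟩ ⟨_, v1⟩ ⟨_, v2⟩
    obtain ⟨r, hr, h4⟩ := (h1 v1 v2 v3).1 h3
    obtain ⟨r', hr', h5⟩ := v3.valid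
    obtain ⟨s, hs, s1, s2⟩ := g.dir _ _ hr hr'
    obtain ⟨t, -, t1, t2⟩ := g.dir _ _ hs hG0
    exact absurd (MemF.mono h4 (t1.trans s1)) (h2 t t2 c3 v3.nice ((t1.trans s2).2.2.trans h5))
  obtain ⟨hα, hC, hβ, hαβ⟩ := (gen_cp a r0).choose_spec hD
  have hI : ∀ n, GenHI g ((gen_cp a r0).choose.1 n) := fun n => by
    obtain ⟨_, -, -, δ, c2, c3, h2, -, -, h3⟩ := gen_meet (.seq n) ha hr0 (gen_hc_id g)
      (gen_hi_top g) (gen_hi_top g) g.G_p0 fun q _ => ⟨q, le_rfl, _, genId, genId, rfl⟩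
    exact (h3 : δ = _) ▸ h2
  have hJ : GenHI g (gen_cp a r0).choose.2 := by
    obtain ⟨_, -, -, δ, c2, c3, h2, -, -, h3⟩ := gen_meet .bnd ha hr0 (gen_hc_id g)
      (gen_hi_top g) (gen_hi_top g) g.G_p0 fun q _ => ⟨q, le_rfl, _, genId, genId, rfl⟩
    exact (h3 : δ = _) ▸ h2
  generalize (gen_cp a r0).choose.1 = α at hα hC hαβ hI
  generalize (gen_cp a r0).choose.2 = β at hβ hαβ hJ
  refine ⟨⟨fun n => {H | ∃ c, GenVal g x (α n) c H}, fun n => zf (x (α n)), zf (x β),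
    fun n H ⟨c, hv⟩ => ⟨c, hv.mono le_top⟩,
    ⟨genId, gen_hc_id g, nice_id _ _, ⟨_, g.G_p0, le_id _⟩, x, .rfl', rfl⟩,
    fun n => (gen_z (hI n) (hC n).1).cf hx, fun n => zf_mono _, (gen_z hJ hβ).cf hx, ?_, ?_, ?_⟩,
    fun f hf => ⟨_, gen_valC hf _⟩⟩
  · rintro n H ⟨c, hv⟩ m
    obtain ⟨r, hr, h2⟩ := hv.valid
    obtain ⟨w, hw, rfl⟩ := hv.val
    obtain ⟨q, -, hq, -, -, -, -, -, -, j, hj, h3⟩ := gen_meet (.unb m) ha hr0 hv.hc hJ hJ hr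
      fun q hq => by
        obtain ⟨q', h3, h4⟩ := unb_dense hβ (hv.nice.mono (hαβ n)) (hq.2.2.trans h2) m
        exact ⟨q', h3, ⊤, genId, genId, h4⟩
    obtain ⟨v, hv⟩ := hx q hq
    refine ⟨j, hj, (h3 v w (hw.trans hv.symm)).trans ?_⟩
    rw [hv β hβ]
    exact lt_zf _ _
  · rintro n H ⟨c, hv⟩ _ ⟨r, hr, -, rfl⟩
    obtain ⟨w, hw, rfl⟩ := hv.val
    obtain ⟨-, -, -, -, c', -, -, h2, -, h3, h4, h5⟩ := gen_meet .clos ha hr hv.hc (hI n)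
      (hI (n + 1)) g.G_p0 fun q _ => by
        obtain ⟨f, h3⟩ := clos_nice (hα n.lt_succ_self) hv.nice r.inf
        exact ⟨q, le_rfl, ⊤, (c.1, f), genId, rfl, h3⟩
    refine ⟨c'.2 w, ⟨c', h2, h4, h3 ▸ hv.valid, w, h3 ▸ hw, rfl⟩, fun j k hk => h5 w j k ?_⟩
    rwa [hw _ (hC n).1]
  · rintro n H ⟨c, hv⟩ _ ⟨r, hr, -, rfl⟩
    obtain ⟨r1, hr1, h2⟩ := hv.valid
    obtain ⟨s, hs, s1, s2⟩ := g.dir _ _ hG0 hr1
    obtain ⟨q, -, hq, -, c2, c3, -, hc2, hc3, n2, n3, l2, l3, h3, h4⟩ := gen_meet .key ha hr hv.hc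
      (hI n) (hI n) hs fun q hq => by
        obtain ⟨q', h3, c2, c3, h4⟩ := key_dense (Fr := GenFr a)
          (fun _ _ _ _ _ h h' => MemF.mono h h') (hC n)
          (hq.trans s1) hv.nice ((hq.trans s2).2.2.trans h2) r.inf
        exact ⟨q', h3, ⊤, c2, c3, h4⟩
    obtain ⟨w2, hw2, v2⟩ := gen_val hx hc2 n2 hq l2
    obtain ⟨w3, hw3, v3⟩ := gen_val hx hc3 n3 hq l3
    obtain ⟨v, hv'⟩ := hx q hq
    have h5 := h4 v w2 w3 (hw2.trans hv'.symm) (hw3.trans hv'.symm)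
    rw [hv' _ (hC n).1] at h5
    exact ⟨⟨_, v2.cf hx⟩, ⟨_, v3.cf hx⟩, (h1 (hv.mono le_top) v2 v3).2 ⟨q, hq, h3⟩, h5⟩

theorem gen_iface : Nonempty (Iface2 g.toGen.E) := by
  refine ⟨⟨⟨{H | ∃ c, GenVal g x ⊤ c H}, {B | ∃ r ∈ g.PN, g.G r ∧ r.A = B},
    ⟨{η | g.toGen.E (CT.code g.toGen.E η) (g.toGen.cl ⟨_, gen_Vf_mem g⟩)}, ⟨_, fun _ => Iff.rfl⟩⟩,
    ⟨{b | g.toGen.E (CT.code g.toGen.E b) (g.toGen.cl ⟨_, gen_S_mem g⟩)}, ⟨_, fun _ => Iff.rfl⟩⟩,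
    fun H ⟨c, hv⟩ => hv.cf hx, ?_, ?_, fun A => ?_, fun φ hφ => ?_,
    fun Rel h1 h2 => (gen_ref hx Rel h1 h2).nonempty, ?_, ?_, ?_⟩,
    ⟨{η | g.toGen.E (CT.code g.toGen.E η) (g.toGen.cl ⟨_, gen_K_mem g⟩)}, ⟨_, fun _ => Iff.rfl⟩⟩,
    fun f hf => ?_, ?_, fun Rel h1 h2 => ?_, ?_⟩⟩
  · rintro _ ⟨r, -, -, rfl⟩
    exact r.inf
  · rintro _ ⟨r, -, hr, rfl⟩ _ ⟨r', -, hr', rfl⟩
    obtain ⟨s, hs, h1, h2, h3⟩ := gen1_dir g hr hr'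
    exact ⟨_, ⟨s, hs, h1, rfl⟩, h2.1, h3.1⟩
  · obtain ⟨r, h1, h2, h3⟩ := gen_reap A
    exact ⟨_, ⟨r, h1, h2, rfl⟩, h3⟩
  · obtain ⟨c, η, h1, h2⟩ := gen_sparse hx φ hφ
    exact ⟨η, ⟨c, h1⟩, h2⟩
  · rintro η ⟨c, hv⟩
    exact (g.toGen.E_rName (gen_Vf_mem g) _).2 ⟨⟨Dec c, fun k n r r' _ e h => by
      unfold Dec at h ⊢; rwa [← e]⟩, _, trivial, g.G_p0, hv.hc.mem, hv.code hx⟩
  · refine Set.infinite_of_forall_exists_gt fun m => ?_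
    obtain ⟨q, -, hq, -, -, -, -, -, -, b, hb, h⟩ := gen_meet (.encd (m + 1)) g.empty_mem g.p0_mem
      (gen_hc_id g) (gen_hi_top g) (gen_hi_top g) g.G_p0 fun q _ => by
        obtain ⟨q', h1, h2⟩ := enc_dense q (m + 1)
        exact ⟨q', h1, ⊤, genId, genId, h2⟩
    exact ⟨b, (gen_E_S b).2 ⟨q, hq, h⟩, hb⟩
  · rintro P ⟨c, hv⟩ hP η hη hm e m
    obtain ⟨j, hj, h⟩ := gen_sacks hx hv hP η hη hm e m
    exact ⟨j, hj, fun i hi => h i ((gen_E_S i).1 hi)⟩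
  · obtain ⟨-, r, h1, h2⟩ := gen_E_K hx f hf
    obtain ⟨s, h3, h4, h5⟩ := g.below r h1
    exact ⟨r.A, r.inf, h2, s.A, ⟨s, h3, h4, rfl⟩, h5.1⟩
  · rintro _ ⟨r, hr, hG, rfl⟩
    have hv : GenVal g x ⊤ _ _ := gen_valC (gen_nx hr) ⊤
    exact ⟨⟨_, hv.cf hx⟩, (g.toGen.E_rName (gen_K_mem g) _).2
      ⟨⟨r.A, r.inf⟩, r, rfl, hG, hv.hc.mem, GenVal.code hx (η := ⟨_, hv.cf hx⟩) hv⟩, rfl⟩
  · obtain ⟨d, hd⟩ := gen_ref hx Rel h1 h2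
    exact ⟨d, fun f hf => hd _ (gen_E_K hx f hf).1⟩
  · rintro P ⟨c, hv⟩ hP η hη hm _ ⟨r, hr, -, rfl⟩ e m
    obtain ⟨k, h1, h2, h⟩ := gen_sacksB hx hv hP η hη hm hr e m
    exact ⟨k, h1, h2, fun i hi => h i ((gen_E_S i).1 hi)⟩

omit hx in
theorem exists_model : ∃ (M : Type 1) (E : M → M → Prop) (_ : Fact (IsZFC E)) (_ : CT E ℕ),
    NatE E ∧ (∀ a, Small.{0} {x // E x a}) ∧ Nonempty (Iface2 E) := by
  obtain ⟨g⟩ := exists_genW (Cond.one II) ((⊤, genId, genId) : II × VC II × VC II) genRN genW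
  obtain ⟨x, hx⟩ := gen_x g
  exact ⟨g.toGen.M, g.toGen.E, gen1_zfc g, gen1_ct g, gen1_natE g, gen1_small _, gen_iface hx⟩

end Pool.Agent.B8F.B
end

-- merged part: Pool.Agent.Work.MP_b8a914_gt.F.Main2
section
namespace Pool.Agent.B8F
open Pool.Agent.Lib.ZFModel Pool.Agent.Work.MP_63c7e0_lc Pool.Agent.Work.MP_f50f0f_gt

theorem main2 : ∃ (M : Type 1) (E : M → M → Prop), IsZFC E ∧
    (∀ R add mul lt z o ρ X τ C π : M, IsReals E R add mul lt z o → IsOrderTop E R lt ρ →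
      IsTop E X τ → (∀ f, E f C ↔ IsCont E f X τ R ρ) → IsPw E C X ρ π →
      IsMengerM E X τ → ¬ FanEmbeds E C π) ∧
    GfLeR E ∧ ∃ w K, IsOmega E w ∧ IsReap E w K ∧ AddGt E K := by
  obtain ⟨M, E, hE, _, _, hs, ⟨I⟩⟩ := B.exists_model
  exact ⟨M, E, hE.out, fun _ _ _ _ _ _ _ _ _ _ _ h1 h2 h3 h4 h5 h6 =>
    no_fan I.toIface hs h1 h2 h3 h4 h5 h6, gf_le_r I hs, r_lt_add I hs⟩

end Pool.Agent.B8F
end
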